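import Pool.Agent.Helper553.DimWidth.Graph

set_option autoImplicit false
set_option linter.unusedSectionVars false
open scoped Classical
open Finset

namespace DW




/-- antichain condition -/
def AC (E : Finset (ℕ × ℕ)) (S : Finset ℕ) : Prop := ∀ x ∈ S, ∀ y ∈ S, ¬ TG E x y

/-- up-closure of `S` in `[0,n)` -/
noncomputable def USet (E : Finset (ℕ × ℕ)) (n : ℕ) (S : Finset ℕ) : Finset ℕ :=
  (range n).filter (fun x => x ∈ S ∨ ∃ s ∈ S, TG E s x)

/-- the weight function -/
noncomputable def gg (p z : ℝ) (u : ℕ) : ℝ :=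
  ∏ v ∈ Ico 1 u, (1 + z * ((1 - p) ^ v / (1 - (1 - p) ^ v)))⁻¹

noncomputable def WW (p z : ℝ) (n : ℕ) (E : Finset (ℕ × ℕ)) (S : Finset ℕ) : ℝ :=
  if S.Nonempty ∧ AC E S then z ^ (S.card - 1) * gg p z (USet E n S).card else 0

noncomputable def PhiA (p z : ℝ) (n : ℕ) (E : Finset (ℕ × ℕ)) : ℝ :=
  ∑ S ∈ (range n).powerset, WW p z n E S

theorem gg_fac_pos {p z : ℝ} (hp : 0 < p) (hp1 : p < 1) (hz : 0 < z) {v : ℕ} (hv : 1 ≤ v) :
    1 ≤ 1 + z * ((1 - p) ^ v / (1 - (1 - p) ^ v)) := by
  have hq0 : 0 < 1 - p := by linarith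
  have hq1 : 1 - p < 1 := by linarith
  have h1 : (1 - p) ^ v < 1 := pow_lt_one₀ hq0.le hq1 (by omega)
  have h2 : 0 < (1 - p) ^ v := by positivity
  have h3 : 0 < 1 - (1 - p) ^ v := by linarith
  have : 0 ≤ z * ((1 - p) ^ v / (1 - (1 - p) ^ v)) := by positivity
  linarith

theorem gg_pos {p z : ℝ} (hp : 0 < p) (hp1 : p < 1) (hz : 0 < z) (u : ℕ) : 0 < gg p z u := by
  unfold gg
  apply Finset.prod_pos
  intro v hv
  have := gg_fac_pos hp hp1 hz (Finset.mem_Ico.1 hv).1
  positivity

theorem gg_succ {p z : ℝ} {u : ℕ} (hu : 1 ≤ u) :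
    gg p z (u + 1) = gg p z u * (1 + z * ((1 - p) ^ u / (1 - (1 - p) ^ u)))⁻¹ := by
  unfold gg
  rw [Finset.prod_Ico_succ_top hu]

theorem gg_anti {p z : ℝ} (hp : 0 < p) (hp1 : p < 1) (hz : 0 < z) : Antitone (gg p z) := by
  apply antitone_nat_of_succ_le
  intro u
  rcases Nat.eq_zero_or_pos u with h | h
  · subst h
    unfold gg
    simp
  · rw [gg_succ h]
    have h1 := gg_fac_pos hp hp1 hz (v := u) h
    have h2 := gg_pos hp hp1 hz u
    have h3 : (1 + z * ((1 - p) ^ u / (1 - (1 - p) ^ u)))⁻¹ ≤ 1 := inv_le_one_of_one_le₀ h1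
    calc gg p z u * (1 + z * ((1 - p) ^ u / (1 - (1 - p) ^ u)))⁻¹ ≤ gg p z u * 1 := by gcongr
      _ = gg p z u := mul_one _

theorem gg_rel {p z : ℝ} (hp : 0 < p) (hp1 : p < 1) (hz : 0 < z) {u : ℕ} (hu : 1 ≤ u) :
    gg p z (u + 1) * (1 - (1 - p) ^ u + z * (1 - p) ^ u) = gg p z u * (1 - (1 - p) ^ u) := by
  have hq0 : 0 < 1 - p := by linarith
  have hq1 : 1 - p < 1 := by linarith
  have h1 : (1 - p) ^ u < 1 := pow_lt_one₀ hq0.le hq1 (by omega)
  have h2 : 0 < (1 - p) ^ u := by positivity
  have h3 : 0 < 1 - (1 - p) ^ u := by linarith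
  have h4 : 0 < 1 - (1 - p) ^ u + z * (1 - p) ^ u := by positivity
  rw [gg_succ hu]
  have h5 : 1 + z * ((1 - p) ^ u / (1 - (1 - p) ^ u)) =
      (1 - (1 - p) ^ u + z * (1 - p) ^ u) / (1 - (1 - p) ^ u) := by
    field_simp
  rw [h5, inv_div]
  field_simp

theorem USet_union_row {n : ℕ} {E : Finset (ℕ × ℕ)} (hE : E ⊆ K n) {R : Finset ℕ}
    (hR : R ⊆ range n) {S : Finset ℕ} (hS : S ⊆ range n) :
    USet (E ∪ rowE n R) (n + 1) S =
      if Disjoint R (USet E n S) then USet E n S else insert n (USet E n S) := by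
  have h1 : ∀ j, j < n → ((j ∈ S ∨ ∃ s ∈ S, TG (E ∪ rowE n R) s j) ↔
      (j ∈ S ∨ ∃ s ∈ S, TG E s j)) := by
    intro j hj
    simp only [TG_union_row hE hR hj]
  have h2 : (n ∈ S ∨ ∃ s ∈ S, TG (E ∪ rowE n R) s n) ↔ ¬ Disjoint R (USet E n S) := by
    have hnS : n ∉ S := fun h => by simpa using hS h
    rw [Finset.not_disjoint_iff]
    simp only [TG_union_row_top hE hR]
    constructor
    · rintro (h | ⟨s, hs, y, hy, h⟩)
      · exact absurd h hnS
      · refine ⟨y, hy, ?_⟩
        unfold USet
        rw [Finset.mem_filter]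
        refine ⟨hR hy, ?_⟩
        rcases h with h | h
        · left; rw [← h]; exact hs
        · right; exact ⟨s, hs, h⟩
    · rintro ⟨y, hy, hyU⟩
      unfold USet at hyU
      rw [Finset.mem_filter] at hyU
      right
      rcases hyU.2 with h | ⟨s, hs, h⟩
      · exact ⟨y, h, y, hy, Or.inl rfl⟩
      · exact ⟨s, hs, y, hy, Or.inr h⟩
  ext j
  by_cases hd : Disjoint R (USet E n S)
  · rw [if_pos hd]
    unfold USet
    simp only [Finset.mem_filter, Finset.mem_range]
    constructor
    · rintro ⟨hj, h⟩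
      rcases Nat.lt_succ_iff_lt_or_eq.1 hj with hj' | hj'
      · exact ⟨hj', (h1 j hj').1 h⟩
      · subst hj'
        exact absurd hd (h2.1 h)
    · rintro ⟨hj, h⟩
      exact ⟨by omega, (h1 j hj).2 h⟩
  · rw [if_neg hd]
    unfold USet
    simp only [Finset.mem_filter, Finset.mem_range, Finset.mem_insert]
    constructor
    · rintro ⟨hj, h⟩
      rcases Nat.lt_succ_iff_lt_or_eq.1 hj with hj' | hj'
      · exact Or.inr ⟨hj', (h1 j hj').1 h⟩
      · exact Or.inl hj'
    · rintro (hj | ⟨hj, h⟩)
      · subst hj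
        exact ⟨by omega, h2.2 hd⟩
      · exact ⟨by omega, (h1 j hj).2 h⟩

theorem n_notMem_USet {n : ℕ} {E : Finset (ℕ × ℕ)} {S : Finset ℕ} : n ∉ USet E n S := by
  unfold USet
  simp

theorem USet_insert_top {n : ℕ} {E : Finset (ℕ × ℕ)} (hE : E ⊆ K n) {R : Finset ℕ}
    (hR : R ⊆ range n) {S : Finset ℕ} :
    USet (E ∪ rowE n R) (n + 1) (insert n S) = insert n (USet E n S) := by
  have h0 : ∀ j, j ≤ n → ¬ TG (E ∪ rowE n R) n j := by
    intro j hj h
    have := TG_lt (union_row_lt hE hR) h
    omega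
  ext j
  unfold USet
  simp only [Finset.mem_filter, Finset.mem_range, Finset.mem_insert]
  constructor
  · rintro ⟨hj, (h | h) | ⟨s, hs | hs, h⟩⟩
    · exact Or.inl h
    · by_cases hjn : j = n
      · exact Or.inl hjn
      · exact Or.inr ⟨by omega, Or.inl h⟩
    · subst hs
      exact absurd h (h0 j (by omega))
    · by_cases hjn : j = n
      · exact Or.inl hjn
      · exact Or.inr ⟨by omega, Or.inr ⟨s, hs, (TG_union_row hE hR (by omega)).1 h⟩⟩
  · rintro (h | ⟨hj, h | ⟨s, hs, h⟩⟩)
    · exact ⟨by omega, Or.inl (Or.inl h)⟩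
    · exact ⟨by omega, Or.inl (Or.inr h)⟩
    · exact ⟨by omega, Or.inr ⟨s, Or.inr hs, (TG_union_row hE hR hj).2 h⟩⟩

theorem AC_union_row {n : ℕ} {E : Finset (ℕ × ℕ)} (hE : E ⊆ K n) {R : Finset ℕ}
    (hR : R ⊆ range n) {S : Finset ℕ} (hS : S ⊆ range n) :
    AC (E ∪ rowE n R) S ↔ AC E S := by
  unfold AC
  constructor
  · intro h x hx y hy hxy
    exact h x hx y hy ((TG_union_row hE hR (Finset.mem_range.1 (hS hy))).2 hxy)
  · intro h x hx y hy hxy
    exact h x hx y hy ((TG_union_row hE hR (Finset.mem_range.1 (hS hy))).1 hxy)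

theorem AC_insert_top {n : ℕ} {E : Finset (ℕ × ℕ)} (hE : E ⊆ K n) {R : Finset ℕ}
    (hR : R ⊆ range n) {S : Finset ℕ} (hS : S ⊆ range n) :
    AC (E ∪ rowE n R) (insert n S) ↔ AC E S ∧ Disjoint R (USet E n S) := by
  have h0 : ∀ j, j ≤ n → ¬ TG (E ∪ rowE n R) n j := by
    intro j hj h
    have := TG_lt (union_row_lt hE hR) h
    omega
  constructor
  · intro h
    refine ⟨?_, ?_⟩
    · rw [← AC_union_row hE hR hS]
      intro x hx y hy
      exact h x (Finset.mem_insert_of_mem hx) y (Finset.mem_insert_of_mem hy)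
    · rw [Finset.disjoint_left]
      intro y hy hyU
      unfold USet at hyU
      rw [Finset.mem_filter] at hyU
      rcases hyU.2 with h' | ⟨s, hs, h'⟩
      · exact h y (Finset.mem_insert_of_mem h') n (Finset.mem_insert_self _ _)
          ((TG_union_row_top hE hR).2 ⟨y, hy, Or.inl rfl⟩)
      · exact h s (Finset.mem_insert_of_mem hs) n (Finset.mem_insert_self _ _)
          ((TG_union_row_top hE hR).2 ⟨y, hy, Or.inr h'⟩)
  · rintro ⟨h1, h2⟩ x hx y hy hxy
    have hyn : y ≤ n := by
      rcases Finset.mem_insert.1 hy with h | h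
      · omega
      · exact (Finset.mem_range.1 (hS h)).le
    rcases Finset.mem_insert.1 hx with hx' | hx'
    · subst hx'
      exact h0 y hyn hxy
    · rcases Finset.mem_insert.1 hy with hy' | hy'
      · subst hy'
        obtain ⟨w, hw, h⟩ := (TG_union_row_top hE hR).1 hxy
        refine Finset.disjoint_left.1 h2 hw ?_
        unfold USet
        rw [Finset.mem_filter]
        refine ⟨hR hw, ?_⟩
        rcases h with h | h
        · left; rw [← h]; exact hx'
        · right; exact ⟨x, hx', h⟩
      · exact h1 x hx' y hy' ((TG_union_row hE hR (Finset.mem_range.1 (hS hy'))).1 hxy)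

/-- Exact one-step expectation of one old antichain. -/
theorem step_one {p z : ℝ} (hp : 0 < p) (hp1 : p < 1) (hz : 0 < z) {n : ℕ}
    {E : Finset (ℕ × ℕ)} (hE : E ⊆ K n) {S : Finset ℕ} (hS : S ⊆ range n) :
    Ex p (range n) (fun R => WW p z (n + 1) (E ∪ rowE n R) S +
      WW p z (n + 1) (E ∪ rowE n R) (insert n S)) =
      WW p z n E S + if S = ∅ then 1 else 0 := by
  by_cases hS0 : S = ∅
  · subst hS0
    rw [if_pos rfl]
    have h1 : WW p z n E ∅ = 0 := by
      unfold WW
      simp
    rw [h1, zero_add, ← Ex_const (p := p) (range n) 1]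
    apply Ex_congr
    intro R hR
    have h2 : WW p z (n + 1) (E ∪ rowE n R) ∅ = 0 := by
      unfold WW
      simp
    have h3 : WW p z (n + 1) (E ∪ rowE n R) (insert n ∅) = 1 := by
      unfold WW
      have ha : AC (E ∪ rowE n R) (insert n ∅) := by
        rw [AC_insert_top hE hR (Finset.empty_subset _)]
        refine ⟨?_, ?_⟩
        · intro x hx
          simp at hx
        · have : USet E n ∅ = ∅ := by
            unfold USet
            simp
          rw [this]
          exact Finset.disjoint_empty_right _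
      rw [if_pos ⟨Finset.insert_nonempty _ _, ha⟩, USet_insert_top hE hR]
      have : USet E n ∅ = ∅ := by
        unfold USet
        simp
      rw [this]
      unfold gg
      simp
    rw [h2, h3, zero_add]
  · rw [if_neg hS0, add_zero]
    have hne : S.Nonempty := Finset.nonempty_iff_ne_empty.2 hS0
    by_cases hA : AC E S
    · have hW : WW p z n E S = z ^ (S.card - 1) * gg p z (USet E n S).card := by
        unfold WW
        rw [if_pos ⟨hne, hA⟩]
      set u := (USet E n S).card with hu
      have hu1 : 1 ≤ u := by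
        rw [hu, Nat.one_le_iff_ne_zero, Ne, Finset.card_eq_zero]
        intro h
        obtain ⟨s, hs⟩ := hne
        have : s ∈ USet E n S := by
          unfold USet
          rw [Finset.mem_filter]
          exact ⟨hS hs, Or.inl hs⟩
        rw [h] at this
        simp at this
      have hnS : n ∉ S := fun h => by simpa using hS h
      have key : ∀ R ⊆ range n, WW p z (n + 1) (E ∪ rowE n R) S +
          WW p z (n + 1) (E ∪ rowE n R) (insert n S) =
          z ^ (S.card - 1) * gg p z (u + 1) + (if Disjoint R (USet E n S) then (1 : ℝ) else 0) *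
            (z ^ (S.card - 1) * (gg p z u + (z - 1) * gg p z (u + 1))) := by
        intro R hR
        have hc1 : 1 ≤ S.card := Finset.card_pos.2 hne
        have e1 : WW p z (n + 1) (E ∪ rowE n R) S = z ^ (S.card - 1) *
            (if Disjoint R (USet E n S) then gg p z u else gg p z (u + 1)) := by
          unfold WW
          rw [if_pos ⟨hne, (AC_union_row hE hR hS).2 hA⟩, USet_union_row hE hR hS]
          by_cases hd : Disjoint R (USet E n S)
          · rw [if_pos hd, if_pos hd]
          · rw [if_neg hd, if_neg hd, Finset.card_insert_of_notMem n_notMem_USet]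
        have e2 : WW p z (n + 1) (E ∪ rowE n R) (insert n S) =
            (if Disjoint R (USet E n S) then z * (z ^ (S.card - 1) * gg p z (u + 1)) else 0) := by
          unfold WW
          by_cases hd : Disjoint R (USet E n S)
          · rw [if_pos hd, if_pos ⟨Finset.insert_nonempty _ _,
              (AC_insert_top hE hR hS).2 ⟨hA, hd⟩⟩, USet_insert_top hE hR,
              Finset.card_insert_of_notMem n_notMem_USet, Finset.card_insert_of_notMem hnS]
            have : S.card + 1 - 1 = (S.card - 1) + 1 := by omega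
            rw [this, pow_succ]
            ring
          · rw [if_neg hd, if_neg]
            rintro ⟨_, h⟩
            exact hd ((AC_insert_top hE hR hS).1 h).2
        rw [e1, e2]
        by_cases hd : Disjoint R (USet E n S)
        · simp only [hd, if_true]
          ring
        · simp only [hd, if_false]
          ring
      rw [Ex_congr key, Ex_add, Ex_const, Ex_mul_right]
      have hUs : USet E n S ⊆ range n := Finset.filter_subset _ _
      have hP : Ex p (range n) (fun R => if Disjoint R (USet E n S) then (1 : ℝ) else 0) =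
          (1 - p) ^ (USet E n S).card := by
        have h := Pr_disjoint (p := p) hUs
        unfold Pr at h
        rw [← h]
        apply Ex_congr
        intro R _
        by_cases hd : Disjoint R (USet E n S) <;> simp [hd]
      rw [hP, hW]
      have hrel := gg_rel hp hp1 hz hu1
      rw [← hu]
      linear_combination (z ^ (S.card - 1)) * hrel
    · have hW : WW p z n E S = 0 := by
        unfold WW
        rw [if_neg (fun h => hA h.2)]
      rw [hW, ← Ex_const (p := p) (range n) 0]
      apply Ex_congr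
      intro R hR
      have e1 : WW p z (n + 1) (E ∪ rowE n R) S = 0 := by
        unfold WW
        rw [if_neg]
        rintro ⟨_, h⟩
        exact hA ((AC_union_row hE hR hS).1 h)
      have e2 : WW p z (n + 1) (E ∪ rowE n R) (insert n S) = 0 := by
        unfold WW
        rw [if_neg]
        rintro ⟨_, h⟩
        exact hA ((AC_insert_top hE hR hS).1 h).1
      rw [e1, e2, add_zero]

theorem PhiA_succ {p z : ℝ} (hp : 0 < p) (hp1 : p < 1) (hz : 0 < z) {n : ℕ}
    {E : Finset (ℕ × ℕ)} (hE : E ⊆ K n) :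
    Ex p (range n) (fun R => PhiA p z (n + 1) (E ∪ rowE n R)) = PhiA p z n E + 1 := by
  have h1 : ∀ R ⊆ range n, PhiA p z (n + 1) (E ∪ rowE n R) =
      ∑ S ∈ (range n).powerset, (WW p z (n + 1) (E ∪ rowE n R) S +
      WW p z (n + 1) (E ∪ rowE n R) (insert n S)) := by
    intro R _
    unfold PhiA
    rw [Finset.range_add_one, Finset.sum_powerset_insert (by simp), Finset.sum_add_distrib]
  rw [Ex_congr h1, Ex_sum]
  have h2 : ∀ S ∈ (range n).powerset, Ex p (range n) (fun R => WW p z (n + 1) (E ∪ rowE n R) S +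
      WW p z (n + 1) (E ∪ rowE n R) (insert n S)) = WW p z n E S + if S = ∅ then 1 else 0 := by
    intro S hS
    exact step_one hp hp1 hz hE (Finset.mem_powerset.1 hS)
  rw [Finset.sum_congr rfl h2, Finset.sum_add_distrib]
  congr 1
  rw [Finset.sum_ite_eq']
  simp

theorem Ex_PhiA {p z : ℝ} (hp : 0 < p) (hp1 : p < 1) (hz : 0 < z) (n : ℕ) :
    Ex p (K n) (PhiA p z n) = n := by
  induction n with
  | zero =>
    have : ∀ E ⊆ K 0, PhiA p z 0 E = 0 := by
      intro E _
      unfold PhiA WW
      simp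
    rw [Ex_congr this, Ex_const]
    simp
  | succ n ih =>
    rw [Ex_K_succ]
    have : ∀ E ⊆ K n, Ex p (range n) (fun R => PhiA p z (n + 1) (E ∪ rowE n R)) =
        PhiA p z n E + 1 := fun E hE => PhiA_succ hp hp1 hz hE
    rw [Ex_congr this, Ex_add, Ex_const, ih]
    push_cast
    ring



theorem antichain_bound (p z : ℝ) (hp : 0 < p) (hp1 : p < 1) (hz : 0 < z) (n k : ℕ)
    (hk : 1 ≤ k) :
    Pr p (K n) (fun E => ∃ S ⊆ range n, S.card = k ∧ ∀ x ∈ S, ∀ y ∈ S, ¬ TG E x y) ≤
      n * (z ^ (k - 1))⁻¹ * ∏ u ∈ Ico 1 n, (1 + z * ((1 - p) ^ u / (1 - (1 - p) ^ u))) := by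
  have hW0 : ∀ m E S, 0 ≤ WW p z m E S := by
    intro m E S
    unfold WW
    split_ifs
    · have := gg_pos hp hp1 hz (USet E m S).card
      positivity
    · exact le_rfl
  have hc : 0 < z ^ (k - 1) * gg p z n := by
    have := gg_pos hp hp1 hz n
    positivity
  have hM := markov hp.le hp1.le (K n) (PhiA p z n)
    (fun E _ => Finset.sum_nonneg (fun S _ => hW0 n E S)) hc
  rw [Ex_PhiA hp hp1 hz n] at hM
  have hg : (gg p z n)⁻¹ = ∏ u ∈ Ico 1 n, (1 + z * ((1 - p) ^ u / (1 - (1 - p) ^ u))) := by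
    unfold gg
    rw [Finset.prod_inv_distrib, inv_inv]
  rw [← hg]
  calc Pr p (K n) (fun E => ∃ S ⊆ range n, S.card = k ∧ ∀ x ∈ S, ∀ y ∈ S, ¬ TG E x y)
      ≤ Pr p (K n) (fun E => z ^ (k - 1) * gg p z n ≤ PhiA p z n E) := by
        apply Pr_mono hp.le hp1.le
        rintro E _ ⟨S, hS, hSk, hA⟩
        have hne : S.Nonempty := by
          rw [← Finset.card_pos]
          omega
        calc z ^ (k - 1) * gg p z n ≤ WW p z n E S := by
              unfold WW
              rw [if_pos ⟨hne, hA⟩, hSk]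
              have : (USet E n S).card ≤ n := by
                have := Finset.card_le_card (Finset.filter_subset
                  (fun x => x ∈ S ∨ ∃ s ∈ S, TG E s x) (range n))
                simpa [USet] using this
              have := gg_anti hp hp1 hz this
              gcongr
          _ ≤ PhiA p z n E := by
              unfold PhiA
              exact Finset.single_le_sum (f := fun S => WW p z n E S)
                (fun S _ => hW0 n E S) (Finset.mem_powerset.2 hS)
    _ ≤ n / (z ^ (k - 1) * gg p z n) := hM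
    _ = n * (z ^ (k - 1))⁻¹ * (gg p z n)⁻¹ := by
        rw [div_eq_mul_inv, mul_inv]
        ring


end DW
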