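import Pool.Agent.Helper553.DimWidth.Graph

set_option autoImplicit false
set_option linter.unusedSectionVars false
open scoped Classical
open Finset

namespace DW

/-- block event: there are `N1` points of `[m,m+N)` whose down-sets have sizes in `[lo,hi]`,
pairwise overlaps at most `ov` and few overlaps of size at least `ζ` -/
def BG (m N N1 : ℕ) (lo hi ov ζ cnt : ℝ) (E : Finset (ℕ × ℕ)) : Prop :=
  ∃ B ⊆ Ico m (m + N), B.card = N1 ∧
    (∀ b ∈ B, lo ≤ ((Dn E b).card : ℝ) ∧ ((Dn E b).card : ℝ) ≤ hi) ∧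
    (∀ b ∈ B, ∀ b' ∈ B, b ≠ b' → ((Dn E b ∩ Dn E b').card : ℝ) ≤ ov) ∧
    ((((B ×ˢ B).filter (fun t => t.1 ≠ t.2 ∧
      ζ ≤ ((Dn E t.1 ∩ Dn E t.2).card : ℝ))).card : ℝ) ≤ cnt)


end DW
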