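import Mathlib

set_option autoImplicit false
set_option linter.unusedSectionVars false
open scoped Classical
open Finset

namespace DW

/-- Expectation of `f` over a random subset of `X`, each element kept independently with
probability `p`. -/
noncomputable def Ex {ι : Type*} (p : ℝ) (X : Finset ι) (f : Finset ι → ℝ) : ℝ :=
  ∑ E ∈ X.powerset, p ^ E.card * (1 - p) ^ (X.card - E.card) * f E

/-- Probability of an event over a random subset of `X`. -/
noncomputable def Pr {ι : Type*} (p : ℝ) (X : Finset ι) (S : Finset ι → Prop) : ℝ :=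
  Ex p X (fun E => if S E then 1 else 0)

variable {ι κ : Type*} [DecidableEq ι] [DecidableEq κ] {p : ℝ}

theorem Ex_congr {X : Finset ι} {f g : Finset ι → ℝ} (h : ∀ E ⊆ X, f E = g E) :
    Ex p X f = Ex p X g := by
  unfold Ex
  apply Finset.sum_congr rfl
  intro E hE
  rw [h E (Finset.mem_powerset.1 hE)]

theorem Ex_add (X : Finset ι) (f g : Finset ι → ℝ) :
    Ex p X (fun E => f E + g E) = Ex p X f + Ex p X g := by
  unfold Ex
  rw [← Finset.sum_add_distrib]
  apply Finset.sum_congr rfl
  intro E _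
  ring

theorem Ex_sub (X : Finset ι) (f g : Finset ι → ℝ) :
    Ex p X (fun E => f E - g E) = Ex p X f - Ex p X g := by
  unfold Ex
  rw [← Finset.sum_sub_distrib]
  apply Finset.sum_congr rfl
  intro E _
  ring

theorem Ex_mul_left (X : Finset ι) (c : ℝ) (f : Finset ι → ℝ) :
    Ex p X (fun E => c * f E) = c * Ex p X f := by
  unfold Ex
  rw [Finset.mul_sum]
  apply Finset.sum_congr rfl
  intro E _
  ring

theorem Ex_mul_right (X : Finset ι) (c : ℝ) (f : Finset ι → ℝ) :
    Ex p X (fun E => f E * c) = Ex p X f * c := by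
  unfold Ex
  rw [Finset.sum_mul]
  apply Finset.sum_congr rfl
  intro E _
  ring

theorem Ex_sum {α : Type*} (X : Finset ι) (s : Finset α) (f : α → Finset ι → ℝ) :
    Ex p X (fun E => ∑ a ∈ s, f a E) = ∑ a ∈ s, Ex p X (f a) := by
  unfold Ex
  rw [Finset.sum_comm]
  apply Finset.sum_congr rfl
  intro E _
  rw [Finset.mul_sum]

theorem Ex_nonneg (hp0 : 0 ≤ p) (hp1 : p ≤ 1) {X : Finset ι} {f : Finset ι → ℝ}
    (h : ∀ E ⊆ X, 0 ≤ f E) : 0 ≤ Ex p X f := by
  unfold Ex
  apply Finset.sum_nonneg
  intro E hE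
  have := h E (Finset.mem_powerset.1 hE)
  have h1 : 0 ≤ 1 - p := by linarith
  positivity

theorem Ex_mono (hp0 : 0 ≤ p) (hp1 : p ≤ 1) {X : Finset ι} {f g : Finset ι → ℝ}
    (h : ∀ E ⊆ X, f E ≤ g E) : Ex p X f ≤ Ex p X g := by
  have := Ex_nonneg hp0 hp1 (X := X) (f := fun E => g E - f E)
    (fun E hE => sub_nonneg.2 (h E hE))
  rw [Ex_sub] at this
  linarith

theorem Ex_empty (f : Finset ι → ℝ) : Ex p (∅ : Finset ι) f = f ∅ := by
  unfold Ex
  simp

theorem Ex_insert {X : Finset ι} {e : ι} (he : e ∉ X) (f : Finset ι → ℝ) :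
    Ex p (insert e X) f = (1 - p) * Ex p X f + p * Ex p X (fun E => f (insert e E)) := by
  unfold Ex
  rw [Finset.sum_powerset_insert he, Finset.mul_sum, Finset.mul_sum]
  congr 1
  · apply Finset.sum_congr rfl
    intro E hE
    have hc : E.card ≤ X.card := Finset.card_le_card (Finset.mem_powerset.1 hE)
    rw [Finset.card_insert_of_notMem he, Nat.succ_sub hc, pow_succ]
    ring
  · apply Finset.sum_congr rfl
    intro E hE
    have hE' := Finset.mem_powerset.1 hE
    have hc : E.card ≤ X.card := Finset.card_le_card hE'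
    have heE : e ∉ E := fun h => he (hE' h)
    rw [Finset.card_insert_of_notMem he, Finset.card_insert_of_notMem heE,
      Nat.succ_sub_succ, pow_succ]
    ring

theorem Ex_one (X : Finset ι) : Ex p X (fun _ => 1) = 1 := by
  induction X using Finset.induction_on with
  | empty => rw [Ex_empty]
  | insert e X he ih => rw [Ex_insert he, ih]; ring

theorem Ex_const (X : Finset ι) (c : ℝ) : Ex p X (fun _ => c) = c := by
  have := Ex_mul_left (p := p) X c (fun _ => 1)
  rw [Ex_one] at this
  simpa using this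

theorem Ex_union {X Y : Finset ι} (h : Disjoint X Y) (f : Finset ι → ℝ) :
    Ex p (X ∪ Y) f = Ex p X (fun E => Ex p Y (fun F => f (E ∪ F))) := by
  induction X using Finset.induction_on generalizing f with
  | empty => simp [Ex_empty]
  | insert e X he ih =>
    rw [Finset.disjoint_insert_left] at h
    have h1 : e ∉ X ∪ Y := by
      simp [he, h.1]
    rw [Finset.insert_union, Ex_insert h1, ih h.2, ih h.2, Ex_insert he]
    congr 2
    apply Ex_congr
    intro E _
    apply Ex_congr
    intro F _
    rw [Finset.insert_union]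

/-- swapping the two independent parts -/
theorem Ex_comm {Y : Finset κ} {X : Finset ι} (f : Finset ι → Finset κ → ℝ) :
    Ex p X (fun E => Ex p Y (fun F => f E F)) = Ex p Y (fun F => Ex p X (fun E => f E F)) := by
  unfold Ex
  simp only [Finset.mul_sum]
  rw [Finset.sum_comm]
  apply Finset.sum_congr rfl
  intro F _
  apply Finset.sum_congr rfl
  intro E _
  ring

theorem Ex_map (X : Finset ι) (e : ι ↪ κ) (f : Finset κ → ℝ) :
    Ex p (X.map e) f = Ex p X (fun E => f (E.map e)) := by
  induction X using Finset.induction_on generalizing f with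
  | empty => simp [Ex_empty]
  | insert a X ha ih =>
    have h1 : e a ∉ X.map e := by
      simpa using ha
    rw [Finset.map_insert, Ex_insert h1, ih, ih, Ex_insert ha]
    congr 2
    apply Ex_congr
    intro E _
    rw [Finset.map_insert]

theorem Ex_image {X : Finset ι} {e : ι → κ} (he : Set.InjOn e X) (f : Finset κ → ℝ) :
    Ex p (X.image e) f = Ex p X (fun E => f (E.image e)) := by
  induction X using Finset.induction_on generalizing f with
  | empty => simp [Ex_empty]
  | insert a X ha ih =>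
    have he' : Set.InjOn e X := he.mono (by intro x hx; simp at hx ⊢; right; exact hx)
    have h1 : e a ∉ X.image e := by
      intro h
      obtain ⟨b, hb, hbe⟩ := Finset.mem_image.1 h
      have : b = a := he (by simp; right; exact hb) (by simp) hbe
      exact ha (this ▸ hb)
    rw [Finset.image_insert, Ex_insert h1, ih he', ih he', Ex_insert ha]
    congr 2
    apply Ex_congr
    intro E _
    rw [Finset.image_insert]

theorem Pr_congr {X : Finset ι} {S T : Finset ι → Prop} (h : ∀ E ⊆ X, (S E ↔ T E)) :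
    Pr p X S = Pr p X T := by
  unfold Pr
  apply Ex_congr
  intro E hE
  simp [h E hE]

theorem Pr_nonneg (hp0 : 0 ≤ p) (hp1 : p ≤ 1) (X : Finset ι) (S : Finset ι → Prop) :
    0 ≤ Pr p X S := by
  unfold Pr
  apply Ex_nonneg hp0 hp1
  intro E _
  split_ifs <;> norm_num

theorem Pr_le_one (hp0 : 0 ≤ p) (hp1 : p ≤ 1) (X : Finset ι) (S : Finset ι → Prop) :
    Pr p X S ≤ 1 := by
  have h1 : Pr p X S ≤ Ex p X (fun _ => 1) := by
    unfold Pr
    apply Ex_mono hp0 hp1
    intro E _
    by_cases h : S E <;> simp [h]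
  rwa [Ex_one] at h1

theorem Pr_mono (hp0 : 0 ≤ p) (hp1 : p ≤ 1) {X : Finset ι} {S T : Finset ι → Prop}
    (h : ∀ E ⊆ X, S E → T E) : Pr p X S ≤ Pr p X T := by
  unfold Pr
  apply Ex_mono hp0 hp1
  intro E hE
  by_cases hS : S E
  · simp [hS, h E hE hS]
  · simp only [hS, if_false]
    split_ifs <;> norm_num

theorem Pr_not (X : Finset ι) (S : Finset ι → Prop) :
    Pr p X (fun E => ¬ S E) = 1 - Pr p X S := by
  have h : Pr p X (fun E => ¬ S E) + Pr p X S = Ex p X (fun _ => 1) := by
    unfold Pr
    rw [← Ex_add]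
    apply Ex_congr
    intro E _
    by_cases hS : S E <;> simp [hS]
  rw [Ex_one] at h
  linarith

theorem Pr_or_le (hp0 : 0 ≤ p) (hp1 : p ≤ 1) (X : Finset ι) (S T : Finset ι → Prop) :
    Pr p X (fun E => S E ∨ T E) ≤ Pr p X S + Pr p X T := by
  unfold Pr
  rw [← Ex_add]
  apply Ex_mono hp0 hp1
  intro E _
  by_cases hS : S E <;> by_cases hT : T E <;> simp [hS, hT]

theorem Pr_exists_le {α : Type*} (hp0 : 0 ≤ p) (hp1 : p ≤ 1) (X : Finset ι) (s : Finset α)
    (S : α → Finset ι → Prop) :
    Pr p X (fun E => ∃ a ∈ s, S a E) ≤ ∑ a ∈ s, Pr p X (S a) := by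
  unfold Pr
  rw [← Ex_sum]
  apply Ex_mono hp0 hp1
  intro E _
  by_cases h : ∃ a ∈ s, S a E
  · obtain ⟨a, ha, hSa⟩ := h
    have h' : ∃ a ∈ s, S a E := ⟨a, ha, hSa⟩
    simp only [h', if_true]
    calc (1 : ℝ) = (if S a E then 1 else 0) := by simp [hSa]
      _ ≤ ∑ a ∈ s, (if S a E then (1 : ℝ) else 0) :=
        Finset.single_le_sum (f := fun a => if S a E then (1 : ℝ) else 0)
          (fun b _ => by split_ifs <;> norm_num) ha
  · simp only [h, if_false]
    apply Finset.sum_nonneg
    intro b _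
    split_ifs <;> norm_num

/-- Markov -/
theorem markov (hp0 : 0 ≤ p) (hp1 : p ≤ 1) (X : Finset ι) (f : Finset ι → ℝ)
    (hf : ∀ E ⊆ X, 0 ≤ f E) {c : ℝ} (hc : 0 < c) :
    Pr p X (fun E => c ≤ f E) ≤ Ex p X f / c := by
  rw [le_div_iff₀ hc]
  unfold Pr
  rw [← Ex_mul_right]
  apply Ex_mono hp0 hp1
  intro E hE
  by_cases h : c ≤ f E
  · simp [h]
  · simp only [h, if_false, zero_mul]
    exact hf E hE

/-- Chebyshev around an arbitrary centre -/
theorem chebyshev (hp0 : 0 ≤ p) (hp1 : p ≤ 1) (X : Finset ι) (f : Finset ι → ℝ) (μ : ℝ)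
    {c : ℝ} (hc : 0 < c) :
    Pr p X (fun E => c ≤ |f E - μ|) ≤ Ex p X (fun E => (f E - μ) ^ 2) / c ^ 2 := by
  have h := markov hp0 hp1 X (fun E => (f E - μ) ^ 2) (fun E _ => sq_nonneg _) (c := c ^ 2)
    (by positivity)
  refine le_trans (Pr_mono hp0 hp1 ?_) h
  intro E _ hE
  have := abs_nonneg (f E - μ)
  calc c ^ 2 ≤ |f E - μ| ^ 2 := by gcongr
    _ = (f E - μ) ^ 2 := sq_abs _

theorem Pr_disjoint {X Z : Finset ι} (hZ : Z ⊆ X) :
    Pr p X (fun E => Disjoint E Z) = (1 - p) ^ Z.card := by
  have hX : X = Z ∪ (X \ Z) := by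
    rw [Finset.union_sdiff_of_subset hZ]
  have hd : Disjoint Z (X \ Z) := Finset.disjoint_sdiff
  unfold Pr
  rw [hX, Ex_union hd]
  trans (Ex p Z (fun E => if E = ∅ then (1 : ℝ) else 0))
  · apply Ex_congr
    intro E hE
    rw [← Ex_const (p := p) (X \ Z) (if E = ∅ then (1 : ℝ) else 0)]
    apply Ex_congr
    intro F hF
    have hFZ : Disjoint F Z := (Finset.disjoint_sdiff.symm).mono_left hF
    by_cases h : E = ∅
    · subst h
      simp [hFZ]
    · have : ¬ Disjoint (E ∪ F) Z := by
        intro hdis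
        rw [Finset.disjoint_union_left] at hdis
        apply h
        have := hdis.1
        have h2 : Disjoint E E := this.mono_right hE
        exact (Finset.disjoint_self_iff_empty E).1 h2
      simp only [this, h, if_false]
  · unfold Ex
    rw [Finset.sum_eq_single ∅]
    · simp
    · intro E _ hE
      simp [hE]
    · intro h
      simp at h

theorem Pr_superset {X Z : Finset ι} (hZ : Z ⊆ X) :
    Pr p X (fun E => Z ⊆ E) = p ^ Z.card := by
  have hX : X = Z ∪ (X \ Z) := by
    rw [Finset.union_sdiff_of_subset hZ]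
  have hd : Disjoint Z (X \ Z) := Finset.disjoint_sdiff
  unfold Pr
  rw [hX, Ex_union hd]
  trans (Ex p Z (fun E => if E = Z then (1 : ℝ) else 0))
  · apply Ex_congr
    intro E hE
    rw [← Ex_const (p := p) (X \ Z) (if E = Z then (1 : ℝ) else 0)]
    apply Ex_congr
    intro F hF
    have hFZ : Disjoint F Z := (Finset.disjoint_sdiff.symm).mono_left hF
    by_cases h : E = Z
    · subst h
      simp
    · have : ¬ Z ⊆ (E ∪ F) := by
        intro hsub
        apply h
        apply Finset.Subset.antisymm hE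
        intro x hx
        rcases Finset.mem_union.1 (hsub hx) with h' | h'
        · exact h'
        · exact absurd hx (Finset.disjoint_left.1 hFZ h')
      simp only [this, h, if_false]
  · unfold Ex
    rw [Finset.sum_eq_single Z]
    · simp
    · intro E _ hE
      simp [hE]
    · intro h
      simp at h

/-- the probability of one single outcome -/
theorem Pr_eq_single {X E0 : Finset ι} (h : E0 ⊆ X) :
    Pr p X (fun E => E = E0) = p ^ E0.card * (1 - p) ^ (X.card - E0.card) := by
  unfold Pr Ex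
  rw [Finset.sum_eq_single E0]
  · simp
  · intro E _ hE
    simp [hE]
  · intro h'
    exact absurd (Finset.mem_powerset.2 h) h'

/-- generating function of a linear statistic -/
theorem Ex_prod (X : Finset ι) (f : ι → ℝ) :
    Ex p X (fun E => ∏ y ∈ E, f y) = ∏ y ∈ X, (1 - p + p * f y) := by
  induction X using Finset.induction_on with
  | empty => simp [Ex_empty]
  | insert a X ha ih =>
    rw [Ex_insert ha, Finset.prod_insert ha, ih]
    have : Ex p X (fun E => ∏ y ∈ insert a E, f y) = f a * ∏ y ∈ X, (1 - p + p * f y) := by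
      rw [← ih, ← Ex_mul_left]
      apply Ex_congr
      intro E hE
      rw [Finset.prod_insert (fun h => ha (hE h))]
    rw [this]
    ring

theorem Ex_linear (X : Finset ι) (a : ι → ℝ) :
    Ex p X (fun E => ∑ y ∈ E, a y) = p * ∑ y ∈ X, a y := by
  induction X using Finset.induction_on with
  | empty => simp [Ex_empty]
  | insert e X he ih =>
    rw [Ex_insert he, Finset.sum_insert he, ih]
    have : Ex p X (fun E => ∑ y ∈ insert e E, a y) = a e + p * ∑ y ∈ X, a y := by
      rw [← ih, ← Ex_const (p := p) X (a e), ← Ex_add]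
      apply Ex_congr
      intro E hE
      rw [Finset.sum_insert (fun h => he (hE h))]
    rw [this]
    ring

theorem Ex_sq (X : Finset ι) (a : ι → ℝ) :
    Ex p X (fun E => (∑ y ∈ E, a y) ^ 2) = (p * ∑ y ∈ X, a y) ^ 2 +
      p * (1 - p) * ∑ y ∈ X, a y ^ 2 := by
  induction X using Finset.induction_on with
  | empty => simp [Ex_empty]
  | insert e X he ih =>
    rw [Ex_insert he, Finset.sum_insert he, Finset.sum_insert he, ih]
    have : Ex p X (fun E => (∑ y ∈ insert e E, a y) ^ 2) =
        a e ^ 2 + 2 * a e * (p * ∑ y ∈ X, a y) + ((p * ∑ y ∈ X, a y) ^ 2 +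
      p * (1 - p) * ∑ y ∈ X, a y ^ 2) := by
      rw [← ih, ← Ex_linear, ← Ex_const (p := p) X (a e ^ 2), ← Ex_mul_left, ← Ex_add, ← Ex_add]
      apply Ex_congr
      intro E hE
      rw [Finset.sum_insert (fun h => he (hE h))]
      ring
    rw [this]
    ring

end DW
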