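import Pool.Agent.Helper553.DimWidth.Basic

set_option autoImplicit false
set_option linter.unusedSectionVars false
open scoped Classical
open Finset

namespace DW


/-- union of the sets `Ds y`, `y ∈ R` -/
def DR (Ds : ℕ → Finset ℕ) (R : Finset ℕ) : Finset ℕ := R.biUnion Ds

/-- number of `y < m` whose set contains `z` -/
def cov (Ds : ℕ → Finset ℕ) (m z : ℕ) : ℕ := ((range m).filter (fun y => z ∈ Ds y)).card

/-- a row is good -/
def GoodRow (Ds : ℕ → Finset ℕ) (m K0 : ℕ) (p μ κ2 : ℝ) (R : Finset ℕ) : Prop :=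
  (∀ y ∈ R, ((Ds y).card : ℝ) ≤ 20 * μ) ∧
  K0 * μ / 48 ≤ ((DR Ds R).card : ℝ) ∧
  ((DR Ds R).card : ℝ) ≤ (20 * K0 + 16) * μ ∧
  p * ∑ z ∈ DR Ds R, (cov Ds m z : ℝ) ≤ κ2

/-- sum over the pairs -/
noncomputable def PS (Ds : ℕ → Finset ℕ) (S : Finset ℕ) : ℝ :=
  ∑ y' ∈ S, ∑ y ∈ S, if y < y' then ((Ds y ∩ Ds y').card : ℝ) else 0

theorem PS_nonneg (Ds : ℕ → Finset ℕ) (S : Finset ℕ) : 0 ≤ PS Ds S := by
  unfold PS
  apply Finset.sum_nonneg
  intro y' _
  apply Finset.sum_nonneg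
  intro y _
  split_ifs
  · positivity
  · exact le_rfl

theorem bonf (Ds : ℕ → Finset ℕ) (S : Finset ℕ) :
    ∑ y ∈ S, ((Ds y).card : ℝ) - PS Ds S ≤ ((DR Ds S).card : ℝ) := by
  induction S using Finset.induction_on_max with
  | empty => simp [PS, DR]
  | insert a S ha ih =>
    have haS : a ∉ S := fun h => lt_irrefl a (ha a h)
    have h1 : PS Ds (insert a S) = (∑ y ∈ S, ((Ds y ∩ Ds a).card : ℝ)) + PS Ds S := by
      unfold PS
      rw [Finset.sum_insert haS, Finset.sum_insert haS]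
      congr 1
      · rw [if_neg (lt_irrefl a), zero_add]
        apply Finset.sum_congr rfl
        intro y hy
        rw [if_pos (ha y hy)]
      · apply Finset.sum_congr rfl
        intro y' hy'
        rw [Finset.sum_insert haS, if_neg (not_lt.2 (ha y' hy').le), zero_add]
    have h2 : DR Ds (insert a S) = Ds a ∪ DR Ds S := by
      unfold DR
      rw [Finset.biUnion_insert]
    have h3 : (Ds a ∪ DR Ds S).card + (Ds a ∩ DR Ds S).card = (Ds a).card + (DR Ds S).card :=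
      Finset.card_union_add_card_inter _ _
    have h4 : (Ds a ∩ DR Ds S).card ≤ ∑ y ∈ S, (Ds y ∩ Ds a).card := by
      have h5 : Ds a ∩ DR Ds S ⊆ S.biUnion (fun y => Ds y ∩ Ds a) := by
        intro z hz
        rw [Finset.mem_inter] at hz
        obtain ⟨hz1, hz2⟩ := hz
        unfold DR at hz2
        rw [Finset.mem_biUnion] at hz2 ⊢
        obtain ⟨y, hy, hzy⟩ := hz2
        exact ⟨y, hy, Finset.mem_inter.2 ⟨hzy, hz1⟩⟩
      exact (Finset.card_le_card h5).trans Finset.card_biUnion_le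
    rw [h1, h2, Finset.sum_insert haS]
    have h3' : ((Ds a ∪ DR Ds S).card : ℝ) + (Ds a ∩ DR Ds S).card =
        (Ds a).card + (DR Ds S).card := by exact_mod_cast h3
    have h4' : ((Ds a ∩ DR Ds S).card : ℝ) ≤ ∑ y ∈ S, ((Ds y ∩ Ds a).card : ℝ) := by
      exact_mod_cast h4
    linarith

theorem PS_mono (Ds : ℕ → Finset ℕ) {S R : Finset ℕ} (h : S ⊆ R) : PS Ds S ≤ PS Ds R := by
  have hnn : ∀ y y' : ℕ, (0:ℝ) ≤ if y < y' then ((Ds y ∩ Ds y').card : ℝ) else 0 := by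
    intro y y'
    split_ifs
    · positivity
    · exact le_rfl
  unfold PS
  refine (Finset.sum_le_sum fun y' _ => Finset.sum_le_sum_of_subset_of_nonneg h
    fun y _ _ => hnn y y').trans ?_
  exact Finset.sum_le_sum_of_subset_of_nonneg h fun y' _ _ =>
    Finset.sum_nonneg fun y _ => hnn y y'

theorem Ex_PS (p : ℝ) (Ds : ℕ → Finset ℕ) (m : ℕ) :
    Ex p (range m) (PS Ds) = p ^ 2 * ∑ y' ∈ range m, ∑ y ∈ range m,
      if y < y' then ((Ds y ∩ Ds y').card : ℝ) else 0 := by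
  have h1 : Ex p (range m) (PS Ds) = Ex p (range m) (fun R => ∑ y' ∈ range m, ∑ y ∈ range m,
      (if y < y' then ((Ds y ∩ Ds y').card : ℝ) else 0) *
        (if {y, y'} ⊆ R then 1 else 0)) := by
    apply Ex_congr
    intro R hR
    unfold PS
    have e : ∀ F : ℕ → ℝ, ∑ y ∈ R, F y = ∑ y ∈ range m, if y ∈ R then F y else 0 := by
      intro F
      rw [Finset.sum_ite_mem, Finset.inter_eq_right.2 hR]
    rw [e]
    apply Finset.sum_congr rfl
    intro y' _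
    by_cases hy' : y' ∈ R
    · rw [if_pos hy', e]
      apply Finset.sum_congr rfl
      intro y _
      by_cases hy : y ∈ R
      · have hsub : ({y, y'} : Finset ℕ) ⊆ R := by
          intro x hx
          rw [Finset.mem_insert, Finset.mem_singleton] at hx
          rcases hx with rfl | rfl
          · exact hy
          · exact hy'
        have e2 : (if ({y, y'} : Finset ℕ) ⊆ R then (1:ℝ) else 0) = 1 := if_pos hsub
        rw [if_pos hy, e2, mul_one]
      · have e2 : (if ({y, y'} : Finset ℕ) ⊆ R then (1:ℝ) else 0) = 0 :=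
          if_neg (fun h => hy (h (Finset.mem_insert_self _ _)))
        rw [if_neg hy, e2, mul_zero]
    · rw [if_neg hy']
      symm
      apply Finset.sum_eq_zero
      intro y _
      have e2 : (if ({y, y'} : Finset ℕ) ⊆ R then (1:ℝ) else 0) = 0 :=
          if_neg (fun h => hy' (h (Finset.mem_insert_of_mem (Finset.mem_singleton_self _))))
      rw [e2, mul_zero]
  rw [h1, Ex_sum, Finset.mul_sum]
  apply Finset.sum_congr rfl
  intro y' hy'
  rw [Ex_sum, Finset.mul_sum]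
  apply Finset.sum_congr rfl
  intro y hy
  rw [Ex_mul_left]
  by_cases h : y < y'
  · have h2 : Ex p (range m) (fun R => if {y, y'} ⊆ R then (1:ℝ) else 0) = p ^ 2 := by
      have h3 := Pr_superset (p := p) (X := range m) (Z := {y, y'}) (by
        intro x hx
        rw [Finset.mem_insert, Finset.mem_singleton] at hx
        rcases hx with rfl | rfl
        · exact hy
        · exact hy')
      rw [Finset.card_pair h.ne] at h3
      rw [← h3]
      unfold Pr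
      apply Ex_congr
      intro E _
      by_cases hE : ({y, y'} : Finset ℕ) ⊆ E <;> simp only [hE, if_true, if_false]
    rw [h2]
    ring
  · rw [if_neg h]
    ring

theorem cov_eq (Ds : ℕ → Finset ℕ) (m z : ℕ) :
    (cov Ds m z : ℝ) = ∑ y ∈ range m, if z ∈ Ds y then (1:ℝ) else 0 := by
  unfold cov
  rw [Finset.card_filter]
  push_cast
  rfl

theorem sum_Ds {Ds : ℕ → Finset ℕ} {m : ℕ} (hDs : ∀ y < m, Ds y ⊆ range m) {y : ℕ} (hy : y < m)
    (F : ℕ → ℝ) : ∑ z ∈ Ds y, F z = ∑ z ∈ range m, (if z ∈ Ds y then (1:ℝ) else 0) * F z := by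
  have h : ∀ z, (if z ∈ Ds y then (1:ℝ) else 0) * F z = if z ∈ Ds y then F z else 0 := by
    intro z
    split_ifs <;> simp
  simp only [h]
  rw [Finset.sum_ite_mem, Finset.inter_eq_right.2 (hDs y hy)]

theorem sumcov {Ds : ℕ → Finset ℕ} {m : ℕ} (hDs : ∀ y < m, Ds y ⊆ range m) :
    ∑ y' ∈ range m, ∑ y ∈ range m, ((Ds y ∩ Ds y').card : ℝ) =
      ∑ z ∈ range m, (cov Ds m z : ℝ) ^ 2 := by
  have h1 : ∀ y' ∈ range m, ∀ y ∈ range m, ((Ds y ∩ Ds y').card : ℝ) =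
      ∑ z ∈ range m, (if z ∈ Ds y then (1:ℝ) else 0) * (if z ∈ Ds y' then (1:ℝ) else 0) := by
    intro y' _ y hy
    rw [← sum_Ds hDs (Finset.mem_range.1 hy), Finset.sum_ite_mem]
    simp
  have h2 : ∀ z ∈ range m, (cov Ds m z : ℝ) ^ 2 = ∑ y' ∈ range m, ∑ y ∈ range m,
      (if z ∈ Ds y then (1:ℝ) else 0) * (if z ∈ Ds y' then (1:ℝ) else 0) := by
    intro z _
    rw [sq, cov_eq, Finset.sum_mul_sum, Finset.sum_comm]
  calc ∑ y' ∈ range m, ∑ y ∈ range m, ((Ds y ∩ Ds y').card : ℝ)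
      = ∑ y' ∈ range m, ∑ y ∈ range m, ∑ z ∈ range m,
        (if z ∈ Ds y then (1:ℝ) else 0) * (if z ∈ Ds y' then (1:ℝ) else 0) :=
        Finset.sum_congr rfl fun y' hy' => Finset.sum_congr rfl fun y hy => h1 y' hy' y hy
    _ = ∑ y' ∈ range m, ∑ z ∈ range m, ∑ y ∈ range m,
        (if z ∈ Ds y then (1:ℝ) else 0) * (if z ∈ Ds y' then (1:ℝ) else 0) :=
        Finset.sum_congr rfl fun y' _ => Finset.sum_comm
    _ = ∑ z ∈ range m, ∑ y' ∈ range m, ∑ y ∈ range m,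
        (if z ∈ Ds y then (1:ℝ) else 0) * (if z ∈ Ds y' then (1:ℝ) else 0) :=
        Finset.sum_comm
    _ = ∑ z ∈ range m, (cov Ds m z : ℝ) ^ 2 :=
        (Finset.sum_congr rfl h2).symm

theorem sumcov2 {Ds : ℕ → Finset ℕ} {m : ℕ} (hDs : ∀ y < m, Ds y ⊆ range m) :
    ∑ y ∈ range m, ∑ z ∈ Ds y, (cov Ds m z : ℝ) = ∑ z ∈ range m, (cov Ds m z : ℝ) ^ 2 := by
  have h1 : ∀ y ∈ range m, ∑ z ∈ Ds y, (cov Ds m z : ℝ) =
      ∑ z ∈ range m, (if z ∈ Ds y then (1:ℝ) else 0) * (cov Ds m z : ℝ) := by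
    intro y hy
    exact sum_Ds hDs (Finset.mem_range.1 hy) _
  rw [Finset.sum_congr rfl h1, Finset.sum_comm]
  apply Finset.sum_congr rfl
  intro z _
  rw [← Finset.sum_mul, ← cov_eq, sq]

theorem Pr_card (p : ℝ) (X : Finset ℕ) (k : ℕ) :
    Pr p X (fun E => E.card = k) = (X.card.choose k : ℝ) * (p ^ k * (1 - p) ^ (X.card - k)) := by
  unfold Pr Ex
  trans ∑ E ∈ X.powerset, if E.card = k then p ^ k * (1 - p) ^ (X.card - k) else 0
  · apply Finset.sum_congr rfl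
    intro E _
    by_cases h : E.card = k <;> simp [h]
  · rw [← Finset.sum_filter, ← Finset.powersetCard_eq_filter,
      Finset.sum_const, Finset.card_powersetCard, nsmul_eq_mul]

theorem Pr_prod {X Y Z : Finset ℕ} (p : ℝ) (hZ : Z = X ∪ Y) (hXY : Disjoint X Y)
    (A B : Finset ℕ → Prop) :
    Pr p Z (fun R => A (R ∩ X) ∧ B (R \ X)) = Pr p X A * Pr p Y B := by
  unfold Pr
  rw [hZ, Ex_union hXY, ← Ex_mul_right]
  apply Ex_congr
  intro E hE
  rw [← Ex_mul_left]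
  apply Ex_congr
  intro F hF
  have hFX : Disjoint F X := (hXY.symm).mono_left hF
  have h1 : (E ∪ F) ∩ X = E := by
    rw [Finset.union_inter_distrib_right, Finset.inter_eq_left.2 hE,
      Finset.disjoint_iff_inter_eq_empty.1 hFX, Finset.union_empty]
  have h2 : (E ∪ F) \ X = F := by
    rw [Finset.union_sdiff_distrib, Finset.sdiff_eq_empty_iff_subset.2 hE, Finset.empty_union,
      Finset.sdiff_eq_self_of_disjoint hFX]
  by_cases hA : A E <;> by_cases hB : B F <;> simp [h1, h2, hA, hB]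

theorem probA {p : ℝ} {K0 g : ℕ} (hp : 0 < p) (hK0 : 1 ≤ K0) (hpK : p * (40 * K0) ≤ 1)
    (hg1 : 1 / (20 * p) ≤ (g : ℝ)) (hg2 : (g : ℝ) < 1 / (20 * p) + 1) :
    (9 / 10) * ((1 / 40 : ℝ) ^ K0 / (Nat.factorial K0 : ℝ)) ≤
      (g.choose K0 : ℝ) * (p ^ K0 * (1 - p) ^ (g - K0)) := by
  have hK0' : (1:ℝ) ≤ K0 := by exact_mod_cast hK0
  have hp40 : p ≤ 1 / 40 := by nlinarith
  have h1p : 0 ≤ 1 - p := by linarith
  have hKle : (K0 : ℝ) ≤ 1 / (40 * p) := by
    rw [le_div_iff₀ (by positivity)]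
    linarith
  have hsplit : 1 / (20 * p) = 1 / (40 * p) + 1 / (40 * p) := by field_simp; norm_num
  have hKg : (K0 : ℝ) ≤ g := by
    have : 0 < 1 / (40 * p) := by positivity
    linarith
  have hKgN : K0 ≤ g := by exact_mod_cast hKg
  have h2 : 1 / (40 * p) ≤ ((g + 1 - K0 : ℕ) : ℝ) := by
    rw [Nat.cast_sub (by omega)]
    push_cast
    linarith
  have h3 := Nat.pow_le_choose (α := ℝ) K0 g
  have h4 : (1 / 40 : ℝ) ^ K0 / (Nat.factorial K0 : ℝ) ≤ (g.choose K0 : ℝ) * p ^ K0 := by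
    calc (1 / 40 : ℝ) ^ K0 / (Nat.factorial K0 : ℝ)
        = ((1 / (40 * p)) ^ K0 / (Nat.factorial K0 : ℝ)) * p ^ K0 := by
          have : (1 / 40 : ℝ) ^ K0 = (1 / (40 * p)) ^ K0 * p ^ K0 := by
            rw [← mul_pow]
            congr 1
            field_simp
          rw [this]
          ring
      _ ≤ (((g + 1 - K0 : ℕ) : ℝ) ^ K0 / (Nat.factorial K0 : ℝ)) * p ^ K0 := by
          gcongr
      _ ≤ (g.choose K0 : ℝ) * p ^ K0 := by
          gcongr
  have h5 : (9 / 10 : ℝ) ≤ (1 - p) ^ (g - K0) := by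
    have h6 : (1 - p) ^ g ≤ (1 - p) ^ (g - K0) :=
      pow_le_pow_of_le_one h1p (by linarith) (by omega)
    have h7 := one_add_mul_le_pow (a := -p) (by linarith) g
    have h8 : (1:ℝ) + -p = 1 - p := by ring
    rw [h8] at h7
    have h9 : p * g ≤ 1 / 20 + p := by
      have : p * g ≤ p * (1 / (20 * p) + 1) := by gcongr
      have e : p * (1 / (20 * p) + 1) = 1 / 20 + p := by field_simp
      linarith
    linarith
  have h10 : (0:ℝ) ≤ (1 / 40 : ℝ) ^ K0 / (Nat.factorial K0 : ℝ) := by positivity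
  calc (9 / 10) * ((1 / 40 : ℝ) ^ K0 / (Nat.factorial K0 : ℝ))
      ≤ (1 - p) ^ (g - K0) * ((g.choose K0 : ℝ) * p ^ K0) := by
        apply mul_le_mul h5 h4 h10
        positivity
    _ = _ := by ring

theorem sum_biUnion_le' (R : Finset ℕ) (Ds : ℕ → Finset ℕ) (F : ℕ → ℝ) (hF : ∀ z, 0 ≤ F z) :
    ∑ z ∈ R.biUnion Ds, F z ≤ ∑ y ∈ R, ∑ z ∈ Ds y, F z := by
  induction R using Finset.induction_on with
  | empty => simp
  | insert a S ha ih =>
    rw [Finset.biUnion_insert, Finset.sum_insert ha]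
    have h1 := Finset.sum_union_inter (s₁ := Ds a) (s₂ := S.biUnion Ds) (f := F)
    have h2 : 0 ≤ ∑ z ∈ Ds a ∩ S.biUnion Ds, F z := Finset.sum_nonneg fun z _ => hF z
    linarith

theorem Pr_mem {X : Finset ℕ} {y : ℕ} (p : ℝ) (hy : y ∈ X) : Pr p X (fun E => y ∈ E) = p := by
  have h := Pr_superset (p := p) (X := X) (Z := {y}) (by simpa using hy)
  simpa using h

theorem probB {p μ : ℝ} {m : ℕ} (Ds : ℕ → Finset ℕ) (hp : 0 < p) (hp1 : p ≤ 1) (hμ : 0 < μ)
    (hS1 : p * ∑ y ∈ range m, ((Ds y).card : ℝ) ≤ 2 * μ) (Y : Finset ℕ) (hY : Y ⊆ range m) :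
    (31 / 40 : ℝ) ≤ Pr p Y (fun F => (∀ y ∈ F, ((Ds y).card : ℝ) ≤ 20 * μ) ∧
      ∑ y ∈ F, ((Ds y).card : ℝ) ≤ 16 * μ) := by
  have hnot : Pr p Y (fun F => ¬ ((∀ y ∈ F, ((Ds y).card : ℝ) ≤ 20 * μ) ∧
      ∑ y ∈ F, ((Ds y).card : ℝ) ≤ 16 * μ)) ≤ 9 / 40 := by
    have h1 : Pr p Y (fun F => ¬ ((∀ y ∈ F, ((Ds y).card : ℝ) ≤ 20 * μ) ∧
        ∑ y ∈ F, ((Ds y).card : ℝ) ≤ 16 * μ)) ≤
        Pr p Y (fun F => (∃ y ∈ Y.filter (fun y => 20 * μ < ((Ds y).card : ℝ)), y ∈ F) ∨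
          16 * μ ≤ ∑ y ∈ F, ((Ds y).card : ℝ)) := by
      apply Pr_mono hp.le hp1
      intro F hF h
      by_contra hc
      apply h
      push Not at hc
      refine ⟨fun y hy => ?_, hc.2.le⟩
      by_contra hlt
      push Not at hlt
      exact hc.1 y (Finset.mem_filter.2 ⟨hF hy, hlt⟩) hy
    have h2 := Pr_or_le hp.le hp1 Y
      (fun F => ∃ y ∈ Y.filter (fun y => 20 * μ < ((Ds y).card : ℝ)), y ∈ F)
      (fun F => 16 * μ ≤ ∑ y ∈ F, ((Ds y).card : ℝ))
    have hsub : ∑ y ∈ Y, ((Ds y).card : ℝ) ≤ ∑ y ∈ range m, ((Ds y).card : ℝ) :=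
      Finset.sum_le_sum_of_subset_of_nonneg hY (fun _ _ _ => by positivity)
    have hsub2 : p * ∑ y ∈ Y, ((Ds y).card : ℝ) ≤ 2 * μ :=
      (mul_le_mul_of_nonneg_left hsub hp.le).trans hS1
    have h3 : Pr p Y (fun F => ∃ y ∈ Y.filter (fun y => 20 * μ < ((Ds y).card : ℝ)), y ∈ F) ≤
        1 / 10 := by
      refine (Pr_exists_le hp.le hp1 Y _ (fun y F => y ∈ F)).trans ?_
      have e1 : ∑ y ∈ Y.filter (fun y => 20 * μ < ((Ds y).card : ℝ)), Pr p Y (fun F => y ∈ F) =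
          ∑ y ∈ Y.filter (fun y => 20 * μ < ((Ds y).card : ℝ)), p := by
        apply Finset.sum_congr rfl
        intro y hy
        exact Pr_mem p (Finset.mem_filter.1 hy).1
      rw [e1]
      have e2 : (20 * μ) * ∑ y ∈ Y.filter (fun y => 20 * μ < ((Ds y).card : ℝ)), p ≤
          2 * μ := by
        calc (20 * μ) * ∑ y ∈ Y.filter (fun y => 20 * μ < ((Ds y).card : ℝ)), p
            = ∑ y ∈ Y.filter (fun y => 20 * μ < ((Ds y).card : ℝ)), p * (20 * μ) := by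
              rw [Finset.mul_sum]
              apply Finset.sum_congr rfl
              intro y _
              ring
          _ ≤ ∑ y ∈ Y.filter (fun y => 20 * μ < ((Ds y).card : ℝ)), p * ((Ds y).card : ℝ) := by
              apply Finset.sum_le_sum
              intro y hy
              exact mul_le_mul_of_nonneg_left (Finset.mem_filter.1 hy).2.le hp.le
          _ ≤ ∑ y ∈ Y, p * ((Ds y).card : ℝ) :=
              Finset.sum_le_sum_of_subset_of_nonneg (Finset.filter_subset _ _)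
                (fun _ _ _ => by positivity)
          _ = p * ∑ y ∈ Y, ((Ds y).card : ℝ) := by rw [Finset.mul_sum]
          _ ≤ 2 * μ := hsub2
      have e3 : μ * (20 * ∑ y ∈ Y.filter (fun y => 20 * μ < ((Ds y).card : ℝ)), p) ≤ μ * 2 := by
        linarith
      have e4 := le_of_mul_le_mul_left e3 hμ
      linarith
    have h4 : Pr p Y (fun F => 16 * μ ≤ ∑ y ∈ F, ((Ds y).card : ℝ)) ≤ 1 / 8 := by
      have h5 := markov hp.le hp1 Y (fun F => ∑ y ∈ F, ((Ds y).card : ℝ))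
        (fun E _ => Finset.sum_nonneg fun _ _ => by positivity) (c := 16 * μ) (by positivity)
      refine h5.trans ?_
      rw [Ex_linear, div_le_iff₀ (by positivity)]
      linarith
    linarith
  rw [Pr_not] at hnot
  linarith

theorem good_row_prob (Ds : ℕ → Finset ℕ) (m K0 : ℕ) (p μ κ κ2 : ℝ)
    (hp : 0 < p) (hμ : 0 < μ) (hκ : 0 < κ) (hκ2 : 0 < κ2) (hK0 : 1 ≤ K0)
    (hpK : p * (40 * K0) ≤ 1)
    (hDs : ∀ y < m, Ds y ⊆ range m)
    (G : Finset ℕ) (hG : G ⊆ range m) (hGc : 1 / (20 * p) ≤ (G.card : ℝ))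
    (hGlo : ∀ y ∈ G, μ / 24 ≤ ((Ds y).card : ℝ)) (hGhi : ∀ y ∈ G, ((Ds y).card : ℝ) ≤ 20 * μ)
    (hS1 : p * ∑ y ∈ range m, ((Ds y).card : ℝ) ≤ 2 * μ)
    (hcov : p ^ 2 * ∑ z ∈ range m, (cov Ds m z : ℝ) ^ 2 ≤ κ) :
    (3 / 10) * ((1 / 40 : ℝ) ^ K0 / (Nat.factorial K0 : ℝ)) - 48 * κ / (K0 * μ) - κ / κ2 ≤
      Pr p (range m) (GoodRow Ds m K0 p μ κ2) := by
  have hK0' : (1:ℝ) ≤ K0 := by exact_mod_cast hK0
  have hp40 : p ≤ 1 / 40 := by nlinarith
  have hp1 : p ≤ 1 := by linarith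
  -- choose G0
  obtain ⟨G0, hG0, hG0c⟩ := Finset.exists_subset_card_eq (s := G) (n := ⌈1 / (20 * p)⌉₊)
    (Nat.ceil_le.2 hGc)
  have hg1 : 1 / (20 * p) ≤ (G0.card : ℝ) := by rw [hG0c]; exact Nat.le_ceil _
  have hg2 : (G0.card : ℝ) < 1 / (20 * p) + 1 := by
    rw [hG0c]; exact Nat.ceil_lt_add_one (by positivity)
  have hG0m : G0 ⊆ range m := hG0.trans hG
  set Q : ℝ := (1 / 40 : ℝ) ^ K0 / (Nat.factorial K0 : ℝ) with hQ
  have hQ0 : 0 ≤ Q := by positivity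
  -- the event a and b
  have hAB : (3 / 10) * Q ≤ Pr p (range m) (fun R => (R ∩ G0).card = K0 ∧
      ((∀ y ∈ R \ G0, ((Ds y).card : ℝ) ≤ 20 * μ) ∧
        ∑ y ∈ R \ G0, ((Ds y).card : ℝ) ≤ 16 * μ)) := by
    have h1 := Pr_prod p (X := G0) (Y := range m \ G0) (Z := range m)
      (by rw [Finset.union_sdiff_of_subset hG0m]) Finset.disjoint_sdiff
      (fun E => E.card = K0) (fun F => (∀ y ∈ F, ((Ds y).card : ℝ) ≤ 20 * μ) ∧
        ∑ y ∈ F, ((Ds y).card : ℝ) ≤ 16 * μ)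
    rw [h1, Pr_card]
    have h2 := probA hp hK0 hpK hg1 hg2
    have h3 := probB Ds hp hp1 hμ hS1 (range m \ G0) Finset.sdiff_subset
    calc (3 / 10) * Q ≤ (9 / 10 * Q) * (31 / 40) := by linarith
      _ ≤ _ := by
        apply mul_le_mul h2 h3 (by norm_num)
        have : 0 ≤ 1 - p := by linarith
        positivity
  -- the event c
  have hC : Pr p (range m) (fun R => K0 * μ / 48 ≤ PS Ds R) ≤ 48 * κ / (K0 * μ) := by
    have h1 := markov hp.le hp1 (range m) (PS Ds) (fun E _ => PS_nonneg Ds E)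
      (c := K0 * μ / 48) (by positivity)
    refine h1.trans ?_
    have h2 : Ex p (range m) (PS Ds) ≤ κ := by
      rw [Ex_PS]
      refine le_trans ?_ hcov
      rw [← sumcov hDs]
      apply mul_le_mul_of_nonneg_left _ (by positivity)
      apply Finset.sum_le_sum
      intro y' _
      apply Finset.sum_le_sum
      intro y _
      split_ifs
      · exact le_rfl
      · positivity
    rw [div_le_div_iff₀ (by positivity) (by positivity)]
    have h3 : 0 < (K0 : ℝ) * μ := by positivity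
    nlinarith
  -- the event d
  have hD : Pr p (range m) (fun R => κ2 ≤ p * ∑ z ∈ DR Ds R, (cov Ds m z : ℝ)) ≤ κ / κ2 := by
    have h1 : Pr p (range m) (fun R => κ2 ≤ p * ∑ z ∈ DR Ds R, (cov Ds m z : ℝ)) ≤
        Pr p (range m) (fun R => κ2 ≤ ∑ y ∈ R, (p * ∑ z ∈ Ds y, (cov Ds m z : ℝ))) := by
      apply Pr_mono hp.le hp1
      intro R _ h
      refine h.trans ?_
      rw [← Finset.mul_sum]
      apply mul_le_mul_of_nonneg_left _ hp.le
      unfold DR
      exact sum_biUnion_le' R Ds _ (fun z => by positivity)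
    have h2 := markov hp.le hp1 (range m) (fun R => ∑ y ∈ R, (p * ∑ z ∈ Ds y, (cov Ds m z : ℝ)))
      (fun E _ => Finset.sum_nonneg fun _ _ => mul_nonneg hp.le
        (Finset.sum_nonneg fun _ _ => by positivity)) (c := κ2) hκ2
    refine h1.trans (h2.trans ?_)
    rw [Ex_linear, ← Finset.mul_sum, sumcov2 hDs]
    have h3 : p * (p * ∑ z ∈ range m, (cov Ds m z : ℝ) ^ 2) ≤ κ := by
      calc p * (p * ∑ z ∈ range m, (cov Ds m z : ℝ) ^ 2) =
          p ^ 2 * ∑ z ∈ range m, (cov Ds m z : ℝ) ^ 2 := by ring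
        _ ≤ κ := hcov
    gcongr
  -- conclusion
  have hfin : Pr p (range m) (fun R => (R ∩ G0).card = K0 ∧
      ((∀ y ∈ R \ G0, ((Ds y).card : ℝ) ≤ 20 * μ) ∧
        ∑ y ∈ R \ G0, ((Ds y).card : ℝ) ≤ 16 * μ)) ≤
      Pr p (range m) (fun R => GoodRow Ds m K0 p μ κ2 R ∨ (K0 * μ / 48 ≤ PS Ds R ∨
        κ2 ≤ p * ∑ z ∈ DR Ds R, (cov Ds m z : ℝ))) := by
    apply Pr_mono hp.le hp1
    intro R hR hab
    by_cases hc : K0 * μ / 48 ≤ PS Ds R
    · exact Or.inr (Or.inl hc)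
    by_cases hd : κ2 ≤ p * ∑ z ∈ DR Ds R, (cov Ds m z : ℝ)
    · exact Or.inr (Or.inr hd)
    left
    push Not at hc hd
    obtain ⟨ha, hb1, hb2⟩ := hab
    have hsplit : ∀ F : ℕ → ℝ, ∑ y ∈ R, F y = ∑ y ∈ R ∩ G0, F y + ∑ y ∈ R \ G0, F y := by
      intro F
      rw [Finset.sum_inter_add_sum_sdiff]
    refine ⟨?_, ?_, ?_, hd.le⟩
    · intro y hy
      by_cases hyG : y ∈ G0
      · exact hGhi y (hG0 hyG)
      · exact hb1 y (Finset.mem_sdiff.2 ⟨hy, hyG⟩)
    · have h1 := bonf Ds (R ∩ G0)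
      have h2 : PS Ds (R ∩ G0) ≤ PS Ds R := PS_mono Ds Finset.inter_subset_left
      have h3 : ((DR Ds (R ∩ G0)).card : ℝ) ≤ ((DR Ds R).card : ℝ) := by
        exact_mod_cast Finset.card_le_card (Finset.biUnion_subset_biUnion_of_subset_left _
          Finset.inter_subset_left)
      have h4 : (K0 : ℝ) * (μ / 24) ≤ ∑ y ∈ R ∩ G0, ((Ds y).card : ℝ) := by
        rw [← ha, ← nsmul_eq_mul]
        apply Finset.card_nsmul_le_sum
        intro y hy
        exact hGlo y (hG0 (Finset.mem_inter.1 hy).2)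
      linarith
    · have h1 : ((DR Ds R).card : ℝ) ≤ ∑ y ∈ R, ((Ds y).card : ℝ) := by
        exact_mod_cast (Finset.card_biUnion_le (s := R) (t := Ds))
      have h4 : ∑ y ∈ R ∩ G0, ((Ds y).card : ℝ) ≤ (K0 : ℝ) * (20 * μ) := by
        rw [← ha, ← nsmul_eq_mul]
        apply Finset.sum_le_card_nsmul
        intro y hy
        exact hGhi y (hG0 (Finset.mem_inter.1 hy).2)
      have h5 := hsplit (fun y => ((Ds y).card : ℝ))
      linarith
  have h6 := Pr_or_le hp.le hp1 (range m) (GoodRow Ds m K0 p μ κ2)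
    (fun R => K0 * μ / 48 ≤ PS Ds R ∨ κ2 ≤ p * ∑ z ∈ DR Ds R, (cov Ds m z : ℝ))
  have h7 := Pr_or_le hp.le hp1 (range m) (fun R => K0 * μ / 48 ≤ PS Ds R)
    (fun R => κ2 ≤ p * ∑ z ∈ DR Ds R, (cov Ds m z : ℝ))
  linarith


end DW
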