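import Pool.Agent.Helper553.DimWidth.Chern
import Pool.Agent.Helper553.DimWidth.GoodRow

set_option autoImplicit false
set_option linter.unusedSectionVars false
open scoped Classical
open Finset

namespace DW

/-- the row of `b` -/
def rowOf (m : ℕ) (E : Finset (ℕ × ℕ)) (b : ℕ) : Finset ℕ := (range m).filter (fun y => (y, b) ∈ E)

theorem overlap_sum (Ds : ℕ → Finset ℕ) (m : ℕ) (V : Finset ℕ) :
    ∑ y ∈ range m, ((V ∩ Ds y).card : ℝ) = ∑ z ∈ V, (cov Ds m z : ℝ) := by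
  have h : ∀ y, ((V ∩ Ds y).card : ℝ) = ∑ z ∈ V, (if z ∈ Ds y then (1:ℝ) else 0) := by
    intro y
    rw [← Finset.filter_mem_eq_inter, Finset.card_filter]
    push_cast
    rfl
  simp only [h]
  rw [Finset.sum_comm]
  apply sum_congr rfl
  intro z _
  unfold cov
  rw [Finset.card_filter]
  push_cast
  rfl

theorem card_inter_DR_le (Ds : ℕ → Finset ℕ) (V R : Finset ℕ) :
    ((V ∩ DR Ds R).card : ℝ) ≤ ∑ y ∈ R, ((V ∩ Ds y).card : ℝ) := by
  unfold DR
  rw [Finset.inter_biUnion]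
  have := Finset.card_biUnion_le (s := R) (t := fun y => V ∩ Ds y)
  exact_mod_cast this

theorem Pr_eq_ite {ι : Type*} [DecidableEq ι] (p : ℝ) (X : Finset ι) (S : Finset ι → Prop)
    (inst : ∀ E, Decidable (S E)) :
    Pr p X S = Ex p X (fun E => @ite ℝ (S E) (inst E) 1 0) := by
  unfold Pr
  apply Ex_congr
  intro E _
  congr

theorem arith1 (c κ2 ζ ν : ℝ) (hζ : 0 < ζ) (hν : 0 < ν) :
    c ^ 2 * (κ2 / ζ) = κ2 / (ζ * ν) * (ν * c ^ 2) := by
  field_simp

theorem pair_bound (m : ℕ) (p : ℝ) (hp : 0 ≤ p) (hp1 : p ≤ 1) (B0 : Finset ℕ)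
    (Gd : Finset ℕ → Prop) (G : Finset ℕ → Finset ℕ → Prop) (c : ℝ) (hc : 0 ≤ c)
    (h : ∀ R ⊆ range m, Gd R → Pr p (range m) (fun R' => G R R') ≤ c)
    (b b' : ℕ) (hb : b ∈ B0) (hb' : b' ∈ B0) (hbb : b ≠ b') :
    Pr p (range m ×ˢ B0) (fun E => Gd (rowOf m E b) ∧ G (rowOf m E b) (rowOf m E b')) ≤ c := by
  have h2 := two_rows p (range m) B0 b b' hb hb' hbb
    (fun R R' => if Gd R ∧ G R R' then (1 : ℝ) else 0)
  rw [Pr_eq_ite p _ _ (fun E => inferInstance)]
  calc _ = Ex p (range m) (fun R => Ex p (range m) (fun R' => if Gd R ∧ G R R' then (1 : ℝ) else 0)) := h2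
    _ ≤ Ex p (range m) (fun _ => c) := by
        apply Ex_mono hp hp1
        intro R hR
        by_cases hg : Gd R
        · refine le_trans (le_of_eq ?_) (h R hR hg)
          unfold Pr
          apply Ex_congr
          intro R' _
          by_cases hG : G R R' <;> simp [hg, hG]
        · simp only [hg, false_and, if_false]
          rw [Ex_const]
          exact hc
    _ = c := Ex_const _ _

theorem rows_good (Ds : ℕ → Finset ℕ) (m K0 : ℕ) (p μ κ2 : ℝ)
    (hp : 0 < p) (hp1 : p ≤ 1) (hμ : 0 < μ) (hκ2 : 0 < κ2) (hκμ : κ2 ≤ 20 * μ)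
    (hDs : ∀ y < m, Ds y ⊆ range m)
    (ρ0 : ℝ) (hρ : 0 < ρ0) (hG : ρ0 ≤ Pr p (range m) (GoodRow Ds m K0 p μ κ2))
    (B0 : Finset ℕ) (hB0 : 0 < B0.card) (J : ℕ) (ζ ν : ℝ) (hζ : 0 < ζ) (hν : 0 < ν) :
    Pr p (range m ×ˢ B0) (fun E => ¬ ∃ B ⊆ B0, ρ0 * B0.card / 2 ≤ (B.card : ℝ) ∧
      (∀ b ∈ B, GoodRow Ds m K0 p μ κ2 (rowOf m E b)) ∧
      (∀ b ∈ B, ∀ b' ∈ B, b ≠ b' →
        ((DR Ds (rowOf m E b) ∩ DR Ds (rowOf m E b')).card : ℝ) ≤ J * (20 * μ)) ∧
      ((((B ×ˢ B).filter (fun t => t.1 ≠ t.2 ∧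
        ζ ≤ ((DR Ds (rowOf m E t.1) ∩ DR Ds (rowOf m E t.2)).card : ℝ))).card : ℝ) ≤
          ν * (B0.card : ℝ) ^ 2)) ≤
      4 / (ρ0 * B0.card) + (B0.card : ℝ) ^ 2 * (Real.exp 1 * (κ2 / (20 * μ)) ^ J) +
        κ2 / (ζ * ν) := by
  classical
  have hp0 : 0 ≤ p := hp.le
  have h20 : 0 < 20 * μ := by positivity
  have hB0' : (0 : ℝ) < B0.card := by exact_mod_cast hB0
  set X := range m ×ˢ B0 with hX
  set Gd := GoodRow Ds m K0 p μ κ2 with hGd
  set P := (B0 ×ˢ B0).filter (fun t => t.1 ≠ t.2) with hP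
  have hPcard : (P.card : ℝ) ≤ (B0.card : ℝ) ^ 2 := by
    have h1 : P.card ≤ (B0 ×ˢ B0).card := Finset.card_filter_le _ _
    rw [Finset.card_product] at h1
    have h2 : (P.card : ℝ) ≤ ((B0.card * B0.card : ℕ) : ℝ) := by exact_mod_cast h1
    rw [pow_two]
    simpa using h2
  have hPmem : ∀ t ∈ P, t.1 ∈ B0 ∧ t.2 ∈ B0 ∧ t.1 ≠ t.2 := by
    intro t ht
    rw [hP, Finset.mem_filter, Finset.mem_product] at ht
    exact ⟨ht.1.1, ht.1.2, ht.2⟩
  -- A1
  have hA1 : Pr p X (fun E => ((B0.filter (fun b => Gd (rowOf m E b))).card : ℝ) <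
      ρ0 * B0.card / 2) ≤ 4 / (ρ0 * B0.card) :=
    many_good p hp0 hp1 (range m) B0 Gd ρ0 hρ hG hB0
  -- A2
  have hA2 : Pr p X (fun E => ∃ t ∈ P, Gd (rowOf m E t.1) ∧ (Gd (rowOf m E t.2) ∧
      J * (20 * μ) < ((DR Ds (rowOf m E t.1) ∩ DR Ds (rowOf m E t.2)).card : ℝ))) ≤
      (B0.card : ℝ) ^ 2 * (Real.exp 1 * (κ2 / (20 * μ)) ^ J) := by
    have hc : 0 ≤ Real.exp 1 * (κ2 / (20 * μ)) ^ J := by positivity
    refine (Pr_exists_le hp0 hp1 X P _).trans ?_
    calc ∑ t ∈ P, Pr p X (fun E => Gd (rowOf m E t.1) ∧ (Gd (rowOf m E t.2) ∧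
          J * (20 * μ) < ((DR Ds (rowOf m E t.1) ∩ DR Ds (rowOf m E t.2)).card : ℝ)))
        ≤ ∑ _t ∈ P, Real.exp 1 * (κ2 / (20 * μ)) ^ J := by
          apply Finset.sum_le_sum
          intro t ht
          obtain ⟨h1, h2, h3⟩ := hPmem t ht
          apply pair_bound m p hp0 hp1 B0 Gd (fun R R' => Gd R' ∧
            J * (20 * μ) < ((DR Ds R ∩ DR Ds R').card : ℝ)) _ hc _ t.1 t.2 h1 h2 h3
          intro R hR hgR
          set V := DR Ds R with hV
          let g : ℕ → ℝ := fun y => if ((Ds y).card : ℝ) ≤ 20 * μ then ((V ∩ Ds y).card : ℝ) else 0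
          have hg0 : ∀ y ∈ range m, 0 ≤ g y := by
            intro y _
            simp only [g]
            split_ifs <;> positivity
          have hgM : ∀ y ∈ range m, g y ≤ 20 * μ := by
            intro y _
            simp only [g]
            split_ifs with hy
            · refine le_trans ?_ hy
              exact_mod_cast Finset.card_le_card Finset.inter_subset_right
            · exact h20.le
          have hmean : p * ∑ y ∈ range m, g y ≤ κ2 := by
            refine le_trans ?_ hgR.2.2.2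
            rw [← overlap_sum]
            apply mul_le_mul_of_nonneg_left _ hp0
            apply Finset.sum_le_sum
            intro y _
            simp only [g]
            split_ifs
            · exact le_refl _
            · positivity
          refine le_trans (Pr_mono hp0 hp1 ?_)
            (chernoff p hp0 hp1 (range m) g (20 * μ) κ2 h20 hκ2 hκμ hg0 hgM hmean J)
          intro R' hR' hR'g
          refine hR'g.2.le.trans ((card_inter_DR_le Ds V R').trans (le_of_eq ?_))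
          apply Finset.sum_congr rfl
          intro y hy
          simp only [g]
          rw [if_pos (hR'g.1.1 y hy)]
      _ = P.card * (Real.exp 1 * (κ2 / (20 * μ)) ^ J) := by
          rw [Finset.sum_const, nsmul_eq_mul]
      _ ≤ (B0.card : ℝ) ^ 2 * (Real.exp 1 * (κ2 / (20 * μ)) ^ J) :=
          mul_le_mul_of_nonneg_right hPcard hc
  -- A3
  obtain ⟨f, hf⟩ : ∃ f : Finset (ℕ × ℕ) → ℝ, f = fun E => ∑ t ∈ P, (if Gd (rowOf m E t.1) ∧
      ζ ≤ ((DR Ds (rowOf m E t.1) ∩ DR Ds (rowOf m E t.2)).card : ℝ) then (1 : ℝ) else 0) :=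
    ⟨_, rfl⟩
  have hf0 : ∀ E ⊆ X, 0 ≤ f E := by
    intro E _
    rw [hf]
    apply Finset.sum_nonneg
    intro t _
    split_ifs <;> norm_num
  have hfE : Ex p X f ≤ (B0.card : ℝ) ^ 2 * (κ2 / ζ) := by
    have hc : 0 ≤ κ2 / ζ := by positivity
    calc Ex p X f = ∑ t ∈ P, Pr p X (fun E => Gd (rowOf m E t.1) ∧
            ζ ≤ ((DR Ds (rowOf m E t.1) ∩ DR Ds (rowOf m E t.2)).card : ℝ)) := by
          rw [hf, Ex_sum]
          apply Finset.sum_congr rfl
          intro t _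
          exact (Pr_eq_ite p _ _ _).symm
      _ ≤ ∑ _t ∈ P, κ2 / ζ := by
          apply Finset.sum_le_sum
          intro t ht
          obtain ⟨h1, h2, h3⟩ := hPmem t ht
          apply pair_bound m p hp0 hp1 B0 Gd (fun R R' =>
            ζ ≤ ((DR Ds R ∩ DR Ds R').card : ℝ)) _ hc _ t.1 t.2 h1 h2 h3
          intro R hR hgR
          refine le_trans (Pr_mono hp0 hp1 (T := fun R' => ζ ≤ ∑ y ∈ R', ((DR Ds R ∩ Ds y).card : ℝ)) ?_) ?_
          · intro R' _ h
            exact h.trans (card_inter_DR_le Ds _ R')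
          · refine (markov hp0 hp1 (range m) (fun R' => ∑ y ∈ R', ((DR Ds R ∩ Ds y).card : ℝ))
              ?_ hζ).trans ?_
            · intro R' _
              exact Finset.sum_nonneg fun y _ => Nat.cast_nonneg _
            · rw [Ex_linear, overlap_sum]
              exact div_le_div_of_nonneg_right hgR.2.2.2 hζ.le
      _ = P.card * (κ2 / ζ) := by rw [Finset.sum_const, nsmul_eq_mul]
      _ ≤ (B0.card : ℝ) ^ 2 * (κ2 / ζ) := mul_le_mul_of_nonneg_right hPcard hc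
  have hA3 : Pr p X (fun E => ν * (B0.card : ℝ) ^ 2 ≤ f E) ≤ κ2 / (ζ * ν) := by
    refine (markov hp0 hp1 X f hf0 (by positivity)).trans ?_
    rw [div_le_iff₀ (by positivity)]
    exact hfE.trans (le_of_eq (arith1 _ _ _ _ hζ hν))
  -- combine
  refine le_trans (Pr_mono hp0 hp1 (T := fun E =>
      (((B0.filter (fun b => Gd (rowOf m E b))).card : ℝ) < ρ0 * B0.card / 2 ∨
      (∃ t ∈ P, Gd (rowOf m E t.1) ∧ (Gd (rowOf m E t.2) ∧
      J * (20 * μ) < ((DR Ds (rowOf m E t.1) ∩ DR Ds (rowOf m E t.2)).card : ℝ)))) ∨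
      ν * (B0.card : ℝ) ^ 2 ≤ f E) ?_) ?_
  · intro E hE hn
    by_contra hcon
    push Not at hcon
    obtain ⟨⟨h1, h2⟩, h3⟩ := hcon
    apply hn
    refine ⟨B0.filter (fun b => Gd (rowOf m E b)), Finset.filter_subset _ _, h1, ?_, ?_, ?_⟩
    · intro b hb
      exact (Finset.mem_filter.1 hb).2
    · intro b hb b' hb' hbb
      rw [Finset.mem_filter] at hb hb'
      refine h2 (b, b') ?_ hb.2 hb'.2
      rw [hP, Finset.mem_filter, Finset.mem_product]
      exact ⟨⟨hb.1, hb'.1⟩, hbb⟩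
    · refine le_trans ?_ h3.le
      rw [hf]
      simp only []
      rw [← Finset.sum_filter, Finset.sum_const, nsmul_eq_mul, mul_one]
      have : ((B0.filter (fun b => Gd (rowOf m E b))) ×ˢ (B0.filter (fun b => Gd (rowOf m E b)))).filter
          (fun t => t.1 ≠ t.2 ∧
        ζ ≤ ((DR Ds (rowOf m E t.1) ∩ DR Ds (rowOf m E t.2)).card : ℝ)) ⊆
          P.filter (fun t => Gd (rowOf m E t.1) ∧
            ζ ≤ ((DR Ds (rowOf m E t.1) ∩ DR Ds (rowOf m E t.2)).card : ℝ)) := by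
        intro t ht
        rw [Finset.mem_filter, Finset.mem_product, Finset.mem_filter, Finset.mem_filter] at ht
        rw [Finset.mem_filter, hP, Finset.mem_filter, Finset.mem_product]
        exact ⟨⟨⟨ht.1.1.1, ht.1.2.1⟩, ht.2.1⟩, ht.1.1.2, ht.2.2⟩
      exact_mod_cast Finset.card_le_card this
  · refine (Pr_or_le hp0 hp1 X _ _).trans ?_
    refine add_le_add ((Pr_or_le hp0 hp1 X _ _).trans (add_le_add hA1 hA2)) hA3


end DW
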