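import Pool.Agent.Helper553.DimWidth.Nice
import Pool.Agent.Helper553.DimWidth.GoodRow
import Pool.Agent.Helper553.DimWidth.RowsGood
import Pool.Agent.Helper553.DimWidth.BGDef

set_option autoImplicit false
set_option linter.unusedSectionVars false
open scoped Classical
open Finset

namespace DW

/-- down-set of an isolated point of the top part -/
theorem Dn_isolated {m N : ℕ} {E1 E2 E3 : Finset (ℕ × ℕ)} (h1 : E1 ⊆ K m)
    (h2 : E2 ⊆ range m ×ˢ Ico m (m + N)) (h3 : E3 ⊆ KI m (m + N)) {b : ℕ}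
    (hb : b ∈ Ico m (m + N)) (hiso : ∀ e ∈ E3, e.1 ≠ b ∧ e.2 ≠ b) :
    Dn ((E1 ∪ E2) ∪ E3) b = insert b (DR (Dn E1) (rowOf m E2 b)) := by
  have k1 : ∀ e ∈ E1, e.1 < e.2 ∧ e.2 < m := fun e he => mem_K.1 (h1 he)
  have k2 : ∀ e ∈ E2, e.1 < m ∧ m ≤ e.2 := by
    intro e he
    have := h2 he
    rw [Finset.mem_product, Finset.mem_range, Finset.mem_Ico] at this
    exact ⟨this.1, this.2.1⟩
  have k3 : ∀ e ∈ E3, m ≤ e.1 ∧ e.1 < e.2 := by
    intro e he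
    have := mem_KI.1 (h3 he)
    exact ⟨this.1, this.2.1⟩
  have hE : ∀ e ∈ (E1 ∪ E2) ∪ E3, e.1 < e.2 := by
    intro e he
    rw [Finset.mem_union, Finset.mem_union] at he
    rcases he with (he | he) | he
    · exact (k1 e he).1
    · have := k2 e he; omega
    · exact (k3 e he).2
  have hbm : m ≤ b := (Finset.mem_Ico.1 hb).1
  have hlast : ∀ y, (y, b) ∈ (E1 ∪ E2) ∪ E3 → y < m ∧ (y, b) ∈ E2 := by
    intro y hy
    rw [Finset.mem_union, Finset.mem_union] at hy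
    rcases hy with (hy | hy) | hy
    · have := (k1 _ hy).2
      simp only at this
      omega
    · exact ⟨(k2 _ hy).1, hy⟩
    · exact absurd rfl (hiso _ hy).2
  have hloc : ∀ j y, y < m → TG ((E1 ∪ E2) ∪ E3) j y → TG E1 j y := by
    intro j y hy h
    refine TG_local hE ?_ h
    intro e he _ h5
    rw [Finset.mem_union, Finset.mem_union] at he
    rcases he with (he | he) | he
    · exact he
    · have := k2 e he; omega
    · have := k3 e he; omega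
  ext j
  unfold DR
  rw [Finset.mem_insert, Finset.mem_biUnion]
  unfold Dn rowOf
  simp only [Finset.mem_filter, Finset.mem_range]
  constructor
  · rintro ⟨hj, h | h⟩
    · exact Or.inl h
    · right
      cases h with
      | single h =>
        obtain ⟨h4, h5⟩ := hlast _ h
        exact ⟨j, ⟨h4, h5⟩, by omega, Or.inl rfl⟩
      | tail h6 h7 =>
        rename_i y
        obtain ⟨h4, h5⟩ := hlast _ h7
        have h8 := hloc _ _ h4 h6
        have h9 := TG_lt (fun e he => (k1 e he).1) h8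
        exact ⟨y, ⟨h4, h5⟩, by omega, Or.inr h8⟩
  · rintro (h | ⟨y, ⟨h4, h5⟩, h6, h7⟩)
    · subst h
      exact ⟨by omega, Or.inl rfl⟩
    · have hyb : (y, b) ∈ (E1 ∪ E2) ∪ E3 :=
        Finset.mem_union_left _ (Finset.mem_union_right _ h5)
      refine ⟨by omega, Or.inr ?_⟩
      rcases h7 with h7 | h7
      · subst h7
        exact Relation.TransGen.single hyb
      · exact Relation.TransGen.tail (TG_mono (by
          intro e he
          exact Finset.mem_union_left _ (Finset.mem_union_left _ he)) h7) hyb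

theorem K_split3 (m N : ℕ) :
    K (m + N) = (K m ∪ (range m ×ˢ Ico m (m + N))) ∪ KI m (m + N) ∧
    Disjoint (K m) (range m ×ˢ Ico m (m + N)) ∧
    Disjoint (K m ∪ (range m ×ˢ Ico m (m + N))) (KI m (m + N)) := by
  refine ⟨?_, ?_, ?_⟩
  · ext e
    rw [Finset.mem_union, Finset.mem_union, mem_K, mem_K, mem_KI, Finset.mem_product,
      Finset.mem_range, Finset.mem_Ico]
    omega
  · rw [Finset.disjoint_left]
    intro e he he'
    rw [mem_K] at he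
    rw [Finset.mem_product, Finset.mem_range, Finset.mem_Ico] at he'
    omega
  · rw [Finset.disjoint_left]
    intro e he he'
    rw [Finset.mem_union, mem_K, Finset.mem_product, Finset.mem_range, Finset.mem_Ico] at he
    rw [mem_KI] at he'
    omega

theorem DR_subset {E1 : Finset (ℕ × ℕ)} {m : ℕ} (E : Finset (ℕ × ℕ)) (b : ℕ) :
    DR (Dn E1) (rowOf m E b) ⊆ range m := by
  intro z hz
  unfold DR rowOf at hz
  rw [Finset.mem_biUnion] at hz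
  obtain ⟨y, hy, hz⟩ := hz
  have h1 := Finset.mem_range.1 (Finset.mem_filter.1 hy).1
  have h2 := Finset.mem_range.1 (Dn_subset hz)
  rw [Finset.mem_range]; omega

/-- the event of the rows lemma -/
def RG (Ds : ℕ → Finset ℕ) (m K0 : ℕ) (p μ κ2 ρ0 : ℝ) (B0 : Finset ℕ) (J : ℕ) (ζ ν : ℝ)
    (E : Finset (ℕ × ℕ)) : Prop :=
  ∃ B ⊆ B0, ρ0 * B0.card / 2 ≤ (B.card : ℝ) ∧
      (∀ b ∈ B, GoodRow Ds m K0 p μ κ2 (rowOf m E b)) ∧
      (∀ b ∈ B, ∀ b' ∈ B, b ≠ b' →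
        ((DR Ds (rowOf m E b) ∩ DR Ds (rowOf m E b')).card : ℝ) ≤ J * (20 * μ)) ∧
      ((((B ×ˢ B).filter (fun t => t.1 ≠ t.2 ∧
        ζ ≤ ((DR Ds (rowOf m E t.1) ∩ DR Ds (rowOf m E t.2)).card : ℝ))).card : ℝ) ≤
          ν * (B0.card : ℝ) ^ 2)

theorem RG_congr {Ds : ℕ → Finset ℕ} {m K0 : ℕ} {p μ κ2 ρ0 : ℝ} {B0 : Finset ℕ} {J : ℕ}
    {ζ ν : ℝ} {E F : Finset (ℕ × ℕ)} (h : ∀ b ∈ B0, rowOf m E b = rowOf m F b)
    (hE : RG Ds m K0 p μ κ2 ρ0 B0 J ζ ν E) : RG Ds m K0 p μ κ2 ρ0 B0 J ζ ν F := by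
  obtain ⟨B, hB, h1, h2, h3, h4⟩ := hE
  refine ⟨B, hB, h1, ?_, ?_, ?_⟩
  · intro b hb
    rw [← h b (hB hb)]
    exact h2 b hb
  · intro b hb b' hb' hne
    rw [← h b (hB hb), ← h b' (hB hb')]
    exact h3 b hb b' hb' hne
  · have : (B ×ˢ B).filter (fun t => t.1 ≠ t.2 ∧
        ζ ≤ ((DR Ds (rowOf m F t.1) ∩ DR Ds (rowOf m F t.2)).card : ℝ)) =
        (B ×ˢ B).filter (fun t => t.1 ≠ t.2 ∧
        ζ ≤ ((DR Ds (rowOf m E t.1) ∩ DR Ds (rowOf m E t.2)).card : ℝ)) := by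
      apply Finset.filter_congr
      intro t ht
      rw [Finset.mem_product] at ht
      rw [h t.1 (hB ht.1), h t.2 (hB ht.2)]
    rw [this]
    exact h4

theorem RG_BG {m N N0 N1 K0 J : ℕ} {p μ κ2 ρ0 ζ ν : ℝ} {E1 E2 E3 : Finset (ℕ × ℕ)}
    (hμ : 1 ≤ μ) (h1 : E1 ⊆ K m)
    (h2 : E2 ⊆ range m ×ˢ Ico m (m + N)) (h3 : E3 ⊆ KI m (m + N)) {B0 : Finset ℕ}
    (hB0 : B0 ⊆ Ico m (m + N)) (hcard : B0.card = N0) (hN1 : (N1 : ℝ) ≤ ρ0 * N0 / 2)
    (hiso : ∀ b ∈ B0, ∀ e ∈ E3, e.1 ≠ b ∧ e.2 ≠ b)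
    (hRG : RG (Dn E1) m K0 p μ κ2 ρ0 B0 J ζ ν E2) :
    BG m N N1 (K0 * μ / 48) ((20 * K0 + 17) * μ) (J * (20 * μ)) ζ
        (ν * (N0 : ℝ) ^ 2) ((E1 ∪ E2) ∪ E3) := by
  obtain ⟨B, hB, k1, k2, k3, k4⟩ := hRG
  rw [hcard] at k1 k4
  have hN1B : N1 ≤ B.card := by
    have : (N1 : ℝ) ≤ B.card := hN1.trans k1
    exact_mod_cast this
  obtain ⟨B', hB', hB'c⟩ := Finset.exists_subset_card_eq hN1B
  have hB'0 : B' ⊆ B0 := hB'.trans hB
  have hDn : ∀ b ∈ B', Dn ((E1 ∪ E2) ∪ E3) b = insert b (DR (Dn E1) (rowOf m E2 b)) :=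
    fun b hb => Dn_isolated h1 h2 h3 (hB0 (hB'0 hb)) (hiso b (hB'0 hb))
  have hnot : ∀ b ∈ B', ∀ b', b ∉ DR (Dn E1) (rowOf m E2 b') := by
    intro b hb b' h
    have h5 := Finset.mem_range.1 (DR_subset _ _ h)
    have h6 := (Finset.mem_Ico.1 (hB0 (hB'0 hb))).1
    omega
  have hint : ∀ b ∈ B', ∀ b' ∈ B', b ≠ b' → Dn ((E1 ∪ E2) ∪ E3) b ∩ Dn ((E1 ∪ E2) ∪ E3) b' =
      DR (Dn E1) (rowOf m E2 b) ∩ DR (Dn E1) (rowOf m E2 b') := by
    intro b hb b' hb' hne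
    rw [hDn b hb, hDn b' hb']
    ext z
    simp only [Finset.mem_inter, Finset.mem_insert]
    constructor
    · rintro ⟨h5 | h5, h6 | h6⟩
      · exact absurd (h5.symm.trans h6) hne
      · exact absurd (h5 ▸ h6) (hnot b hb b')
      · exact absurd (h6 ▸ h5) (hnot b' hb' b)
      · exact ⟨h5, h6⟩
    · rintro ⟨h5, h6⟩
      exact ⟨Or.inr h5, Or.inr h6⟩
  refine ⟨B', hB'0.trans hB0, hB'c, ?_, ?_, ?_⟩
  · intro b hb
    have h5 := k2 b (hB' hb)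
    rw [hDn b hb, Finset.card_insert_of_notMem (hnot b hb b)]
    push_cast
    exact ⟨by linarith [h5.2.1], by linarith [h5.2.2.1]⟩
  · intro b hb b' hb' hne
    rw [hint b hb b' hb' hne]
    exact k3 b (hB' hb) b' (hB' hb') hne
  · refine le_trans ?_ k4
    have : (B' ×ˢ B').filter (fun t => t.1 ≠ t.2 ∧
      ζ ≤ ((Dn ((E1 ∪ E2) ∪ E3) t.1 ∩ Dn ((E1 ∪ E2) ∪ E3) t.2).card : ℝ)) ⊆
      (B ×ˢ B).filter (fun t => t.1 ≠ t.2 ∧
        ζ ≤ ((DR (Dn E1) (rowOf m E2 t.1) ∩ DR (Dn E1) (rowOf m E2 t.2)).card : ℝ)) := by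
      intro t ht
      rw [Finset.mem_filter, Finset.mem_product] at ht ⊢
      obtain ⟨⟨h5, h6⟩, h7, h8⟩ := ht
      rw [hint _ h5 _ h6 h7] at h8
      exact ⟨⟨hB' h5, hB' h6⟩, h7, h8⟩
    exact_mod_cast Finset.card_le_card this

theorem block_prob (p μ κ κ2 ρ0 ζ ν e1 πiso : ℝ) (m N N0 N1 K0 J : ℕ)
    (hp : 0 < p) (hp1 : p ≤ 1) (hμ : 1 ≤ μ) (hκ2 : 0 < κ2) (hκμ : κ2 ≤ 20 * μ)
    (hρ : 0 < ρ0) (hζ : 0 < ζ) (hν : 0 < ν) (hN0 : 0 < N0) (hN1 : (N1 : ℝ) ≤ ρ0 * N0 / 2)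
    (hπ0 : 0 ≤ πiso)
    (hnice : Pr p (K m) (fun E => ¬ Nice p μ κ m E) ≤ e1)
    (hgood : ∀ E ⊆ K m, Nice p μ κ m E →
      ρ0 ≤ Pr p (range m) (GoodRow (Dn E) m K0 p μ κ2))
    (hiso : πiso ≤ Pr p (KI m (m + N)) (fun E => ∃ B0 ⊆ Ico m (m + N), B0.card = N0 ∧
      ∀ b ∈ B0, ∀ e ∈ E, e.1 ≠ b ∧ e.2 ≠ b)) :
    πiso * (1 - e1 - (4 / (ρ0 * N0) + (N0 : ℝ) ^ 2 * (Real.exp 1 * (κ2 / (20 * μ)) ^ J) +
        κ2 / (ζ * ν))) ≤
      Pr p (K (m + N)) (BG m N N1 (K0 * μ / 48) ((20 * K0 + 17) * μ) (J * (20 * μ)) ζ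
        (ν * (N0 : ℝ) ^ 2)) := by
  obtain ⟨e2, he2⟩ : ∃ e2, e2 = 4 / (ρ0 * N0) + (N0 : ℝ) ^ 2 * (Real.exp 1 * (κ2 / (20 * μ)) ^ J) +
        κ2 / (ζ * ν) := ⟨_, rfl⟩
  rw [← he2]
  have hμ0 : 0 < μ := by linarith
  have hN0' : (0 : ℝ) < N0 := by exact_mod_cast hN0
  have he2nn : 0 ≤ e2 := by rw [he2]; positivity
  have he1nn : 0 ≤ e1 := (Pr_nonneg hp.le hp1 _ _).trans hnice
  by_cases hcase : 1 - e1 - e2 < 0
  · have h1 : πiso * (1 - e1 - e2) ≤ 0 := mul_nonpos_of_nonneg_of_nonpos hπ0 hcase.le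
    exact h1.trans (Pr_nonneg hp.le hp1 _ _)
  push Not at hcase
  obtain ⟨Q, hQ⟩ : ∃ Q : Finset (ℕ × ℕ) → Prop, Q = BG m N N1 (K0 * μ / 48)
    ((20 * K0 + 17) * μ) (J * (20 * μ)) ζ (ν * (N0 : ℝ) ^ 2) := ⟨_, rfl⟩
  rw [← hQ]
  obtain ⟨I, hI⟩ : ∃ I : Finset (ℕ × ℕ) → Prop, I = fun E => ∃ B0 ⊆ Ico m (m + N), B0.card = N0 ∧
      ∀ b ∈ B0, ∀ e ∈ E, e.1 ≠ b ∧ e.2 ≠ b := ⟨_, rfl⟩
  rw [← hI] at hiso
  obtain ⟨s1, s2, s3⟩ := K_split3 m N
  have hsplit : Pr p (K (m + N)) Q = Ex p (K m) (fun E1 => Ex p (KI m (m + N)) (fun E3 =>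
      Ex p (range m ×ˢ Ico m (m + N)) (fun E2 => if Q ((E1 ∪ E2) ∪ E3) then (1 : ℝ) else 0))) := by
    unfold Pr
    rw [s1, Ex_union s3, Ex_union s2]
    apply Ex_congr
    intro E1 _
    rw [Ex_comm]
  have hinner : ∀ E1 ⊆ K m, ∀ E3 ⊆ KI m (m + N),
      (if Nice p μ κ m E1 then (1 : ℝ) else 0) * ((if I E3 then (1 : ℝ) else 0) * (1 - e2)) ≤
      Ex p (range m ×ˢ Ico m (m + N)) (fun E2 => if Q ((E1 ∪ E2) ∪ E3) then (1 : ℝ) else 0) := by
    intro E1 hE1 E3 hE3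
    have hnn : 0 ≤ Ex p (range m ×ˢ Ico m (m + N))
        (fun E2 => if Q ((E1 ∪ E2) ∪ E3) then (1 : ℝ) else 0) := by
      apply Ex_nonneg hp.le hp1
      intro E _
      split_ifs <;> norm_num
    by_cases hN : Nice p μ κ m E1
    swap
    · rw [if_neg hN, zero_mul]; exact hnn
    by_cases hIE : I E3
    swap
    · rw [if_neg hIE, zero_mul, mul_zero]; exact hnn
    rw [if_pos hN, if_pos hIE, one_mul, one_mul]
    rw [hI] at hIE
    obtain ⟨B0, hB0, hcard, hisoB⟩ := hIE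
    have hcardpos : 0 < B0.card := by rw [hcard]; exact hN0
    have hrows := rows_good (Dn E1) m K0 p μ κ2 hp hp1 hμ0 hκ2 hκμ
      (fun y hy z hz => by
        have := Finset.mem_range.1 (Dn_subset hz)
        rw [Finset.mem_range]; omega)
      ρ0 hρ (hgood E1 hE1 hN) B0 hcardpos J ζ ν hζ hν
    rw [hcard, ← he2] at hrows
    have hrows' : Pr p (range m ×ˢ B0)
        (fun E => ¬ RG (Dn E1) m K0 p μ κ2 ρ0 B0 J ζ ν E) ≤ e2 := by
      refine le_trans (le_of_eq ?_) hrows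
      apply Pr_congr
      intro E _
      unfold RG
      rw [hcard]
    have hXY : range m ×ˢ Ico m (m + N) = (range m ×ˢ B0) ∪ (range m ×ˢ (Ico m (m + N) \ B0)) := by
      rw [← Finset.product_union, Finset.union_sdiff_of_subset hB0]
    have hXYd : Disjoint (range m ×ˢ B0) (range m ×ˢ (Ico m (m + N) \ B0)) := by
      rw [Finset.disjoint_left]
      intro e he he'
      rw [Finset.mem_product] at he he'
      exact (Finset.mem_sdiff.1 he'.2).2 he.2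
    have hmarg : Pr p (range m ×ˢ Ico m (m + N))
        (fun E => ¬ RG (Dn E1) m K0 p μ κ2 ρ0 B0 J ζ ν E) ≤ e2 := by
      refine le_trans (le_of_eq ?_) hrows'
      unfold Pr
      rw [hXY, Ex_union hXYd]
      apply Ex_congr
      intro E _
      refine Eq.trans ?_ (Ex_const (p := p) (range m ×ˢ (Ico m (m + N) \ B0)) _)
      apply Ex_congr
      intro F hF
      have hrow : ∀ b ∈ B0, rowOf m (E ∪ F) b = rowOf m E b := by
        intro b hb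
        unfold rowOf
        apply Finset.filter_congr
        intro y _
        rw [Finset.mem_union]
        constructor
        · rintro (h | h)
          · exact h
          · exfalso
            have := hF h
            rw [Finset.mem_product] at this
            exact (Finset.mem_sdiff.1 this.2).2 hb
        · exact Or.inl
      have hiff : RG (Dn E1) m K0 p μ κ2 ρ0 B0 J ζ ν (E ∪ F) ↔
          RG (Dn E1) m K0 p μ κ2 ρ0 B0 J ζ ν E :=
        ⟨RG_congr hrow, RG_congr (fun b hb => (hrow b hb).symm)⟩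
      by_cases hR : RG (Dn E1) m K0 p μ κ2 ρ0 B0 J ζ ν E
      · simp [hiff, hR]
      · simp [hiff, hR]
    rw [Pr_not] at hmarg
    have hle : Pr p (range m ×ˢ Ico m (m + N)) (RG (Dn E1) m K0 p μ κ2 ρ0 B0 J ζ ν) ≤
        Pr p (range m ×ˢ Ico m (m + N)) (fun E2 => Q ((E1 ∪ E2) ∪ E3)) := by
      apply Pr_mono hp.le hp1
      intro E2 hE2 hRG
      rw [hQ]
      exact RG_BG hμ hE1 hE2 hE3 hB0 hcard hN1 hisoB hRG
    have : (1 : ℝ) - e2 ≤ Pr p (range m ×ˢ Ico m (m + N)) (fun E2 => Q ((E1 ∪ E2) ∪ E3)) := by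
      linarith
    exact this
  have hlow : Pr p (K m) (Nice p μ κ m) * (Pr p (KI m (m + N)) I * (1 - e2)) ≤
      Pr p (K (m + N)) Q := by
    rw [hsplit]
    have h1 : Pr p (K m) (Nice p μ κ m) * (Pr p (KI m (m + N)) I * (1 - e2)) =
        Ex p (K m) (fun E1 => Ex p (KI m (m + N)) (fun E3 =>
          (if Nice p μ κ m E1 then (1 : ℝ) else 0) * ((if I E3 then (1 : ℝ) else 0) * (1 - e2)))) := by
      unfold Pr
      rw [← Ex_mul_right]
      apply Ex_congr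
      intro E1 _
      rw [← Ex_mul_right, ← Ex_mul_left]
    rw [h1]
    apply Ex_mono hp.le hp1
    intro E1 hE1
    apply Ex_mono hp.le hp1
    intro E3 hE3
    exact hinner E1 hE1 E3 hE3
  refine le_trans ?_ hlow
  rw [Pr_not] at hnice
  have hn : 1 - e1 ≤ Pr p (K m) (Nice p μ κ m) := by linarith
  have h1e1 : 0 ≤ 1 - e1 := by linarith
  have h1e2 : 0 ≤ 1 - e2 := by linarith
  have hPI := Pr_nonneg hp.le hp1 (KI m (m + N)) I
  have hPN := Pr_nonneg hp.le hp1 (K m) (Nice p μ κ m)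
  calc πiso * (1 - e1 - e2) ≤ πiso * ((1 - e1) * (1 - e2)) := by
        apply mul_le_mul_of_nonneg_left _ hπ0
        nlinarith [mul_nonneg he1nn he2nn]
    _ = (1 - e1) * (πiso * (1 - e2)) := by ring
    _ ≤ Pr p (K m) (Nice p μ κ m) * (Pr p (KI m (m + N)) I * (1 - e2)) := by
        gcongr

end DW
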