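import Pool.Agent.Helper553.DimWidth.Basic

set_option autoImplicit false
set_option linter.unusedSectionVars false
open scoped Classical
open Finset

namespace DW


theorem exp_conv {t s : ℝ} (hs0 : 0 ≤ s) (hs1 : s ≤ 1) :
    Real.exp (t * s) ≤ 1 + s * (Real.exp t - 1) := by
  have h := convexOn_exp.2 (Set.mem_univ t) (Set.mem_univ (0:ℝ)) hs0 (by linarith : 0 ≤ 1 - s)
    (by ring)
  simp only [smul_eq_mul, mul_zero, add_zero, Real.exp_zero, mul_one] at h
  rw [mul_comm t s]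
  linarith

/-- Chernoff bound for a weighted count with bounded weights and small mean -/
theorem chernoff {ι : Type*} [DecidableEq ι] (p : ℝ) (hp : 0 ≤ p) (hp1 : p ≤ 1) (Y : Finset ι)
    (g : ι → ℝ) (M κ : ℝ) (hM : 0 < M) (hκ : 0 < κ) (hκM : κ ≤ M)
    (hg0 : ∀ y ∈ Y, 0 ≤ g y) (hgM : ∀ y ∈ Y, g y ≤ M) (hmean : p * ∑ y ∈ Y, g y ≤ κ) (J : ℕ) :
    Pr p Y (fun R => (J : ℝ) * M ≤ ∑ y ∈ R, g y) ≤ Real.exp 1 * (κ / M) ^ J := by
  obtain ⟨t, ht⟩ : ∃ t : ℝ, t = Real.log (M / κ) := ⟨_, rfl⟩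
  have hMκ : 1 ≤ M / κ := by rw [le_div_iff₀ hκ]; linarith
  have ht0 : 0 ≤ t := by rw [ht]; exact Real.log_nonneg hMκ
  have het : Real.exp t = M / κ := by rw [ht]; exact Real.exp_log (by positivity)
  have h1 : Pr p Y (fun R => (J : ℝ) * M ≤ ∑ y ∈ R, g y) ≤
      Pr p Y (fun R => (M / κ) ^ J ≤ ∏ y ∈ R, Real.exp (t * (g y / M))) := by
    apply Pr_mono hp hp1
    intro R _ hR
    rw [← Real.exp_sum, ← Finset.mul_sum, ← Finset.sum_div, ← het, ← Real.exp_nat_mul]
    apply Real.exp_le_exp.2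
    rw [mul_comm]
    apply mul_le_mul_of_nonneg_left _ ht0
    rw [le_div_iff₀ hM]
    exact hR
  have h2 := markov hp hp1 Y (fun R => ∏ y ∈ R, Real.exp (t * (g y / M)))
    (fun R _ => Finset.prod_nonneg fun y _ => (Real.exp_pos _).le) (c := (M / κ) ^ J)
    (by positivity)
  have h3 : Ex p Y (fun R => ∏ y ∈ R, Real.exp (t * (g y / M))) ≤ Real.exp 1 := by
    rw [Ex_prod]
    calc ∏ y ∈ Y, (1 - p + p * Real.exp (t * (g y / M)))
        ≤ ∏ y ∈ Y, Real.exp (p * (g y / M * (Real.exp t - 1))) := by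
          apply Finset.prod_le_prod
          · intro y hy
            have := Real.exp_pos (t * (g y / M))
            have : 0 ≤ 1 - p := by linarith
            positivity
          · intro y hy
            have h4 := exp_conv (t := t) (div_nonneg (hg0 y hy) hM.le)
              ((div_le_one hM).2 (hgM y hy))
            have h5 := Real.add_one_le_exp (p * (g y / M * (Real.exp t - 1)))
            have h6 := mul_le_mul_of_nonneg_left h4 hp
            linarith
      _ = Real.exp (p * ((∑ y ∈ Y, g y) / M * (Real.exp t - 1))) := by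
          rw [← Real.exp_sum, ← Finset.mul_sum, ← Finset.sum_mul, Finset.sum_div]
      _ ≤ Real.exp 1 := by
          apply Real.exp_le_exp.2
          have h7 : p * ((∑ y ∈ Y, g y) / M * (Real.exp t - 1)) =
              (p * ∑ y ∈ Y, g y) * ((Real.exp t - 1) / M) := by ring
          rw [h7]
          have h8 : 0 ≤ (Real.exp t - 1) / M := by
            apply div_nonneg _ hM.le
            rw [het]; linarith
          refine le_trans (mul_le_mul_of_nonneg_right hmean h8) ?_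
          rw [het, ← mul_div_assoc, div_le_one hM, mul_sub, mul_div_cancel₀ _ hκ.ne']
          linarith
  refine le_trans h1 (le_trans h2 ?_)
  rw [div_le_iff₀ (by positivity), mul_assoc, ← mul_pow, div_mul_div_comm, mul_comm κ M,
    div_self (by positivity), one_pow, mul_one]
  exact h3

/-- embedding of a row -/
def rowCh {ι κ : Type*} (b : κ) : ι ↪ ι × κ := ⟨fun y => (y, b), fun _ _ h => (Prod.mk.inj h).1⟩

theorem mem_rowCh {ι κ : Type*} {b c : κ} {y : ι} {R : Finset ι} :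
    (y, c) ∈ R.map (rowCh b) ↔ y ∈ R ∧ b = c := by
  rw [Finset.mem_map]
  constructor
  · rintro ⟨y', hy', h⟩
    have h1 : (y', b) = (y, c) := h
    obtain ⟨rfl, rfl⟩ := Prod.mk.inj h1
    exact ⟨hy', rfl⟩
  · rintro ⟨hy, rfl⟩
    exact ⟨y, hy, rfl⟩

theorem row_split {ι κ : Type*} [DecidableEq ι] [DecidableEq κ] (p : ℝ)
    (Y : Finset ι) (Z : Finset κ) (b : κ) (hb : b ∈ Z) (F : Finset (ι × κ) → ℝ) :
    Ex p (Y ×ˢ Z) F = Ex p Y (fun R => Ex p (Y ×ˢ (Z.erase b)) (fun G =>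
      F (R.map (rowCh b) ∪ G))) := by
  have h1 : Y ×ˢ Z = (Y.map (rowCh b)) ∪ (Y ×ˢ (Z.erase b)) := by
    ext ⟨y, c⟩
    rw [Finset.mem_union, mem_rowCh, Finset.mem_product, Finset.mem_product, Finset.mem_erase]
    constructor
    · rintro ⟨hy, hc⟩
      by_cases hcb : c = b
      · left
        exact ⟨hy, hcb.symm⟩
      · right
        exact ⟨hy, hcb, hc⟩
    · rintro (⟨hy', rfl⟩ | ⟨hy, _, hc⟩)
      · exact ⟨hy', hb⟩
      · exact ⟨hy, hc⟩
  have h2 : Disjoint (Y.map (rowCh b)) (Y ×ˢ (Z.erase b)) := by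
    rw [Finset.disjoint_left]
    rintro ⟨y, c⟩ hx hx'
    rw [mem_rowCh] at hx
    rw [Finset.mem_product, Finset.mem_erase] at hx'
    exact hx'.2.1 hx.2.symm
  rw [h1, Ex_union h2, Ex_map]

theorem filt_row {ι κ : Type*} [DecidableEq ι] [DecidableEq κ]
    {Y : Finset ι} {Z : Finset κ} {b : κ} {R : Finset ι} {G : Finset (ι × κ)} (hR : R ⊆ Y)
    (hG : G ⊆ Y ×ˢ (Z.erase b)) :
    Y.filter (fun y => (y, b) ∈ R.map (rowCh b) ∪ G) = R := by
  ext y
  rw [Finset.mem_filter, Finset.mem_union, mem_rowCh]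
  constructor
  · rintro ⟨hy, (⟨hy', _⟩ | h)⟩
    · exact hy'
    · have := hG h
      simp at this
  · intro hy
    exact ⟨hR hy, Or.inl ⟨hy, rfl⟩⟩

theorem filt_row' {ι κ : Type*} [DecidableEq ι] [DecidableEq κ]
    {Y : Finset ι} {b b' : κ} (hbb : b ≠ b') {R : Finset ι} {G : Finset (ι × κ)} :
    Y.filter (fun y => (y, b') ∈ R.map (rowCh b) ∪ G) = Y.filter (fun y => (y, b') ∈ G) := by
  ext y
  rw [Finset.mem_filter, Finset.mem_filter, Finset.mem_union, mem_rowCh]
  constructor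
  · rintro ⟨hy, (⟨hy', h⟩ | h)⟩
    · exact absurd h hbb
    · exact ⟨hy, h⟩
  · rintro ⟨hy, h⟩
    exact ⟨hy, Or.inr h⟩

/-- one row -/
theorem one_row {ι κ : Type*} [DecidableEq ι] [DecidableEq κ] (p : ℝ)
    (Y : Finset ι) (Z : Finset κ) (b : κ) (hb : b ∈ Z) (F : Finset ι → ℝ) :
    Ex p (Y ×ˢ Z) (fun E => F (Y.filter (fun y => (y, b) ∈ E))) = Ex p Y F := by
  rw [row_split p Y Z b hb]
  apply Ex_congr
  intro R hR
  rw [← Ex_const (p := p) (Y ×ˢ (Z.erase b)) (F R)]
  apply Ex_congr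
  intro G hG
  rw [filt_row hR hG]

/-- two different rows are independent -/
theorem two_rows {ι κ : Type*} [DecidableEq ι] [DecidableEq κ] (p : ℝ)
    (Y : Finset ι) (Z : Finset κ) (b b' : κ) (hb : b ∈ Z) (hb' : b' ∈ Z) (hbb : b ≠ b')
    (F : Finset ι → Finset ι → ℝ) :
    Ex p (Y ×ˢ Z) (fun E => F (Y.filter (fun y => (y, b) ∈ E)) (Y.filter (fun y => (y, b') ∈ E)))
      = Ex p Y (fun R => Ex p Y (fun R' => F R R')) := by
  rw [row_split p Y Z b hb]
  apply Ex_congr
  intro R hR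
  rw [← one_row p Y (Z.erase b) b' (Finset.mem_erase.2 ⟨hbb.symm, hb'⟩) (fun R' => F R R')]
  apply Ex_congr
  intro G hG
  rw [filt_row hR hG, filt_row' hbb]

/-- number of successes among independent rows: `Z` is the set of rows, each row is a random
subset of `Y`; with `Good` an event for a row of probability at least `ρ0`, the number of good
rows is at least `ρ0 |Z| / 2` except with small probability. -/
theorem many_good {ι κ : Type*} [DecidableEq ι] [DecidableEq κ] (p : ℝ) (hp : 0 ≤ p)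
    (hp1 : p ≤ 1) (Y : Finset ι) (Z : Finset κ) (Good : Finset ι → Prop) (ρ0 : ℝ) (hρ : 0 < ρ0)
    (hG : ρ0 ≤ Pr p Y Good) (hZ : 0 < Z.card) :
    Pr p (Y ×ˢ Z) (fun E => ((Z.filter (fun b =>
      Good (Y.filter (fun y => (y, b) ∈ E)))).card : ℝ) < ρ0 * Z.card / 2) ≤
      4 / (ρ0 * Z.card) := by
  obtain ⟨ρ, hρd⟩ : ∃ ρ, ρ = Pr p Y Good := ⟨_, rfl⟩
  have hρ' : ρ0 ≤ ρ := by rw [hρd]; exact hG
  have hZ' : (0 : ℝ) < Z.card := by exact_mod_cast hZ
  obtain ⟨h, hh⟩ : ∃ h : Finset ι → ℝ, h = fun R => (if Good R then (1:ℝ) else 0) - ρ := ⟨_, rfl⟩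
  have hN : ∀ E : Finset (ι × κ), ((Z.filter (fun b =>
      Good (Y.filter (fun y => (y, b) ∈ E)))).card : ℝ) - ρ * Z.card =
      ∑ b ∈ Z, h (Y.filter (fun y => (y, b) ∈ E)) := by
    intro E
    rw [hh]
    simp only [Finset.sum_sub_distrib, Finset.sum_const, nsmul_eq_mul, Finset.card_filter]
    push_cast
    rw [mul_comm]
  have hEh : Ex p Y h = 0 := by
    rw [hh]
    have := Ex_sub (p := p) Y (fun R => if Good R then (1:ℝ) else 0) (fun _ => ρ)
    rw [this, Ex_const, hρd]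
    unfold Pr
    ring
  have hEh2 : Ex p Y (fun R => h R * h R) ≤ ρ := by
    have h1 : Ex p Y (fun R => h R * h R) =
        Ex p Y (fun R => (1 - 2 * ρ) * (if Good R then (1:ℝ) else 0) + ρ ^ 2) := by
      apply Ex_congr
      intro R _
      rw [hh]
      by_cases hg : Good R
      · simp only [hg, if_true]; ring
      · simp only [hg, if_false]; ring
    rw [h1, Ex_add, Ex_const, Ex_mul_left]
    have h2 : Ex p Y (fun R => if Good R then (1:ℝ) else 0) = ρ := by rw [hρd]; rfl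
    rw [h2]
    nlinarith [sq_nonneg ρ]
  have hV : Ex p (Y ×ˢ Z) (fun E => (((Z.filter (fun b =>
      Good (Y.filter (fun y => (y, b) ∈ E)))).card : ℝ) - ρ * Z.card) ^ 2) ≤ ρ * Z.card := by
    simp_rw [hN, sq, Finset.sum_mul_sum]
    rw [Ex_sum]
    have : ρ * Z.card = ∑ b ∈ Z, ρ := by rw [Finset.sum_const, nsmul_eq_mul, mul_comm]
    rw [this]
    apply Finset.sum_le_sum
    intro b hb
    rw [Ex_sum, Finset.sum_eq_single b]
    · rw [one_row p Y Z b hb (fun R => h R * h R)]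
      exact hEh2
    · intro b' hb' hbb
      rw [two_rows p Y Z b b' hb hb' (Ne.symm hbb) (fun R R' => h R * h R')]
      simp_rw [Ex_mul_left, hEh, mul_zero]
      exact Ex_const _ _
    · intro h'
      exact absurd hb h'
  have hρ0 : 0 < ρ := lt_of_lt_of_le hρ hρ'
  have hc : 0 < ρ * Z.card / 2 := by positivity
  have hch := chebyshev hp hp1 (Y ×ˢ Z) (fun E => ((Z.filter (fun b =>
      Good (Y.filter (fun y => (y, b) ∈ E)))).card : ℝ)) (ρ * Z.card) hc
  have hmono : Pr p (Y ×ˢ Z) (fun E => ((Z.filter (fun b =>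
      Good (Y.filter (fun y => (y, b) ∈ E)))).card : ℝ) < ρ0 * Z.card / 2) ≤
      Pr p (Y ×ˢ Z) (fun E => ρ * Z.card / 2 ≤ |((Z.filter (fun b =>
      Good (Y.filter (fun y => (y, b) ∈ E)))).card : ℝ) - ρ * Z.card|) := by
    apply Pr_mono hp hp1
    intro E _ hE
    rw [abs_sub_comm]
    refine le_trans ?_ (le_abs_self _)
    have : ρ0 * Z.card ≤ ρ * Z.card := mul_le_mul_of_nonneg_right hρ' hZ'.le
    linarith
  refine le_trans hmono (le_trans hch ?_)
  calc _ ≤ ρ * Z.card / (ρ * Z.card / 2) ^ 2 := by gcongr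
    _ = 4 / (ρ * Z.card) := by field_simp; ring
    _ ≤ 4 / (ρ0 * Z.card) := by gcongr

end DW
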