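import Pool.Agent.Helper553.DimWidth.Graph

set_option autoImplicit false
set_option linter.unusedSectionVars false
open scoped Classical
open Finset

namespace DW

open Filter Topology in
theorem a1_ex_p0 {P : ℝ → Prop} (h : ∀ᶠ p in 𝓝[>] (0:ℝ), P p) :
    ∃ p0 : ℝ, 0 < p0 ∧ p0 < 1 / 100 ∧ ∀ p : ℝ, 0 < p → p < p0 → P p := by
  rw [eventually_iff, mem_nhdsGT_iff_exists_Ioo_subset] at h
  obtain ⟨u, hu, hsub⟩ := h
  refine ⟨min u (1 / 200), lt_min hu (by norm_num), ?_, ?_⟩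
  · exact lt_of_le_of_lt (min_le_right _ _) (by norm_num)
  · intro p hp hpu
    exact hsub ⟨hp, lt_of_lt_of_le hpu (min_le_left _ _)⟩

open Filter Topology in
theorem a1_L_top : Tendsto (fun p : ℝ => Real.log (1 / p)) (𝓝[>] 0) atTop := by
  have h : (fun p : ℝ => Real.log (1 / p)) = fun p => - Real.log p := by
    funext p; rw [one_div, Real.log_inv]
  rw [h]
  exact tendsto_neg_atBot_atTop.comp Real.tendsto_log_nhdsGT_zero

open Filter Topology in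
theorem a1_pL_zero : Tendsto (fun p : ℝ => Real.log (1 / p) * p) (𝓝[>] 0) (𝓝 0) := by
  have h : (fun p : ℝ => Real.log (1 / p) * p) = fun p => - (Real.log p * p ^ (1:ℝ)) := by
    funext p; rw [one_div, Real.log_inv, Real.rpow_one]; ring
  rw [h]
  simpa using (tendsto_log_mul_rpow_nhdsGT_zero (r := 1) one_pos).neg

open Filter Topology in
theorem a1_p_zero : Tendsto (fun p : ℝ => p) (𝓝[>] 0) (𝓝 0) :=
  tendsto_nhdsWithin_of_tendsto_nhds tendsto_id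

open Filter Topology in
theorem a1_rpow_zero (r : ℝ) (hr : 0 < r) : Tendsto (fun p : ℝ => p ^ r) (𝓝[>] 0) (𝓝 0) := by
  have h := (Real.continuousAt_rpow_const 0 r (Or.inr hr.le)).tendsto
  rw [Real.zero_rpow hr.ne'] at h
  exact tendsto_nhdsWithin_of_tendsto_nhds h

open Filter Topology in
theorem a1_ev (β : ℝ) (hβ : 0 < β) : ∀ᶠ p in 𝓝[>] (0:ℝ), 
    (0 < p ∧ p < 1 / 100) ∧ 5 ≤ Real.log (β * Real.sqrt (Real.log (1 / p) / p)) ∧
    β ^ 2 * (Real.log (1 / p) * p) ≤ 1 ∧ p + Real.log (1 / p) * p / 2 ≤ 1 / 10 ∧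
    1 ≤ (8 / 10) * β ^ 2 * Real.log (1 / p) ∧ 1 ≤ Real.log (1 / p) := by
  have e1 : ∀ᶠ p in 𝓝[>] (0:ℝ), 0 < p := eventually_mem_nhdsWithin
  have e2 : ∀ᶠ p in 𝓝[>] (0:ℝ), p < 1 / 100 := a1_p_zero.eventually (gt_mem_nhds (by norm_num))
  have e3 : ∀ᶠ p in 𝓝[>] (0:ℝ), Real.log (1 / p) * p < min (1 / β ^ 2) (1 / 10) :=
    a1_pL_zero.eventually (gt_mem_nhds (by positivity))
  have e4 : ∀ᶠ p in 𝓝[>] (0:ℝ), max (1 / ((8 / 10) * β ^ 2)) (max 1 ((Real.exp 5 / β) ^ 2)) ≤ Real.log (1 / p) :=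
    a1_L_top.eventually_ge_atTop _
  have e5 : ∀ᶠ p in 𝓝[>] (0:ℝ), p < 1 / 20 := a1_p_zero.eventually (gt_mem_nhds (by norm_num))
  filter_upwards [e1, e2, e3, e4, e5] with p h1 h2 h3 h4 h5
  have hβ2 : 0 < β ^ 2 := by positivity
  have h3a := (lt_min_iff.1 h3).1
  have h3b := (lt_min_iff.1 h3).2
  have h4a := (max_le_iff.1 h4).1
  have h4b := (max_le_iff.1 (max_le_iff.1 h4).2).1
  have h4c := (max_le_iff.1 (max_le_iff.1 h4).2).2
  refine ⟨⟨h1, h2⟩, ?_, ?_, ?_, ?_, h4b⟩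
  · rw [Real.le_log_iff_exp_le (by
      have : 0 < Real.log (1 / p) / p := by positivity
      positivity)]
    have h6 : Real.exp 5 / β ≤ Real.sqrt (Real.log (1 / p) / p) := by
      apply Real.le_sqrt_of_sq_le
      refine h4c.trans ?_
      rw [le_div_iff₀ h1]
      nlinarith
    rw [div_le_iff₀ hβ] at h6
    linarith
  · rw [lt_div_iff₀ hβ2] at h3a
    linarith
  · linarith
  · rw [div_le_iff₀ (by positivity)] at h4a
    linarith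

theorem a1_mu (β : ℝ) (hβ : 0 < β) (p : ℝ) (hp : 0 < p) (hp1 : p < 1 / 100)
    (h1 : 5 ≤ Real.log (β * Real.sqrt (Real.log (1 / p) / p)))
    (h2 : β ^ 2 * (Real.log (1 / p) * p) ≤ 1) (h3 : p + Real.log (1 / p) * p / 2 ≤ 1 / 10)
    (h4 : 1 ≤ (8 / 10) * β ^ 2 * Real.log (1 / p)) (h5 : 1 ≤ Real.log (1 / p)) (m : ℕ)
    (hm : m = ⌊Real.log (β * Real.sqrt (Real.log (1 / p) / p)) / p⌋₊) :
    4 / p ≤ m ∧ (m : ℝ) ≤ Real.log (1 / p) / p ∧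
    (8 / 10) * β ^ 2 * Real.log (1 / p) ≤ p * ((1 + p) ^ m) ^ 2 ∧
    p * ((1 + p) ^ m) ^ 2 ≤ β ^ 2 * Real.log (1 / p) ∧
    p ^ (-(1 / 2) : ℝ) ≤ (1 + p) ^ m := by
  set L := Real.log (1 / p) with hL
  set T := Real.log (β * Real.sqrt (L / p)) with hT
  have hLpos : 0 < L := by linarith
  have hLp : 0 < L / p := by positivity
  have hexpT : Real.exp T = β * Real.sqrt (L / p) := Real.exp_log (by positivity)
  have hexpT2 : Real.exp T ^ 2 = β ^ 2 * L / p := by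
    rw [hexpT, mul_pow, Real.sq_sqrt hLp.le]; ring
  have hexpL : Real.exp L = 1 / p := Real.exp_log (by positivity)
  have hTL : T ≤ L := by
    have h6 : Real.exp T ^ 2 ≤ Real.exp L ^ 2 := by
      rw [hexpT2, hexpL, div_pow, one_pow, div_le_div_iff₀ hp (by positivity)]
      have : β ^ 2 * L * p ^ 2 = (β ^ 2 * (L * p)) * p := by ring
      rw [this]; nlinarith
    have h7 : Real.exp T ≤ Real.exp L := by
      exact le_of_sq_le_sq h6 (Real.exp_pos _).le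
    exact Real.exp_le_exp.1 h7
  have hm1 : T / p < m + 1 := by rw [hm]; exact Nat.lt_floor_add_one _
  have hTp : 0 ≤ T / p := by positivity
  have hm2 : (m : ℝ) ≤ T / p := by rw [hm]; exact Nat.floor_le hTp
  have hmp : (m : ℝ) * p ≤ T := by rwa [le_div_iff₀ hp] at hm2
  have hmp2 : T - p < m * p := by
    rw [div_lt_iff₀ hp] at hm1; linarith
  have hμpos : 0 < (1 + p) ^ m := by positivity
  have hμle : (1 + p) ^ m ≤ Real.exp T := by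
    calc (1 + p) ^ m ≤ (Real.exp p) ^ m := by
          apply pow_le_pow_left₀ (by positivity)
          have := Real.add_one_le_exp p
          linarith
      _ = Real.exp (m * p) := by rw [← Real.exp_nat_mul]
      _ ≤ Real.exp T := Real.exp_le_exp.2 hmp
  have hlog : p - p ^ 2 / 2 ≤ Real.log (1 + p) := by
    refine le_trans ?_ (Real.le_log_one_add_of_nonneg hp.le)
    rw [le_div_iff₀ (by positivity)]
    nlinarith [pow_pos hp 3]
  have hμge : Real.exp (T - 1 / 10) ≤ (1 + p) ^ m := by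
    have e1 : (1 + p) ^ m = Real.exp (m * Real.log (1 + p)) := by
      rw [Real.exp_nat_mul, Real.exp_log (by positivity)]
    rw [e1, Real.exp_le_exp]
    have h6 : (m : ℝ) * (p - p ^ 2 / 2) ≤ m * Real.log (1 + p) :=
      mul_le_mul_of_nonneg_left hlog (Nat.cast_nonneg _)
    refine le_trans ?_ h6
    have h7 : (m : ℝ) * (p - p ^ 2 / 2) = m * p - (m * p) * (p / 2) := by ring
    rw [h7]
    have h8 : (m : ℝ) * p * (p / 2) ≤ T * (p / 2) := by gcongr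
    have h9 : T * (p / 2) ≤ L * p / 2 := by
      have : T * (p / 2) ≤ L * (p / 2) := by gcongr
      linarith
    linarith
  have hexp01 : (8 : ℝ) / 10 ≤ Real.exp (-(1 / 10)) ^ 2 := by
    have h6 : Real.exp (-(1 / 10)) ^ 2 = Real.exp (-(1 / 5)) := by
      rw [← Real.exp_nat_mul]; norm_num
    rw [h6]
    have := Real.add_one_le_exp (-(1 / 5) : ℝ)
    linarith
  have hc : (8 / 10) * β ^ 2 * L ≤ p * ((1 + p) ^ m) ^ 2 := by
    have h6 : Real.exp (T - 1 / 10) ^ 2 ≤ ((1 + p) ^ m) ^ 2 := by gcongr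
    have h7 : Real.exp (T - 1 / 10) ^ 2 = Real.exp T ^ 2 * Real.exp (-(1 / 10)) ^ 2 := by
      rw [sub_eq_add_neg, Real.exp_add, mul_pow]
    rw [h7, hexpT2] at h6
    have h8 : β ^ 2 * L / p * (8 / 10) ≤ β ^ 2 * L / p * Real.exp (-(1 / 10)) ^ 2 := by gcongr
    have h9 : β ^ 2 * L / p * (8 / 10) ≤ ((1 + p) ^ m) ^ 2 := h8.trans h6
    have h10 : p * (β ^ 2 * L / p * (8 / 10)) ≤ p * ((1 + p) ^ m) ^ 2 := by gcongr
    have h11 : p * (β ^ 2 * L / p * (8 / 10)) = (8 / 10) * β ^ 2 * L := by field_simp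
    linarith
  refine ⟨?_, ?_, hc, ?_, ?_⟩
  · rw [div_le_iff₀ hp]
    linarith
  · rw [le_div_iff₀ hp]; linarith
  · have h6 : ((1 + p) ^ m) ^ 2 ≤ Real.exp T ^ 2 := by gcongr
    rw [hexpT2] at h6
    have h7 : p * ((1 + p) ^ m) ^ 2 ≤ p * (β ^ 2 * L / p) := by gcongr
    have h8 : p * (β ^ 2 * L / p) = β ^ 2 * L := by field_simp
    linarith
  · have h6 : 1 ≤ p * ((1 + p) ^ m) ^ 2 := h4.trans hc
    have h7 : (p ^ (-(1 / 2) : ℝ)) ^ 2 = 1 / p := by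
      rw [← Real.rpow_natCast, ← Real.rpow_mul hp.le]
      norm_num
      rw [Real.rpow_neg_one]
    have h8 : (p ^ (-(1 / 2) : ℝ)) ^ 2 ≤ ((1 + p) ^ m) ^ 2 := by
      rw [h7, div_le_iff₀ hp]; linarith
    exact le_of_sq_le_sq h8 hμpos.le

/-- size of `μ = (1+p)^m` for the chosen length `m` -/
theorem mu_bounds (β : ℝ) (hβ : 0 < β) : ∃ p0 : ℝ, 0 < p0 ∧ p0 < 1 / 100 ∧
    ∀ p : ℝ, 0 < p → p < p0 → ∀ m : ℕ,
    m = ⌊Real.log (β * Real.sqrt (Real.log (1 / p) / p)) / p⌋₊ →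
    4 / p ≤ m ∧ (m : ℝ) ≤ Real.log (1 / p) / p ∧
    (8 / 10) * β ^ 2 * Real.log (1 / p) ≤ p * ((1 + p) ^ m) ^ 2 ∧
    p * ((1 + p) ^ m) ^ 2 ≤ β ^ 2 * Real.log (1 / p) ∧
    p ^ (-(1 / 2) : ℝ) ≤ (1 + p) ^ m := by
  obtain ⟨p0, h0, h1, h⟩ := a1_ex_p0 (a1_ev β hβ)
  refine ⟨p0, h0, h1, ?_⟩
  intro p hp hpp m hm
  obtain ⟨⟨_, g1⟩, g2, g3, g4, g5, g6⟩ := h p hp hpp
  exact a1_mu β hβ p hp g1 g2 g3 g4 g5 g6 m hm


open Filter Topology in
theorem a1_ev2 (ρ ε3 δ : ℝ) (hρ : 0 < ρ) (hε3 : 0 < ε3) (hδ : 0 < δ) : ∀ᶠ p in 𝓝[>] (0:ℝ), 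
    (0 < p ∧ p ≤ ε3 / 4 ∧ p ≤ ρ * ε3 / 32 ∧ p ≤ δ) ∧ 
    p ^ ((53 / 100 : ℝ)) ≤ δ ^ 2 * ρ * ε3 / 96 ∧
    16 / ρ ^ 2 * p ^ ((9 / 100 : ℝ)) ≤ δ ^ 2 / 3 ∧
    Real.exp ((1 / 100) / Real.log (1 / p)) - 1 ≤ δ ^ 2 / 3 := by
  have e1 : ∀ᶠ p in 𝓝[>] (0:ℝ), 0 < p := eventually_mem_nhdsWithin
  have e2 : ∀ᶠ p in 𝓝[>] (0:ℝ), p < min (ε3 / 4) (min (ρ * ε3 / 32) δ) :=
    a1_p_zero.eventually (gt_mem_nhds (by positivity))
  have e3 : ∀ᶠ p in 𝓝[>] (0:ℝ), p ^ ((53 / 100 : ℝ)) < δ ^ 2 * ρ * ε3 / 96 :=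
    (a1_rpow_zero _ (by norm_num)).eventually (gt_mem_nhds (by positivity))
  have e4 : ∀ᶠ p in 𝓝[>] (0:ℝ), p ^ ((9 / 100 : ℝ)) < (δ ^ 2 / 3) / (16 / ρ ^ 2) :=
    (a1_rpow_zero _ (by norm_num)).eventually (gt_mem_nhds (by positivity))
  have e5 : ∀ᶠ p in 𝓝[>] (0:ℝ), max 1 ((1 / 100) / Real.log (1 + δ ^ 2 / 3)) ≤ Real.log (1 / p) :=
    a1_L_top.eventually_ge_atTop _
  filter_upwards [e1, e2, e3, e4, e5] with p h1 h2 h3 h4 h5
  have h2a := (lt_min_iff.1 h2).1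
  have h2b := (lt_min_iff.1 (lt_min_iff.1 h2).2).1
  have h2c := (lt_min_iff.1 (lt_min_iff.1 h2).2).2
  have h5a := (max_le_iff.1 h5).1
  have h5b := (max_le_iff.1 h5).2
  have hlpos : 0 < Real.log (1 + δ ^ 2 / 3) := Real.log_pos (by
    have : 0 < δ ^ 2 := by positivity
    linarith)
  refine ⟨⟨h1, h2a.le, h2b.le, h2c.le⟩, h3.le, ?_, ?_⟩
  · rw [lt_div_iff₀ (by positivity)] at h4
    linarith
  · have h6 : (1 / 100) / Real.log (1 / p) ≤ Real.log (1 + δ ^ 2 / 3) := by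
      rw [div_le_iff₀ hlpos] at h5b
      rw [div_le_iff₀ (by linarith)]
      linarith
    have h7 := Real.exp_le_exp.2 h6
    rw [Real.exp_log (by positivity)] at h7
    linarith

theorem a1_core (i0 : ℕ) (hi0 : 10 ^ 8 ≤ i0) (β : ℝ) (hβ : β = 4.4 / (10 ^ 6 * i0))
    (ρ ε3 δ : ℝ) (hρ : 0 < ρ) (hρ1 : ρ ≤ 1) (hε3 : 0 < ε3) (hδ : 0 < δ) (p : ℝ) (hp : 0 < p)
    (hp1 : p < 1 / 100) (c1 : p ≤ ε3 / 4) (c2 : p ≤ ρ * ε3 / 32) (c3 : p ≤ δ)
    (c4 : p ^ ((53 / 100 : ℝ)) ≤ δ ^ 2 * ρ * ε3 / 96)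
    (c5 : 16 / ρ ^ 2 * p ^ ((9 / 100 : ℝ)) ≤ δ ^ 2 / 3)
    (c6 : Real.exp ((1 / 100) / Real.log (1 / p)) - 1 ≤ δ ^ 2 / 3)
    (m N N1 : ℕ) (hN : ε3 / (2 * p) ≤ N) (hN2 : (N : ℝ) ≤ p ^ (-(51 / 50) : ℝ))
    (hN1 : N1 = ⌊ρ * ((N / 2 : ℕ) : ℝ) / 2⌋₊) (μ hi L : ℝ) (hμ : μ = (1 + p) ^ m)
    (hL : L = Real.log (1 / p)) (hhi : hi = (153600 * i0 + 17) * μ)
    (m1 : (8 / 10) * β ^ 2 * L ≤ p * μ ^ 2)
    (m2 : p * μ ^ 2 ≤ β ^ 2 * L)  :
    1 ≤ N1 ∧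
    N1 * Real.exp (-Real.log (1 - p) * (hi * hi)) +
      (p ^ ((1 / 10) : ℝ) * ((N / 2 : ℕ) : ℝ) ^ 2) * Real.exp (-Real.log (1 - p) * (hi * (160 * μ))) +
      (N1 : ℝ) ^ 2 * (Real.exp (-Real.log (1 - p) * (hi * (μ / L ^ 2))) - 1) ≤
        δ ^ 2 * (N1 : ℝ) ^ 2 ∧
    (N1 : ℝ) ^ (2 * i0) * (1 - p) ^ (⌊80 * (i0 : ℝ) ^ 2 * μ⌋₊ * ⌊80 * (i0 : ℝ) ^ 2 * μ⌋₊) ≤ δ := by
  have hμ1 : 1 ≤ μ := by rw [hμ]; exact one_le_pow₀ (by linarith)
  have hμpos : 0 < μ := by linarith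
  have hi0r : (10 : ℝ) ^ 8 ≤ i0 := by exact_mod_cast hi0
  have hi0pos : (0 : ℝ) < i0 := by linarith
  obtain ⟨i, hi_def⟩ : ∃ i : ℝ, i = (i0 : ℝ) := ⟨_, rfl⟩
  rw [← hi_def] at hi0r hi0pos hhi hβ
  have hLexp : Real.exp L = 1 / p := by rw [hL]; exact Real.exp_log (by positivity)
  have hL1 : 1 ≤ L := by
    have h6 : Real.exp 1 ≤ Real.exp L := by
      rw [hLexp]
      have h7 : (100 : ℝ) ≤ 1 / p := by rw [le_div_iff₀ hp]; linarith
      have := Real.exp_one_lt_d9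
      linarith
    exact Real.exp_le_exp.1 h6
  have hLpos : 0 < L := by linarith
  have hrpow : ∀ r : ℝ, Real.exp (r * L) = p ^ (-r) := by
    intro r
    rw [Real.rpow_def_of_pos hp, hL, one_div, Real.log_inv]
    ring_nf
  -- β
  have hβ2 : β ^ 2 * i ^ 2 = 19.36 / 10 ^ 12 := by
    rw [hβ]; field_simp; norm_num
  have hpμ : p * μ ^ 2 * i ^ 2 ≤ 19.36 / 10 ^ 12 * L := by
    calc p * μ ^ 2 * i ^ 2 ≤ β ^ 2 * L * i ^ 2 := by gcongr
      _ = β ^ 2 * i ^ 2 * L := by ring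
      _ = _ := by rw [hβ2]
  have hpμ' : (8 / 10) * (19.36 / 10 ^ 12) * L ≤ p * μ ^ 2 * i ^ 2 := by
    calc (8 / 10) * (19.36 / 10 ^ 12) * L = (8 / 10) * (β ^ 2 * i ^ 2) * L := by rw [hβ2]
      _ = (8 / 10) * β ^ 2 * L * i ^ 2 := by ring
      _ ≤ _ := by gcongr
  -- lam
  set lam := -Real.log (1 - p) with hlam
  have hlam0 : 0 ≤ lam := by
    have := Real.log_nonpos (x := 1 - p) (by linarith) (by linarith)
    linarith
  have hlam1 : lam ≤ 1.0102 * p := by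
    have h6 : 1 - (1 - p)⁻¹ ≤ Real.log (1 - p) := Real.one_sub_inv_le_log_of_pos (by linarith)
    have h7 : (1 - p)⁻¹ ≤ 1 + 1.0102 * p := by
      rw [inv_le_comm₀ (by linarith) (by nlinarith), inv_le_iff_one_le_mul₀ (by nlinarith)]
      nlinarith
    linarith
  have hlam2 : lam * (hi * (160 * μ)) ≤ (1 / 100) * L := by
    have h6 : lam * (hi * (160 * μ)) ≤ (1.0102 * p) * ((153617 * i * μ) * (160 * μ)) := by
      have h7 : hi ≤ 153617 * i * μ := by rw [hhi]; nlinarith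
      have h8 : 0 ≤ hi := by rw [hhi]; positivity
      gcongr
    have h9 : (1.0102 * p) * ((153617 * i * μ) * (160 * μ)) = 1.0102 * 153617 * 160 * (p * μ ^ 2 * i) := by ring
    have h10 : p * μ ^ 2 * i ≤ 19.36 / 10 ^ 12 * L := by
      refine le_trans ?_ hpμ
      have : 0 < p * μ ^ 2 := by positivity
      nlinarith
    rw [h9] at h6
    have h11 : 1.0102 * 153617 * 160 * (p * μ ^ 2 * i) ≤ 1.0102 * 153617 * 160 * (19.36 / 10 ^ 12 * L) := by gcongr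
    refine h6.trans (h11.trans ?_)
    norm_num
    linarith
  have hlam3 : lam * (hi * hi) ≤ (47 / 100) * L := by
    have h6 : lam * (hi * hi) ≤ (1.0102 * p) * ((153617 * i * μ) * (153617 * i * μ)) := by
      have h7 : hi ≤ 153617 * i * μ := by rw [hhi]; nlinarith
      have h8 : 0 ≤ hi := by rw [hhi]; positivity
      gcongr
    have h9 : (1.0102 * p) * ((153617 * i * μ) * (153617 * i * μ)) = 1.0102 * 153617 ^ 2 * (p * μ ^ 2 * i ^ 2) := by ring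
    rw [h9] at h6
    have h11 : 1.0102 * 153617 ^ 2 * (p * μ ^ 2 * i ^ 2) ≤ 1.0102 * 153617 ^ 2 * (19.36 / 10 ^ 12 * L) := by gcongr
    refine h6.trans (h11.trans ?_)
    norm_num
    linarith
  have hlam4 : lam * (hi * (μ / L ^ 2)) ≤ (1 / 100) / L := by
    have h6 : lam * (hi * (μ / L ^ 2)) = (lam * (hi * (160 * μ))) * (1 / 160) / L ^ 2 := by field_simp
    rw [h6, div_le_div_iff₀ (by positivity) hLpos]
    have h7 : (lam * (hi * (160 * μ))) * (1 / 160) ≤ (1 / 100) * L := by linarith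
    calc (lam * (hi * (160 * μ))) * (1 / 160) * L ≤ (1 / 100) * L * L := by gcongr
      _ = (1 / 100) * L ^ 2 := by ring
  -- N1
  set H : ℝ := ((N / 2 : ℕ) : ℝ) with hH
  have hH0 : 0 ≤ H := Nat.cast_nonneg _
  have hHN : (N : ℝ) ≤ 2 * H + 1 := by
    have : N ≤ 2 * (N / 2) + 1 := by omega
    rw [hH]; exact_mod_cast this
  have hHN2 : H ≤ N := by
    rw [hH]; exact_mod_cast Nat.div_le_self N 2
  have hHl : ε3 / (8 * p) ≤ H := by
    have h6 : ε3 / (2 * p) = 4 * (ε3 / (8 * p)) := by field_simp; norm_num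
    have h7 : 1 / 2 ≤ ε3 / (8 * p) := by
      rw [div_le_div_iff₀ (by norm_num) (by positivity)]; linarith
    linarith
  have hρH : 1 ≤ ρ * H / 4 := by
    have h6 : ρ * (ε3 / (8 * p)) / 4 ≤ ρ * H / 4 := by gcongr
    refine le_trans ?_ h6
    rw [show ρ * (ε3 / (8 * p)) / 4 = (ρ * ε3) / (32 * p) by field_simp; norm_num]
    rw [le_div_iff₀ (by positivity)]
    linarith
  have hN1l : ρ * H / 4 ≤ N1 := by
    have h6 : ρ * H / 2 < (N1 : ℝ) + 1 := by rw [hN1]; exact Nat.lt_floor_add_one _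
    linarith
  have hN1u : (N1 : ℝ) ≤ N := by
    have h6 : (N1 : ℝ) ≤ ρ * H / 2 := by rw [hN1]; exact Nat.floor_le (by positivity)
    nlinarith
  have hN1one : (1 : ℝ) ≤ N1 := hρH.trans hN1l
  have hN1p : ρ * ε3 / (32 * p) ≤ N1 := by
    refine le_trans ?_ hN1l
    have h6 : ρ * (ε3 / (8 * p)) / 4 ≤ ρ * H / 4 := by gcongr
    rwa [show ρ * (ε3 / (8 * p)) / 4 = (ρ * ε3) / (32 * p) by field_simp; norm_num] at h6
  have hN1pos : (0 : ℝ) < N1 := by linarith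
  refine ⟨by exact_mod_cast hN1one, ?_, ?_⟩
  · have t1 : N1 * Real.exp (lam * (hi * hi)) ≤ δ ^ 2 / 3 * (N1 : ℝ) ^ 2 := by
      have h6 : Real.exp (lam * (hi * hi)) ≤ p ^ (-(47 / 100 : ℝ)) := by
        rw [← hrpow]; exact Real.exp_le_exp.2 hlam3
      have h7 : p ^ (-(47 / 100 : ℝ)) ≤ δ ^ 2 / 3 * N1 := by
        have h8 : p ^ (-(47 / 100 : ℝ)) = p ^ (53 / 100 : ℝ) / p := by
          rw [eq_div_iff hp.ne']
          nth_rewrite 2 [← Real.rpow_one p]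
          rw [← Real.rpow_add hp]; norm_num
        rw [h8]
        calc p ^ (53 / 100 : ℝ) / p ≤ (δ ^ 2 * ρ * ε3 / 96) / p := by gcongr
          _ = δ ^ 2 / 3 * (ρ * ε3 / (32 * p)) := by field_simp; norm_num
          _ ≤ _ := by gcongr
      calc N1 * Real.exp (lam * (hi * hi)) ≤ N1 * (δ ^ 2 / 3 * N1) := by
            gcongr; exact h6.trans h7
        _ = _ := by ring
    have t2 : (p ^ ((1 / 10) : ℝ) * H ^ 2) * Real.exp (lam * (hi * (160 * μ))) ≤ δ ^ 2 / 3 * (N1 : ℝ) ^ 2 := by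
      have h6 : Real.exp (lam * (hi * (160 * μ))) ≤ p ^ (-(1 / 100 : ℝ)) := by
        rw [← hrpow]; exact Real.exp_le_exp.2 hlam2
      have h7 : H ^ 2 ≤ 16 / ρ ^ 2 * (N1 : ℝ) ^ 2 := by
        have h8 : H ≤ 4 / ρ * N1 := by
          rw [div_mul_eq_mul_div, le_div_iff₀ hρ]; linarith
        calc H ^ 2 ≤ (4 / ρ * N1) ^ 2 := by gcongr
          _ = _ := by ring
      calc (p ^ ((1 / 10) : ℝ) * H ^ 2) * Real.exp (lam * (hi * (160 * μ)))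
          ≤ (p ^ ((1 / 10) : ℝ) * (16 / ρ ^ 2 * (N1 : ℝ) ^ 2)) * p ^ (-(1 / 100 : ℝ)) := by gcongr
        _ = (16 / ρ ^ 2 * (p ^ ((1 / 10) : ℝ) * p ^ (-(1 / 100 : ℝ)))) * (N1 : ℝ) ^ 2 := by ring
        _ = (16 / ρ ^ 2 * p ^ (9 / 100 : ℝ)) * (N1 : ℝ) ^ 2 := by
          rw [← Real.rpow_add hp]; norm_num
        _ ≤ _ := by gcongr
    have t3 : (N1 : ℝ) ^ 2 * (Real.exp (lam * (hi * (μ / L ^ 2))) - 1) ≤ δ ^ 2 / 3 * (N1 : ℝ) ^ 2 := by
      have h6 : Real.exp (lam * (hi * (μ / L ^ 2))) ≤ Real.exp ((1 / 100) / L) :=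
        Real.exp_le_exp.2 hlam4
      rw [← hL] at c6
      have h7 : Real.exp (lam * (hi * (μ / L ^ 2))) - 1 ≤ δ ^ 2 / 3 := by linarith
      calc (N1 : ℝ) ^ 2 * (Real.exp (lam * (hi * (μ / L ^ 2))) - 1) ≤ (N1 : ℝ) ^ 2 * (δ ^ 2 / 3) := by
            gcongr
        _ = _ := by ring
    linarith
  · rw [← hi_def]
    set a := ⌊80 * i ^ 2 * μ⌋₊ with ha
    have ha1 : 79 * (i ^ 2 * μ) ≤ a := by
      have h6 : 80 * i ^ 2 * μ < (a : ℝ) + 1 := by rw [ha]; exact Nat.lt_floor_add_one _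
      have h7 : 1 ≤ i ^ 2 * μ := by
        have : 1 ≤ i ^ 2 := by nlinarith
        nlinarith
      linarith
    have ha2 : (96 / 10) * i * L ≤ p * (a * a : ℝ) := by
      have h6 : (79 * (i ^ 2 * μ)) * (79 * (i ^ 2 * μ)) ≤ (a * a : ℝ) := by
        have : 0 ≤ i ^ 2 * μ := by positivity
        gcongr
      have h7 : p * ((79 * (i ^ 2 * μ)) * (79 * (i ^ 2 * μ))) ≤ p * (a * a : ℝ) := by gcongr
      refine le_trans ?_ h7
      have h8 : p * ((79 * (i ^ 2 * μ)) * (79 * (i ^ 2 * μ))) = 6241 * (p * μ ^ 2 * i ^ 2) * i ^ 2 := by ring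
      rw [h8]
      have h9 : 6241 * ((8 / 10) * (19.36 / 10 ^ 12) * L) * i ^ 2 ≤ 6241 * (p * μ ^ 2 * i ^ 2) * i ^ 2 := by gcongr
      refine le_trans ?_ h9
      have h10 : 6241 * ((8 / 10) * (19.36 / 10 ^ 12) * L) * i ^ 2 = (6241 * ((8 / 10) * (19.36 / 10 ^ 12)) * i) * (i * L) := by ring
      rw [h10, mul_assoc]
      have h11 : (96 / 10 : ℝ) ≤ 6241 * ((8 / 10) * (19.36 / 10 ^ 12)) * i := by
        norm_num at hi0r ⊢
        linarith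
      have : 0 ≤ i * L := by positivity
      gcongr
    have h6 : (1 - p) ^ (a * a) ≤ Real.exp (-(p * (a * a : ℝ))) := by
      calc (1 - p) ^ (a * a) ≤ (Real.exp (-p)) ^ (a * a) := by
            apply pow_le_pow_left₀ (by linarith)
            have := Real.add_one_le_exp (-p)
            linarith
        _ = _ := by
          rw [← Real.exp_nat_mul]; congr 1; push_cast; ring
    have h7 : (N1 : ℝ) ^ (2 * i0) ≤ Real.exp ((2 * i) * ((51 / 50) * L)) := by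
      calc (N1 : ℝ) ^ (2 * i0) ≤ (p ^ (-(51 / 50) : ℝ)) ^ (2 * i0) := by
            apply pow_le_pow_left₀ hN1pos.le
            exact hN1u.trans hN2
        _ = (Real.exp ((51 / 50) * L)) ^ (2 * i0) := by rw [hrpow]
        _ = _ := by
          rw [← Real.exp_nat_mul]; congr 1; push_cast; rw [hi_def]
    calc (N1 : ℝ) ^ (2 * i0) * (1 - p) ^ (a * a)
        ≤ Real.exp ((2 * i) * ((51 / 50) * L)) * Real.exp (-(p * (a * a : ℝ))) := by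
          have : 0 ≤ (1 - p) ^ (a * a) := pow_nonneg (by linarith) _
          gcongr
      _ = Real.exp ((2 * i) * ((51 / 50) * L) + -(p * (a * a : ℝ))) := by rw [Real.exp_add]
      _ ≤ Real.exp (-L) := by
          rw [Real.exp_le_exp]
          have h8 : 1 ≤ i := by norm_num at hi0r; linarith
          have h9 : L ≤ i * L := by nlinarith
          have h10 : (2 * i) * ((51 / 50) * L) = (204 / 100) * (i * L) := by ring
          have h11 : (96 / 10) * i * L = (96 / 10) * (i * L) := by ring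
          rw [h10]; rw [h11] at ha2
          linarith
      _ = p := by rw [Real.exp_neg, hLexp]; simp
      _ ≤ δ := c3

/-- the numerical conditions of the window theorem -/
theorem core_window (i0 : ℕ) (hi0 : 10 ^ 8 ≤ i0) (β : ℝ) (hβ : β = 4.4 / (10 ^ 6 * i0))
    (ρ ε3 δ : ℝ) (hρ : 0 < ρ) (hρ1 : ρ ≤ 1) (hε3 : 0 < ε3) (hδ : 0 < δ) :
    ∃ p0 : ℝ, 0 < p0 ∧ p0 < 1 / 100 ∧
    ∀ p : ℝ, 0 < p → p < p0 → ∀ m N N1 : ℕ,
    m = ⌊Real.log (β * Real.sqrt (Real.log (1 / p) / p)) / p⌋₊ →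
    ε3 / (2 * p) ≤ N → (N : ℝ) ≤ p ^ (-(51 / 50) : ℝ) →
    N1 = ⌊ρ * ((N / 2 : ℕ) : ℝ) / 2⌋₊ →
    ∀ μ hi L : ℝ, μ = (1 + p) ^ m → L = Real.log (1 / p) → hi = (153600 * i0 + 17) * μ →
    1 ≤ N1 ∧
    N1 * Real.exp (-Real.log (1 - p) * (hi * hi)) +
      (p ^ ((1 / 10) : ℝ) * ((N / 2 : ℕ) : ℝ) ^ 2) * Real.exp (-Real.log (1 - p) * (hi * (160 * μ))) +
      (N1 : ℝ) ^ 2 * (Real.exp (-Real.log (1 - p) * (hi * (μ / L ^ 2))) - 1) ≤
        δ ^ 2 * (N1 : ℝ) ^ 2 ∧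
    (N1 : ℝ) ^ (2 * i0) * (1 - p) ^ (⌊80 * (i0 : ℝ) ^ 2 * μ⌋₊ * ⌊80 * (i0 : ℝ) ^ 2 * μ⌋₊) ≤ δ := by
  have hi0pos : (0 : ℝ) < i0 := by
    have : 0 < i0 := lt_of_lt_of_le (by norm_num) hi0
    exact_mod_cast this
  have hβ0 : 0 < β := by rw [hβ]; positivity
  obtain ⟨p0, h0, h1, h⟩ := mu_bounds β hβ0
  obtain ⟨p0', h0', h1', h'⟩ := a1_ex_p0 (a1_ev2 ρ ε3 δ hρ hε3 hδ)
  refine ⟨min p0 p0', lt_min h0 h0', lt_of_le_of_lt (min_le_left _ _) h1, ?_⟩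
  intro p hp hpp m N N1 hm hN hN2 hN1 μ hi L hμ hL hhi
  have hp1 : p < p0 := lt_of_lt_of_le hpp (min_le_left _ _)
  have hp2 : p < p0' := lt_of_lt_of_le hpp (min_le_right _ _)
  obtain ⟨_, _, g3, g4, _⟩ := h p hp hp1 m hm
  obtain ⟨⟨_, k1, k2, k3⟩, k4, k5, k6⟩ := h' p hp hp2
  refine a1_core i0 hi0 β hβ ρ ε3 δ hρ hρ1 hε3 hδ p hp (hp1.trans h1) k1 k2 k3 k4 k5 k6
    m N N1 hN hN2 hN1 μ hi L hμ hL hhi ?_ ?_
  · rw [hμ, hL]; exact g3
  · rw [hμ, hL]; exact g4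

end DW
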