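import Pool.Agent.Helper553.DimWidth.NiceFinal
import Pool.Agent.Helper553.DimWidth.Block
import Pool.Agent.Helper553.DimWidth.MuBounds

set_option autoImplicit false
set_option linter.unusedSectionVars false
open scoped Classical
open Finset
open Filter Topology

namespace DW

theorem small_exists (C δ cK ε3 K : ℝ) (hδ : 0 < δ) (hcK : 0 < cK) (hε3 : 0 < ε3) :
    ∃ p2 : ℝ, 0 < p2 ∧ ∀ p : ℝ, 0 < p → p < p2 →
      C * (p ^ (1 / 100 : ℝ)) ^ 9 ≤ δ ∧ 49 * (p ^ (1 / 100 : ℝ)) ^ 10 ≤ (1 / 5) * cK ∧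
      p * (40 * K) ≤ 1 ∧ p ≤ ε3 / 4 := by
  have hr : Tendsto (fun p : ℝ => p ^ (1 / 100 : ℝ)) (𝓝[>] 0) (𝓝 0) := by
    have h : ContinuousAt (fun p : ℝ => p ^ (1 / 100 : ℝ)) 0 :=
      Real.continuousAt_rpow_const 0 (1 / 100) (Or.inr (by norm_num))
    have h2 := h.tendsto
    rw [Real.zero_rpow (by norm_num)] at h2
    exact h2.mono_left nhdsWithin_le_nhds
  have hid : Tendsto (fun p : ℝ => p) (𝓝[>] 0) (𝓝 0) := tendsto_id.mono_left nhdsWithin_le_nhds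
  have h1 : Tendsto (fun p : ℝ => C * (p ^ (1 / 100 : ℝ)) ^ 9) (𝓝[>] 0) (𝓝 0) := by
    have := (hr.pow 9).const_mul C
    simpa using this
  have h2 : Tendsto (fun p : ℝ => 49 * (p ^ (1 / 100 : ℝ)) ^ 10) (𝓝[>] 0) (𝓝 0) := by
    have := (hr.pow 10).const_mul 49
    simpa using this
  have h3 : Tendsto (fun p : ℝ => p * (40 * K)) (𝓝[>] 0) (𝓝 0) := by
    have := hid.mul_const (40 * K)
    simpa using this
  have hev : ∀ᶠ p : ℝ in 𝓝[>] 0, C * (p ^ (1 / 100 : ℝ)) ^ 9 ≤ δ ∧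
      49 * (p ^ (1 / 100 : ℝ)) ^ 10 ≤ (1 / 5) * cK ∧ p * (40 * K) ≤ 1 ∧ p ≤ ε3 / 4 := by
    filter_upwards [h1.eventually_le_const hδ, h2.eventually_le_const (show 0 < (1 / 5) * cK by positivity),
      h3.eventually_le_const one_pos, hid.eventually_le_const (show 0 < ε3 / 4 by positivity)] with
      p a1 a2 a3 a4
    exact ⟨a1, a2, a3, a4⟩
  obtain ⟨p2, hp2, hsub⟩ := mem_nhdsGT_iff_exists_Ioo_subset.1 hev
  exact ⟨p2, hp2, fun p hp hpp => hsub ⟨hp, hpp⟩⟩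

theorem core_block (i0 : ℕ) (hi0 : 1 ≤ i0) (β : ℝ) (hβ : 0 < β) :
    ∃ ρ : ℝ, 0 < ρ ∧ ρ ≤ 1 ∧ ∀ ε3 δ : ℝ, 0 < ε3 → 0 < δ → ∃ p0 : ℝ, 0 < p0 ∧ p0 < 1 / 100 ∧
    ∀ p : ℝ, 0 < p → p < p0 → ∀ m N N1 : ℕ,
    m = ⌊Real.log (β * Real.sqrt (Real.log (1 / p) / p)) / p⌋₊ →
    ε3 / (2 * p) ≤ N → (N : ℝ) ≤ p ^ (-(51 / 50) : ℝ) →
    (N1 : ℝ) ≤ ρ * ((N / 2 : ℕ) : ℝ) / 2 →
    ∀ μ L : ℝ, μ = (1 + p) ^ m → L = Real.log (1 / p) →
    ∀ π0 : ℝ, 0 ≤ π0 →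
    π0 ≤ Pr p (KI m (m + N)) (fun E => ∃ B0 ⊆ Ico m (m + N), B0.card = N / 2 ∧
      ∀ b ∈ B0, ∀ e ∈ E, e.1 ≠ b ∧ e.2 ≠ b) →
    π0 * (1 - δ) ≤ Pr p (K (m + N)) (BG m N N1 (160 * i0 * μ) ((153600 * i0 + 17) * μ)
      (160 * μ) (μ / L ^ 2) (p ^ ((1 / 10) : ℝ) * ((N / 2 : ℕ) : ℝ) ^ 2)) := by
  obtain ⟨K0, hK0⟩ : ∃ K0 : ℕ, K0 = 7680 * i0 := ⟨_, rfl⟩
  have hK01 : 1 ≤ K0 := by omega
  have hK0R : (1 : ℝ) ≤ K0 := by exact_mod_cast hK01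
  have hK0e : (K0 : ℝ) = 7680 * i0 := by rw [hK0]; push_cast; ring
  obtain ⟨cK, hcK⟩ : ∃ c : ℝ, c = (1 / 40 : ℝ) ^ K0 / (Nat.factorial K0 : ℝ) := ⟨_, rfl⟩
  have hcKpos : 0 < cK := by rw [hcK]; positivity
  have hcK1 : cK ≤ 1 := by
    rw [hcK, div_le_one (by positivity)]
    have h1 : (1 / 40 : ℝ) ^ K0 ≤ 1 := pow_le_one₀ (by norm_num) (by norm_num)
    have h2 : (1 : ℝ) ≤ (Nat.factorial K0 : ℝ) := by
      exact_mod_cast Nat.one_le_iff_ne_zero.2 (Nat.factorial_ne_zero K0)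
    linarith
  obtain ⟨ρ, hρe⟩ : ∃ ρ : ℝ, ρ = (1 / 10) * cK := ⟨_, rfl⟩
  have hρ : 0 < ρ := by rw [hρe]; positivity
  refine ⟨ρ, hρ, by rw [hρe]; linarith, fun ε3 δ hε3 hδ => ?_⟩
  obtain ⟨p1, hp1, hp1', hmu⟩ := mu_bounds β hβ
  obtain ⟨C, hC⟩ : ∃ C : ℝ, C = 20200 + 2020 * β + 12 + 100 * β ^ 2 + 32 / (ρ * ε3) + Real.exp 1 +
    10000 := ⟨_, rfl⟩
  obtain ⟨p2, hp2, hsm⟩ := small_exists C δ cK ε3 K0 hδ hcKpos hε3
  refine ⟨min p1 p2, lt_min hp1 hp2, (min_le_left _ _).trans_lt hp1',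
    fun p hp hpp m N N1 hm hN hN2 hN1 μ L hμ hL π0 hπ0 hπ => ?_⟩
  have hpp1 : p < p1 := hpp.trans_le (min_le_left _ _)
  have hpp2 : p < p2 := hpp.trans_le (min_le_right _ _)
  have hp100 : p < 1 / 100 := hpp1.trans hp1'
  obtain ⟨s1, s2, s3, s4⟩ := hsm p hp hpp2
  obtain ⟨m1, m2, m3, m4, m5⟩ := hmu p hp hpp1 m hm
  rw [← hL] at m2 m3 m4
  rw [← hμ] at m3 m4 m5
  -- y = p^(1/100)
  obtain ⟨y, hy⟩ : ∃ y : ℝ, y = p ^ (1 / 100 : ℝ) := ⟨_, rfl⟩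
  rw [← hy] at s1 s2
  have hy0 : 0 < y := by rw [hy]; exact Real.rpow_pos_of_pos hp _
  have hy1 : y ≤ 1 := by rw [hy]; exact Real.rpow_le_one hp.le (by linarith) (by norm_num)
  have hpow : ∀ k : ℕ, p ^ ((k : ℝ) / 100) = y ^ k := by
    intro k
    rw [hy, ← Real.rpow_natCast, ← Real.rpow_mul hp.le]
    congr 1; ring
  have hpy : p = y ^ 100 := by
    have := hpow 100
    rw [← this]; norm_num
  have hpneg : ∀ k : ℕ, p ^ (-((k : ℝ) / 100)) = (y ^ k)⁻¹ := by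
    intro k
    rw [Real.rpow_neg hp.le, hpow]
  have hκ : p ^ (-(1 / 10) : ℝ) = (y ^ 10)⁻¹ := by
    rw [← hpneg]; norm_num
  have hκ2 : p ^ (-(1 / 5) : ℝ) = (y ^ 20)⁻¹ := by
    rw [← hpneg]; norm_num
  have hν : p ^ ((1 / 10) : ℝ) = y ^ 10 := by
    rw [← hpow]; norm_num
  have hhalf : p ^ (-(1 / 2) : ℝ) = (y ^ 50)⁻¹ := by
    rw [← hpneg]; norm_num
  have h51 : p ^ (-(51 / 50) : ℝ) = (y ^ 102)⁻¹ := by
    rw [← hpneg]; norm_num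
  rw [hhalf] at m5
  rw [h51] at hN2
  rw [hν]
  have hL0 : 0 < L := by
    rw [hL]; apply Real.log_pos
    rw [lt_div_iff₀ hp]; linarith
  have hLy : L ≤ 100 * y⁻¹ := by
    have h := Real.log_le_rpow_div (show 0 ≤ 1 / p by positivity) (show (0 : ℝ) < 1 / 100 by norm_num)
    rw [← hL, Real.div_rpow (by norm_num) hp.le, Real.one_rpow, ← hy] at h
    calc L ≤ 1 / y / (1 / 100) := h
      _ = 100 * y⁻¹ := by field_simp
  have hμ1 : 1 ≤ μ := by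
    rw [hμ]; exact one_le_pow₀ (by linarith)
  have hμ0 : 0 < μ := by linarith
  have hμinv : 1 / μ ≤ y ^ 50 := by
    rw [div_le_iff₀ hμ0]
    calc (1 : ℝ) = y ^ 50 * (y ^ 50)⁻¹ := by field_simp
      _ ≤ y ^ 50 * μ := by gcongr
  have hyk : ∀ k : ℕ, 9 ≤ k → y ^ k ≤ y ^ 9 := fun k hk => pow_le_pow_of_le_one hy0.le hy1 hk
  -- N0
  have hN0 : 0 < N / 2 := by
    have h2 : (2 : ℝ) ≤ N := by
      refine le_trans ?_ hN
      rw [le_div_iff₀ (by positivity)]; linarith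
    have : 2 ≤ N := by exact_mod_cast h2
    omega
  have hN0R : ε3 / (8 * p) ≤ ((N / 2 : ℕ) : ℝ) := by
    have h1 : (N : ℝ) ≤ 2 * ((N / 2 : ℕ) : ℝ) + 1 := by
      have : N ≤ 2 * (N / 2) + 1 := by omega
      exact_mod_cast this
    have h2 : 1 ≤ ε3 / (4 * p) := by
      rw [le_div_iff₀ (by positivity)]; linarith
    have h3 : ε3 / (2 * p) = 2 * (ε3 / (4 * p)) := by field_simp; ring
    have h4 : ε3 / (8 * p) = (ε3 / (4 * p)) / 2 := by field_simp; ring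
    rw [h4]
    linarith
  have hN0up : ((N / 2 : ℕ) : ℝ) ≤ (y ^ 102)⁻¹ := by
    refine le_trans ?_ hN2
    exact_mod_cast Nat.div_le_self N 2
  have hN0pos : (0 : ℝ) < ((N / 2 : ℕ) : ℝ) := by exact_mod_cast hN0
  -- the terms
  obtain ⟨e1, he1⟩ : ∃ e1 : ℝ, e1 = 202 * (p ^ 2 * m + p * μ) + 12 * p + p * (1 + p) ^ (2 * m) / (y ^ 10)⁻¹ :=
    ⟨_, rfl⟩
  have hnice : Pr p (K m) (fun E => ¬ Nice p μ (y ^ 10)⁻¹ m E) ≤ e1 := by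
    have := nice_prob' p (y ^ 10)⁻¹ hp (by linarith) (by positivity) m m1
    rw [← hμ] at this
    rw [he1]; exact this
  have hgood : ∀ E ⊆ K m, Nice p μ (y ^ 10)⁻¹ m E →
      ρ ≤ Pr p (range m) (GoodRow (Dn E) m K0 p μ (y ^ 20)⁻¹) := by
    intro E hE hNi
    refine le_trans ?_ (good_of_nice p μ (y ^ 10)⁻¹ (y ^ 20)⁻¹ m K0 hp hμ0 (by positivity) (by positivity)
      hK01 s3 E hE hNi)
    rw [← hcK]
    have a1 : 48 * (y ^ 10)⁻¹ / (K0 * μ) ≤ 48 * y ^ 10 := by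
      calc 48 * (y ^ 10)⁻¹ / (K0 * μ) = 48 * (y ^ 10)⁻¹ * ((1 / K0) * (1 / μ)) := by field_simp
        _ ≤ 48 * (y ^ 10)⁻¹ * (1 * y ^ 50) := by
          have : 1 / (K0 : ℝ) ≤ 1 := by rw [div_le_one (by linarith)]; exact hK0R
          gcongr
        _ = 48 * y ^ 40 := by field_simp
        _ ≤ 48 * y ^ 10 := by
          have : y ^ 40 ≤ y ^ 10 := pow_le_pow_of_le_one hy0.le hy1 (by norm_num)
          linarith
    have a2 : (y ^ 10)⁻¹ / (y ^ 20)⁻¹ = y ^ 10 := by field_simp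
    rw [a2, hρe]
    linarith
  have hbp := block_prob p μ (y ^ 10)⁻¹ (y ^ 20)⁻¹ ρ (μ / L ^ 2) (y ^ 10) e1 π0 m N (N / 2) N1 K0 8
    hp (by linarith) hμ1 (by positivity) (by
      have h1 : (y ^ 20)⁻¹ ≤ (y ^ 50)⁻¹ := by
        apply inv_anti₀ (by positivity)
        exact pow_le_pow_of_le_one hy0.le hy1 (by norm_num)
      linarith) hρ (by positivity) (by positivity) hN0 hN1 hπ0 hnice hgood hπ
  -- rewriting the event
  have r1 : (K0 : ℝ) * μ / 48 = 160 * i0 * μ := by rw [hK0e]; ring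
  have r2 : (20 * (K0 : ℝ) + 17) * μ = (153600 * i0 + 17) * μ := by rw [hK0e]; ring
  have r3 : ((8 : ℕ) : ℝ) * (20 * μ) = 160 * μ := by push_cast; ring
  rw [r1, r2, r3] at hbp
  refine le_trans ?_ hbp
  apply mul_le_mul_of_nonneg_left _ hπ0
  -- error terms
  have t1 : 202 * (p ^ 2 * m) ≤ 20200 * y ^ 9 := by
    have h1 : p ^ 2 * m ≤ p * L := by
      calc p ^ 2 * m ≤ p ^ 2 * (L / p) := by gcongr
        _ = p * L := by field_simp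
    have h2 : p * L ≤ 100 * y ^ 99 := by
      calc p * L ≤ p * (100 * y⁻¹) := by gcongr
        _ = 100 * y ^ 99 := by rw [hpy]; field_simp
    have h3 := hyk 99 (by norm_num)
    linarith
  have t2 : 202 * (p * μ) ≤ 2020 * β * y ^ 9 := by
    have h1 : (p * μ) ^ 2 ≤ (10 * β * y ^ 49) ^ 2 := by
      calc (p * μ) ^ 2 = p * (p * μ ^ 2) := by ring
        _ ≤ p * (β ^ 2 * L) := by gcongr
        _ ≤ p * (β ^ 2 * (100 * y⁻¹)) := by gcongr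
        _ = 100 * β ^ 2 * y ^ 99 := by rw [hpy]; field_simp
        _ ≤ 100 * β ^ 2 * y ^ 98 := by
          have : y ^ 99 ≤ y ^ 98 := pow_le_pow_of_le_one hy0.le hy1 (by norm_num)
          gcongr
        _ = (10 * β * y ^ 49) ^ 2 := by ring
    have h2 : p * μ ≤ 10 * β * y ^ 49 := le_of_sq_le_sq h1 (by positivity)
    have h3 := hyk 49 (by norm_num)
    have h4 : 10 * β * y ^ 49 ≤ 10 * β * y ^ 9 := by gcongr
    linarith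
  have t3 : 12 * p ≤ 12 * y ^ 9 := by
    rw [hpy]
    have h3 := hyk 100 (by norm_num)
    linarith
  have t4 : p * (1 + p) ^ (2 * m) / (y ^ 10)⁻¹ ≤ 100 * β ^ 2 * y ^ 9 := by
    have h1 : (1 + p) ^ (2 * m) = μ ^ 2 := by rw [hμ, ← pow_mul, mul_comm]
    rw [h1]
    calc p * μ ^ 2 / (y ^ 10)⁻¹ = (p * μ ^ 2) * y ^ 10 := by field_simp
      _ ≤ (β ^ 2 * L) * y ^ 10 := by gcongr
      _ ≤ (β ^ 2 * (100 * y⁻¹)) * y ^ 10 := by gcongr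
      _ = 100 * β ^ 2 * y ^ 9 := by field_simp
  have t5 : 4 / (ρ * ((N / 2 : ℕ) : ℝ)) ≤ 32 / (ρ * ε3) * y ^ 9 := by
    calc 4 / (ρ * ((N / 2 : ℕ) : ℝ)) ≤ 4 / (ρ * (ε3 / (8 * p))) := by gcongr
      _ = 32 / (ρ * ε3) * p := by field_simp; ring
      _ ≤ 32 / (ρ * ε3) * y ^ 9 := by
        rw [hpy]
        have h3 := hyk 100 (by norm_num)
        gcongr
  have t6 : ((N / 2 : ℕ) : ℝ) ^ 2 * (Real.exp 1 * ((y ^ 20)⁻¹ / (20 * μ)) ^ 8) ≤ Real.exp 1 * y ^ 9 := by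
    have h1 : (y ^ 20)⁻¹ / (20 * μ) ≤ y ^ 30 := by
      calc (y ^ 20)⁻¹ / (20 * μ) = (y ^ 20)⁻¹ * (1 / μ) / 20 := by field_simp
        _ ≤ (y ^ 20)⁻¹ * y ^ 50 / 20 := by gcongr
        _ = y ^ 30 / 20 := by field_simp
        _ ≤ y ^ 30 := by
          have : 0 < y ^ 30 := by positivity
          linarith
    calc ((N / 2 : ℕ) : ℝ) ^ 2 * (Real.exp 1 * ((y ^ 20)⁻¹ / (20 * μ)) ^ 8)
        ≤ ((y ^ 102)⁻¹) ^ 2 * (Real.exp 1 * (y ^ 30) ^ 8) := by gcongr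
      _ = Real.exp 1 * y ^ 36 := by field_simp
      _ ≤ Real.exp 1 * y ^ 9 := by
        have h3 := hyk 36 (by norm_num)
        gcongr
  have t7 : (y ^ 20)⁻¹ / (μ / L ^ 2 * y ^ 10) ≤ 10000 * y ^ 9 := by
    calc (y ^ 20)⁻¹ / (μ / L ^ 2 * y ^ 10) = (y ^ 30)⁻¹ * L ^ 2 * (1 / μ) := by field_simp
      _ ≤ (y ^ 30)⁻¹ * (100 * y⁻¹) ^ 2 * y ^ 50 := by gcongr
      _ = 10000 * y ^ 18 := by field_simp; norm_num
      _ ≤ 10000 * y ^ 9 := by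
        have h3 := hyk 18 (by norm_num)
        linarith
  have hCe : C * y ^ 9 = 20200 * y ^ 9 + 2020 * β * y ^ 9 + 12 * y ^ 9 + 100 * β ^ 2 * y ^ 9 +
      32 / (ρ * ε3) * y ^ 9 + Real.exp 1 * y ^ 9 + 10000 * y ^ 9 := by rw [hC]; ring
  rw [hCe] at s1
  rw [he1]
  linarith

end DW
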