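import Pool.Agent.Helper553.DimWidth.Basic

set_option autoImplicit false
set_option linter.unusedSectionVars false
open scoped Classical
open Finset

namespace DW


/-- the pair `(i,j)` is joined by some present edge between `U i` and `D j` -/
def Rel {ι κ α β : Type*} (U : ι → Finset α) (D : κ → Finset β) (E : Finset (α × β))
    (i : ι) (j : κ) : Prop := ∃ x ∈ U i, ∃ y ∈ D j, (x, y) ∈ E


theorem not_rel_iff {ι κ α β : Type*} [DecidableEq α] [DecidableEq β]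
    (U : ι → Finset α) (D : κ → Finset β) (E : Finset (α × β)) (i : ι) (j : κ) :
    ¬ Rel U D E i j ↔ Disjoint E (U i ×ˢ D j) := by
  unfold Rel
  rw [Finset.disjoint_left]
  constructor
  · intro h z hz hz'
    rw [Finset.mem_product] at hz'
    exact h ⟨z.1, hz'.1, z.2, hz'.2, hz⟩
  · rintro h ⟨x, hx, y, hy, hxy⟩
    exact h hxy (Finset.mem_product.2 ⟨hx, hy⟩)

/-- indicator of a proposition -/
noncomputable def ind (P : Prop) : ℝ := @ite ℝ P (Classical.propDecidable P) 1 0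

theorem ind_true {P : Prop} (h : P) : ind P = 1 := if_pos h
theorem ind_false {P : Prop} (h : ¬ P) : ind P = 0 := if_neg h

theorem Ex_ind_disjoint {ζ : Type*} [DecidableEq ζ] {p : ℝ} {X Z : Finset ζ} (hZ : Z ⊆ X) :
    Ex p X (fun E => ind (Disjoint E Z)) = (1 - p) ^ Z.card :=
  Pr_disjoint hZ

/-- weights -/
noncomputable def w0 {ι κ α β : Type*} (p : ℝ) (U : ι → Finset α) (D : κ → Finset β)
    (E : Finset (α × β)) (i : ι) (j : κ) : ℝ :=
  if Rel U D E i j then 0 else ((1 - p) ^ ((U i).card * (D j).card))⁻¹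

theorem w0_nonneg {ι κ α β : Type*} {p : ℝ} (hp1 : p < 1) (U : ι → Finset α)
    (D : κ → Finset β) (E : Finset (α × β)) (i : ι) (j : κ) : 0 ≤ w0 p U D E i j := by
  unfold w0
  have h1 : 0 < 1 - p := by linarith
  split_ifs
  · exact le_rfl
  · positivity

theorem w0_eq {ι κ α β : Type*} [DecidableEq α] [DecidableEq β] (p : ℝ) (U : ι → Finset α)
    (D : κ → Finset β) (E : Finset (α × β)) (i : ι) (j : κ) :
    w0 p U D E i j =
      ((1 - p) ^ ((U i).card * (D j).card))⁻¹ * ind (Disjoint E (U i ×ˢ D j)) := by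
  unfold w0
  by_cases h : Rel U D E i j
  · have h' : ¬ Disjoint E (U i ×ˢ D j) := fun hd => (not_rel_iff U D E i j).2 hd h
    rw [ind_false h', if_pos h, mul_zero]
  · have h' : Disjoint E (U i ×ˢ D j) := (not_rel_iff U D E i j).1 h
    rw [ind_true h', if_neg h, mul_one]

theorem Ex_w0 {ι κ α β : Type*} [DecidableEq α] [DecidableEq β] {p : ℝ} (hp1 : p < 1)
    (X : Finset α) (Y : Finset β) (U : ι → Finset α) (D : κ → Finset β) (i : ι) (j : κ)
    (hU : U i ⊆ X) (hD : D j ⊆ Y) :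
    Ex p (X ×ˢ Y) (fun E => w0 p U D E i j) = 1 := by
  have h1 : 0 < 1 - p := by linarith
  have h2 := Ex_ind_disjoint (p := p) (X := X ×ˢ Y) (Z := U i ×ˢ D j)
    (Finset.product_subset_product hU hD)
  simp only [w0_eq]
  rw [Ex_mul_left, h2, Finset.card_product]
  exact inv_mul_cancel₀ (by positivity)

theorem Ex_w0_row {ι κ α β : Type*} [DecidableEq α] [DecidableEq β] {p : ℝ} (hp1 : p < 1)
    (X : Finset α) (Y : Finset β) (U : ι → Finset α) (D : κ → Finset β) (i : ι) (j j' : κ)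
    (hU : U i ⊆ X) (hD : D j ⊆ Y) (hD' : D j' ⊆ Y) :
    Ex p (X ×ˢ Y) (fun E => w0 p U D E i j * w0 p U D E i j') =
      ((1 - p) ^ ((U i).card * (D j ∩ D j').card))⁻¹ := by
  have h1 : 0 < 1 - p := by linarith
  have h2 := Ex_ind_disjoint (p := p) (X := X ×ˢ Y) (Z := U i ×ˢ (D j ∪ D j'))
    (Finset.product_subset_product hU (Finset.union_subset hD hD'))
  have h3 : ∀ E : Finset (α × β), w0 p U D E i j * w0 p U D E i j' =
      (((1 - p) ^ ((U i).card * (D j).card))⁻¹ * ((1 - p) ^ ((U i).card * (D j').card))⁻¹) *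
        ind (Disjoint E (U i ×ˢ (D j ∪ D j'))) := by
    intro E
    have hiff : Disjoint E (U i ×ˢ (D j ∪ D j')) ↔
        Disjoint E (U i ×ˢ D j) ∧ Disjoint E (U i ×ˢ D j') := by
      rw [Finset.product_union, Finset.disjoint_union_right]
    rw [w0_eq, w0_eq]
    by_cases ha : Disjoint E (U i ×ˢ D j)
    · by_cases hb : Disjoint E (U i ×ˢ D j')
      · rw [ind_true ha, ind_true hb, ind_true (hiff.2 ⟨ha, hb⟩)]; ring
      · rw [ind_false hb, ind_false (fun h => hb (hiff.1 h).2)]; ring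
    · rw [ind_false ha, ind_false (fun h => ha (hiff.1 h).1)]; ring
  rw [Ex_congr (fun E _ => h3 E), Ex_mul_left, h2, Finset.card_product]
  have h4 : (D j ∪ D j').card + (D j ∩ D j').card = (D j).card + (D j').card :=
    Finset.card_union_add_card_inter _ _
  have h5 : (1 - p) ^ ((U i).card * (D j ∪ D j').card) *
      (1 - p) ^ ((U i).card * (D j ∩ D j').card) =
      (1 - p) ^ ((U i).card * (D j).card) * (1 - p) ^ ((U i).card * (D j').card) := by
    rw [← pow_add, ← pow_add, ← mul_add, ← mul_add, h4]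
  have h6 : (1 - p) ^ ((U i).card * (D j).card) ≠ 0 := by positivity
  have h7 : (1 - p) ^ ((U i).card * (D j').card) ≠ 0 := by positivity
  have h8 : (1 - p) ^ ((U i).card * (D j ∩ D j').card) ≠ 0 := by positivity
  field_simp
  linarith [h5]

theorem Ex_w0_col {ι κ α β : Type*} [DecidableEq α] [DecidableEq β] {p : ℝ} (hp1 : p < 1)
    (X : Finset α) (Y : Finset β) (U : ι → Finset α) (D : κ → Finset β) (i i' : ι) (j : κ)
    (hU : U i ⊆ X) (hU' : U i' ⊆ X) (hD : D j ⊆ Y) :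
    Ex p (X ×ˢ Y) (fun E => w0 p U D E i j * w0 p U D E i' j) =
      ((1 - p) ^ ((U i ∩ U i').card * (D j).card))⁻¹ := by
  have h1 : 0 < 1 - p := by linarith
  have h2 := Ex_ind_disjoint (p := p) (X := X ×ˢ Y) (Z := (U i ∪ U i') ×ˢ D j)
    (Finset.product_subset_product (Finset.union_subset hU hU') hD)
  have h3 : ∀ E : Finset (α × β), w0 p U D E i j * w0 p U D E i' j =
      (((1 - p) ^ ((U i).card * (D j).card))⁻¹ * ((1 - p) ^ ((U i').card * (D j).card))⁻¹) *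
        ind (Disjoint E ((U i ∪ U i') ×ˢ D j)) := by
    intro E
    have hiff : Disjoint E ((U i ∪ U i') ×ˢ D j) ↔
        Disjoint E (U i ×ˢ D j) ∧ Disjoint E (U i' ×ˢ D j) := by
      rw [Finset.union_product, Finset.disjoint_union_right]
    rw [w0_eq, w0_eq]
    by_cases ha : Disjoint E (U i ×ˢ D j)
    · by_cases hb : Disjoint E (U i' ×ˢ D j)
      · rw [ind_true ha, ind_true hb, ind_true (hiff.2 ⟨ha, hb⟩)]; ring
      · rw [ind_false hb, ind_false (fun h => hb (hiff.1 h).2)]; ring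
    · rw [ind_false ha, ind_false (fun h => ha (hiff.1 h).1)]; ring
  rw [Ex_congr (fun E _ => h3 E), Ex_mul_left, h2, Finset.card_product]
  have h4 : (U i ∪ U i').card + (U i ∩ U i').card = (U i).card + (U i').card :=
    Finset.card_union_add_card_inter _ _
  have h5 : (1 - p) ^ ((U i ∪ U i').card * (D j).card) *
      (1 - p) ^ ((U i ∩ U i').card * (D j).card) =
      (1 - p) ^ ((U i).card * (D j).card) * (1 - p) ^ ((U i').card * (D j).card) := by
    rw [← pow_add, ← pow_add, ← add_mul, ← add_mul, h4]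
  have h6 : (1 - p) ^ ((U i).card * (D j).card) ≠ 0 := by positivity
  have h7 : (1 - p) ^ ((U i').card * (D j).card) ≠ 0 := by positivity
  have h8 : (1 - p) ^ ((U i ∩ U i').card * (D j).card) ≠ 0 := by positivity
  field_simp
  linarith [h5]

/-- abstract second moment bound: if the `f a` have mean `1` and the covariances add up to at most
`η² N²`, then the expected deviation of the sum is at most `η N`. -/
theorem dev_bound {γ ζ : Type*} [DecidableEq ζ] {p : ℝ} (hp0 : 0 ≤ p) (hp1 : p ≤ 1)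
    (W : Finset ζ) (s : Finset γ)
    (f : γ → Finset ζ → ℝ) (N : ℕ) (hs : s.card = N) (η : ℝ) (hη : 0 ≤ η)
    (c : γ → γ → ℝ) (h1 : ∀ a ∈ s, Ex p W (f a) = 1)
    (h2 : ∀ a ∈ s, ∀ b ∈ s, Ex p W (fun E => f a E * f b E) = c a b)
    (h3 : ∑ a ∈ s, ∑ b ∈ s, (c a b - 1) ≤ η ^ 2 * N ^ 2) :
    Ex p W (fun E => |∑ a ∈ s, f a E - N|) ≤ η * N := by
  have hsq : Ex p W (fun E => (∑ a ∈ s, f a E - N) ^ 2) ≤ η ^ 2 * N ^ 2 := by
    have e1 : ∀ E : Finset ζ, (∑ a ∈ s, f a E - N) ^ 2 =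
        ∑ a ∈ s, ∑ b ∈ s, (f a E * f b E - f a E - f b E + 1) := by
      intro E
      have : (∑ a ∈ s, f a E - (N : ℝ)) = ∑ a ∈ s, (f a E - 1) := by
        rw [Finset.sum_sub_distrib]
        simp [hs]
      rw [this, sq, Finset.sum_mul_sum]
      apply Finset.sum_congr rfl
      intro a _
      apply Finset.sum_congr rfl
      intro b _
      ring
    rw [Ex_congr (fun E _ => e1 E), Ex_sum]
    refine le_trans (le_of_eq ?_) h3
    apply Finset.sum_congr rfl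
    intro a ha
    rw [Ex_sum]
    apply Finset.sum_congr rfl
    intro b hb
    have e2 : Ex p W (fun E => f a E * f b E - f a E - f b E + 1) =
        Ex p W (fun E => f a E * f b E) - Ex p W (f a) - Ex p W (f b) + 1 := by
      have a1 := Ex_add (p := p) W (fun E => f a E * f b E - f a E - f b E) (fun _ => (1 : ℝ))
      have a2 := Ex_sub (p := p) W (fun E => f a E * f b E - f a E) (fun E => f b E)
      have a3 := Ex_sub (p := p) W (fun E => f a E * f b E) (fun E => f a E)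
      rw [a1, a2, a3, Ex_one]
    rw [e2, h1 a ha, h1 b hb, h2 a ha b hb]
    ring
  set c0 := Ex p W (fun E => |∑ a ∈ s, f a E - N|) with hc0
  have hc0nn : 0 ≤ c0 := Ex_nonneg hp0 hp1 (fun E _ => abs_nonneg _)
  have hvar : 0 ≤ Ex p W (fun E => (|∑ a ∈ s, f a E - N| - c0) ^ 2) :=
    Ex_nonneg hp0 hp1 (fun E _ => sq_nonneg _)
  have e3 : Ex p W (fun E => (|∑ a ∈ s, f a E - N| - c0) ^ 2) =
      Ex p W (fun E => (∑ a ∈ s, f a E - N) ^ 2) - c0 ^ 2 := by
    have e4 : ∀ E : Finset ζ, (|∑ a ∈ s, f a E - N| - c0) ^ 2 =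
        (∑ a ∈ s, f a E - N) ^ 2 - (2 * c0) * |∑ a ∈ s, f a E - N| + c0 ^ 2 := by
      intro E
      rw [← sq_abs (∑ a ∈ s, f a E - (N : ℝ))]
      ring
    rw [Ex_congr (fun E _ => e4 E)]
    have a1 := Ex_add (p := p) W
      (fun E => (∑ a ∈ s, f a E - N) ^ 2 - (2 * c0) * |∑ a ∈ s, f a E - N|)
      (fun _ => c0 ^ 2)
    have a2 := Ex_sub (p := p) W (fun E => (∑ a ∈ s, f a E - N) ^ 2)
      (fun E => (2 * c0) * |∑ a ∈ s, f a E - N|)
    have a3 := Ex_mul_left (p := p) W (2 * c0) (fun E => |∑ a ∈ s, f a E - (N : ℝ)|)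
    rw [a1, a2, a3, Ex_const, ← hc0]
    ring
  rw [e3] at hvar
  by_contra hcon
  push Not at hcon
  have hnn : 0 ≤ η * N := by positivity
  have : (η * N) ^ 2 < c0 ^ 2 := by
    apply pow_lt_pow_left₀ hcon hnn (by norm_num)
  nlinarith

/-- Markov for the sum of deviations -/
theorem dev_prob {γ ζ : Type*} [DecidableEq ζ] {p : ℝ} (hp0 : 0 ≤ p) (hp1 : p ≤ 1)
    (W : Finset ζ) (s : Finset γ) (f : γ → Finset ζ → ℝ) (N : ℕ) (hN : 1 ≤ N)
    (hs : s.card = N) (η : ℝ)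
    (h : ∀ a ∈ s, Ex p W (fun E => |f a E - N|) ≤ η * N) :
    Pr p W (fun E => (N : ℝ) ^ 2 / 20 ≤ ∑ a ∈ s, |f a E - N|) ≤ 20 * η := by
  have hNpos : (0 : ℝ) < N := by exact_mod_cast hN
  have hc : (0 : ℝ) < (N : ℝ) ^ 2 / 20 := by positivity
  refine le_trans (markov hp0 hp1 W (fun E => ∑ a ∈ s, |f a E - N|)
    (fun E _ => Finset.sum_nonneg (fun a _ => abs_nonneg _)) hc) ?_
  rw [Ex_sum, div_le_iff₀ hc]
  calc ∑ a ∈ s, Ex p W (fun E => |f a E - N|) ≤ ∑ a ∈ s, η * N := Finset.sum_le_sum h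
    _ = N * (η * N) := by rw [Finset.sum_const, hs, nsmul_eq_mul]
    _ = 20 * η * ((N : ℝ) ^ 2 / 20) := by ring

/-- the deterministic part -/
theorem det_part {ι κ : Type*} (I : Finset ι) (J : Finset κ) (w : ι → κ → ℝ)
    (hw : ∀ i ∈ I, ∀ j ∈ J, 0 ≤ w i j) (N : ℕ) (hN : 1 ≤ N) (hI : I.card = N)
    (hr : ∑ i ∈ I, |∑ j ∈ J, w i j - N| < (N : ℝ) ^ 2 / 20)
    (hc : ∑ j ∈ J, |∑ i ∈ I, w i j - N| < (N : ℝ) ^ 2 / 20) :
    (N : ℝ) ^ 2 / 2 ≤ ∑ i ∈ I.filter (fun i => ∑ j ∈ J, w i j ≤ 2 * N),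
      ∑ j ∈ J.filter (fun j => ∑ i ∈ I, w i j ≤ 2 * N), w i j := by
  have hNpos : (0 : ℝ) < N := by exact_mod_cast hN
  have htot : (N : ℝ) ^ 2 - N ^ 2 / 20 ≤ ∑ i ∈ I, ∑ j ∈ J, w i j := by
    have h1 : ∑ i ∈ I, ((N : ℝ) - |∑ j ∈ J, w i j - N|) ≤ ∑ i ∈ I, ∑ j ∈ J, w i j := by
      apply Finset.sum_le_sum
      intro i _
      have := neg_abs_le (∑ j ∈ J, w i j - (N : ℝ))
      linarith
    rw [Finset.sum_sub_distrib, Finset.sum_const, hI, nsmul_eq_mul] at h1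
    nlinarith
  have hrow : ∑ i ∈ I.filter (fun i => ¬ ∑ j ∈ J, w i j ≤ 2 * N), ∑ j ∈ J, w i j ≤
      (N : ℝ) ^ 2 / 10 := by
    calc ∑ i ∈ I.filter (fun i => ¬ ∑ j ∈ J, w i j ≤ 2 * N), ∑ j ∈ J, w i j
        ≤ ∑ i ∈ I.filter (fun i => ¬ ∑ j ∈ J, w i j ≤ 2 * N), 2 * |∑ j ∈ J, w i j - N| := by
          apply Finset.sum_le_sum
          intro i hi
          have h2 := (Finset.mem_filter.1 hi).2
          push Not at h2
          have := le_abs_self (∑ j ∈ J, w i j - (N : ℝ))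
          linarith
      _ ≤ ∑ i ∈ I, 2 * |∑ j ∈ J, w i j - N| := by
          apply Finset.sum_le_sum_of_subset_of_nonneg (Finset.filter_subset _ _)
          intro i _ _
          positivity
      _ = 2 * ∑ i ∈ I, |∑ j ∈ J, w i j - N| := by rw [Finset.mul_sum]
      _ ≤ (N : ℝ) ^ 2 / 10 := by linarith
  have hcol : ∑ j ∈ J.filter (fun j => ¬ ∑ i ∈ I, w i j ≤ 2 * N), ∑ i ∈ I, w i j ≤
      (N : ℝ) ^ 2 / 10 := by
    calc ∑ j ∈ J.filter (fun j => ¬ ∑ i ∈ I, w i j ≤ 2 * N), ∑ i ∈ I, w i j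
        ≤ ∑ j ∈ J.filter (fun j => ¬ ∑ i ∈ I, w i j ≤ 2 * N), 2 * |∑ i ∈ I, w i j - N| := by
          apply Finset.sum_le_sum
          intro j hj
          have h2 := (Finset.mem_filter.1 hj).2
          push Not at h2
          have := le_abs_self (∑ i ∈ I, w i j - (N : ℝ))
          linarith
      _ ≤ ∑ j ∈ J, 2 * |∑ i ∈ I, w i j - N| := by
          apply Finset.sum_le_sum_of_subset_of_nonneg (Finset.filter_subset _ _)
          intro j _ _
          positivity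
      _ = 2 * ∑ j ∈ J, |∑ i ∈ I, w i j - N| := by rw [Finset.mul_sum]
      _ ≤ (N : ℝ) ^ 2 / 10 := by linarith
  have s1 : ∑ i ∈ I.filter (fun i => ∑ j ∈ J, w i j ≤ 2 * N), ∑ j ∈ J, w i j +
      ∑ i ∈ I.filter (fun i => ¬ ∑ j ∈ J, w i j ≤ 2 * N), ∑ j ∈ J, w i j =
      ∑ i ∈ I, ∑ j ∈ J, w i j := Finset.sum_filter_add_sum_filter_not _ _ _
  have s2 : ∑ i ∈ I.filter (fun i => ∑ j ∈ J, w i j ≤ 2 * N), ∑ j ∈ J, w i j =
      ∑ i ∈ I.filter (fun i => ∑ j ∈ J, w i j ≤ 2 * N),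
        ∑ j ∈ J.filter (fun j => ∑ i ∈ I, w i j ≤ 2 * N), w i j +
      ∑ i ∈ I.filter (fun i => ∑ j ∈ J, w i j ≤ 2 * N),
        ∑ j ∈ J.filter (fun j => ¬ ∑ i ∈ I, w i j ≤ 2 * N), w i j := by
    rw [← Finset.sum_add_distrib]
    apply Finset.sum_congr rfl
    intro i _
    exact (Finset.sum_filter_add_sum_filter_not _ _ _).symm
  have s3 : ∑ i ∈ I.filter (fun i => ∑ j ∈ J, w i j ≤ 2 * N),
        ∑ j ∈ J.filter (fun j => ¬ ∑ i ∈ I, w i j ≤ 2 * N), w i j ≤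
      ∑ j ∈ J.filter (fun j => ¬ ∑ i ∈ I, w i j ≤ 2 * N), ∑ i ∈ I, w i j := by
    rw [Finset.sum_comm]
    apply Finset.sum_le_sum
    intro j hj
    apply Finset.sum_le_sum_of_subset_of_nonneg (Finset.filter_subset _ _)
    intro i hi _
    exact hw i hi j (Finset.mem_filter.1 hj).1
  nlinarith

theorem cross_lemma {ι κ α β : Type*} [DecidableEq ι] [DecidableEq κ] [DecidableEq α]
    [DecidableEq β] (p : ℝ) (hp : 0 < p) (hp1 : p < 1) (I : Finset ι) (J : Finset κ)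
    (X : Finset α) (Y : Finset β) (U : ι → Finset α) (D : κ → Finset β)
    (hU : ∀ i ∈ I, U i ⊆ X) (hD : ∀ j ∈ J, D j ⊆ Y)
    (N : ℕ) (hN : 1 ≤ N) (hI : I.card = N) (hJ : J.card = N) (η : ℝ) (hη : 0 ≤ η)
    (hrow : ∀ i ∈ I, ∑ j ∈ J, ∑ j' ∈ J,
      (((1 - p) ^ ((U i).card * (D j ∩ D j').card))⁻¹ - 1) ≤ η ^ 2 * N ^ 2)
    (hcol : ∀ j ∈ J, ∑ i ∈ I, ∑ i' ∈ I,
      (((1 - p) ^ ((U i ∩ U i').card * (D j).card))⁻¹ - 1) ≤ η ^ 2 * N ^ 2)
    (i0 a b : ℕ)
    (ha : ∀ S ⊆ I, S.card = i0 → a ≤ (S.biUnion U).card)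
    (hb : ∀ T ⊆ J, T.card = i0 → b ≤ (T.biUnion D).card) :
    Pr p (X ×ˢ Y) (fun E => ¬ ∃ A ⊆ I, ∃ B ⊆ J, ∃ w : ι → κ → ℝ,
      (∀ i ∈ A, ∀ j ∈ B, 0 ≤ w i j) ∧
      (∀ i ∈ A, ∀ j ∈ B, Rel U D E i j → w i j = 0) ∧
      (∀ i ∈ A, ∑ j ∈ B, w i j ≤ 2 * N) ∧ (∀ j ∈ B, ∑ i ∈ A, w i j ≤ 2 * N) ∧
      (N : ℝ) ^ 2 / 2 ≤ ∑ i ∈ A, ∑ j ∈ B, w i j ∧
      (∀ S ⊆ A, ∀ T ⊆ B, S.card = i0 → T.card = i0 → ∃ i ∈ S, ∃ j ∈ T, Rel U D E i j)) ≤
      40 * η + (N : ℝ) ^ (2 * i0) * (1 - p) ^ (a * b) := by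
  have hp0 : 0 ≤ p := hp.le
  have hp1' : p ≤ 1 := hp1.le
  have hq0 : 0 < 1 - p := by linarith
  have hq1 : 1 - p ≤ 1 := by linarith
  -- deviations of rows and columns
  have hR : Pr p (X ×ˢ Y) (fun E => (N : ℝ) ^ 2 / 20 ≤
      ∑ i ∈ I, |∑ j ∈ J, w0 p U D E i j - N|) ≤ 20 * η := by
    apply dev_prob hp0 hp1' (X ×ˢ Y) I (fun i E => ∑ j ∈ J, w0 p U D E i j) N hN hI η
    intro i hi
    apply dev_bound hp0 hp1' (X ×ˢ Y) J (fun j E => w0 p U D E i j) N hJ η hη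
      (fun j j' => ((1 - p) ^ ((U i).card * (D j ∩ D j').card))⁻¹)
    · intro j hj
      exact Ex_w0 hp1 X Y U D i j (hU i hi) (hD j hj)
    · intro j hj j' hj'
      exact Ex_w0_row hp1 X Y U D i j j' (hU i hi) (hD j hj) (hD j' hj')
    · exact hrow i hi
  have hC : Pr p (X ×ˢ Y) (fun E => (N : ℝ) ^ 2 / 20 ≤
      ∑ j ∈ J, |∑ i ∈ I, w0 p U D E i j - N|) ≤ 20 * η := by
    apply dev_prob hp0 hp1' (X ×ˢ Y) J (fun j E => ∑ i ∈ I, w0 p U D E i j) N hN hJ η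
    intro j hj
    apply dev_bound hp0 hp1' (X ×ˢ Y) I (fun i E => w0 p U D E i j) N hI η hη
      (fun i i' => ((1 - p) ^ ((U i ∩ U i').card * (D j).card))⁻¹)
    · intro i hi
      exact Ex_w0 hp1 X Y U D i j (hU i hi) (hD j hj)
    · intro i hi i' hi'
      exact Ex_w0_col hp1 X Y U D i i' j (hU i hi) (hU i' hi') (hD j hj)
    · exact hcol j hj
  -- no empty bipartite pair
  have hK : Pr p (X ×ˢ Y) (fun E => ∃ ST ∈ (I.powersetCard i0) ×ˢ (J.powersetCard i0),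
      Disjoint E (ST.1.biUnion U ×ˢ ST.2.biUnion D)) ≤
      (N : ℝ) ^ (2 * i0) * (1 - p) ^ (a * b) := by
    have hex := Pr_exists_le (p := p) hp0 hp1' (X ×ˢ Y)
      ((I.powersetCard i0) ×ˢ (J.powersetCard i0))
      (fun (ST : Finset ι × Finset κ) (E : Finset (α × β)) =>
        Disjoint E (ST.1.biUnion U ×ˢ ST.2.biUnion D))
    refine le_trans hex ?_
    have hterm : ∀ ST ∈ (I.powersetCard i0) ×ˢ (J.powersetCard i0),
        Pr p (X ×ˢ Y) (fun E => Disjoint E (ST.1.biUnion U ×ˢ ST.2.biUnion D)) ≤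
          (1 - p) ^ (a * b) := by
      intro ST hST
      rw [Finset.mem_product, Finset.mem_powersetCard, Finset.mem_powersetCard] at hST
      obtain ⟨⟨hS1, hS2⟩, hT1, hT2⟩ := hST
      rw [Pr_disjoint, Finset.card_product]
      · apply pow_le_pow_of_le_one hq0.le hq1
        exact Nat.mul_le_mul (ha _ hS1 hS2) (hb _ hT1 hT2)
      · apply Finset.product_subset_product
        · intro x hx
          rw [Finset.mem_biUnion] at hx
          obtain ⟨i, hi, hx⟩ := hx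
          exact hU i (hS1 hi) hx
        · intro y hy
          rw [Finset.mem_biUnion] at hy
          obtain ⟨j, hj, hy⟩ := hy
          exact hD j (hT1 hj) hy
    refine le_trans (Finset.sum_le_sum hterm) ?_
    rw [Finset.sum_const, Finset.card_product, Finset.card_powersetCard,
      Finset.card_powersetCard, hI, hJ, nsmul_eq_mul]
    apply mul_le_mul_of_nonneg_right _ (by positivity)
    have hch : N.choose i0 ≤ N ^ i0 := Nat.choose_le_pow _ _
    have : N.choose i0 * N.choose i0 ≤ N ^ (2 * i0) := by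
      calc N.choose i0 * N.choose i0 ≤ N ^ i0 * N ^ i0 := Nat.mul_le_mul hch hch
        _ = N ^ (2 * i0) := by rw [← pow_add, two_mul]
    exact_mod_cast this
  -- combine
  have hall : Pr p (X ×ˢ Y) (fun E => ((N : ℝ) ^ 2 / 20 ≤
      ∑ i ∈ I, |∑ j ∈ J, w0 p U D E i j - N| ∨ (N : ℝ) ^ 2 / 20 ≤
      ∑ j ∈ J, |∑ i ∈ I, w0 p U D E i j - N|) ∨
      ∃ ST ∈ (I.powersetCard i0) ×ˢ (J.powersetCard i0),
      Disjoint E (ST.1.biUnion U ×ˢ ST.2.biUnion D)) ≤
      40 * η + (N : ℝ) ^ (2 * i0) * (1 - p) ^ (a * b) := by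
    refine le_trans (Pr_or_le hp0 hp1' _ _ _) ?_
    have h1 := Pr_or_le hp0 hp1' (X ×ˢ Y) (fun E => (N : ℝ) ^ 2 / 20 ≤
      ∑ i ∈ I, |∑ j ∈ J, w0 p U D E i j - N|) (fun E => (N : ℝ) ^ 2 / 20 ≤
      ∑ j ∈ J, |∑ i ∈ I, w0 p U D E i j - N|)
    linarith
  refine le_trans (Pr_mono hp0 hp1' ?_) hall
  intro E _ hE
  by_contra hcon
  push Not at hcon
  obtain ⟨⟨h1, h2⟩, h3⟩ := hcon
  apply hE
  refine ⟨I.filter (fun i => ∑ j ∈ J, w0 p U D E i j ≤ 2 * N), Finset.filter_subset _ _,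
    J.filter (fun j => ∑ i ∈ I, w0 p U D E i j ≤ 2 * N), Finset.filter_subset _ _,
    w0 p U D E, ?_, ?_, ?_, ?_, ?_, ?_⟩
  · intro i _ j _
    exact w0_nonneg hp1 U D E i j
  · intro i _ j _ hr
    unfold w0
    simp [hr]
  · intro i hi
    refine le_trans ?_ (Finset.mem_filter.1 hi).2
    apply Finset.sum_le_sum_of_subset_of_nonneg (Finset.filter_subset _ _)
    intro j _ _
    exact w0_nonneg hp1 U D E i j
  · intro j hj
    refine le_trans ?_ (Finset.mem_filter.1 hj).2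
    apply Finset.sum_le_sum_of_subset_of_nonneg (Finset.filter_subset _ _)
    intro i _ _
    exact w0_nonneg hp1 U D E i j
  · exact det_part I J (w0 p U D E) (fun i _ j _ => w0_nonneg hp1 U D E i j) N hN hI h1 h2
  · intro S hS T hT hSc hTc
    by_contra hno
    push Not at hno
    apply h3 (S, T)
    · rw [Finset.mem_product, Finset.mem_powersetCard, Finset.mem_powersetCard]
      exact ⟨⟨hS.trans (Finset.filter_subset _ _), hSc⟩, hT.trans (Finset.filter_subset _ _), hTc⟩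
    · rw [Finset.disjoint_left]
      intro z hz hz'
      rw [Finset.mem_product, Finset.mem_biUnion, Finset.mem_biUnion] at hz'
      obtain ⟨⟨i, hi, hx⟩, j, hj, hy⟩ := hz'
      exact hno i hi j hj ⟨z.1, hx, z.2, hy, hz⟩


end DW
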