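import Pool.Agent.Helper553.DimWidth.Graph

set_option autoImplicit false
set_option linter.unusedSectionVars false
open scoped Classical
open Finset

namespace DW

theorem DimGe_anti {E : Finset (ℕ × ℕ)} {V : Finset ℕ} {D D' : ℝ} (h : D' ≤ D)
    (hD : DimGe E V D) : DimGe E V D' := by
  intro d L hL hR
  exact le_trans h (hD d L hL hR)

end DW
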