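import Pool.Agent.Helper553.DimWidth.Graph

set_option autoImplicit false
set_option linter.unusedSectionVars false
open scoped Classical
open Finset

namespace DW


theorem KI_card_le (m N : ℕ) : 2 * (KI m (m + N)).card ≤ N ^ 2 := by
  have h1 : (KI m (m + N)).card = ((KI m (m + N)).image Prod.swap).card :=
    (Finset.card_image_of_injective _ Prod.swap_injective).symm
  have hd : Disjoint (KI m (m + N)) ((KI m (m + N)).image Prod.swap) := by
    rw [Finset.disjoint_left]
    intro e he he'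
    obtain ⟨f, hf, rfl⟩ := Finset.mem_image.1 he'
    rw [mem_KI] at he hf
    simp at he
    omega
  have hsub : KI m (m + N) ∪ (KI m (m + N)).image Prod.swap ⊆ Ico m (m + N) ×ˢ Ico m (m + N) := by
    intro e he
    rw [Finset.mem_union] at he
    rw [Finset.mem_product, Finset.mem_Ico, Finset.mem_Ico]
    rcases he with he | he
    · rw [mem_KI] at he; omega
    · obtain ⟨f, hf, rfl⟩ := Finset.mem_image.1 he
      rw [mem_KI] at hf
      simp
      omega
  have h2 := Finset.card_le_card hsub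
  rw [Finset.card_union_of_disjoint hd, ← h1, Finset.card_product, Nat.card_Ico] at h2
  have : m + N - m = N := by omega
  rw [this] at h2
  nlinarith

/-- a set of edges with few edges leaves many isolated vertices -/
theorem exists_iso (m N N0 : ℕ) (E : Finset (ℕ × ℕ)) (h : N0 + 2 * E.card ≤ N) :
    ∃ B0 ⊆ Ico m (m + N), B0.card = N0 ∧ ∀ b ∈ B0, ∀ e ∈ E, e.1 ≠ b ∧ e.2 ≠ b := by
  have h1 : (E.image Prod.fst ∪ E.image Prod.snd).card ≤ 2 * E.card := by
    calc _ ≤ (E.image Prod.fst).card + (E.image Prod.snd).card := Finset.card_union_le _ _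
      _ ≤ E.card + E.card := Nat.add_le_add Finset.card_image_le Finset.card_image_le
      _ = 2 * E.card := by ring
  have h2 : N0 ≤ (Ico m (m + N) \ (E.image Prod.fst ∪ E.image Prod.snd)).card := by
    have := Finset.le_card_sdiff (E.image Prod.fst ∪ E.image Prod.snd) (Ico m (m + N))
    rw [Nat.card_Ico] at this
    omega
  obtain ⟨B0, hB, hc⟩ := Finset.exists_subset_card_eq h2
  refine ⟨B0, hB.trans Finset.sdiff_subset, hc, ?_⟩
  intro b hb e he
  have hb' := (Finset.mem_sdiff.1 (hB hb)).2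
  rw [Finset.mem_union, not_or] at hb'
  constructor
  · intro h; exact hb'.1 (Finset.mem_image.2 ⟨e, he, h⟩)
  · intro h; exact hb'.2 (Finset.mem_image.2 ⟨e, he, h⟩)

/-- with probability at least `1-8/N` at least half of the vertices are isolated -/
theorem iso_typical (p : ℝ) (hp : 0 < p) (hp1 : p ≤ 1) (m N N0 : ℕ) (hN : 1 ≤ N)
    (hpN : p * N ≤ 1 / 4) (hN0 : 2 * N0 ≤ N) :
    1 - 8 / (N : ℝ) ≤ Pr p (KI m (m + N)) (fun E => ∃ B0 ⊆ Ico m (m + N), B0.card = N0 ∧
      ∀ b ∈ B0, ∀ e ∈ E, e.1 ≠ b ∧ e.2 ≠ b) := by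
  have hNpos : (0 : ℝ) < N := by exact_mod_cast hN
  set X := KI m (m + N) with hX
  have hC : 2 * (X.card : ℝ) ≤ (N : ℝ) ^ 2 := by exact_mod_cast KI_card_le m N
  have hC0 : (0 : ℝ) ≤ X.card := by positivity
  set μ : ℝ := p * X.card with hμ
  have hμ1 : μ ≤ N / 8 := by
    have : p * (2 * (X.card : ℝ)) ≤ p * (N : ℝ) ^ 2 := by gcongr
    have h2 : p * (N : ℝ) ^ 2 = (p * N) * N := by ring
    have h3 : (p * N) * N ≤ (1 / 4) * N := by gcongr
    rw [hμ]; linarith
  have hlin := Ex_linear (p := p) X (fun _ => (1 : ℝ))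
  have hsq := Ex_sq (p := p) X (fun _ => (1 : ℝ))
  simp only [Finset.sum_const, nsmul_eq_mul, mul_one, one_pow] at hlin hsq
  have hvar : Ex p X (fun E => ((E.card : ℝ) - μ) ^ 2) = p * (1 - p) * X.card := by
    have h1 : Ex p X (fun E => ((E.card : ℝ) - μ) ^ 2)
        = Ex p X (fun E => (E.card : ℝ) ^ 2) - Ex p X (fun E => (2 * μ) * (E.card : ℝ))
          + Ex p X (fun _ => μ ^ 2) := by
      rw [← Ex_sub, ← Ex_add]
      apply Ex_congr
      intro E _
      ring
    rw [h1, Ex_mul_left, Ex_const, hsq, hlin, ← hμ]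
    ring
  have hcheb := chebyshev hp.le hp1 X (fun E => (E.card : ℝ)) μ (c := N / 8) (by positivity)
  rw [hvar] at hcheb
  have hb : p * (1 - p) * X.card / (N / 8 : ℝ) ^ 2 ≤ 8 / N := by
    rw [div_le_div_iff₀ (by positivity) hNpos]
    have h1 : p * (1 - p) * X.card ≤ N / 8 := by
      have : p * (1 - p) * X.card ≤ p * 1 * X.card := by
        gcongr; linarith
      rw [mul_one] at this
      exact this.trans hμ1
    calc p * (1 - p) * X.card * N ≤ N / 8 * N := by gcongr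
      _ = 8 * (N / 8) ^ 2 := by ring
  have h1 : Pr p X (fun E => ¬ ((N : ℝ) / 8 ≤ |(E.card : ℝ) - μ|)) ≤
      Pr p X (fun E => ∃ B0 ⊆ Ico m (m + N), B0.card = N0 ∧
      ∀ b ∈ B0, ∀ e ∈ E, e.1 ≠ b ∧ e.2 ≠ b) := by
    apply Pr_mono hp.le hp1
    intro E _ hE
    apply exists_iso
    push Not at hE
    rw [abs_lt] at hE
    have h2 : (4 * E.card : ℝ) < N := by linarith [hE.2]
    have h3 : 4 * E.card < N := by exact_mod_cast h2
    omega
  rw [Pr_not] at h1
  linarith

theorem iso_forced (p : ℝ) (hp : 0 ≤ p) (hp1 : p ≤ 1) (m N N0 : ℕ) (hN0 : N0 ≤ N) :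
    (1 - p) ^ (N ^ 2) ≤ Pr p (KI m (m + N)) (fun E => ∃ B0 ⊆ Ico m (m + N), B0.card = N0 ∧
      ∀ b ∈ B0, ∀ e ∈ E, e.1 ≠ b ∧ e.2 ≠ b) := by
  have h1 := Pr_eq_single (p := p) (X := KI m (m + N)) (E0 := ∅) (Finset.empty_subset _)
  have h2 : Pr p (KI m (m + N)) (fun E => E = ∅) ≤ Pr p (KI m (m + N))
      (fun E => ∃ B0 ⊆ Ico m (m + N), B0.card = N0 ∧ ∀ b ∈ B0, ∀ e ∈ E, e.1 ≠ b ∧ e.2 ≠ b) := by
    apply Pr_mono hp hp1
    intro E _ hE
    apply exists_iso
    rw [hE]; simpa using hN0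
  refine le_trans ?_ h2
  rw [h1]
  simp only [Finset.card_empty, pow_zero, one_mul, Nat.sub_zero]
  apply pow_le_pow_of_le_one (by linarith) (by linarith)
  have := KI_card_le m N
  omega

end DW
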