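import Pool.Agent.Helper553.DimWidth.Graph

set_option autoImplicit false
set_option linter.unusedSectionVars false
open scoped Classical
open Finset

namespace DW


theorem DimGe_mono {E : Finset (ℕ × ℕ)} {V V' : Finset ℕ} (h : V ⊆ V') {D : ℝ}
    (hD : DimGe E V D) : DimGe E V' D := by
  intro d L h1 h2
  apply hD d L
  · intro k
    exact (h1 k).mono (by intro x hx; exact h hx)
  · intro x hx y hy hxy
    exact h2 x (h hx) y (h hy) hxy

theorem DimGe_congr {E E' : Finset (ℕ × ℕ)} {V : Finset ℕ} {D : ℝ}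
    (h : ∀ x ∈ V, ∀ y ∈ V, (TG E x y ↔ TG E' x y)) (hD : DimGe E V D) : DimGe E' V D := by
  intro d L h1 h2
  apply hD d L h1
  intro x hx y hy hxy
  rw [h x hx y hy]
  exact h2 x hx y hy hxy

/-- translation of pairs -/
def shf (t : ℕ) (e : ℕ × ℕ) : ℕ × ℕ := (e.1 + t, e.2 + t)

theorem shf_inj (t : ℕ) : Function.Injective (shf t) := by
  rintro ⟨a, b⟩ ⟨c, d⟩ h
  unfold shf at h
  simp only [Prod.mk.injEq] at h
  ext <;> simp <;> omega

theorem KI_eq_image (t l : ℕ) : KI t (t + l) = (K l).image (shf t) := by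
  ext ⟨a, b⟩
  rw [mem_KI, Finset.mem_image]
  constructor
  · rintro ⟨h1, h2, h3⟩
    simp only at h1 h2 h3
    refine ⟨(a - t, b - t), mem_K.2 ⟨by simp only; omega, by simp only; omega⟩, ?_⟩
    unfold shf
    ext <;> simp <;> omega
  · rintro ⟨⟨c, d⟩, hcd, h⟩
    rw [mem_K] at hcd
    unfold shf at h
    simp only [Prod.mk.injEq] at h hcd ⊢
    omega

theorem TG_shf_of {E : Finset (ℕ × ℕ)} (t : ℕ) {x y : ℕ} (h : TG E x y) :
    TG (E.image (shf t)) (x + t) (y + t) := by
  induction h with
  | single h =>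
    exact Relation.TransGen.single (Finset.mem_image.2 ⟨_, h, rfl⟩)
  | tail _ h ih =>
    exact Relation.TransGen.tail ih (Finset.mem_image.2 ⟨_, h, rfl⟩)

theorem of_TG_shf {E : Finset (ℕ × ℕ)} (t : ℕ) {a b : ℕ} (h : TG (E.image (shf t)) a b) :
    TG E (a - t) (b - t) := by
  have key : ∀ {a b : ℕ}, (a, b) ∈ E.image (shf t) → (a - t, b - t) ∈ E := by
    intro a b h
    obtain ⟨⟨c, d⟩, hcd, h⟩ := Finset.mem_image.1 h
    unfold shf at h
    simp only [Prod.mk.injEq] at h
    obtain ⟨h1, h2⟩ := h
    rw [← h1, ← h2]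
    simpa using hcd
  induction h with
  | single h => exact Relation.TransGen.single (key h)
  | tail _ h ih => exact Relation.TransGen.tail ih (key h)

theorem TG_shf_iff {E : Finset (ℕ × ℕ)} (t : ℕ) {x y : ℕ} :
    TG (E.image (shf t)) (x + t) (y + t) ↔ TG E x y := by
  constructor
  · intro h
    have := of_TG_shf t h
    simpa using this
  · exact TG_shf_of t

theorem DimGe_shf {E : Finset (ℕ × ℕ)} (t l : ℕ) (D : ℝ) :
    DimGe (E.image (shf t)) (Ico t (t + l)) D ↔ DimGe E (range l) D := by
  constructor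
  · intro hD d L h1 h2
    apply hD d (fun k x => L k (x - t))
    · intro k x hx y hy hxy
      simp only [Finset.coe_Ico, Set.mem_Ico] at hx hy
      have := h1 k (x₁ := x - t) (x₂ := y - t) (by simp; omega) (by simp; omega) hxy
      omega
    · intro x hx y hy hxy
      rw [Finset.mem_Ico] at hx hy
      obtain ⟨x', rfl⟩ : ∃ x', x = x' + t := ⟨x - t, by omega⟩
      obtain ⟨y', rfl⟩ : ∃ y', y = y' + t := ⟨y - t, by omega⟩
      rw [TG_shf_iff]
      simp only [Nat.add_sub_cancel]
      exact h2 x' (Finset.mem_range.2 (by omega)) y' (Finset.mem_range.2 (by omega)) (by omega)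
  · intro hD d L h1 h2
    apply hD d (fun k x => L k (x + t))
    · intro k x hx y hy hxy
      simp only [Finset.coe_range, Set.mem_Iio] at hx hy
      have := h1 k (x₁ := x + t) (x₂ := y + t) (by simp; omega) (by simp; omega) hxy
      omega
    · intro x hx y hy hxy
      rw [Finset.mem_range] at hx hy
      rw [← TG_shf_iff t]
      exact h2 (x + t) (Finset.mem_Ico.2 (by omega)) (y + t) (Finset.mem_Ico.2 (by omega))
        (by omega)

theorem Pr_shift (p : ℝ) (t l : ℕ) (D : ℝ) :
    Pr p (KI t (t + l)) (fun E => DimGe E (Ico t (t + l)) D) =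
      Pr p (K l) (fun E => DimGe E (range l) D) := by
  unfold Pr
  rw [KI_eq_image, Ex_image ((shf_inj t).injOn)]
  apply Ex_congr
  intro E _
  simp only [DimGe_shf]

theorem windows (p : ℝ) (l : ℕ) (D : ℝ) (M : ℕ) :
    ∀ Z : Finset (ℕ × ℕ), (∀ j < M, KI (j * l) (j * l + l) ⊆ Z) →
    Pr p Z (fun E => ∀ j < M, ¬ DimGe (E ∩ KI (j * l) (j * l + l)) (Ico (j * l) (j * l + l)) D) =
      (1 - Pr p (K l) (fun E => DimGe E (range l) D)) ^ M := by
  induction M with
  | zero =>
    intro Z _
    unfold Pr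
    rw [pow_zero, Ex_congr (g := fun _ => (1 : ℝ)), Ex_one]
    intro E _
    simp
  | succ M ih =>
    intro Z hZ
    set W := KI (M * l) (M * l + l) with hW
    have hWZ : W ⊆ Z := hZ M (Nat.lt_succ_self M)
    have hdisj : ∀ j < M, Disjoint (KI (j * l) (j * l + l)) W := by
      intro j hj
      rw [Finset.disjoint_left]
      intro e he he'
      rw [mem_KI] at he
      rw [hW, mem_KI] at he'
      have : (j + 1) * l ≤ M * l := Nat.mul_le_mul_right l hj
      rw [add_mul, one_mul] at this
      omega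
    have hsub : ∀ j < M, KI (j * l) (j * l + l) ⊆ Z \ W := by
      intro j hj e he
      rw [Finset.mem_sdiff]
      exact ⟨hZ j (by omega) he, fun h => (Finset.disjoint_left.1 (hdisj j hj)) he h⟩
    have hu : Z = (Z \ W) ∪ W := by
      rw [Finset.sdiff_union_of_subset hWZ]
    rw [pow_succ, ← ih (Z \ W) hsub, ← Pr_shift p (M * l) l D, ← hW, ← Pr_not]
    conv_lhs => rw [hu]
    unfold Pr
    rw [Ex_union Finset.sdiff_disjoint, ← Ex_mul_right]
    apply Ex_congr
    intro E hE
    rw [← Ex_mul_left]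
    apply Ex_congr
    intro F hF
    have h1 : ∀ j < M, (E ∪ F) ∩ KI (j * l) (j * l + l) = E ∩ KI (j * l) (j * l + l) := by
      intro j hj
      rw [Finset.union_inter_distrib_right]
      have : F ∩ KI (j * l) (j * l + l) = ∅ := by
        rw [← Finset.disjoint_iff_inter_eq_empty]
        exact ((hdisj j hj).symm).mono_left hF
      rw [this, Finset.union_empty]
    have h2 : (E ∪ F) ∩ W = F := by
      rw [Finset.union_inter_distrib_right, Finset.inter_eq_left.2 hF]
      have : E ∩ W = ∅ := by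
        rw [← Finset.disjoint_iff_inter_eq_empty]
        exact Finset.disjoint_of_subset_left hE Finset.sdiff_disjoint
      rw [this, Finset.empty_union]
    have h3 : (∀ j < M + 1, ¬ DimGe ((E ∪ F) ∩ KI (j * l) (j * l + l))
        (Ico (j * l) (j * l + l)) D) ↔
        ((∀ j < M, ¬ DimGe (E ∩ KI (j * l) (j * l + l)) (Ico (j * l) (j * l + l)) D) ∧
          ¬ DimGe F (Ico (M * l) (M * l + l)) D) := by
      constructor
      · intro h
        refine ⟨fun j hj => ?_, ?_⟩
        · have := h j (by omega)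
          rwa [h1 j hj] at this
        · have := h M (by omega)
          rwa [← hW, h2] at this
      · rintro ⟨ha, hb⟩ j hj
        rcases Nat.lt_succ_iff_lt_or_eq.1 hj with hj' | hj'
        · rw [h1 j hj']; exact ha j hj'
        · subst hj'
          rw [← hW, h2]; exact hb
    by_cases ha : (∀ j < M, ¬ DimGe (E ∩ KI (j * l) (j * l + l)) (Ico (j * l) (j * l + l)) D) <;>
      by_cases hb : ¬ DimGe F (Ico (M * l) (M * l + l)) D
    · rw [if_pos (h3.2 ⟨ha, hb⟩), if_pos ha, if_pos hb]; norm_num
    · rw [if_neg (fun h => hb (h3.1 h).2), if_neg hb, mul_zero]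
    · rw [if_neg (fun h => ha (h3.1 h).1), if_neg ha, zero_mul]
    · rw [if_neg (fun h => ha (h3.1 h).1), if_neg ha, zero_mul]

/-- disjoint consecutive windows give independent trials -/
theorem repeat_bound (p : ℝ) (hp : 0 ≤ p) (hp1 : p ≤ 1) (l M n : ℕ) (h : M * l ≤ n) (D : ℝ) :
    Pr p (K n) (fun E => ¬ DimGe E (range n) D) ≤
      (1 - Pr p (K l) (fun E => DimGe E (range l) D)) ^ M := by
  have hle : ∀ j < M, j * l + l ≤ n := by
    intro j hj
    have : (j + 1) * l ≤ M * l := Nat.mul_le_mul_right l hj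
    rw [add_mul, one_mul] at this
    omega
  rw [← windows p l D M (K n) (by
    intro j hj e he
    have := hle j hj
    rw [mem_KI] at he
    rw [mem_K]; omega)]
  apply Pr_mono hp hp1
  intro E hE hn j hj hW
  apply hn
  have hlej := hle j hj
  apply DimGe_mono (V := Ico (j * l) (j * l + l))
  · intro x hx
    rw [Finset.mem_Ico] at hx
    rw [Finset.mem_range]; omega
  · refine DimGe_congr ?_ hW
    intro x hx y hy
    rw [Finset.mem_Ico] at hx hy
    constructor
    · exact TG_mono Finset.inter_subset_left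
    · intro hT
      refine TG_local (fun e he => (mem_K.1 (hE he)).1) ?_ hT
      intro e he h1 h2
      rw [Finset.mem_inter, mem_KI]
      have := (mem_K.1 (hE he)).1
      exact ⟨he, by omega, this, by omega⟩

end DW
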