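import Pool.Agent.Helper553.DimWidth.GrowthCore
import Pool.Agent.Helper553.DimWidth.Repeat
import Pool.Agent.Helper553.DimWidth.Iso

set_option autoImplicit false
set_option linter.unusedSectionVars false
open scoped Classical
open Finset

namespace DW

theorem gr_t {p : ℝ} (hp : 0 < p) (hp2 : p < 1 / 200) : 1 < Real.log (1 / p) ∧ Real.log (1 / p) ≤ 1 / p := by
  constructor
  · rw [Real.lt_log_iff_exp_lt (by positivity)]
    have h1 : Real.exp 1 < 2.7182818286 := Real.exp_one_lt_d9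
    have h2 : (200 : ℝ) < 1 / p := by
      rw [lt_div_iff₀ hp]
      linarith
    linarith
  · have := Real.log_le_sub_one_of_pos (show 0 < 1 / p by positivity)
    linarith

theorem gr_fit {p : ℝ} (hp : 0 < p) (hp2 : p < 1 / 200) {n : ℕ} (hn : 3 ≤ n) (hlog : Real.log n / n ≤ p) :
    (1 / p) * (Real.log (1 / p) + Real.log (Real.log (1 / p))) ≤ n := by
  obtain ⟨ht1, ht2⟩ := gr_t hp hp2
  set t := Real.log (1 / p) with ht
  by_contra hcon
  push Not at hcon
  have hlt : 0 < Real.log t := Real.log_pos ht1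
  have hn3 : (3 : ℝ) ≤ n := by exact_mod_cast hn
  have he : Real.exp 1 < 2.7182818286 := Real.exp_one_lt_d9
  set x0 := (1 / p) * (t + Real.log t) with hx0
  have hanti := Real.log_div_self_antitoneOn (a := (n : ℝ)) (b := x0)
    (by show Real.exp 1 ≤ (n : ℝ); linarith) (by show Real.exp 1 ≤ x0; linarith) hcon.le
  simp only at hanti
  have hlx : Real.log x0 = t + Real.log (t + Real.log t) := by
    rw [hx0, Real.log_mul (by positivity) (by positivity), ← ht]
  have hlt2 : Real.log t < Real.log (t + Real.log t) := Real.log_lt_log (by linarith) (by linarith)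
  have hx0pos : 0 < x0 := by linarith
  have h1 : p < Real.log x0 / x0 := by
    rw [lt_div_iff₀ hx0pos, hlx, hx0]
    have : p * (1 / p * (t + Real.log t)) = t + Real.log t := by field_simp
    rw [this]
    linarith
  linarith

theorem gr_m {p β : ℝ} (hp : 0 < p) (hp2 : p < 1 / 200) (hβ : 0 < β) (hβ1 : β ≤ 1 / 10) :
    2 * ((⌊Real.log (β * Real.sqrt (Real.log (1 / p) / p)) / p⌋₊ : ℕ) : ℝ) ≤
      max 0 ((1 / p) * (Real.log (1 / p) + Real.log (Real.log (1 / p)) - 4)) := by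
  obtain ⟨ht1, ht2⟩ := gr_t hp hp2
  set t := Real.log (1 / p) with ht
  have htp : 0 < t / p := by positivity
  have hx : Real.log (β * Real.sqrt (t / p)) = Real.log β + (1 / 2) * (Real.log t + t) := by
    rw [Real.log_mul hβ.ne' (Real.sqrt_pos.mpr htp).ne', Real.log_sqrt htp.le, Real.log_div (by linarith) hp.ne']
    have : t = - Real.log p := by rw [ht, one_div, Real.log_inv]
    rw [show Real.log t - Real.log p = Real.log t + t by linarith]
    ring
  have hlβ : Real.log β ≤ -2 := by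
    have h1 : Real.log β ≤ Real.log (1 / 10) := Real.log_le_log hβ hβ1
    have h2 : Real.log (1 / 10) = - Real.log 10 := by rw [one_div, Real.log_inv]
    have h3 : (2 : ℝ) ≤ Real.log 10 := by
      rw [Real.le_log_iff_exp_le (by norm_num)]
      have : Real.exp 2 = Real.exp 1 * Real.exp 1 := by rw [← Real.exp_add]; norm_num
      rw [this]
      have h4 : Real.exp 1 < 2.7182818286 := Real.exp_one_lt_d9
      have h5 := Real.exp_pos 1
      nlinarith
    linarith
  rcases le_or_gt 0 (Real.log (β * Real.sqrt (t / p)) / p) with h0 | h0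
  · refine le_trans ?_ (le_max_right _ _)
    have h1 := Nat.floor_le h0
    have h2 : 2 * (Real.log (β * Real.sqrt (t / p)) / p) ≤ (1 / p) * (t + Real.log t - 4) := by
      rw [hx]
      have : (1 / p) * (t + Real.log t - 4) - 2 * ((Real.log β + (1 / 2) * (Real.log t + t)) / p) =
        (1 / p) * (-4 - 2 * Real.log β) := by
        field_simp
        ring
      have h3 : 0 ≤ (1 / p) * (-4 - 2 * Real.log β) := by
        apply mul_nonneg (by positivity)
        linarith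
      linarith
    linarith
  · rw [Nat.floor_of_nonpos h0.le]
    simp

theorem gr_c1 {r δ δ' : ℝ} (hr0 : 0 ≤ r) (hr : r ≤ δ / 4) (hδ'1 : δ' ≤ 1 / 2) (hδ'0 : 0 < δ') (hδ'2 : δ' ≤ δ / 2) :
    1 - δ ≤ (1 - r) ^ 2 * (1 - δ') := by
  have h13 : 1 - 2 * r ≤ (1 - r) ^ 2 := by
    have := sq_nonneg r
    linarith [show (1 - r) ^ 2 = 1 - 2 * r + r ^ 2 by ring]
  have h14 : (1 - 2 * r) * (1 - δ') ≤ (1 - r) ^ 2 * (1 - δ') := by
    apply mul_le_mul_of_nonneg_right h13
    linarith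
  have h15 : 0 ≤ r * δ' := by positivity
  have h16 : (1 - 2 * r) * (1 - δ') = 1 - 2 * r - δ' + 2 * (r * δ') := by ring
  linarith

theorem gr_h9 {p δ N : ℝ} (hp : 0 < p) (hp3 : p < δ / 640) (hN : 0 < N) (hNlow1 : 1 / (20 * p) ≤ N) :
    8 / N ≤ δ / 4 := by
  rw [div_le_iff₀ hN]
  have h10 : 1 / (20 * p) * (20 * p) = 1 := by field_simp
  have h11 : 1 / (20 * p) * (20 * p) ≤ N * (20 * p) := by gcongr
  have h12 : N * (20 * p) ≤ N * (20 * (δ / 640)) := by gcongr
  linarith [show δ / 4 * N = 8 * (N * (20 * (δ / 640))) by ring]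

theorem gr_exp1 {p : ℝ} (hp : 0 < p) (hp2 : p < 1 / 200) : Real.exp (-(2 * p)) ≤ 1 - p := by
  have h1 : (1 + 2 * p) ≤ Real.exp (2 * p) := by
    have := Real.add_one_le_exp (2 * p)
    linarith
  rw [Real.exp_neg]
  have h2 : (Real.exp (2 * p))⁻¹ ≤ (1 + 2 * p)⁻¹ := by
    gcongr
  have h3 : (1 + 2 * p)⁻¹ ≤ 1 - p := by
    rw [inv_le_iff_one_le_mul₀ (by positivity)]
    have : (1 - p) * (1 + 2 * p) = 1 + p * (1 - 2 * p) := by ring
    have h4 : 0 ≤ p * (1 - 2 * p) := mul_nonneg hp.le (by linarith)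
    linarith
  linarith

theorem gr_pN2 {p s ℓ N : ℝ} (hp : 0 < p) (hN0 : 0 ≤ N) (hN : N ≤ s / (10 * p)) (hs : s ^ 2 = p * ℓ) :
    p * N ^ 2 ≤ ℓ / 100 := by
  have h1 : N ^ 2 ≤ (s / (10 * p)) ^ 2 := by gcongr
  have h2 : (s / (10 * p)) ^ 2 = ℓ / (100 * p) := by
    rw [div_pow, hs]
    field_simp
    ring
  rw [h2] at h1
  calc p * N ^ 2 ≤ p * (ℓ / (100 * p)) := by gcongr
    _ = ℓ / 100 := by field_simp

theorem gr_pi {p ℓ : ℝ} {N : ℕ} (hexp1 : Real.exp (-(2 * p)) ≤ 1 - p) (hpN2 : p * (N : ℝ) ^ 2 ≤ ℓ / 100) :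
    Real.exp (-(ℓ / 25)) ≤ ((1 - p) ^ (N ^ 2)) ^ 2 := by
  have h1 : Real.exp (-(2 * p)) ^ (N ^ 2) ≤ (1 - p) ^ (N ^ 2) := by
    gcongr
  have h2 : (Real.exp (-(2 * p)) ^ (N ^ 2)) ^ 2 ≤ ((1 - p) ^ (N ^ 2)) ^ 2 := by
    gcongr
  refine le_trans ?_ h2
  rw [← pow_mul, ← Real.exp_nat_mul, Real.exp_le_exp]
  push_cast
  linarith [show (N : ℝ) ^ 2 * 2 * -(2 * p) = -(4 * (p * (N : ℝ) ^ 2)) by ring]

theorem gr_L {p t s m N ℓ : ℝ} (hp : 0 < p) (hp1' : p ≤ 1) (ht1 : 1 < t) (ht2 : t ≤ 1 / p)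
    (hm : 2 * m ≤ max 0 (1 / p * (t + Real.log t - 4)))
    (hNup : N ≤ s / (10 * p)) (hs1 : 1 ≤ s) (hsp : s ≤ p ^ (-(1 / 100) : ℝ)) (hℓp : 1 / p < ℓ) :
    2 * m + 2 * N ≤ 3 * ℓ ^ 2 := by
  have hpinv : 0 < 1 / p := by positivity
  have hlt : Real.log t ≤ t := by
    have := Real.log_le_sub_one_of_pos (show 0 < t by linarith)
    linarith
  have h2 : 2 * m ≤ 2 * (1 / p) ^ 2 := by
    refine hm.trans (max_le (by positivity) ?_)
    calc 1 / p * (t + Real.log t - 4) ≤ 1 / p * (2 * (1 / p)) := by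
          apply mul_le_mul_of_nonneg_left _ hpinv.le
          linarith
      _ = 2 * (1 / p) ^ 2 := by ring
  have h3 : 2 * N ≤ (1 / p) ^ 2 := by
    have h4 : s ≤ 1 / p := by
      refine hsp.trans ?_
      have : (1 : ℝ) / p = p ^ (-1 : ℝ) := by rw [Real.rpow_neg_one, one_div]
      rw [this]
      exact Real.rpow_le_rpow_of_exponent_ge hp hp1' (by norm_num)
    have h5 : s / (10 * p) = (1 / 10) * (s * (1 / p)) := by field_simp
    have h6 : s * (1 / p) ≤ (1 / p) * (1 / p) := by gcongr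
    have h7 : (1 / p) ^ 2 = (1 / p) * (1 / p) := sq _
    have h8 : 0 ≤ (1 / p) * (1 / p) := by positivity
    linarith
  have h4 : (1 / p) ^ 2 ≤ ℓ ^ 2 := by gcongr
  linarith

theorem gr_M {n L : ℕ} (hL : 0 < L) : (n : ℝ) / L - 1 ≤ ((n / L : ℕ) : ℝ) := by
  have hLpos : (0 : ℝ) < L := by exact_mod_cast hL
  have h1 : n < (n / L + 1) * L := by
    have h2 := Nat.div_add_mod n L
    have h3 := Nat.mod_lt n hL
    calc n = L * (n / L) + n % L := h2.symm
      _ < L * (n / L) + L := by omega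
      _ = (n / L + 1) * L := by ring
  have h2 : (n : ℝ) < (((n / L : ℕ) : ℝ) + 1) * L := by exact_mod_cast h1
  have h3 : (n : ℝ) / L < ((n / L : ℕ) : ℝ) + 1 := by
    rw [div_lt_iff₀ hLpos]
    exact h2
  linarith

theorem gr_fin {p δ ℓ w M L Lδ : ℝ} (hp : 0 < p) (hδ : 0 < δ) (hLδ : Lδ = |Real.log δ|)
    (hp4 : p < 1 / (384 * (Lδ + 1))) (hℓp : 1 / p < ℓ) (hLpos : 0 < L) (hLup : L ≤ 3 * ℓ ^ 2)
    (hM0 : 0 ≤ M) (hMlow : Real.exp ℓ / L - 1 ≤ M)
    (hw2 : 1 / 2 * Real.exp (-(ℓ / 25)) ≤ w) : Real.exp (-(w * M)) ≤ δ := by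
  have hℓpos : 0 < ℓ := lt_trans (by positivity) hℓp
  have hLnn : 0 ≤ Lδ := by rw [hLδ]; exact abs_nonneg _
  have hM2 : Real.exp (3 * ℓ / 4) / 96 - 1 ≤ M := by
    refine le_trans ?_ hMlow
    have h1 : ℓ ^ 2 ≤ 32 * Real.exp (ℓ / 4) := by
      have := Real.quadratic_le_exp_of_nonneg (show 0 ≤ ℓ / 4 by positivity)
      have h2 : (ℓ / 4) ^ 2 = ℓ ^ 2 / 16 := by ring
      rw [h2] at this
      linarith
    have h2 : Real.exp (3 * ℓ / 4) / 96 ≤ Real.exp ℓ / L := by
      rw [div_le_div_iff₀ (by norm_num) hLpos]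
      have h3 : Real.exp ℓ = Real.exp (3 * ℓ / 4) * Real.exp (ℓ / 4) := by
        rw [← Real.exp_add]
        congr 1
        ring
      rw [h3]
      have h4 := Real.exp_pos (3 * ℓ / 4)
      have h5 : L ≤ 96 * Real.exp (ℓ / 4) := by linarith
      calc Real.exp (3 * ℓ / 4) * L ≤ Real.exp (3 * ℓ / 4) * (96 * Real.exp (ℓ / 4)) := by gcongr
        _ = Real.exp (3 * ℓ / 4) * Real.exp (ℓ / 4) * 96 := by ring
    linarith
  have hwM : Real.exp (ℓ / 2) / 192 - 1 / 2 ≤ w * M := by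
    have he1 : 0 < Real.exp (-(ℓ / 25)) := Real.exp_pos _
    have he2 : Real.exp (-(ℓ / 25)) ≤ 1 := by
      rw [Real.exp_le_one_iff]
      linarith
    have he3 : Real.exp (ℓ / 2) ≤ Real.exp (-(ℓ / 25)) * Real.exp (3 * ℓ / 4) := by
      rw [← Real.exp_add, Real.exp_le_exp]
      linarith
    have h1 : 1 / 2 * Real.exp (-(ℓ / 25)) * M ≤ w * M := by gcongr
    have h2 : 1 / 2 * Real.exp (-(ℓ / 25)) * (Real.exp (3 * ℓ / 4) / 96 - 1) ≤ 1 / 2 * Real.exp (-(ℓ / 25)) * M := by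
      gcongr
    have h3 : 1 / 2 * Real.exp (-(ℓ / 25)) * (Real.exp (3 * ℓ / 4) / 96 - 1) =
        (Real.exp (-(ℓ / 25)) * Real.exp (3 * ℓ / 4)) / 192 - 1 / 2 * Real.exp (-(ℓ / 25)) := by ring
    linarith
  have hfin : -Real.log δ ≤ w * M := by
    refine le_trans ?_ hwM
    have h1 : ℓ / 2 ≤ Real.exp (ℓ / 2) := by
      have := Real.add_one_le_exp (ℓ / 2)
      linarith
    have h2 : 384 * (Lδ + 1) < 1 / p := by
      rw [lt_div_iff₀ hp]
      rw [lt_div_iff₀ (by positivity)] at hp4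
      linarith
    have h3 : -Real.log δ ≤ Lδ := by rw [hLδ]; exact neg_le_abs _
    linarith
  calc Real.exp (-(w * M)) ≤ Real.exp (Real.log δ) := by
        rw [Real.exp_le_exp]
        linarith
    _ = δ := Real.exp_log hδ

theorem growth_regime : ∃ ε : ℝ, 0 < ε ∧ ∀ δ : ℝ, 0 < δ → ∃ p0 : ℝ, 0 < p0 ∧
    ∀ p : ℝ, 0 < p → p < p0 → ∀ n : ℕ, 3 ≤ n → Real.log n / n ≤ p →
    p * Real.log n ≤ p ^ (-(1 / 50) : ℝ) →
    Pr p (K n) (fun E => ¬ DimGe E (range n)
      (ε * (max 1 (Real.sqrt (p * Real.log n)) / p))) ≤ δ := by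
  obtain ⟨c, hc, β, hβ, hβ1, hcore⟩ := growth_core (1 / 10) (by norm_num)
  refine ⟨c / 20, by positivity, ?_⟩
  intro δ hδ
  set δ' : ℝ := min (δ / 2) (1 / 2) with hδ'
  have hδ'0 : 0 < δ' := lt_min (by linarith) (by norm_num)
  have hδ'1 : δ' ≤ 1 / 2 := min_le_right _ _
  have hδ'2 : δ' ≤ δ / 2 := min_le_left _ _
  obtain ⟨p00, hp00, hp00h, hcore2⟩ := hcore δ' hδ'0
  have hLnn : 0 ≤ |Real.log δ| := abs_nonneg _
  set Lδ := |Real.log δ| with hLδ
  refine ⟨min (min p00 (1 / 200)) (min (δ / 640) (1 / (384 * (Lδ + 1)))), by positivity, ?_⟩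
  intro p hp hpp n hn hlog hpl
  have hp1 : p < p00 := lt_of_lt_of_le hpp ((min_le_left _ _).trans (min_le_left _ _))
  have hp2 : p < 1 / 200 := lt_of_lt_of_le hpp ((min_le_left _ _).trans (min_le_right _ _))
  have hp3 : p < δ / 640 := lt_of_lt_of_le hpp ((min_le_right _ _).trans (min_le_left _ _))
  have hp4 : p < 1 / (384 * (Lδ + 1)) := lt_of_lt_of_le hpp ((min_le_right _ _).trans (min_le_right _ _))
  obtain ⟨ht1, ht2⟩ := gr_t hp hp2
  have hfit := gr_fit hp hp2 hn hlog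
  have hm := gr_m hp hp2 hβ hβ1
  set s := max 1 (Real.sqrt (p * Real.log n)) with hs
  have hs1 : 1 ≤ s := le_max_left _ _
  set N := ⌊s / (10 * p)⌋₊ with hN
  set m := ⌊Real.log (β * Real.sqrt (Real.log (1 / p) / p)) / p⌋₊ with hmdef
  set t := Real.log (1 / p) with ht
  have hn3 : (3 : ℝ) ≤ n := by exact_mod_cast hn
  have hlogn : 0 ≤ Real.log n := Real.log_nonneg (by linarith)
  have hNup : (N : ℝ) ≤ s / (10 * p) := Nat.floor_le (by positivity)
  have hNlow : s / (20 * p) ≤ N := by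
    have h1 : s / (10 * p) - 1 < N := Nat.sub_one_lt_floor _
    have h2 : s / (10 * p) = 2 * (s / (20 * p)) := by field_simp; ring
    have h3 : 1 ≤ s / (20 * p) := by
      rw [le_div_iff₀ (by positivity)]
      linarith
    linarith
  have hNlow1 : 1 / (20 * p) ≤ N := by
    refine le_trans ?_ hNlow
    gcongr
  have hN10 : (10 : ℝ) ≤ N := by
    refine le_trans ?_ hNlow1
    rw [le_div_iff₀ (by positivity)]
    linarith
  have hNpos : 1 ≤ N := by
    have : (1 : ℝ) ≤ N := by linarith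
    exact_mod_cast this
  have hp1' : p ≤ 1 := by linarith
  have hsp : s ≤ p ^ (-(1 / 100) : ℝ) := by
    have h1 : (1 : ℝ) ≤ p ^ (-(1 / 100) : ℝ) := Real.one_le_rpow_of_pos_of_le_one_of_nonpos hp hp1' (by norm_num)
    refine max_le h1 ?_
    rw [Real.sqrt_le_left (by positivity), ← Real.rpow_natCast, ← Real.rpow_mul hp.le]
    refine hpl.trans (le_of_eq ?_)
    norm_num
  have hNup2 : (N : ℝ) ≤ p ^ (-(51 / 50) : ℝ) := by
    have h1 : s / (10 * p) ≤ p ^ (-(1 / 100) : ℝ) / p := by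
      apply div_le_div₀ (by positivity) hsp hp
      linarith
    have h2 : p ^ (-(1 / 100) : ℝ) / p = p ^ (-(101 / 100) : ℝ) := by
      rw [← Real.rpow_sub_one hp.ne']
      norm_num
    have h3 : p ^ (-(101 / 100) : ℝ) ≤ p ^ (-(51 / 50) : ℝ) :=
      Real.rpow_le_rpow_of_exponent_ge hp hp1' (by norm_num)
    linarith
  have hD : c / 20 * (s / p) ≤ c * N := by
    have : c / 20 * (s / p) = c * (s / (20 * p)) := by field_simp
    rw [this]
    gcongr
  have hcore3 := hcore2 p hp hp1 m N rfl (by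
    have : (1 / 10 : ℝ) / (2 * p) = 1 / (20 * p) := by field_simp; ring
    rw [this]
    exact hNlow1) hNup2
  -- the probability of a window
  set L := 2 * (m + N) with hL
  have hwin : ∀ π0 : ℝ, 0 ≤ π0 →
      π0 ≤ Pr p (KI m (m + N)) (fun E => ∃ B0 ⊆ Ico m (m + N), B0.card = N / 2 ∧
        ∀ b ∈ B0, ∀ e ∈ E, e.1 ≠ b ∧ e.2 ≠ b) →
      π0 ^ 2 * (1 - δ') ≤ Pr p (K L) (fun E => DimGe E (range L) (c / 20 * (s / p))) := by
    intro π0 h0 h1
    refine (hcore3 π0 h0 h1).trans ?_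
    exact Pr_mono hp.le hp1' (fun E _ h => DimGe_anti hD h)
  have hPle : Pr p (K L) (fun E => DimGe E (range L) (c / 20 * (s / p))) ≤ 1 := Pr_le_one hp.le hp1' _ _
  rcases le_or_gt (p * Real.log n) 1 with hcase | hcase
  · -- Case 1
    have hs_eq : s = 1 := by
      rw [hs]
      apply max_eq_left
      rw [Real.sqrt_le_one]
      exact hcase
    have hNp : (N : ℝ) ≤ 1 / (10 * p) := by
      rw [hs_eq] at hNup
      exact hNup
    have hLn : 1 * L ≤ n := by
      rw [one_mul]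
      have h1 : (L : ℝ) = 2 * m + 2 * N := by
        rw [hL]; push_cast; ring
      have h2 : 2 * (N : ℝ) ≤ (1 / p) * (1 / 5) := by
        have : (1 / p) * (1 / 5) = 2 * (1 / (10 * p)) := by field_simp; ring
        rw [this]
        linarith
      have hlt : 0 < Real.log t := Real.log_pos ht1
      have h3 : (L : ℝ) ≤ (1 / p) * (t + Real.log t) := by
        have hpp' : 0 < 1 / p := by positivity
        rcases max_cases 0 ((1 / p) * (t + Real.log t - 4)) with ⟨h4, _⟩ | ⟨h4, _⟩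
        · rw [h4] at hm
          have : (1 / p) * (1 / 5) ≤ (1 / p) * (t + Real.log t) := by
            apply mul_le_mul_of_nonneg_left _ hpp'.le
            linarith
          linarith
        · rw [h4] at hm
          have : (1 / p) * (t + Real.log t - 4) + (1 / p) * (1 / 5) ≤ (1 / p) * (t + Real.log t) := by
            rw [← mul_add]
            apply mul_le_mul_of_nonneg_left _ hpp'.le
            linarith
          linarith
      have h5 : (L : ℝ) ≤ n := h3.trans hfit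
      exact_mod_cast h5
    have hrep := repeat_bound p hp.le hp1' L 1 n hLn (c / 20 * (s / p))
    refine hrep.trans ?_
    rw [pow_one]
    have hpN : p * N ≤ 1 / 4 := by
      have : p * N ≤ p * (1 / (10 * p)) := by gcongr
      have h2 : p * (1 / (10 * p)) = 1 / 10 := by field_simp
      linarith
    have hiso := iso_typical p hp hp1' m N (N / 2) hNpos hpN (by omega)
    have hNr : (0 : ℝ) < N := by linarith
    have h8 : 8 / (N : ℝ) ≤ 1 := by
      rw [div_le_one hNr]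
      linarith
    have hw := hwin (1 - 8 / (N : ℝ)) (by linarith) hiso
    have h9 : 8 / (N : ℝ) ≤ δ / 4 := gr_h9 hp hp3 hNr hNlow1
    have h80 : 0 ≤ 8 / (N : ℝ) := by positivity
    set r := 8 / (N : ℝ) with hr
    have h12 := gr_c1 h80 h9 hδ'1 hδ'0 hδ'2
    linarith
  · -- Case 2
    have hsq1 : 1 ≤ Real.sqrt (p * Real.log n) := by
      rw [Real.one_le_sqrt]
      exact hcase.le
    have hs_eq : s = Real.sqrt (p * Real.log n) := by
      rw [hs]
      exact max_eq_right hsq1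
    have hs_sq : s ^ 2 = p * Real.log n := by
      rw [hs_eq, Real.sq_sqrt (by positivity)]
    set ℓ := Real.log n with hℓ
    have hℓp : 1 / p < ℓ := by
      rw [div_lt_iff₀ hp]
      linarith
    have hℓpos : 0 < ℓ := lt_trans (by positivity) hℓp
    have hpN2 : p * (N : ℝ) ^ 2 ≤ ℓ / 100 := gr_pN2 hp (Nat.cast_nonneg _) hNup hs_sq
    have hexp1 := gr_exp1 hp hp2
    have hiso := iso_forced p hp.le hp1' m N (N / 2) (Nat.div_le_self _ _)
    have h1p : 0 ≤ 1 - p := by linarith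
    have hw := hwin ((1 - p) ^ (N ^ 2)) (by positivity) hiso
    have hπ := gr_pi hexp1 hpN2
    set w := Pr p (K L) (fun E => DimGe E (range L) (c / 20 * (s / p))) with hwdef
    have hw2 : 1 / 2 * Real.exp (-(ℓ / 25)) ≤ w := by
      refine le_trans ?_ hw
      have h1 : (0 : ℝ) ≤ Real.exp (-(ℓ / 25)) := (Real.exp_pos _).le
      have h2 : 1 / 2 ≤ 1 - δ' := by linarith
      calc 1 / 2 * Real.exp (-(ℓ / 25)) = Real.exp (-(ℓ / 25)) * (1 / 2) := by ring
        _ ≤ ((1 - p) ^ (N ^ 2)) ^ 2 * (1 - δ') := by gcongr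
    -- length of a window
    have hLup : (L : ℝ) ≤ 3 * ℓ ^ 2 := by
      have h1 : (L : ℝ) = 2 * m + 2 * N := by
        rw [hL]; push_cast; ring
      rw [h1]
      exact gr_L hp hp1' ht1 ht2 hm hNup hs1 hsp hℓp
    have hLpos : (0 : ℝ) < L := by
      have : 0 < L := by rw [hL]; omega
      exact_mod_cast this
    set M := n / L with hM
    have hML : M * L ≤ n := Nat.div_mul_le_self n L
    have hMlow : (n : ℝ) / L - 1 ≤ M := gr_M (by exact_mod_cast hLpos)
    have hrep := repeat_bound p hp.le hp1' L M n hML (c / 20 * (s / p))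
    refine hrep.trans ?_
    have hw1 : 0 ≤ 1 - w := by linarith
    have hexpw : (1 - w) ^ M ≤ Real.exp (-(w * M)) := by
      have h1 : 1 - w ≤ Real.exp (-w) := by
        have := Real.add_one_le_exp (-w)
        linarith
      calc (1 - w) ^ M ≤ (Real.exp (-w)) ^ M := by gcongr
        _ = Real.exp (-(w * M)) := by
          rw [← Real.exp_nat_mul]
          congr 1
          ring
    refine hexpw.trans ?_
    have hnexp : (n : ℝ) = Real.exp ℓ := by
      rw [hℓ, Real.exp_log (by linarith)]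
    rw [hnexp] at hMlow
    exact gr_fin hp hδ hLδ hp4 hℓp hLpos hLup (Nat.cast_nonneg _) hMlow hw2


end DW
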