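import Mathlib

set_option autoImplicit false
set_option linter.unusedSectionVars false
open scoped Classical
open Finset

namespace DW


lemma geo (x : ℝ) (hx : 0 < x) (n : ℕ) :
    ∑ u ∈ Ico 1 (n + 1), Real.exp (-x) ^ u ≤ (1 - Real.exp (-x) ^ n) / x := by
  induction n with
  | zero => simp
  | succ n ih =>
    rw [Finset.sum_Ico_succ_top (by omega)]
    have h1 : Real.exp (-x) ^ (n + 1) ≤ (Real.exp (-x) ^ n - Real.exp (-x) ^ (n + 1)) / x := by
      rw [le_div_iff₀ hx]
      have h2 : x + 1 ≤ Real.exp x := Real.add_one_le_exp x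
      have h3 : Real.exp (-x) ^ n = Real.exp (-x) ^ (n + 1) * Real.exp x := by
        rw [pow_succ, mul_assoc, ← Real.exp_add]; simp
      have h4 : 0 < Real.exp (-x) ^ (n + 1) := by positivity
      nlinarith
    calc _ ≤ (1 - Real.exp (-x) ^ n) / x + (Real.exp (-x) ^ n - Real.exp (-x) ^ (n + 1)) / x :=
          add_le_add ih h1
      _ = _ := by ring

lemma geo' (x : ℝ) (hx : 0 < x) (n : ℕ) :
    ∑ u ∈ Ico 1 n, Real.exp (-x) ^ u ≤ 1 / x := by
  rcases n with _ | n
  · simp [hx.le]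
  · refine (geo x hx n).trans ?_
    have : 0 ≤ Real.exp (-x) ^ n := by positivity
    gcongr
    linarith

lemma log_part (L : ℝ) (hL : 0 < L) (n : ℕ) :
    ∑ u ∈ Ico 1 n, -Real.log (1 - Real.exp (-L) ^ u) ≤ 2 / L := by
  have hq0 : 0 < Real.exp (-L) := Real.exp_pos _
  have hq1 : Real.exp (-L) < 1 := by rw [Real.exp_lt_one_iff]; linarith
  have h1 : HasSum (fun j : ℕ => ∑ u ∈ Ico 1 n, (Real.exp (-L) ^ u) ^ (j + 1) / ((j : ℝ) + 1))
      (∑ u ∈ Ico 1 n, -Real.log (1 - Real.exp (-L) ^ u)) := by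
    apply hasSum_sum
    intro u hu
    apply Real.hasSum_pow_div_log_of_abs_lt_one
    rw [abs_of_pos (by positivity)]
    apply pow_lt_one₀ hq0.le hq1
    have := (Finset.mem_Ico.mp hu).1
    omega
  have h2 : HasSum (fun j : ℕ => (1 / L) * ((1 : ℝ) / ((j + 1 : ℕ) : ℝ) ^ 2))
      ((1 / L) * (Real.pi ^ 2 / 6)) := by
    apply HasSum.mul_left
    have := (hasSum_nat_add_iff' 1).mpr hasSum_zeta_two
    simpa using this
  have h3 : ∑ u ∈ Ico 1 n, -Real.log (1 - Real.exp (-L) ^ u) ≤ (1 / L) * (Real.pi ^ 2 / 6) := by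
    refine hasSum_le ?_ h1 h2
    intro j
    rw [← Finset.sum_div]
    have hj : (0 : ℝ) < (j : ℝ) + 1 := by positivity
    have h4 := geo' (((j : ℝ) + 1) * L) (by positivity) n
    have h5 : ∀ u : ℕ, (Real.exp (-L) ^ u) ^ (j + 1) = Real.exp (-(((j : ℝ) + 1) * L)) ^ u := by
      intro u
      rw [← pow_mul, mul_comm u, pow_mul, ← Real.exp_nat_mul]
      congr 2
      push_cast; ring
    simp only [h5]
    calc (∑ u ∈ Ico 1 n, Real.exp (-(((j : ℝ) + 1) * L)) ^ u) / ((j : ℝ) + 1)
        ≤ (1 / (((j : ℝ) + 1) * L)) / ((j : ℝ) + 1) := by gcongr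
      _ = _ := by push_cast; field_simp
  refine h3.trans ?_
  have h6 : Real.pi ^ 2 / 6 ≤ 2 := by
    have := Real.pi_lt_d2
    have := Real.pi_pos
    nlinarith
  calc (1 / L) * (Real.pi ^ 2 / 6) ≤ (1 / L) * 2 := by gcongr
    _ = _ := by ring

theorem prod_bound (p τ : ℝ) (hp : 0 < p) (hp1 : p < 1) (hτ : 1 ≤ τ) (n : ℕ) :
    ∏ u ∈ Ico 1 n, (1 + Real.exp τ * ((1 - p) ^ u / (1 - (1 - p) ^ u))) ≤
      Real.exp (τ ^ 2 / (-Real.log (1 - p)) + τ + 4 / (-Real.log (1 - p))) := by
  set L : ℝ := -Real.log (1 - p) with hLdef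
  have hL : 0 < L := by
    have := Real.log_neg (show 0 < 1 - p by linarith) (by linarith)
    linarith
  have hq : 1 - p = Real.exp (-L) := by
    rw [hLdef, neg_neg, Real.exp_log (by linarith)]
  rw [hq]
  have hq0 : 0 < Real.exp (-L) := Real.exp_pos _
  have hq1 : Real.exp (-L) < 1 := by rw [Real.exp_lt_one_iff]; linarith
  set U : ℕ := ⌊τ / L⌋₊ with hU
  have hU1 : (U : ℝ) ≤ τ / L := Nat.floor_le (by positivity)
  have hU2 : τ / L < U + 1 := Nat.lt_floor_add_one _
  -- termwise bound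
  have hterm : ∀ u ∈ Ico 1 n, (1 + Real.exp τ * (Real.exp (-L) ^ u / (1 - Real.exp (-L) ^ u))) ≤
      Real.exp ((if u ≤ U then τ else Real.exp (-L) ^ (u - (U + 1))) +
        -Real.log (1 - Real.exp (-L) ^ u)) := by
    intro u hu
    have hu1 := (Finset.mem_Ico.mp hu).1
    have hr0 : 0 < Real.exp (-L) ^ u := by positivity
    have hr1 : Real.exp (-L) ^ u < 1 := pow_lt_one₀ hq0.le hq1 (by omega)
    have hpos : 0 < 1 - Real.exp (-L) ^ u := by linarith
    rw [Real.exp_add, Real.exp_neg (Real.log (1 - Real.exp (-L) ^ u)), Real.exp_log hpos,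
      ← div_eq_mul_inv, le_div_iff₀ hpos]
    have e : (1 + Real.exp τ * (Real.exp (-L) ^ u / (1 - Real.exp (-L) ^ u))) *
        (1 - Real.exp (-L) ^ u) = 1 - Real.exp (-L) ^ u + Real.exp τ * Real.exp (-L) ^ u := by
      field_simp
    rw [e]
    split_ifs with h
    · have : 1 ≤ Real.exp τ := Real.one_le_exp (by linarith)
      nlinarith
    · have h1 : Real.exp τ * Real.exp (-L) ^ u ≤ Real.exp (-L) ^ (u - (U + 1)) := by
        have e1 : Real.exp (-L) ^ u = Real.exp (-L) ^ (U + 1) * Real.exp (-L) ^ (u - (U + 1)) := by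
          rw [← pow_add]; congr 1; omega
        have e2 : Real.exp τ * Real.exp (-L) ^ (U + 1) ≤ 1 := by
          rw [← Real.exp_nat_mul, ← Real.exp_add, Real.exp_le_one_iff]
          rw [div_lt_iff₀ hL] at hU2
          push_cast
          linarith
        rw [e1, ← mul_assoc]
        calc _ ≤ 1 * Real.exp (-L) ^ (u - (U + 1)) := by gcongr
          _ = _ := one_mul _
      have h2 := Real.add_one_le_exp (Real.exp (-L) ^ (u - (U + 1)))
      linarith
  refine (Finset.prod_le_prod (fun u hu => ?_) hterm).trans ?_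
  · have hu1 := (Finset.mem_Ico.mp hu).1
    have hr0 : 0 < Real.exp (-L) ^ u := by positivity
    have hr1 : Real.exp (-L) ^ u < 1 := pow_lt_one₀ hq0.le hq1 (by omega)
    have hpos : 0 < 1 - Real.exp (-L) ^ u := by linarith
    positivity
  rw [← Real.exp_sum, Real.exp_le_exp, Finset.sum_add_distrib]
  have hlog := log_part L hL n
  have hsum : ∑ u ∈ Ico 1 n, (if u ≤ U then τ else Real.exp (-L) ^ (u - (U + 1))) ≤
      τ ^ 2 / L + (1 + 1 / L) := by
    rw [Finset.sum_ite]
    apply add_le_add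
    · rw [Finset.sum_const, nsmul_eq_mul]
      have hc : (((Ico 1 n).filter (fun u => u ≤ U)).card : ℝ) ≤ U := by
        have : ((Ico 1 n).filter (fun u => u ≤ U)).card ≤ (Ico 1 (U + 1)).card := by
          apply Finset.card_le_card
          intro u hu
          rw [Finset.mem_filter, Finset.mem_Ico] at hu
          rw [Finset.mem_Ico]; omega
        rw [Nat.card_Ico] at this
        exact_mod_cast this
      calc _ ≤ (U : ℝ) * τ := by gcongr
        _ ≤ (τ / L) * τ := by gcongr
        _ = _ := by ring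
    · calc ∑ u ∈ (Ico 1 n).filter (fun u => ¬ u ≤ U), Real.exp (-L) ^ (u - (U + 1))
          ≤ ∑ u ∈ Ico (U + 1) (n + (U + 1)), Real.exp (-L) ^ (u - (U + 1)) := by
            apply Finset.sum_le_sum_of_subset_of_nonneg
            · intro u hu
              rw [Finset.mem_filter, Finset.mem_Ico] at hu
              rw [Finset.mem_Ico]; omega
            · intro u _ _
              positivity
        _ = ∑ i ∈ range n, Real.exp (-L) ^ i := by
            rw [Finset.sum_Ico_eq_sum_range]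
            simp
        _ ≤ ∑ i ∈ range (n + 1), Real.exp (-L) ^ i := by
            apply Finset.sum_le_sum_of_subset_of_nonneg
            · intro u hu
              rw [Finset.mem_range] at *; omega
            · intro u _ _
              positivity
        _ = 1 + ∑ i ∈ Ico 1 (n + 1), Real.exp (-L) ^ i := by
            rw [Finset.range_eq_Ico, Finset.sum_eq_sum_Ico_succ_bot (by omega)]
            simp
        _ ≤ 1 + 1 / L := by
            have := geo' L hL (n + 1)
            linarith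
  have e : τ ^ 2 / L + τ + 4 / L = (τ ^ 2 / L + (1 + 1 / L)) + 2 / L + (τ - 1) + 1 / L := by ring
  rw [e]
  have : 0 < 1 / L := by positivity
  linarith

/-- final width bound, from the counting bound `hAB` (proved elsewhere) -/
theorem width_upper_of (p : ℝ) (hp : 0 < p) (hp1 : p < 1) (n : ℕ) (hn : 1 ≤ n) (P : ℕ → ℝ)
    (hAB : ∀ (z : ℝ) (k : ℕ), 0 < z → 1 ≤ k → P k ≤
      n * (z ^ (k - 1))⁻¹ * ∏ u ∈ Ico 1 n, (1 + z * ((1 - p) ^ u / (1 - (1 - p) ^ u))))
    (k : ℕ)
    (hk : 2 + 3 * Real.sqrt (Real.log n / (-Real.log (1 - p))) + 5 / (-Real.log (1 - p)) ≤ k) :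
    P k ≤ 1 / n := by
  set L : ℝ := -Real.log (1 - p) with hLdef
  have hL : 0 < L := by
    have := Real.log_neg (show 0 < 1 - p by linarith) (by linarith)
    linarith
  have hn0 : (0 : ℝ) < n := by exact_mod_cast hn
  set N : ℝ := Real.log n with hN
  have hN0 : 0 ≤ N := Real.log_nonneg (by exact_mod_cast hn)
  have hs0 : 0 ≤ Real.sqrt (N / L) := Real.sqrt_nonneg _
  have h5 : 0 < 5 / L := by positivity
  have hk1 : 1 ≤ k := by
    have : (1 : ℝ) ≤ k := by linarith
    exact_mod_cast this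
  have hkc : ((k - 1 : ℕ) : ℝ) = (k : ℝ) - 1 := by push_cast [hk1]; ring
  have main : ∀ τ : ℝ, 1 ≤ τ → 2 * N + τ ^ 2 / L + 4 / L ≤ 3 * τ * Real.sqrt (N / L) + 5 * τ / L →
      P k ≤ 1 / n := by
    intro τ hτ hineq
    refine (hAB (Real.exp τ) k (Real.exp_pos _) hk1).trans ?_
    have hpb := prod_bound p τ hp hp1 hτ n
    rw [← hLdef] at hpb
    have e1 : (n : ℝ) = Real.exp N := (Real.exp_log hn0).symm
    have e2 : (Real.exp τ ^ (k - 1))⁻¹ = Real.exp (-(τ * ((k : ℝ) - 1))) := by
      rw [← Real.exp_nat_mul, ← Real.exp_neg, hkc]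
      congr 1; ring
    rw [e2]
    calc (n : ℝ) * Real.exp (-(τ * ((k : ℝ) - 1))) *
          ∏ u ∈ Ico 1 n, (1 + Real.exp τ * ((1 - p) ^ u / (1 - (1 - p) ^ u)))
        ≤ (n : ℝ) * Real.exp (-(τ * ((k : ℝ) - 1))) * Real.exp (τ ^ 2 / L + τ + 4 / L) := by
          gcongr
      _ = Real.exp (N + -(τ * ((k : ℝ) - 1)) + (τ ^ 2 / L + τ + 4 / L)) := by
          rw [Real.exp_add (N + -(τ * ((k : ℝ) - 1))), Real.exp_add N, ← e1]
      _ ≤ Real.exp (-N) := by
          rw [Real.exp_le_exp]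
          have h6 : 1 + 3 * Real.sqrt (N / L) + 5 / L ≤ (k : ℝ) - 1 := by linarith
          have h7 : τ * (1 + 3 * Real.sqrt (N / L) + 5 / L) ≤ τ * ((k : ℝ) - 1) :=
            mul_le_mul_of_nonneg_left h6 (by linarith)
          have h8 : τ * (1 + 3 * Real.sqrt (N / L) + 5 / L) =
            τ + 3 * τ * Real.sqrt (N / L) + 5 * τ / L := by ring
          rw [h8] at h7
          linarith
      _ = 1 / n := by rw [Real.exp_neg, ← e1, one_div]
  by_cases hc : 1 ≤ Real.sqrt (L * N)
  · apply main (Real.sqrt (L * N)) hc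
    have h1 : Real.sqrt (L * N) ^ 2 = L * N := Real.sq_sqrt (by positivity)
    have h2 : Real.sqrt (L * N) * Real.sqrt (N / L) = N := by
      rw [← Real.sqrt_mul (by positivity), show L * N * (N / L) = N ^ 2 by field_simp,
        Real.sqrt_sq hN0]
    have h3 : 3 * Real.sqrt (L * N) * Real.sqrt (N / L) = 3 * N := by
      rw [mul_assoc, h2]
    rw [h3, h1, show L * N / L = N by field_simp]
    have h4 : 4 / L ≤ 5 * Real.sqrt (L * N) / L := by
      gcongr
      linarith
    linarith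
  · apply main 1 le_rfl
    push Not at hc
    have h1 : L * N ≤ 1 := by
      by_contra hcon
      push Not at hcon
      have : 1 ≤ Real.sqrt (L * N) := by
        rw [Real.one_le_sqrt]; exact hcon.le
      linarith
    have h2 : N ≤ Real.sqrt (N / L) := by
      apply Real.le_sqrt_of_sq_le
      rw [le_div_iff₀ hL]
      nlinarith
    have h3 : 1 ^ 2 / L + 4 / L = 5 * 1 / L := by ring
    linarith

end DW
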