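import Pool.Agent.Helper553.DimWidth.PatternRegime
import Pool.Agent.Helper553.DimWidth.GrowthRegime
import Pool.Agent.Helper553.DimWidth.Antichain
import Pool.Agent.Helper553.DimWidth.WidthAna

set_option autoImplicit false
set_option linter.unusedSectionVars false
open scoped Classical
open Finset

namespace DW

/-- there is an antichain with exactly `k` elements -/
def HasAnti (n k : ℕ) (E : Finset (ℕ × ℕ)) : Prop :=
  ∃ S ⊆ range n, S.card = k ∧ ∀ x ∈ S, ∀ y ∈ S, ¬ TG E x y

theorem width_upper (p : ℝ) (hp : 0 < p) (hp1 : p < 1) (n : ℕ) (hn : 1 ≤ n) (k : ℕ)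
    (hk : 2 + 3 * Real.sqrt (Real.log n / (-Real.log (1 - p))) + 5 / (-Real.log (1 - p)) ≤ k) :
    Pr p (K n) (HasAnti n k) ≤ 1 / n :=
  width_upper_of p hp hp1 n hn (fun k => Pr p (K n) (HasAnti n k))
    (fun z k hz hk => antichain_bound p z hp hp1 hz n k hk) k hk

section transfer

variable {n : ℕ}

/-- the pairs of `Fin n` -/
def XF (n : ℕ) : Finset (Fin n × Fin n) := Finset.univ.filter (fun e => e.1 < e.2)

def emb (n : ℕ) : Fin n × Fin n ↪ ℕ × ℕ :=
  ⟨fun e => (e.1.val, e.2.val), by
    intro a b h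
    have h1 := (Prod.mk.inj h).1
    have h2 := (Prod.mk.inj h).2
    exact Prod.ext (Fin.ext h1) (Fin.ext h2)⟩

theorem XF_map (n : ℕ) : (XF n).map (emb n) = K n := by
  ext e
  rw [Finset.mem_map, mem_K]
  constructor
  · rintro ⟨a, ha, rfl⟩
    unfold XF at ha
    rw [Finset.mem_filter] at ha
    exact ⟨ha.2, a.2.isLt⟩
  · rintro ⟨h1, h2⟩
    refine ⟨(⟨e.1, by omega⟩, ⟨e.2, h2⟩), ?_, rfl⟩
    unfold XF
    rw [Finset.mem_filter]
    exact ⟨Finset.mem_univ _, h1⟩

theorem TG_emb (E : Finset (Fin n × Fin n)) (x y : Fin n) :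
    TG (E.map (emb n)) x.val y.val ↔ Relation.TransGen (fun a b => (a, b) ∈ E) x y := by
  constructor
  · intro h
    have key : ∀ z : ℕ, TG (E.map (emb n)) x.val z → ∀ hz : z < n,
        Relation.TransGen (fun a b => (a, b) ∈ E) x ⟨z, hz⟩ := by
      intro z hz
      induction hz with
      | single h =>
        intro hz
        obtain ⟨a, ha, hae⟩ := Finset.mem_map.1 h
        have h1 : a.1.val = x.val := (Prod.mk.inj hae).1
        have h2 := (Prod.mk.inj hae).2
        have e1 : a = (x, ⟨_, hz⟩) := Prod.ext (Fin.ext h1) (Fin.ext h2)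
        rw [e1] at ha
        exact Relation.TransGen.single ha
      | tail h1 h2 ih =>
        intro hz
        obtain ⟨a, ha, hae⟩ := Finset.mem_map.1 h2
        have h3 := (Prod.mk.inj hae).1
        have h4 := (Prod.mk.inj hae).2
        subst h3
        have e1 : a = (a.1, ⟨_, hz⟩) := Prod.ext rfl (Fin.ext h4)
        rw [e1] at ha
        exact Relation.TransGen.tail (ih a.1.isLt) ha
    exact key y.val h y.isLt
  · intro h
    induction h with
    | single h => exact Relation.TransGen.single (Finset.mem_map.2 ⟨_, h, rfl⟩)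
    | tail _ h2 ih => exact Relation.TransGen.tail ih (Finset.mem_map.2 ⟨_, h2, rfl⟩)

/-- the event of the problem -/
def GoodF (ε : ℝ) (n : ℕ) (E : Finset (Fin n × Fin n)) : Prop :=
  ∀ d : ℕ, ∀ A : Finset (Fin n),
    (∀ x ∈ A, ∀ y ∈ A, ¬ Relation.TransGen (fun a b => (a, b) ∈ E) x y) →
    (∃ σ : Fin d → Equiv.Perm (Fin n), ∀ x y : Fin n, x ≠ y →
      (Relation.TransGen (fun a b => (a, b) ∈ E) x y ↔ ∀ k : Fin d, σ k x < σ k y)) →
    ε * (A.card : ℝ) ≤ (d : ℝ)

theorem GoodF_of (ε w D : ℝ) (hε : 0 ≤ ε) (hwD : ε * w ≤ D) (k : ℕ)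
    (hkw : ∀ t : ℕ, t < k → (t : ℝ) ≤ w)
    (E : Finset (Fin n × Fin n)) (h1 : ¬ HasAnti n k (E.map (emb n)))
    (h2 : DimGe (E.map (emb n)) (range n) D) : GoodF ε n E := by
  intro d A hA hσ
  obtain ⟨σ, hσ⟩ := hσ
  have hAk : A.card < k := by
    by_contra hge
    push Not at hge
    obtain ⟨S, hSA, hSc⟩ := Finset.exists_subset_card_eq hge
    apply h1
    refine ⟨S.image Fin.val, ?_, ?_, ?_⟩
    · intro x hx
      obtain ⟨a, _, rfl⟩ := Finset.mem_image.1 hx
      exact Finset.mem_range.2 a.isLt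
    · rw [Finset.card_image_of_injective _ Fin.val_injective, hSc]
    · intro x hx y hy
      obtain ⟨a, ha, rfl⟩ := Finset.mem_image.1 hx
      obtain ⟨b, hb, rfl⟩ := Finset.mem_image.1 hy
      rw [TG_emb]
      exact hA a (hSA ha) b (hSA hb)
  have hD : D ≤ (d : ℝ) := by
    apply h2 d (fun k x => if h : x < n then (σ k ⟨x, h⟩).val else 0)
    · intro k x hx y hy hxy
      have hx' : x < n := Finset.mem_range.1 hx
      have hy' : y < n := Finset.mem_range.1 hy
      simp only [hx', hy', dif_pos] at hxy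
      have := (σ k).injective (Fin.ext hxy)
      exact (Fin.mk.inj_iff.1 this)
    · intro x hx y hy hxy
      have hx' : x < n := Finset.mem_range.1 hx
      have hy' : y < n := Finset.mem_range.1 hy
      have h3 := hσ ⟨x, hx'⟩ ⟨y, hy'⟩ (by
        intro h
        exact hxy (Fin.mk.inj_iff.1 h))
      have h4 := TG_emb E ⟨x, hx'⟩ ⟨y, hy'⟩
      simp only at h4
      rw [h4, h3]
      constructor
      · intro h k
        simp only [hx', hy', dif_pos]
        exact h k
      · intro h k
        have := h k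
        simp only [hx', hy', dif_pos] at this
        exact this
  have := hkw A.card hAk
  calc ε * (A.card : ℝ) ≤ ε * w := mul_le_mul_of_nonneg_left this hε
    _ ≤ D := hwD
    _ ≤ d := hD

theorem Pr_GoodF (p ε w D : ℝ) (hp : 0 ≤ p) (hp1 : p ≤ 1) (hε : 0 ≤ ε) (hwD : ε * w ≤ D)
    (k : ℕ) (hkw : ∀ t : ℕ, t < k → (t : ℝ) ≤ w) :
    1 - Pr p (K n) (HasAnti n k) - Pr p (K n) (fun E => ¬ DimGe E (range n) D) ≤
      Pr p (XF n) (GoodF ε n) := by
  have h1 : Pr p (XF n) (fun E => ¬ HasAnti n k (E.map (emb n)) ∧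
      DimGe (E.map (emb n)) (range n) D) ≤ Pr p (XF n) (GoodF ε n) := by
    apply Pr_mono hp hp1
    intro E _ h
    exact GoodF_of ε w D hε hwD k hkw E h.1 h.2
  have h2 : Pr p (XF n) (fun E => ¬ HasAnti n k (E.map (emb n)) ∧
      DimGe (E.map (emb n)) (range n) D) =
      Pr p (K n) (fun E => ¬ HasAnti n k E ∧ DimGe E (range n) D) := by
    rw [← XF_map n]
    unfold Pr
    rw [Ex_map]
  have h3 : Pr p (K n) (fun E => ¬ (¬ HasAnti n k E ∧ DimGe E (range n) D)) ≤
      Pr p (K n) (HasAnti n k) + Pr p (K n) (fun E => ¬ DimGe E (range n) D) := by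
    refine le_trans (Pr_mono hp hp1 ?_) (Pr_or_le hp hp1 _ _ _)
    intro E _ h
    by_cases ha : HasAnti n k E
    · exact Or.inl ha
    · right
      intro hd
      exact h ⟨ha, hd⟩
  rw [Pr_not] at h3
  rw [h2] at h1
  linarith

end transfer

theorem Ex_p_one {ι : Type*} [DecidableEq ι] (X : Finset ι) (f : Finset ι → ℝ) :
    Ex 1 X f = f X := by
  unfold Ex
  rw [Finset.sum_eq_single X]
  · simp
  · intro E hE hne
    have hE' := Finset.mem_powerset.1 hE
    have : E.card < X.card := Finset.card_lt_card (Finset.ssubset_iff_subset_ne.2 ⟨hE', hne⟩)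
    have h0 : X.card - E.card ≠ 0 := by omega
    simp [h0]
  · intro h
    exact absurd (Finset.mem_powerset.2 (Finset.Subset.refl X)) h

/-- for `p = 1` the order is a chain -/
theorem GoodF_full (ε : ℝ) (hε : 0 ≤ ε) (hε1 : ε ≤ 1) (n : ℕ) (hn : 2 ≤ n) :
    GoodF ε n (XF n) := by
  intro d A hA hσ
  obtain ⟨σ, hσ⟩ := hσ
  have hedge : ∀ x y : Fin n, x < y → Relation.TransGen (fun a b => (a, b) ∈ XF n) x y := by
    intro x y hxy
    apply Relation.TransGen.single
    unfold XF
    rw [Finset.mem_filter]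
    exact ⟨Finset.mem_univ _, hxy⟩
  have hA1 : A.card ≤ 1 := by
    rw [Finset.card_le_one]
    intro a ha b hb
    by_contra hne
    rcases lt_or_gt_of_ne hne with h | h
    · exact hA a ha b hb (hedge a b h)
    · exact hA b hb a ha (hedge b a h)
  have hd : 1 ≤ d := by
    by_contra h0
    have hd0 : d = 0 := by omega
    subst hd0
    have h1 := (hσ ⟨1, by omega⟩ ⟨0, by omega⟩ (by
      intro h
      have := Fin.mk.inj_iff.1 h
      omega)).2 (fun k => k.elim0)
    have key : ∀ x y : Fin n, Relation.TransGen (fun a b => (a, b) ∈ XF n) x y → x < y := by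
      intro x y h
      induction h with
      | single h =>
        unfold XF at h
        exact (Finset.mem_filter.1 h).2
      | tail _ h ih =>
        unfold XF at h
        exact lt_trans ih (Finset.mem_filter.1 h).2
    have := key _ _ h1
    rw [Fin.lt_def] at this
    simp at this
  have hA1' : (A.card : ℝ) ≤ 1 := by exact_mod_cast hA1
  have hd' : (1 : ℝ) ≤ d := by exact_mod_cast hd
  have h0 : (0 : ℝ) ≤ A.card := by positivity
  nlinarith

open Filter Topology in
theorem final_main : ∃ ε : ℝ, 0 < ε ∧ ∀ p : ℕ → ℝ,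
      (∀ n : ℕ, Real.log (n : ℝ) / (n : ℝ) ≤ p n ∧ p n ≤ 1) →
      Tendsto (fun n : ℕ => Pr (p n) (XF n) (GoodF ε n)) atTop (𝓝 1) := by
  obtain ⟨εg, hεg, Hg⟩ := growth_regime
  obtain ⟨εp, hεp, Hp⟩ := pattern_regime
  obtain ⟨ε, hε, hε1, hε2, hε3⟩ : ∃ ε : ℝ, 0 < ε ∧ ε ≤ 1 ∧ ε * 10 ≤ εg ∧ ε * 8 ≤ εp :=
    ⟨min 1 (min (εg / 10) (εp / 8)), by positivity, min_le_left _ _, by
      have h1 := min_le_right (1 : ℝ) (min (εg / 10) (εp / 8))
      have h2 := min_le_left (εg / 10) (εp / 8)
      linarith, by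
      have h1 := min_le_right (1 : ℝ) (min (εg / 10) (εp / 8))
      have h2 := min_le_right (εg / 10) (εp / 8)
      linarith⟩
  refine ⟨ε, hε, ?_⟩
  intro p hp
  rw [Metric.tendsto_atTop]
  intro δ0 hδ0
  obtain ⟨δ, hδ, hδδ⟩ : ∃ δ : ℝ, 0 < δ ∧ δ + δ < δ0 := ⟨δ0 / 3, by positivity, by linarith⟩
  obtain ⟨p0, hp0, Hg⟩ := Hg δ hδ
  obtain ⟨n0, Hp⟩ := Hp δ hδ
  -- eventual conditions
  have hlog : Tendsto (fun n : ℕ => Real.log (n : ℝ)) atTop atTop :=
    Real.tendsto_log_atTop.comp tendsto_natCast_atTop_atTop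
  have hlog1 : ∀ᶠ n : ℕ in atTop, 1 ≤ Real.log (n : ℝ) := hlog.eventually_ge_atTop 1
  have hlog2 : Tendsto (fun n : ℕ => (Real.log (n : ℝ)) ^ (-(50 / 51) : ℝ)) atTop (𝓝 0) := by
    have := (tendsto_rpow_neg_atTop (show (0 : ℝ) < 50 / 51 by norm_num)).comp hlog
    exact this
  have hlog3 : ∀ᶠ n : ℕ in atTop, (Real.log (n : ℝ)) ^ (-(50 / 51) : ℝ) < p0 :=
    hlog2.eventually (gt_mem_nhds hp0)
  have hinv : ∀ᶠ n : ℕ in atTop, 1 / (n : ℝ) < δ :=
    (tendsto_one_div_atTop_nhds_zero_nat).eventually (gt_mem_nhds hδ)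
  have hall : ∀ᶠ n : ℕ in atTop, dist (Pr (p n) (XF n) (GoodF ε n)) 1 < δ0 := by
    filter_upwards [hlog1, hlog3, hinv, eventually_ge_atTop n0, eventually_ge_atTop 3]
      with n h1 h3 hi hn0 hn3
    have hn1 : 1 ≤ n := by omega
    have hnpos : (0 : ℝ) < n := by exact_mod_cast hn1
    obtain ⟨hplo, hphi⟩ := hp n
    have hppos : 0 < p n := by
      refine lt_of_lt_of_le ?_ hplo
      positivity
    have hle1 : Pr (p n) (XF n) (GoodF ε n) ≤ 1 := Pr_le_one hppos.le hphi _ _
    suffices hge : 1 - (δ + δ) ≤ Pr (p n) (XF n) (GoodF ε n) by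
      rw [Real.dist_eq, abs_lt]
      constructor <;> linarith
    rcases eq_or_lt_of_le hphi with hp1 | hp1
    · rw [hp1]
      unfold Pr
      rw [Ex_p_one, if_pos (GoodF_full ε hε.le hε1 n (by omega))]
      linarith
    · have hlam : p n ≤ -Real.log (1 - p n) := by
        have := Real.log_le_sub_one_of_pos (show 0 < 1 - p n by linarith)
        linarith
      obtain ⟨lam, hlamdef⟩ : ∃ lam : ℝ, lam = -Real.log (1 - p n) := ⟨_, rfl⟩
      rw [← hlamdef] at hlam
      have hlampos : 0 < lam := lt_of_lt_of_le hppos hlam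
      obtain ⟨w, hw⟩ : ∃ w : ℝ, w = 2 + 3 * Real.sqrt (Real.log n / lam) + 5 / lam := ⟨_, rfl⟩
      have hW := width_upper (p n) hppos hp1 n hn1 ⌈w⌉₊ (by
        rw [← hlamdef, ← hw]; exact Nat.le_ceil w)
      have hkw : ∀ t : ℕ, t < ⌈w⌉₊ → (t : ℝ) ≤ w := fun t ht => (Nat.lt_ceil.1 ht).le
      by_cases hreg : (Real.log (n : ℝ)) ^ (-(50 / 51) : ℝ) ≤ p n
      · have hP := Hp n hn0 (p n) hp1 hreg
        rw [← hlamdef] at hP
        have hwD : ε * w ≤ εp * (1 + Real.sqrt (Real.log n / lam)) := by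
          have h5 : 5 / lam ≤ 5 * Real.sqrt (Real.log n / lam) := by
            have h6 : 1 / lam ≤ Real.sqrt (Real.log n / lam) := by
              apply Real.le_sqrt_of_sq_le
              rw [div_pow, one_pow, div_le_div_iff₀ (by positivity) hlampos]
              have h7 : 1 ≤ lam * Real.log n := by
                have h8 : (Real.log (n : ℝ)) ^ (-(1 : ℝ)) ≤ lam := by
                  refine le_trans (Real.rpow_le_rpow_of_exponent_le h1 ?_) (le_trans hreg hlam)
                  norm_num
                rw [Real.rpow_neg_one] at h8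
                have h9 : 0 < Real.log (n : ℝ) := by linarith
                calc (1 : ℝ) = (Real.log (n : ℝ))⁻¹ * Real.log n := by
                      field_simp
                  _ ≤ lam * Real.log n := mul_le_mul_of_nonneg_right h8 h9.le
              nlinarith
            calc 5 / lam = 5 * (1 / lam) := by ring
              _ ≤ _ := by linarith
          have hs0 : 0 ≤ Real.sqrt (Real.log n / lam) := Real.sqrt_nonneg _
          rw [hw]
          calc ε * (2 + 3 * Real.sqrt (Real.log n / lam) + 5 / lam)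
              ≤ ε * (8 * (1 + Real.sqrt (Real.log n / lam))) := by
                apply mul_le_mul_of_nonneg_left _ hε.le
                linarith
            _ = (ε * 8) * (1 + Real.sqrt (Real.log n / lam)) := by ring
            _ ≤ _ := by
                apply mul_le_mul_of_nonneg_right hε3
                positivity
        have := Pr_GoodF (n := n) (p n) ε w _ hppos.le hphi hε.le hwD ⌈w⌉₊ hkw
        linarith
      · push Not at hreg
        have hpp0 : p n < p0 := lt_trans hreg h3
        have hlogpos : 0 < Real.log (n : ℝ) := by linarith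
        have hcond : p n * Real.log n ≤ (p n) ^ (-(1 / 50) : ℝ) := by
          -- log n < (p n)^(-51/50)
          have h6 : Real.log (n : ℝ) ≤ (p n) ^ (-(51 / 50) : ℝ) := by
            have h7 : ((Real.log (n : ℝ)) ^ (-(50 / 51) : ℝ)) ^ (-(51 / 50) : ℝ) ≤
                (p n) ^ (-(51 / 50) : ℝ) :=
              Real.rpow_le_rpow_of_nonpos hppos hreg.le (by norm_num)
            rw [← Real.rpow_mul hlogpos.le] at h7
            norm_num at h7
            norm_num
            exact h7
          calc p n * Real.log n ≤ p n * (p n) ^ (-(51 / 50) : ℝ) :=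
                mul_le_mul_of_nonneg_left h6 hppos.le
            _ = (p n) ^ (-(1 / 50) : ℝ) := by
                nth_rewrite 1 [← Real.rpow_one (p n)]
                rw [← Real.rpow_add hppos]
                norm_num
        have hG := Hg (p n) hppos hpp0 n hn3 hplo hcond
        have hwD : ε * w ≤ εg * (max 1 (Real.sqrt (p n * Real.log n)) / p n) := by
          obtain ⟨M, hM⟩ : ∃ M : ℝ, M = max 1 (Real.sqrt (p n * Real.log n)) := ⟨_, rfl⟩
          rw [← hM]
          have hM1 : 1 ≤ M := by rw [hM]; exact le_max_left _ _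
          have hM2 : Real.sqrt (p n * Real.log n) ≤ M := by rw [hM]; exact le_max_right _ _
          have a1 : (2 : ℝ) ≤ 2 * (M / p n) := by
            have : 1 ≤ M / p n := by
              rw [le_div_iff₀ hppos]; linarith
            linarith
          have a2 : Real.sqrt (Real.log n / lam) ≤ M / p n := by
            rw [le_div_iff₀ hppos]
            refine le_trans ?_ hM2
            apply Real.le_sqrt_of_sq_le
            rw [mul_pow, Real.sq_sqrt (by positivity)]
            rw [div_mul_eq_mul_div, div_le_iff₀ hlampos]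
            have : p n ^ 2 ≤ p n * lam := by nlinarith
            nlinarith
          have a3 : 5 / lam ≤ 5 * (M / p n) := by
            have h8 : 1 / lam ≤ 1 / p n := one_div_le_one_div_of_le hppos hlam
            have h9 : 1 / p n ≤ M / p n := div_le_div_of_nonneg_right hM1 hppos.le
            calc 5 / lam = 5 * (1 / lam) := by ring
              _ ≤ 5 * (M / p n) := by linarith
          rw [hw]
          calc ε * (2 + 3 * Real.sqrt (Real.log n / lam) + 5 / lam)
              ≤ ε * (10 * (M / p n)) := by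
                apply mul_le_mul_of_nonneg_left _ hε.le
                linarith
            _ = (ε * 10) * (M / p n) := by ring
            _ ≤ εg * (M / p n) := by
                apply mul_le_mul_of_nonneg_right hε2
                positivity
        have := Pr_GoodF (n := n) (p n) ε w _ hppos.le hphi hε.le hwD ⌈w⌉₊ hkw
        linarith
  exact Filter.eventually_atTop.1 hall

end DW
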