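import Pool.Agent.Helper553.DimWidth.Basic

set_option autoImplicit false
open scoped Classical
open Finset

namespace DW

/-- all pairs `(i,j)`, `i<j`, inside `[0,n)` -/
def K (n : ℕ) : Finset (ℕ × ℕ) := (range n ×ˢ range n).filter (fun e => e.1 < e.2)

/-- all pairs `(i,j)`, `i<j`, inside `[a,b)` -/
def KI (a b : ℕ) : Finset (ℕ × ℕ) := (Ico a b ×ˢ Ico a b).filter (fun e => e.1 < e.2)

/-- strict order generated by the edges -/
def TG (E : Finset (ℕ × ℕ)) : ℕ → ℕ → Prop := Relation.TransGen (fun a b => (a, b) ∈ E)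

/-- down-set of `k` (with `k`) -/
noncomputable def Dn (E : Finset (ℕ × ℕ)) (k : ℕ) : Finset ℕ :=
  (range (k + 1)).filter (fun j => j = k ∨ TG E j k)

/-- up-set of `k` (with `k`) inside `[0,m)` -/
noncomputable def Up (E : Finset (ℕ × ℕ)) (m k : ℕ) : Finset ℕ :=
  (range m).filter (fun j => j = k ∨ TG E k j)

/-- the order generated by `E` on `V` has no realizer with fewer than `D` linear orders -/
def DimGe (E : Finset (ℕ × ℕ)) (V : Finset ℕ) (D : ℝ) : Prop :=
  ∀ d : ℕ, ∀ L : Fin d → ℕ → ℕ, (∀ k, Set.InjOn (L k) V) →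
    (∀ x ∈ V, ∀ y ∈ V, x ≠ y → (TG E x y ↔ ∀ k, L k x < L k y)) → D ≤ d

theorem mem_K {n : ℕ} {e : ℕ × ℕ} : e ∈ K n ↔ e.1 < e.2 ∧ e.2 < n := by
  unfold K
  simp only [Finset.mem_filter, Finset.mem_product, Finset.mem_range]
  constructor
  · rintro ⟨⟨_, h2⟩, h3⟩
    exact ⟨h3, h2⟩
  · rintro ⟨h1, h2⟩
    exact ⟨⟨by omega, h2⟩, h1⟩

theorem mem_KI {a b : ℕ} {e : ℕ × ℕ} : e ∈ KI a b ↔ a ≤ e.1 ∧ e.1 < e.2 ∧ e.2 < b := by
  unfold KI
  simp only [Finset.mem_filter, Finset.mem_product, Finset.mem_Ico]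
  constructor
  · rintro ⟨⟨h1, h2⟩, h3⟩
    exact ⟨h1.1, h3, h2.2⟩
  · rintro ⟨h1, h2, h3⟩
    exact ⟨⟨⟨h1, by omega⟩, ⟨by omega, h3⟩⟩, h2⟩

theorem TG_lt {E : Finset (ℕ × ℕ)} (hE : ∀ e ∈ E, e.1 < e.2) {x y : ℕ} (h : TG E x y) :
    x < y := by
  induction h with
  | single h => exact hE _ h
  | tail _ h ih => exact lt_trans ih (hE _ h)

theorem TG_lt_of_K {n : ℕ} {E : Finset (ℕ × ℕ)} (hE : E ⊆ K n) {x y : ℕ} (h : TG E x y) :
    x < y ∧ y < n := by
  refine ⟨TG_lt (fun e he => (mem_K.1 (hE he)).1) h, ?_⟩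
  cases h with
  | single h => exact (mem_K.1 (hE h)).2
  | tail _ h => exact (mem_K.1 (hE h)).2

/-- reachability from `x` to `y` only uses edges between `x` and `y` -/
theorem TG_local {E F : Finset (ℕ × ℕ)} (hE : ∀ e ∈ E, e.1 < e.2) {x y : ℕ}
    (hEF : ∀ e ∈ E, x ≤ e.1 → e.2 ≤ y → e ∈ F) (h : TG E x y) : TG F x y := by
  have key : ∀ z, TG E x z → z ≤ y → TG F x z := by
    intro z hz
    induction hz with
    | single h =>
      intro hzy
      exact Relation.TransGen.single (hEF _ h le_rfl hzy)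
    | tail h1 h2 ih =>
      intro hzy
      have hb := hE _ h2
      have hx : x < _ := TG_lt hE h1
      exact Relation.TransGen.tail (ih (le_trans (le_of_lt hb) hzy)) (hEF _ h2 hx.le hzy)
  exact key y h le_rfl

theorem TG_mono {E F : Finset (ℕ × ℕ)} (hEF : E ⊆ F) {x y : ℕ} (h : TG E x y) : TG F x y := by
  induction h with
  | single h => exact Relation.TransGen.single (hEF h)
  | tail _ h ih => exact Relation.TransGen.tail ih (hEF h)

/-- the new row of edges ending in `n` -/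
def rowE (n : ℕ) (R : Finset ℕ) : Finset (ℕ × ℕ) := R.image (fun i => (i, n))

theorem mem_rowE {n : ℕ} {R : Finset ℕ} {e : ℕ × ℕ} : e ∈ rowE n R ↔ e.1 ∈ R ∧ e.2 = n := by
  unfold rowE
  simp only [Finset.mem_image]
  constructor
  · rintro ⟨i, hi, rfl⟩
    exact ⟨hi, rfl⟩
  · rintro ⟨h1, h2⟩
    exact ⟨e.1, h1, by rw [← h2]⟩

theorem K_succ (n : ℕ) : K (n + 1) = K n ∪ rowE n (range n) := by
  ext e
  rw [Finset.mem_union, mem_K, mem_K, mem_rowE, Finset.mem_range]
  omega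

theorem K_succ_disj (n : ℕ) : Disjoint (K n) (rowE n (range n)) := by
  rw [Finset.disjoint_left]
  intro e he he'
  rw [mem_K] at he
  rw [mem_rowE] at he'
  omega

theorem Ex_K_succ (p : ℝ) (n : ℕ) (f : Finset (ℕ × ℕ) → ℝ) :
    Ex p (K (n + 1)) f =
      Ex p (K n) (fun E => Ex p (range n) (fun R => f (E ∪ rowE n R))) := by
  rw [K_succ, Ex_union (K_succ_disj n)]
  apply Ex_congr
  intro E _
  unfold rowE
  rw [Ex_image]
  intro a _ b _ hab
  exact (Prod.mk.inj hab).1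

theorem K_mono {a b : ℕ} (h : a ≤ b) : K a ⊆ K b := by
  intro e he
  rw [mem_K] at he ⊢
  omega

theorem union_row_lt {n : ℕ} {E : Finset (ℕ × ℕ)} (hE : E ⊆ K n) {R : Finset ℕ}
    (hR : R ⊆ range n) : ∀ e ∈ E ∪ rowE n R, e.1 < e.2 := by
  intro e he
  rw [Finset.mem_union, mem_rowE] at he
  rcases he with he | he
  · exact (mem_K.1 (hE he)).1
  · rw [he.2]; exact Finset.mem_range.1 (hR he.1)

theorem TG_union_row {n : ℕ} {E : Finset (ℕ × ℕ)} (hE : E ⊆ K n) {R : Finset ℕ}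
    (hR : R ⊆ range n) {x y : ℕ} (hy : y < n) : TG (E ∪ rowE n R) x y ↔ TG E x y := by
  constructor
  · intro h
    refine TG_local (union_row_lt hE hR) ?_ h
    intro e he _ h2
    rw [Finset.mem_union, mem_rowE] at he
    rcases he with he | he
    · exact he
    · omega
  · exact TG_mono Finset.subset_union_left

theorem TG_union_row_top {n : ℕ} {E : Finset (ℕ × ℕ)} (hE : E ⊆ K n) {R : Finset ℕ}
    (hR : R ⊆ range n) {x : ℕ} :
    TG (E ∪ rowE n R) x n ↔ ∃ y ∈ R, x = y ∨ TG E x y := by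
  constructor
  · intro h
    cases h with
    | single h =>
      rw [Finset.mem_union, mem_rowE] at h
      rcases h with h | h
      · have := (mem_K.1 (hE h)).2
        simp at this
      · exact ⟨x, h.1, Or.inl rfl⟩
    | tail h1 h2 =>
      rename_i b
      rw [Finset.mem_union, mem_rowE] at h2
      rcases h2 with h | h
      · have := (mem_K.1 (hE h)).2
        simp at this
      · refine ⟨b, h.1, Or.inr ?_⟩
        exact (TG_union_row hE hR (Finset.mem_range.1 (hR h.1))).1 h1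
  · rintro ⟨y, hy, h | h⟩
    · subst h
      exact Relation.TransGen.single (Finset.mem_union_right _ (mem_rowE.2 ⟨hy, rfl⟩))
    · exact Relation.TransGen.tail (TG_mono Finset.subset_union_left h)
        (Finset.mem_union_right _ (mem_rowE.2 ⟨hy, rfl⟩))

theorem Dn_union_row {n : ℕ} {E : Finset (ℕ × ℕ)} (hE : E ⊆ K n) {R : Finset ℕ}
    (hR : R ⊆ range n) {y : ℕ} (hy : y < n) : Dn (E ∪ rowE n R) y = Dn E y := by
  unfold Dn
  apply Finset.filter_congr
  intro j _
  rw [TG_union_row hE hR hy]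

theorem Dn_union_row_top {n : ℕ} {E : Finset (ℕ × ℕ)} (hE : E ⊆ K n) {R : Finset ℕ}
    (hR : R ⊆ range n) : Dn (E ∪ rowE n R) n = insert n (R.biUnion (Dn E)) := by
  ext j
  unfold Dn
  simp only [Finset.mem_filter, Finset.mem_range, Finset.mem_insert, Finset.mem_biUnion]
  rw [TG_union_row_top hE hR]
  constructor
  · rintro ⟨hj, h | ⟨y, hy, h⟩⟩
    · exact Or.inl h
    · right
      refine ⟨y, hy, ?_, h⟩
      rcases h with h | h
      · omega
      · have := (TG_lt_of_K hE h).1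
        omega
  · rintro (h | ⟨y, hy, h1, h2⟩)
    · exact ⟨by omega, Or.inl h⟩
    · have := Finset.mem_range.1 (hR hy)
      exact ⟨by omega, Or.inr ⟨y, hy, h2⟩⟩

theorem Up_union_row {n : ℕ} {E : Finset (ℕ × ℕ)} (hE : E ⊆ K n) {R : Finset ℕ}
    (hR : R ⊆ range n) {z : ℕ} (hz : z < n) :
    Up (E ∪ rowE n R) (n + 1) z =
      if Disjoint R (Up E n z) then Up E n z else insert n (Up E n z) := by
  have h1 : ∀ j, j < n → ((j = z ∨ TG (E ∪ rowE n R) z j) ↔ (j = z ∨ TG E z j)) := by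
    intro j hj
    rw [TG_union_row hE hR hj]
  have h2 : (n = z ∨ TG (E ∪ rowE n R) z n) ↔ ¬ Disjoint R (Up E n z) := by
    rw [TG_union_row_top hE hR, Finset.not_disjoint_iff]
    constructor
    · rintro (h | ⟨y, hy, h⟩)
      · omega
      · refine ⟨y, hy, ?_⟩
        unfold Up
        rw [Finset.mem_filter]
        exact ⟨hR hy, by rcases h with h | h; exact Or.inl h.symm; exact Or.inr h⟩
    · rintro ⟨y, hy, hyU⟩
      unfold Up at hyU
      rw [Finset.mem_filter] at hyU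
      right
      exact ⟨y, hy, by rcases hyU.2 with h | h; exact Or.inl h.symm; exact Or.inr h⟩
  ext j
  by_cases hd : Disjoint R (Up E n z)
  · rw [if_pos hd]
    unfold Up
    simp only [Finset.mem_filter, Finset.mem_range]
    constructor
    · rintro ⟨hj, h⟩
      rcases Nat.lt_succ_iff_lt_or_eq.1 hj with hj' | hj'
      · exact ⟨hj', (h1 j hj').1 h⟩
      · subst hj'
        exact absurd hd (h2.1 h)
    · rintro ⟨hj, h⟩
      exact ⟨by omega, (h1 j hj).2 h⟩
  · rw [if_neg hd]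
    unfold Up
    simp only [Finset.mem_filter, Finset.mem_range, Finset.mem_insert]
    constructor
    · rintro ⟨hj, h⟩
      rcases Nat.lt_succ_iff_lt_or_eq.1 hj with hj' | hj'
      · exact Or.inr ⟨hj', (h1 j hj').1 h⟩
      · exact Or.inl hj'
    · rintro (hj | ⟨hj, h⟩)
      · subst hj
        exact ⟨by omega, h2.2 hd⟩
      · exact ⟨by omega, (h1 j hj).2 h⟩

theorem Dn_subset {E : Finset (ℕ × ℕ)} {k : ℕ} : Dn E k ⊆ range (k + 1) := by
  unfold Dn; exact Finset.filter_subset _ _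

theorem self_mem_Dn {E : Finset (ℕ × ℕ)} {k : ℕ} : k ∈ Dn E k := by
  unfold Dn; simp

theorem mem_Up_iff {E : Finset (ℕ × ℕ)} {m n : ℕ} (hE : E ⊆ K n) {y z : ℕ} (hy : y < m) :
    y ∈ Up E m z ↔ z ∈ Dn E y := by
  unfold Up Dn
  simp only [Finset.mem_filter, Finset.mem_range]
  constructor
  · rintro ⟨_, h | h⟩
    · exact ⟨by omega, Or.inl h.symm⟩
    · have := (TG_lt_of_K hE h).1
      exact ⟨by omega, Or.inr h⟩
  · rintro ⟨_, h | h⟩
    · exact ⟨hy, Or.inl h.symm⟩
    · exact ⟨hy, Or.inr h⟩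

end DW
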