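import Mathlib

set_option autoImplicit false
set_option linter.unusedSectionVars false
open scoped Classical
open Finset

namespace DW


theorem exists_top {V : Type*} [DecidableEq V] (l : V → ℕ) (A : Finset V)
    (hinj : Set.InjOn l (A : Set V)) (n : ℕ) (hn : n ≤ A.card) :
    ∃ T ⊆ A, T.card = n ∧ ∀ t ∈ T, ∀ a ∈ A, a ∉ T → l a < l t := by
  induction n with
  | zero => exact ⟨∅, Finset.empty_subset _, rfl, fun t ht => absurd ht (Finset.notMem_empty t)⟩
  | succ n ih =>
    obtain ⟨T, hTA, hT, h⟩ := ih (by omega)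
    have hne : (A \ T).Nonempty := by
      rw [← Finset.card_pos, Finset.card_sdiff_of_subset hTA]
      omega
    obtain ⟨m, hm, hmax⟩ := Finset.exists_max_image (A \ T) l hne
    have hmA := (Finset.mem_sdiff.1 hm).1
    have hmT := (Finset.mem_sdiff.1 hm).2
    refine ⟨insert m T, Finset.insert_subset hmA hTA, ?_, ?_⟩
    · rw [Finset.card_insert_of_notMem hmT, hT]
    · intro t ht a ha haT
      rw [Finset.mem_insert, not_or] at haT
      rcases Finset.mem_insert.1 ht with rfl | ht
      · have h1 := hmax a (Finset.mem_sdiff.2 ⟨ha, haT.2⟩)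
        exact lt_of_le_of_ne h1 (fun h2 => haT.1 (hinj (Finset.mem_coe.2 ha) (Finset.mem_coe.2 hmA) h2))
      · exact h t ht a ha haT.2

/-- deterministic lower bound for the order dimension -/
theorem weight_le_of_realizer {V : Type*} [DecidableEq V] (R : V → V → Prop) (d : ℕ)
    (L : Fin d → V → ℕ) (A B : Finset V)
    (hinj : ∀ k, Set.InjOn (L k) (A ∪ B : Finset V))
    (hR : ∀ a ∈ A, ∀ b ∈ B, (R a b ↔ ∀ k, L k a < L k b))
    (hdisj : Disjoint A B)
    (w : V → V → ℝ) (hw0 : ∀ a ∈ A, ∀ b ∈ B, 0 ≤ w a b)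
    (hwR : ∀ a ∈ A, ∀ b ∈ B, R a b → w a b = 0)
    (W : ℝ) (hW : 0 ≤ W) (i0 r : ℕ)
    (hrow : ∀ a ∈ A, ∑ b ∈ B, w a b ≤ W) (hcol : ∀ b ∈ B, ∑ a ∈ A, w a b ≤ W)
    (hK : ∀ S ⊆ A, ∀ T ⊆ B, S.card = i0 → T.card = r → ∃ a ∈ S, ∃ b ∈ T, R a b) :
    ∑ a ∈ A, ∑ b ∈ B, w a b ≤ d * ((i0 + r : ℕ) * W) := by
  have hmain : ∀ k : Fin d, ∑ a ∈ A, ∑ b ∈ B, (if L k b < L k a then w a b else 0) ≤
      ((i0 + r : ℕ) : ℝ) * W := by
    intro k
    have hite : ∀ a ∈ A, ∀ b ∈ B, (if L k b < L k a then w a b else 0) ≤ w a b := by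
      intro a ha b hb
      split_ifs
      · exact le_rfl
      · exact hw0 a ha b hb
    have hite0 : ∀ a ∈ A, ∀ b ∈ B, 0 ≤ (if L k b < L k a then w a b else 0) := by
      intro a ha b hb
      split_ifs
      · exact hw0 a ha b hb
      · exact le_rfl
    have hrow' : ∀ a ∈ A, ∑ b ∈ B, (if L k b < L k a then w a b else 0) ≤ W := fun a ha =>
      le_trans (Finset.sum_le_sum fun b hb => hite a ha b hb) (hrow a ha)
    rcases Nat.lt_or_ge A.card i0 with hlt | hge
    · calc ∑ a ∈ A, ∑ b ∈ B, (if L k b < L k a then w a b else 0) ≤ ∑ a ∈ A, W :=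
            Finset.sum_le_sum hrow'
        _ = (A.card : ℝ) * W := by rw [Finset.sum_const, nsmul_eq_mul]
        _ ≤ ((i0 + r : ℕ) : ℝ) * W := by
            apply mul_le_mul_of_nonneg_right _ hW
            exact_mod_cast (by omega : A.card ≤ i0 + r)
    · obtain ⟨T, hTA, hT, htop⟩ := exists_top (L k) A
        ((hinj k).mono (by intro x hx; simp only [Finset.coe_union, Set.mem_union]; exact Or.inl hx)) i0 hge
      set Bs := B.filter (fun b => ∀ t ∈ T, L k b < L k t) with hBs
      have hBsB : Bs ⊆ B := Finset.filter_subset _ _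
      have hBscard : Bs.card ≤ r := by
        by_contra hcon
        push Not at hcon
        obtain ⟨U, hU, hUc⟩ := Finset.exists_subset_card_eq hcon.le
        obtain ⟨a, ha, b, hb, hab⟩ := hK T hTA U (hU.trans hBsB) hT hUc
        have h1 := (hR a (hTA ha) b (hBsB (hU hb))).1 hab k
        have h2 := (Finset.mem_filter.1 (hU hb)).2 a ha
        omega
      have hsplit : ∑ a ∈ A, ∑ b ∈ B, (if L k b < L k a then w a b else 0) =
          ∑ a ∈ T, ∑ b ∈ B, (if L k b < L k a then w a b else 0) +
          ∑ a ∈ A \ T, ∑ b ∈ B, (if L k b < L k a then w a b else 0) := by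
        rw [add_comm, Finset.sum_sdiff hTA]
      have h1 : ∑ a ∈ T, ∑ b ∈ B, (if L k b < L k a then w a b else 0) ≤ (i0 : ℝ) * W := by
        calc ∑ a ∈ T, ∑ b ∈ B, (if L k b < L k a then w a b else 0) ≤ ∑ a ∈ T, W :=
              Finset.sum_le_sum fun a ha => hrow' a (hTA ha)
          _ = (i0 : ℝ) * W := by rw [Finset.sum_const, nsmul_eq_mul, hT]
      have h2 : ∑ a ∈ A \ T, ∑ b ∈ B, (if L k b < L k a then w a b else 0) ≤ (r : ℝ) * W := by
        calc ∑ a ∈ A \ T, ∑ b ∈ B, (if L k b < L k a then w a b else 0)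
            = ∑ a ∈ A \ T, ∑ b ∈ Bs, (if L k b < L k a then w a b else 0) := by
              apply Finset.sum_congr rfl
              intro a ha
              symm
              apply Finset.sum_subset hBsB
              intro b hb hbs
              rw [if_neg]
              intro hlt
              apply hbs
              rw [hBs, Finset.mem_filter]
              refine ⟨hb, fun t ht => ?_⟩
              have h3 := htop t ht a (Finset.mem_sdiff.1 ha).1 (Finset.mem_sdiff.1 ha).2
              omega
          _ = ∑ b ∈ Bs, ∑ a ∈ A \ T, (if L k b < L k a then w a b else 0) := Finset.sum_comm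
          _ ≤ ∑ b ∈ Bs, W := by
              apply Finset.sum_le_sum
              intro b hb
              refine le_trans ?_ (hcol b (hBsB hb))
              calc ∑ a ∈ A \ T, (if L k b < L k a then w a b else 0) ≤ ∑ a ∈ A \ T, w a b :=
                    Finset.sum_le_sum fun a ha => hite a (Finset.mem_sdiff.1 ha).1 b (hBsB hb)
                _ ≤ ∑ a ∈ A, w a b := Finset.sum_le_sum_of_subset_of_nonneg Finset.sdiff_subset
                    fun a ha _ => hw0 a ha b (hBsB hb)
          _ = (Bs.card : ℝ) * W := by rw [Finset.sum_const, nsmul_eq_mul]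
          _ ≤ (r : ℝ) * W := by
              apply mul_le_mul_of_nonneg_right _ hW
              exact_mod_cast hBscard
      rw [hsplit]
      push_cast
      linarith
  calc ∑ a ∈ A, ∑ b ∈ B, w a b ≤
        ∑ a ∈ A, ∑ b ∈ B, ∑ k : Fin d, (if L k b < L k a then w a b else 0) := by
        apply Finset.sum_le_sum
        intro a ha
        apply Finset.sum_le_sum
        intro b hb
        have hnn : ∀ k ∈ (Finset.univ : Finset (Fin d)), 0 ≤ (if L k b < L k a then w a b else 0) := by
          intro k _
          split_ifs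
          · exact hw0 a ha b hb
          · exact le_rfl
        by_cases hRab : R a b
        · rw [hwR a ha b hb hRab]
          simp
        · rw [hR a ha b hb] at hRab
          push Not at hRab
          obtain ⟨k, hk⟩ := hRab
          have hne : a ≠ b := fun h => Finset.disjoint_left.1 hdisj ha (h ▸ hb)
          have hlt : L k b < L k a := by
            refine lt_of_le_of_ne hk (fun h => hne ?_)
            exact ((hinj k) (by simp [hb]) (by simp [ha]) h).symm
          have h1 := Finset.single_le_sum hnn (Finset.mem_univ k)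
          rw [if_pos hlt] at h1
          exact h1
    _ = ∑ k : Fin d, ∑ a ∈ A, ∑ b ∈ B, (if L k b < L k a then w a b else 0) := by
        rw [Finset.sum_comm (s := (Finset.univ : Finset (Fin d)))]
        apply Finset.sum_congr rfl
        intro a _
        exact Finset.sum_comm
    _ ≤ ∑ k : Fin d, ((i0 + r : ℕ) : ℝ) * W := Finset.sum_le_sum fun k _ => hmain k
    _ = d * ((i0 + r : ℕ) * W) := by
        rw [Finset.sum_const, Finset.card_univ, Fintype.card_fin, nsmul_eq_mul]

end DW
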