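import Pool.Agent.Helper553.DimWidth.Rev2
import Pool.Agent.Helper553.DimWidth.Cross
import Pool.Agent.Helper553.DimWidth.Weight
import Pool.Agent.Helper553.DimWidth.BGDef

set_option autoImplicit false
set_option linter.unusedSectionVars false
open scoped Classical
open Finset

namespace DW

theorem pow_exp733 {p : ℝ} (hp1 : p < 1) (t : ℕ) :
    ((1 - p) ^ t)⁻¹ = Real.exp (-Real.log (1 - p) * t) := by
  have h : 0 < 1 - p := by linarith
  rw [show -Real.log (1 - p) * (t : ℝ) = -((t : ℝ) * Real.log (1 - p)) by ring, Real.exp_neg,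
    Real.exp_nat_mul, Real.exp_log h]

theorem row733 {β : Type*} [DecidableEq β] (p hi ov ζ cnt η : ℝ) (N1 : ℕ)
    (hp : 0 < p) (hp1 : p < 1) (J : Finset ℕ) (D : ℕ → Finset β) (hJ : J.card = N1)
    (hhi : 0 ≤ hi) (hζ : 0 ≤ ζ)
    (hsz : ∀ j ∈ J, ((D j).card : ℝ) ≤ hi)
    (hovl : ∀ j ∈ J, ∀ j' ∈ J, j ≠ j' → ((D j ∩ D j').card : ℝ) ≤ ov)
    (hcntl : (((J ×ˢ J).filter (fun t => t.1 ≠ t.2 ∧
      ζ ≤ ((D t.1 ∩ D t.2).card : ℝ))).card : ℝ) ≤ cnt)
    (hη : N1 * Real.exp (-Real.log (1 - p) * (hi * hi)) +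
      cnt * Real.exp (-Real.log (1 - p) * (hi * ov)) +
      (N1 : ℝ) ^ 2 * (Real.exp (-Real.log (1 - p) * (hi * ζ)) - 1) ≤ η ^ 2 * (N1 : ℝ) ^ 2)
    (u : ℕ) (hu : (u : ℝ) ≤ hi) :
    ∑ j ∈ J, ∑ j' ∈ J, (((1 - p) ^ (u * (D j ∩ D j').card))⁻¹ - 1) ≤ η ^ 2 * (N1 : ℝ) ^ 2 := by
  set lam : ℝ := -Real.log (1 - p) with hlam
  have hlam0 : 0 < lam := by
    rw [hlam]
    have := Real.log_neg (by linarith : (0:ℝ) < 1 - p) (by linarith)
    linarith
  have hu0 : (0:ℝ) ≤ u := Nat.cast_nonneg _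
  have hmono : ∀ k : ℕ, ∀ c : ℝ, (k : ℝ) ≤ c →
      ((1 - p) ^ (u * k))⁻¹ ≤ Real.exp (lam * (hi * c)) := by
    intro k c hk
    rw [pow_exp733 hp1, ← hlam]
    apply Real.exp_le_exp.2
    apply mul_le_mul_of_nonneg_left _ hlam0.le
    push_cast
    exact mul_le_mul hu hk (Nat.cast_nonneg _) hhi
  have hz0 : 0 ≤ Real.exp (lam * (hi * ζ)) - 1 := by
    have : (1:ℝ) ≤ Real.exp (lam * (hi * ζ)) := Real.one_le_exp (by positivity)
    linarith
  have hterm : ∀ j ∈ J, ∀ j' ∈ J, (((1 - p) ^ (u * (D j ∩ D j').card))⁻¹ - 1) ≤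
      (if j = j' then Real.exp (lam * (hi * hi)) else 0) +
      (if j ≠ j' ∧ ζ ≤ ((D j ∩ D j').card : ℝ) then Real.exp (lam * (hi * ov)) else 0) +
      (Real.exp (lam * (hi * ζ)) - 1) := by
    intro j hj j' hj'
    by_cases h : j = j'
    · subst h
      rw [if_pos rfl, if_neg (by simp)]
      have h1 := hmono ((D j ∩ D j).card) hi (by rw [Finset.inter_self]; exact hsz j hj)
      linarith
    · rw [if_neg h]
      by_cases h2 : ζ ≤ ((D j ∩ D j').card : ℝ)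
      · rw [if_pos ⟨h, h2⟩]
        have h1 := hmono ((D j ∩ D j').card) ov (hovl j hj j' hj' h)
        linarith
      · rw [if_neg (fun hh => h2 hh.2)]
        have h1 := hmono ((D j ∩ D j').card) ζ (not_le.1 h2).le
        linarith
  calc ∑ j ∈ J, ∑ j' ∈ J, (((1 - p) ^ (u * (D j ∩ D j').card))⁻¹ - 1)
      ≤ ∑ j ∈ J, ∑ j' ∈ J, ((if j = j' then Real.exp (lam * (hi * hi)) else 0) +
      (if j ≠ j' ∧ ζ ≤ ((D j ∩ D j').card : ℝ) then Real.exp (lam * (hi * ov)) else 0) +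
      (Real.exp (lam * (hi * ζ)) - 1)) :=
        Finset.sum_le_sum (fun j hj => Finset.sum_le_sum (fun j' hj' => hterm j hj j' hj'))
    _ = (∑ j ∈ J, ∑ j' ∈ J, (if j = j' then Real.exp (lam * (hi * hi)) else 0)) +
        (∑ j ∈ J, ∑ j' ∈ J, (if j ≠ j' ∧ ζ ≤ ((D j ∩ D j').card : ℝ) then Real.exp (lam * (hi * ov)) else 0)) +
        (∑ j ∈ J, ∑ j' ∈ J, (Real.exp (lam * (hi * ζ)) - 1)) := by
        simp only [Finset.sum_add_distrib]
    _ ≤ N1 * Real.exp (lam * (hi * hi)) + cnt * Real.exp (lam * (hi * ov)) +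
        (N1 : ℝ) ^ 2 * (Real.exp (lam * (hi * ζ)) - 1) := by
        have e1 : (∑ j ∈ J, ∑ j' ∈ J, (if j = j' then Real.exp (lam * (hi * hi)) else 0)) =
            N1 * Real.exp (lam * (hi * hi)) := by
          have : ∀ j ∈ J, (∑ j' ∈ J, (if j = j' then Real.exp (lam * (hi * hi)) else 0)) =
              Real.exp (lam * (hi * hi)) := by
            intro j hj
            rw [Finset.sum_ite_eq, if_pos hj]
          rw [Finset.sum_congr rfl this, Finset.sum_const, hJ, nsmul_eq_mul]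
        have e2 : (∑ j ∈ J, ∑ j' ∈ J, (if j ≠ j' ∧ ζ ≤ ((D j ∩ D j').card : ℝ) then
            Real.exp (lam * (hi * ov)) else 0)) ≤ cnt * Real.exp (lam * (hi * ov)) := by
          rw [← Finset.sum_product', ← Finset.sum_filter, Finset.sum_const, nsmul_eq_mul]
          exact mul_le_mul_of_nonneg_right hcntl (Real.exp_pos _).le
        have e3 : (∑ j ∈ J, ∑ j' ∈ J, (Real.exp (lam * (hi * ζ)) - 1)) =
            (N1 : ℝ) ^ 2 * (Real.exp (lam * (hi * ζ)) - 1) := by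
          rw [Finset.sum_const, Finset.sum_const, hJ, nsmul_eq_mul, nsmul_eq_mul]
          ring
        rw [e1, e3]
        linarith
    _ ≤ _ := hη

theorem bonf733 {β : Type*} [DecidableEq β] (U : ℕ → Finset β) (lo ov : ℝ) (S : Finset ℕ)
    (hlo : ∀ i ∈ S, lo ≤ ((U i).card : ℝ))
    (hov : ∀ i ∈ S, ∀ j ∈ S, i ≠ j → ((U i ∩ U j).card : ℝ) ≤ ov) :
    (S.card : ℝ) * lo - (S.card : ℝ) * ((S.card : ℝ) - 1) / 2 * ov ≤ ((S.biUnion U).card : ℝ) := by
  induction S using Finset.induction_on with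
  | empty => simp
  | insert e S he ih =>
    have ih' := ih (fun i hi => hlo i (Finset.mem_insert_of_mem hi))
      (fun i hi j hj hij => hov i (Finset.mem_insert_of_mem hi) j (Finset.mem_insert_of_mem hj) hij)
    rw [Finset.biUnion_insert, Finset.card_insert_of_notMem he]
    have h1 : ((U e ∪ S.biUnion U).card : ℝ) + ((U e ∩ S.biUnion U).card : ℝ) =
        ((U e).card : ℝ) + ((S.biUnion U).card : ℝ) := by
      exact_mod_cast Finset.card_union_add_card_inter (U e) (S.biUnion U)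
    have h2 : ((U e ∩ S.biUnion U).card : ℝ) ≤ (S.card : ℝ) * ov := by
      rw [Finset.inter_biUnion]
      calc (((S.biUnion fun x => U e ∩ U x).card : ℕ) : ℝ) ≤ ((∑ x ∈ S, (U e ∩ U x).card : ℕ) : ℝ) := by
            exact_mod_cast Finset.card_biUnion_le
        _ = ∑ x ∈ S, ((U e ∩ U x).card : ℝ) := by push_cast; rfl
        _ ≤ ∑ x ∈ S, ov := by
            apply Finset.sum_le_sum
            intro x hx
            exact hov e (Finset.mem_insert_self _ _) x (Finset.mem_insert_of_mem hx)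
              (fun h => he (h ▸ hx))
        _ = (S.card : ℝ) * ov := by rw [Finset.sum_const, nsmul_eq_mul]
    have h3 := hlo e (Finset.mem_insert_self _ _)
    push_cast
    nlinarith

/-- good family -/
def Good733 (N1 : ℕ) (lo hi ov ζ cnt : ℝ) (J : Finset ℕ) (D : ℕ → Finset ℕ) : Prop :=
  J.card = N1 ∧ (∀ b ∈ J, lo ≤ ((D b).card : ℝ) ∧ ((D b).card : ℝ) ≤ hi) ∧
    (∀ b ∈ J, ∀ b' ∈ J, b ≠ b' → ((D b ∩ D b').card : ℝ) ≤ ov) ∧
    ((((J ×ˢ J).filter (fun t => t.1 ≠ t.2 ∧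
      ζ ≤ ((D t.1 ∩ D t.2).card : ℝ))).card : ℝ) ≤ cnt)

theorem good_transfer733 {N1 : ℕ} {lo hi ov ζ cnt : ℝ} {h : ℕ} {B : Finset ℕ} {Q D : ℕ → Finset ℕ}
    {f g : ℕ → ℕ} (hf : Set.InjOn f B) (hg : Set.InjOn g (range h))
    (hQ : ∀ b ∈ B, Q b ⊆ range h) (hD : ∀ b ∈ B, D (f b) = (Q b).image g)
    (hG : Good733 N1 lo hi ov ζ cnt B Q) : Good733 N1 lo hi ov ζ cnt (B.image f) D := by
  obtain ⟨h1, h2, h3, h4⟩ := hG
  have hcard : ∀ b ∈ B, (D (f b)).card = (Q b).card := by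
    intro b hb
    rw [hD b hb]
    apply Finset.card_image_of_injOn
    exact hg.mono (by exact_mod_cast hQ b hb)
  have hint : ∀ b ∈ B, ∀ b' ∈ B, (D (f b) ∩ D (f b')).card = (Q b ∩ Q b').card := by
    intro b hb b' hb'
    rw [hD b hb, hD b' hb', ← Finset.image_inter_of_injOn]
    · apply Finset.card_image_of_injOn
      refine hg.mono ?_
      intro x hx
      have hx' : x ∈ Q b ∩ Q b' := hx
      exact_mod_cast hQ b hb (Finset.mem_inter.1 hx').1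
    · refine hg.mono ?_
      intro x hx
      rcases hx with hx | hx
      · exact_mod_cast hQ b hb hx
      · exact_mod_cast hQ b' hb' hx
  refine ⟨by rw [Finset.card_image_of_injOn hf, h1], ?_, ?_, ?_⟩
  · intro j hj
    obtain ⟨b, hb, rfl⟩ := Finset.mem_image.1 hj
    rw [hcard b hb]
    exact h2 b hb
  · intro j hj j' hj' hne
    obtain ⟨b, hb, rfl⟩ := Finset.mem_image.1 hj
    obtain ⟨b', hb', rfl⟩ := Finset.mem_image.1 hj'
    rw [hint b hb b' hb']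
    exact h3 b hb b' hb' (fun h => hne (by rw [h]))
  · refine le_trans ?_ h4
    have hsub : ((B.image f ×ˢ B.image f).filter (fun t => t.1 ≠ t.2 ∧
        ζ ≤ ((D t.1 ∩ D t.2).card : ℝ))) ⊆ ((B ×ˢ B).filter (fun t => t.1 ≠ t.2 ∧
        ζ ≤ ((Q t.1 ∩ Q t.2).card : ℝ))).image (fun t => (f t.1, f t.2)) := by
      intro t ht
      rw [Finset.mem_filter, Finset.mem_product] at ht
      obtain ⟨⟨ht1, ht2⟩, hne, hz⟩ := ht
      obtain ⟨b, hb, hbt⟩ := Finset.mem_image.1 ht1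
      obtain ⟨b', hb', hbt'⟩ := Finset.mem_image.1 ht2
      rw [Finset.mem_image]
      refine ⟨(b, b'), ?_, ?_⟩
      · rw [Finset.mem_filter, Finset.mem_product]
        refine ⟨⟨hb, hb'⟩, ?_, ?_⟩
        · intro hbb
          apply hne
          rw [← hbt, ← hbt']
          show f b = f b'
          have hbb' : b = b' := hbb
          rw [hbb']
        · rw [← hbt, ← hbt', hint b hb b' hb'] at hz
          exact hz
      · show (f b, f b') = t
        rw [hbt, hbt']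
    exact_mod_cast (Finset.card_le_card hsub).trans Finset.card_image_le

/-- the conditional statement -/
theorem cond733 (p lo hi ov ζ cnt η : ℝ) (m N N1 i0 a : ℕ)
    (hp : 0 < p) (hp1 : p < 1) (hN1 : 1 ≤ N1) (hi0 : 1 ≤ i0)
    (hhi : 0 ≤ hi) (hov : 0 ≤ ov) (hζ : 0 ≤ ζ) (hη0 : 0 ≤ η)
    (hη : N1 * Real.exp (-Real.log (1 - p) * (hi * hi)) +
      cnt * Real.exp (-Real.log (1 - p) * (hi * ov)) +
      (N1 : ℝ) ^ 2 * (Real.exp (-Real.log (1 - p) * (hi * ζ)) - 1) ≤ η ^ 2 * (N1 : ℝ) ^ 2)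
    (ha : (a : ℝ) ≤ i0 * lo - (i0 : ℝ) ^ 2 * ov / 2)
    (F1 F2 : Finset (ℕ × ℕ)) (hF1 : F1 ⊆ K (m + N)) (hF2 : F2 ⊆ K (m + N))
    (hG1 : BG m N N1 lo hi ov ζ cnt F1) (hG2 : BG m N N1 lo hi ov ζ cnt F2) :
    1 - (40 * η + (N1 : ℝ) ^ (2 * i0) * (1 - p) ^ (a * a)) ≤
      Pr p (range (m + N) ×ˢ Ico (m + N) ((m + N) + (m + N))) (fun E3 =>
        DimGe ((revE (m + N) F1 ∪ shE (m + N) F2) ∪ E3) (range (2 * (m + N))) (N1 / (8 * i0))) := by
  set h : ℕ := m + N with hh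
  obtain ⟨B1, hB1, hB1'⟩ := hG1
  obtain ⟨B2, hB2, hB2'⟩ := hG2
  have hg1 : Good733 N1 lo hi ov ζ cnt B1 (Dn F1) := hB1'
  have hg2 : Good733 N1 lo hi ov ζ cnt B2 (Dn F2) := hB2'
  have hB1h : ∀ b ∈ B1, b < h := fun b hb => (Finset.mem_Ico.1 (hB1 hb)).2
  have hB2h : ∀ b ∈ B2, b < h := fun b hb => (Finset.mem_Ico.1 (hB2 hb)).2
  have hDn : ∀ (F : Finset (ℕ × ℕ)) (b : ℕ), b < h → Dn F b ⊆ range h := by
    intro F b hb
    refine Dn_subset.trans ?_
    intro x hx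
    rw [Finset.mem_range] at hx ⊢
    omega
  have hinj1 : Set.InjOn (fun b : ℕ => h - 1 - b) (range h) := by
    intro x hx y hy hxy
    have hx' : x < h := by simpa using hx
    have hy' : y < h := by simpa using hy
    have hxy' : h - 1 - x = h - 1 - y := hxy
    omega
  have hinj2 : Set.InjOn (fun b : ℕ => b + h) (range h) := by
    intro x hx y hy hxy
    have hxy' : x + h = y + h := hxy
    omega
  set E1 := revE h F1 with hE1
  set E2 := shE h F2 with hE2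
  have hE1K : E1 ⊆ K h := revE_subset hF1
  have hE2K : E2 ⊆ KI h (h + h) := shE_subset hF2
  set I := B1.image (fun b : ℕ => h - 1 - b) with hI
  set J := B2.image (fun b : ℕ => b + h) with hJ
  have hgI : Good733 N1 lo hi ov ζ cnt I (Up E1 h) := by
    refine good_transfer733 (h := h) (f := fun b : ℕ => h - 1 - b) (g := fun b : ℕ => h - 1 - b)
      ?_ hinj1 (fun b hb => hDn F1 b (hB1h b hb)) ?_ hg1
    · refine hinj1.mono ?_
      intro x hx
      have hx' : x ∈ B1 := hx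
      have := hB1h x hx'
      simpa using this
    · intro b hb
      exact Up_revE hF1 (hB1h b hb)
  have hgJ : Good733 N1 lo hi ov ζ cnt J (Dn E2) := by
    refine good_transfer733 (h := h) (f := fun b : ℕ => b + h) (g := fun b : ℕ => b + h)
      ?_ hinj2 (fun b hb => hDn F2 b (hB2h b hb)) ?_ hg2
    · refine hinj2.mono ?_
      intro x hx
      have hx' : x ∈ B2 := hx
      have := hB2h x hx'
      simpa using this
    · intro b hb
      exact Dn_shE hF2 (hB2h b hb)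
  have hIr : ∀ i ∈ I, i < h := by
    intro i hi
    obtain ⟨b, hb, rfl⟩ := Finset.mem_image.1 hi
    have := hB1h b hb
    show h - 1 - b < h
    omega
  have hJr : ∀ j ∈ J, j ∈ Ico h (h + h) := by
    intro j hj
    obtain ⟨b, hb, rfl⟩ := Finset.mem_image.1 hj
    have := hB2h b hb
    rw [Finset.mem_Ico]
    constructor
    · show h ≤ b + h
      omega
    · show b + h < h + h
      omega
  obtain ⟨hI1, hI2, hI3, hI4⟩ := hgI
  obtain ⟨hJ1, hJ2, hJ3, hJ4⟩ := hgJ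
  have hcover : ∀ (V : Finset ℕ) (D : ℕ → Finset ℕ), (∀ i ∈ V, lo ≤ ((D i).card : ℝ)) →
      (∀ i ∈ V, ∀ j ∈ V, i ≠ j → ((D i ∩ D j).card : ℝ) ≤ ov) →
      ∀ S ⊆ V, S.card = i0 → a ≤ (S.biUnion D).card := by
    intro V D h1 h2 S hS hSc
    have hb := bonf733 D lo ov S (fun i hi => h1 i (hS hi)) (fun i hi j hj => h2 i (hS hi) j (hS hj))
    rw [hSc] at hb
    have : (a : ℝ) ≤ ((S.biUnion D).card : ℝ) := by
      refine ha.trans (le_trans ?_ hb)
      have hi0' : (0:ℝ) ≤ i0 := Nat.cast_nonneg _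
      nlinarith [mul_nonneg hi0' hov]
    exact_mod_cast this
  have hcross := cross_lemma p hp hp1 I J (range h) (Ico h (h + h)) (Up E1 h) (Dn E2)
    (fun i _ => Finset.filter_subset _ _) (fun j hj => Dn_subset_Ico hE2K (hJr j hj))
    N1 hN1 hI1 hJ1 η hη0
    (fun i hi => row733 p _ ov ζ cnt η N1 hp hp1 J (Dn E2) hJ1 hhi hζ (fun j hj => (hJ2 j hj).2)
      hJ3 hJ4 hη _ (hI2 i hi).2)
    (fun j hj => by
      have := row733 p _ ov ζ cnt η N1 hp hp1 I (Up E1 h) hI1 hhi hζ (fun j hj => (hI2 j hj).2)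
        hI3 hI4 hη _ (hJ2 j hj).2
      simpa only [mul_comm] using this)
    i0 a a (hcover I _ (fun i hi => (hI2 i hi).1) hI3) (hcover J _ (fun i hi => (hJ2 i hi).1) hJ3)
  rw [Pr_not] at hcross
  refine le_trans (by linarith) (Pr_mono hp.le hp1.le (S := fun E => ∃ A ⊆ I, ∃ B ⊆ J, ∃ w : ℕ → ℕ → ℝ,
      (∀ i ∈ A, ∀ j ∈ B, 0 ≤ w i j) ∧
      (∀ i ∈ A, ∀ j ∈ B, Rel (Up E1 h) (Dn E2) E i j → w i j = 0) ∧
      (∀ i ∈ A, ∑ j ∈ B, w i j ≤ 2 * (N1 : ℝ)) ∧ (∀ j ∈ B, ∑ i ∈ A, w i j ≤ 2 * (N1 : ℝ)) ∧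
      (N1 : ℝ) ^ 2 / 2 ≤ ∑ i ∈ A, ∑ j ∈ B, w i j ∧
      (∀ S ⊆ A, ∀ T ⊆ B, S.card = i0 → T.card = i0 → ∃ i ∈ S, ∃ j ∈ T, Rel (Up E1 h) (Dn E2) E i j)) ?_)
  rintro E3 hE3 ⟨A, hA, B, hB, w, hw0, hwR, hwr, hwc, hwt, hwK⟩
  intro d L hLinj hLR
  have hTG : ∀ x ∈ A, ∀ y ∈ B, (TG ((E1 ∪ E2) ∪ E3) x y ↔ Rel (Up E1 h) (Dn E2) E3 x y) := by
    intro x hx y hy
    exact TG_cross hE1K hE2K hE3 (hIr x (hA hx)) (hJr y (hB hy))
  have hAr : ∀ x ∈ A, x < h := fun x hx => hIr x (hA hx)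
  have hBr : ∀ y ∈ B, h ≤ y ∧ y < h + h := fun y hy => Finset.mem_Ico.1 (hJr y (hB hy))
  have hAB : ((A ∪ B : Finset ℕ) : Set ℕ) ⊆ (range (2 * h) : Finset ℕ) := by
    intro x hx
    have hx' : x ∈ A ∪ B := hx
    rw [Finset.mem_union] at hx'
    have : x < 2 * h := by
      rcases hx' with hx' | hx'
      · have := hAr x hx'; omega
      · have := hBr x hx'; omega
    simpa using this
  have hmain := weight_le_of_realizer (TG ((E1 ∪ E2) ∪ E3)) d L A B (fun k => (hLinj k).mono hAB)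
    (by
      intro x hx y hy
      have h1 := hAr x hx
      have h2 := hBr y hy
      exact hLR x (Finset.mem_range.2 (by omega)) y (Finset.mem_range.2 (by omega)) (by omega))
    (by
      rw [Finset.disjoint_left]
      intro x hx hy
      have h1 := hAr x hx
      have h2 := hBr x hy
      omega)
    w hw0 (fun x hx y hy hxy => hwR x hx y hy ((hTG x hx y hy).1 hxy))
    (2 * (N1 : ℝ)) (by positivity) i0 i0 hwr hwc
    (by
      intro S hS T hT hSc hTc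
      obtain ⟨x, hx, y, hy, hxy⟩ := hwK S hS T hT hSc hTc
      exact ⟨x, hx, y, hy, (hTG x (hS hx) y (hT hy)).2 hxy⟩)
  have hN1' : (0:ℝ) < N1 := by exact_mod_cast hN1
  have hi0' : (0:ℝ) < i0 := by exact_mod_cast hi0
  have h1 : (N1 : ℝ) ^ 2 / 2 ≤ d * (((i0 + i0 : ℕ) : ℝ) * (2 * N1)) := hwt.trans hmain
  push_cast at h1
  rw [div_le_iff₀ (by positivity)]
  have h2 : (N1 : ℝ) * N1 ≤ (d * (8 * i0)) * N1 := by nlinarith
  exact le_of_mul_le_mul_right h2 hN1'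

theorem window_prob (p lo hi ov ζ cnt η π0 : ℝ) (m N N1 i0 a : ℕ)
    (hp : 0 < p) (hp1 : p < 1) (hN1 : 1 ≤ N1) (hi0 : 1 ≤ i0)
    (hlo : 0 ≤ lo) (hhi : 0 ≤ hi) (hov : 0 ≤ ov) (hζ : 0 ≤ ζ) (hcnt : 0 ≤ cnt) (hη0 : 0 ≤ η)
    (hπ0 : 0 ≤ π0) (hπ : π0 ≤ Pr p (K (m + N)) (BG m N N1 lo hi ov ζ cnt))
    (hη : N1 * Real.exp (-Real.log (1 - p) * (hi * hi)) +
      cnt * Real.exp (-Real.log (1 - p) * (hi * ov)) +
      (N1 : ℝ) ^ 2 * (Real.exp (-Real.log (1 - p) * (hi * ζ)) - 1) ≤ η ^ 2 * (N1 : ℝ) ^ 2)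
    (ha : (a : ℝ) ≤ i0 * lo - (i0 : ℝ) ^ 2 * ov / 2) :
    π0 ^ 2 * (1 - (40 * η + (N1 : ℝ) ^ (2 * i0) * (1 - p) ^ (a * a))) ≤
      Pr p (K (2 * (m + N))) (fun E => DimGe E (range (2 * (m + N))) (N1 / (8 * i0))) := by
  set err : ℝ := 40 * η + (N1 : ℝ) ^ (2 * i0) * (1 - p) ^ (a * a) with herr
  rcases le_or_gt 0 (1 - err) with hpos | hneg
  swap
  · have h1 : π0 ^ 2 * (1 - err) ≤ 0 := mul_nonpos_of_nonneg_of_nonpos (sq_nonneg _) hneg.le
    exact h1.trans (Pr_nonneg hp.le hp1.le _ _)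
  obtain ⟨hK1, hK2, hK3⟩ := K_split (m + N)
  set G : Finset (ℕ × ℕ) → Prop := BG m N N1 lo hi ov ζ cnt with hG
  have hstep : Pr p (K (2 * (m + N))) (fun E => DimGe E (range (2 * (m + N))) (N1 / (8 * i0))) =
      Ex p (K (m + N)) (fun F1 => Ex p (K (m + N)) (fun F2 =>
        Pr p (range (m + N) ×ˢ Ico (m + N) ((m + N) + (m + N))) (fun E3 =>
        DimGe ((revE (m + N) F1 ∪ shE (m + N) F2) ∪ E3) (range (2 * (m + N))) (N1 / (8 * i0))))) := by
    unfold Pr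
    rw [hK1, Ex_union hK3, Ex_union hK2]
    rw [← Ex_revE p (m + N)]
    apply Ex_congr
    intro F1 _
    rw [Ex_shE]
  rw [hstep]
  have hlow : Ex p (K (m + N)) (fun F1 => Ex p (K (m + N)) (fun F2 =>
      ((if G F1 then (1:ℝ) else 0) * ((if G F2 then (1:ℝ) else 0) * (1 - err))))) ≤
      Ex p (K (m + N)) (fun F1 => Ex p (K (m + N)) (fun F2 =>
        Pr p (range (m + N) ×ˢ Ico (m + N) ((m + N) + (m + N))) (fun E3 =>
        DimGe ((revE (m + N) F1 ∪ shE (m + N) F2) ∪ E3) (range (2 * (m + N))) (N1 / (8 * i0))))) := by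
    apply Ex_mono hp.le hp1.le
    intro F1 hF1
    apply Ex_mono hp.le hp1.le
    intro F2 hF2
    by_cases h1 : G F1
    · by_cases h2 : G F2
      · rw [if_pos h1, if_pos h2, one_mul, one_mul]
        exact cond733 p lo hi ov ζ cnt η m N N1 i0 a hp hp1 hN1 hi0 hhi hov hζ hη0 hη ha F1 F2 hF1 hF2 h1 h2
      · rw [if_neg h2]
        simp only [zero_mul, mul_zero]
        exact Pr_nonneg hp.le hp1.le _ _
    · rw [if_neg h1]
      simp only [zero_mul]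
      exact Pr_nonneg hp.le hp1.le _ _
  refine le_trans ?_ hlow
  have hev : Ex p (K (m + N)) (fun F1 => Ex p (K (m + N)) (fun F2 =>
      ((if G F1 then (1:ℝ) else 0) * ((if G F2 then (1:ℝ) else 0) * (1 - err))))) =
      Pr p (K (m + N)) G * (Pr p (K (m + N)) G * (1 - err)) := by
    have h1 : ∀ F1 : Finset (ℕ × ℕ), Ex p (K (m + N)) (fun F2 =>
      ((if G F1 then (1:ℝ) else 0) * ((if G F2 then (1:ℝ) else 0) * (1 - err)))) =
      (if G F1 then (1:ℝ) else 0) * (Pr p (K (m + N)) G * (1 - err)) := by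
      intro F1
      rw [Ex_mul_left, Ex_mul_right]
      rfl
    simp only [h1]
    rw [Ex_mul_right]
    rfl
  rw [hev]
  have h2 : π0 ^ 2 ≤ Pr p (K (m + N)) G ^ 2 := by
    apply pow_le_pow_left₀ hπ0 hπ
  calc π0 ^ 2 * (1 - err) ≤ Pr p (K (m + N)) G ^ 2 * (1 - err) := mul_le_mul_of_nonneg_right h2 hpos
    _ = _ := by ring

end DW
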