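import Pool.Agent.Helper553.DimWidth.CoreBlock
import Pool.Agent.Helper553.DimWidth.Window
import Pool.Agent.Helper553.DimWidth.DimAnti

set_option autoImplicit false
set_option linter.unusedSectionVars false
open scoped Classical
open Finset

namespace DW

theorem growth_core (ε3 : ℝ) (hε3 : 0 < ε3) : ∃ c : ℝ, 0 < c ∧ ∃ β : ℝ, 0 < β ∧ β ≤ 1 / 10 ∧
    ∀ δ : ℝ, 0 < δ → ∃ p0 : ℝ, 0 < p0 ∧ p0 < 1 / 2 ∧ ∀ p : ℝ, 0 < p → p < p0 →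
    ∀ m N : ℕ, m = ⌊Real.log (β * Real.sqrt (Real.log (1 / p) / p)) / p⌋₊ →
    ε3 / (2 * p) ≤ N → (N : ℝ) ≤ p ^ (-(51 / 50) : ℝ) →
    ∀ π0 : ℝ, 0 ≤ π0 →
    π0 ≤ Pr p (KI m (m + N)) (fun E => ∃ B0 ⊆ Ico m (m + N), B0.card = N / 2 ∧
      ∀ b ∈ B0, ∀ e ∈ E, e.1 ≠ b ∧ e.2 ≠ b) →
    π0 ^ 2 * (1 - δ) ≤
      Pr p (K (2 * (m + N))) (fun E => DimGe E (range (2 * (m + N))) (c * N)) := by
  obtain ⟨i0, hi0⟩ : ∃ i0 : ℕ, 10 ^ 8 ≤ i0 := ⟨10 ^ 8, le_rfl⟩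
  have hi0R : (10 : ℝ) ^ 8 ≤ (i0 : ℝ) := by exact_mod_cast hi0
  have hi0pos : (0 : ℝ) < (i0 : ℝ) := by
    have : (0 : ℝ) < 10 ^ 8 := by norm_num
    linarith
  have hi01 : 1 ≤ i0 := by
    have : 1 ≤ 10 ^ 8 := by norm_num
    omega
  obtain ⟨β, hβ⟩ : ∃ β : ℝ, β = 4.4 / (10 ^ 6 * i0) := ⟨_, rfl⟩
  have hβpos : 0 < β := by rw [hβ]; positivity
  have hβ10 : β ≤ 1 / 10 := by
    rw [hβ, div_le_iff₀ (by positivity)]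
    have : (0 : ℝ) < 10 ^ 6 := by norm_num
    nlinarith
  obtain ⟨ρ, hρ, hρ1, hcb⟩ := core_block i0 hi01 β hβpos
  refine ⟨ρ / (64 * i0), by positivity, β, hβpos, hβ10, ?_⟩
  intro δ hδ
  obtain ⟨δ1, hδ1, hδ1a, hδ1b⟩ : ∃ δ1 : ℝ, 0 < δ1 ∧ δ1 ≤ δ / 50 ∧ δ1 ≤ 1 / 50 :=
    ⟨min δ 1 / 50, by positivity, by
      have := min_le_left δ 1; linarith, by
      have := min_le_right δ 1; linarith⟩
  obtain ⟨p1, hp1, hp1', H1⟩ := hcb ε3 δ1 hε3 hδ1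
  obtain ⟨p2, hp2, hp2', H2⟩ := core_window i0 hi0 β hβ ρ ε3 δ1 hρ hρ1 hε3 hδ1
  refine ⟨min (min p1 p2) (ρ * ε3 / 32), by positivity, ?_, ?_⟩
  · have h1 := min_le_left (min p1 p2) (ρ * ε3 / 32)
    have h2 := min_le_left p1 p2
    linarith
  intro p hp hpp m N hm hNlo hNhi π0 hπ0 hπ
  have hpp1 : p < p1 := lt_of_lt_of_le hpp (le_trans (min_le_left _ _) (min_le_left _ _))
  have hpp2 : p < p2 := lt_of_lt_of_le hpp (le_trans (min_le_left _ _) (min_le_right _ _))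
  have hpp3 : p < ρ * ε3 / 32 := lt_of_lt_of_le hpp (min_le_right _ _)
  have hplt1 : p < 1 := by linarith
  obtain ⟨μ, hμ⟩ : ∃ μ : ℝ, μ = (1 + p) ^ m := ⟨_, rfl⟩
  obtain ⟨L, hL⟩ : ∃ L : ℝ, L = Real.log (1 / p) := ⟨_, rfl⟩
  obtain ⟨N1, hN1⟩ : ∃ N1 : ℕ, N1 = ⌊ρ * ((N / 2 : ℕ) : ℝ) / 2⌋₊ := ⟨_, rfl⟩
  obtain ⟨hi, hhi⟩ : ∃ hi : ℝ, hi = (153600 * i0 + 17) * μ := ⟨_, rfl⟩
  have hμ0 : 0 < μ := by rw [hμ]; positivity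
  have hN1le : (N1 : ℝ) ≤ ρ * ((N / 2 : ℕ) : ℝ) / 2 := by
    rw [hN1]; exact Nat.floor_le (by positivity)
  obtain ⟨hN1pos, hη, hKf⟩ := H2 p hp hpp2 m N N1 hm hNlo hNhi hN1 μ hi L hμ hL hhi
  have hblk := H1 p hp hpp1 m N N1 hm hNlo hNhi hN1le μ L hμ hL π0 hπ0 hπ
  rw [← hhi] at hblk
  have hLpos : 0 < L := by
    rw [hL]
    apply Real.log_pos
    rw [lt_div_iff₀ hp]; linarith
  have hwin := window_prob p (160 * i0 * μ) hi (160 * μ) (μ / L ^ 2)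
    (p ^ ((1 / 10) : ℝ) * ((N / 2 : ℕ) : ℝ) ^ 2) δ1 (π0 * (1 - δ1)) m N N1 i0
    ⌊80 * (i0 : ℝ) ^ 2 * μ⌋₊ hp hplt1 hN1pos hi01 (by positivity)
    (by rw [hhi]; positivity) (by positivity) (by positivity) (by positivity) hδ1.le
    (by
      apply mul_nonneg hπ0
      linarith) hblk hη
    (by
      refine le_trans (Nat.floor_le (by positivity)) (le_of_eq ?_)
      ring)
  refine le_trans ?_ (le_trans hwin (Pr_mono hp.le hplt1.le ?_))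
  · have hX : (N1 : ℝ) ^ (2 * i0) *
      (1 - p) ^ (⌊80 * (i0 : ℝ) ^ 2 * μ⌋₊ * ⌊80 * (i0 : ℝ) ^ 2 * μ⌋₊) ≤ δ1 := hKf
    generalize (N1 : ℝ) ^ (2 * i0) *
      (1 - p) ^ (⌊80 * (i0 : ℝ) ^ 2 * μ⌋₊ * ⌊80 * (i0 : ℝ) ^ 2 * μ⌋₊) = X at hX
    have h1 : (1 - δ) ≤ (1 - δ1) ^ 2 * (1 - (40 * δ1 + X)) := by
      have h2 : (1 - δ1) ^ 2 * (1 - 41 * δ1) ≤ (1 - δ1) ^ 2 * (1 - (40 * δ1 + X)) := by
        apply mul_le_mul_of_nonneg_left _ (sq_nonneg _)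
        linarith
      refine le_trans ?_ h2
      nlinarith [mul_pos hδ1 hδ1, mul_pos (mul_pos hδ1 hδ1) hδ1]
    calc π0 ^ 2 * (1 - δ) ≤ π0 ^ 2 * ((1 - δ1) ^ 2 * (1 - (40 * δ1 + X))) :=
          mul_le_mul_of_nonneg_left h1 (sq_nonneg _)
      _ = (π0 * (1 - δ1)) ^ 2 * (1 - (40 * δ1 + X)) := by ring
  · intro E _ hE
    refine DimGe_anti ?_ hE
    have hNbig : 16 / ρ ≤ (N : ℝ) := by
      refine le_trans ?_ hNlo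
      rw [div_le_div_iff₀ hρ (by positivity)]
      nlinarith
    have hNρ : 16 ≤ ρ * (N : ℝ) := by
      rw [div_le_iff₀ hρ] at hNbig
      linarith
    have hhalf : (N : ℝ) / 2 - 1 / 2 ≤ ((N / 2 : ℕ) : ℝ) := by
      have h3 : N ≤ 2 * (N / 2) + 1 := by omega
      have h4 : (N : ℝ) ≤ 2 * ((N / 2 : ℕ) : ℝ) + 1 := by exact_mod_cast h3
      linarith
    have hN1lo : ρ * ((N / 2 : ℕ) : ℝ) / 2 - 1 ≤ (N1 : ℝ) := by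
      rw [hN1]
      have := Nat.lt_floor_add_one (ρ * ((N / 2 : ℕ) : ℝ) / 2)
      linarith
    have h5 : ρ * (N : ℝ) / 8 ≤ (N1 : ℝ) := by
      have h6 : ρ * ((N : ℝ) / 2 - 1 / 2) ≤ ρ * ((N / 2 : ℕ) : ℝ) :=
        mul_le_mul_of_nonneg_left hhalf hρ.le
      nlinarith
    calc ρ / (64 * i0) * (N : ℝ) = (ρ * (N : ℝ) / 8) / (8 * i0) := by
          field_simp
          ring
      _ ≤ (N1 : ℝ) / (8 * i0) := by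
          apply div_le_div_of_nonneg_right h5 (by positivity)

end DW
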