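import Pool.Agent.Helper553.DimWidth.Graph

set_option autoImplicit false
set_option linter.unusedSectionVars false
open scoped Classical
open Finset

namespace DW


/-- the graph on `[0,m)` is nice -/
def Nice (p μ κ : ℝ) (m : ℕ) (E : Finset (ℕ × ℕ)) : Prop :=
  (∃ G ⊆ range m, 1 / (20 * p) ≤ (G.card : ℝ) ∧
    ∀ y ∈ G, μ / 24 ≤ ((Dn E y).card : ℝ) ∧ ((Dn E y).card : ℝ) ≤ 20 * μ) ∧
  p * ∑ y ∈ range m, ((Dn E y).card : ℝ) ≤ 2 * μ ∧
  p ^ 2 * ∑ z ∈ range m, ((Up E m z).card : ℝ) ^ 2 ≤ κ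


theorem nice_det (p κ : ℝ) (hp : 0 < p) (hp1 : p ≤ 1 / 10) (m l0 : ℕ) (hl0 : l0 ≤ m)
    (hl1 : p * l0 ≤ 33 / 10) (hx : 8 ≤ (1 + p) ^ l0) (E : Finset (ℕ × ℕ))
    (ha : |1 + p * ∑ j ∈ range m, ((Dn E j).card : ℝ) - (1 + p) ^ m| < (1 + p) ^ m / 10)
    (hb : |1 + p * ∑ j ∈ range (m - l0), ((Dn E j).card : ℝ) - (1 + p) ^ (m - l0)| <
      (1 + p) ^ (m - l0) / 10)
    (hc : p * ∑ j ∈ range m, ((Dn E j).card : ℝ) ^ 2 < 4 * (1 + p) ^ (2 * m))
    (hd : p ^ 2 * ∑ z ∈ range m, ((Up E m z).card : ℝ) ^ 2 ≤ κ) :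
    Nice p ((1 + p) ^ m) κ m E := by
  set V : ℕ → ℝ := fun j => ((Dn E j).card : ℝ) with hV
  have hV0 : ∀ j, 0 ≤ V j := fun j => Nat.cast_nonneg _
  set μ : ℝ := (1 + p) ^ m with hμ
  set μ1 : ℝ := (1 + p) ^ (m - l0) with hμ1
  have hμ1pos : 0 < μ1 := by positivity
  have hμpos : 0 < μ := by positivity
  have hμ8 : 8 * μ1 ≤ μ := by
    have : μ = μ1 * (1 + p) ^ l0 := by
      rw [hμ, hμ1, ← pow_add]
      congr 1
      omega
    rw [this]
    nlinarith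
  have h2m : (1 + p) ^ (2 * m) = μ ^ 2 := by
    rw [hμ, ← pow_mul]
    congr 1
    ring
  rw [h2m] at hc
  have hc' : p * ∑ j ∈ range m, (V j) ^ 2 < 4 * μ ^ 2 := hc
  have ha' : |1 + p * ∑ j ∈ range m, V j - μ| < μ / 10 := ha
  have hb' : |1 + p * ∑ j ∈ range (m - l0), V j - μ1| < μ1 / 10 := hb
  rw [abs_lt] at ha' hb'
  have hsplit : ∑ j ∈ range m, V j = ∑ j ∈ range (m - l0), V j + ∑ j ∈ Ico (m - l0) m, V j := by
    rw [Finset.range_eq_Ico, Finset.range_eq_Ico,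
      Finset.sum_Ico_consecutive _ (Nat.zero_le _) (Nat.sub_le _ _)]
  set G1 := (Ico (m - l0) m).filter (fun y => μ / 24 ≤ V y) with hG1
  have hsum1 : ∑ j ∈ Ico (m - l0) m, V j ≤ ∑ j ∈ G1, V j + l0 * (μ / 24) := by
    rw [← Finset.sum_filter_add_sum_filter_not (Ico (m - l0) m) (fun y => μ / 24 ≤ V y)]
    have : ∑ j ∈ (Ico (m - l0) m).filter (fun y => ¬ μ / 24 ≤ V y), V j ≤ l0 * (μ / 24) := by
      calc ∑ j ∈ (Ico (m - l0) m).filter (fun y => ¬ μ / 24 ≤ V y), V j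
          ≤ ∑ j ∈ (Ico (m - l0) m).filter (fun y => ¬ μ / 24 ≤ V y), μ / 24 := by
            apply Finset.sum_le_sum
            intro j hj
            have := (Finset.mem_filter.1 hj).2
            push Not at this
            exact this.le
        _ = (((Ico (m - l0) m).filter (fun y => ¬ μ / 24 ≤ V y)).card : ℝ) * (μ / 24) := by
            rw [Finset.sum_const, nsmul_eq_mul]
        _ ≤ l0 * (μ / 24) := by
            apply mul_le_mul_of_nonneg_right _ (by positivity)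
            have h1 := Finset.card_filter_le (Ico (m - l0) m) (fun y => ¬ μ / 24 ≤ V y)
            rw [Nat.card_Ico] at h1
            have : ((Ico (m - l0) m).filter (fun y => ¬ μ / 24 ≤ V y)).card ≤ l0 := by omega
            exact_mod_cast this
    linarith
  have hpS : 62 / 100 * μ ≤ p * ∑ j ∈ G1, V j := by
    have e1 : p * ∑ j ∈ Ico (m - l0) m, V j ≤ p * ∑ j ∈ G1, V j + (p * l0) * (μ / 24) := by
      have := mul_le_mul_of_nonneg_left hsum1 hp.le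
      linarith
    have e2 : (p * l0) * (μ / 24) ≤ 33 / 10 * (μ / 24) :=
      mul_le_mul_of_nonneg_right hl1 (by positivity)
    have e3 : p * ∑ j ∈ range m, V j = p * ∑ j ∈ range (m - l0), V j +
        p * ∑ j ∈ Ico (m - l0) m, V j := by
      rw [hsplit]; ring
    linarith [ha'.1, hb'.2]
  have hG1sub : G1 ⊆ range m := by
    intro y hy
    have := (Finset.mem_filter.1 hy).1
    rw [Finset.mem_Ico] at this
    exact Finset.mem_range.2 this.2
  have hCS : (∑ j ∈ G1, V j) ^ 2 ≤ (G1.card : ℝ) * ∑ j ∈ G1, (V j) ^ 2 :=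
    sq_sum_le_card_mul_sum_sq
  have hsub2 : ∑ j ∈ G1, (V j) ^ 2 ≤ ∑ j ∈ range m, (V j) ^ 2 :=
    Finset.sum_le_sum_of_subset_of_nonneg hG1sub (fun _ _ _ => sq_nonneg _)
  have hpG1 : 9 / 100 ≤ p * (G1.card : ℝ) := by
    have e1 : (62 / 100 * μ) ^ 2 ≤ (p * ∑ j ∈ G1, V j) ^ 2 := by
      apply pow_le_pow_left₀ (by positivity) hpS
    have e2 : (p * ∑ j ∈ G1, V j) ^ 2 ≤ (p * (G1.card : ℝ)) * (p * ∑ j ∈ range m, (V j) ^ 2) := by
      calc (p * ∑ j ∈ G1, V j) ^ 2 = p ^ 2 * (∑ j ∈ G1, V j) ^ 2 := by ring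
        _ ≤ p ^ 2 * ((G1.card : ℝ) * ∑ j ∈ range m, (V j) ^ 2) := by
            apply mul_le_mul_of_nonneg_left _ (by positivity)
            refine le_trans hCS ?_
            exact mul_le_mul_of_nonneg_left hsub2 (Nat.cast_nonneg _)
        _ = _ := by ring
    have e3 : (p * (G1.card : ℝ)) * (p * ∑ j ∈ range m, (V j) ^ 2) ≤
        (p * (G1.card : ℝ)) * (4 * μ ^ 2) := by
      apply mul_le_mul_of_nonneg_left hc'.le
      exact mul_nonneg hp.le (Nat.cast_nonneg _)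
    have e4 : (62 / 100) ^ 2 * μ ^ 2 ≤ (p * (G1.card : ℝ)) * 4 * μ ^ 2 := by
      nlinarith [e1, e2, e3]
    have e5 : (62 / 100 : ℝ) ^ 2 ≤ (p * (G1.card : ℝ)) * 4 :=
      le_of_mul_le_mul_right e4 (by positivity)
    norm_num at e5
    linarith
  set H := (range m).filter (fun y => 20 * μ < V y) with hH
  have hpH : p * (H.card : ℝ) ≤ 1 / 100 := by
    have e1 : (H.card : ℝ) * (20 * μ) ^ 2 ≤ ∑ j ∈ range m, (V j) ^ 2 := by
      calc (H.card : ℝ) * (20 * μ) ^ 2 = ∑ j ∈ H, (20 * μ) ^ 2 := by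
            rw [Finset.sum_const, nsmul_eq_mul]
        _ ≤ ∑ j ∈ H, (V j) ^ 2 := by
            apply Finset.sum_le_sum
            intro j hj
            have := (Finset.mem_filter.1 hj).2
            exact pow_le_pow_left₀ (by positivity) this.le 2
        _ ≤ _ := Finset.sum_le_sum_of_subset_of_nonneg (Finset.filter_subset _ _)
            (fun _ _ _ => sq_nonneg _)
    have e2 : p * (H.card : ℝ) * (20 * μ) ^ 2 ≤ 4 * μ ^ 2 := by
      calc p * (H.card : ℝ) * (20 * μ) ^ 2 = p * ((H.card : ℝ) * (20 * μ) ^ 2) := by ring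
        _ ≤ p * ∑ j ∈ range m, (V j) ^ 2 := mul_le_mul_of_nonneg_left e1 hp.le
        _ ≤ _ := hc'.le
    have e3 : (p * (H.card : ℝ) * 400) * μ ^ 2 ≤ 4 * μ ^ 2 := by
      calc (p * (H.card : ℝ) * 400) * μ ^ 2 = p * (H.card : ℝ) * (20 * μ) ^ 2 := by ring
        _ ≤ _ := e2
    have e4 := le_of_mul_le_mul_right e3 (by positivity : (0:ℝ) < μ ^ 2)
    linarith
  refine ⟨⟨G1 \ H, ?_, ?_, ?_⟩, ?_, hd⟩
  · exact (Finset.sdiff_subset).trans hG1sub
  · have hcard : (G1.card : ℝ) ≤ ((G1 \ H).card : ℝ) + (H.card : ℝ) := by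
      have : G1.card ≤ (G1 \ H).card + H.card := by
        have := Finset.le_card_sdiff H G1
        omega
      exact_mod_cast this
    have e1 : p * (G1.card : ℝ) ≤ p * ((G1 \ H).card : ℝ) + p * (H.card : ℝ) := by
      have := mul_le_mul_of_nonneg_left hcard hp.le
      linarith
    rw [div_le_iff₀ (by positivity)]
    nlinarith
  · intro y hy
    rw [Finset.mem_sdiff] at hy
    refine ⟨(Finset.mem_filter.1 hy.1).2, ?_⟩
    by_contra hcon
    push Not at hcon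
    exact hy.2 (Finset.mem_filter.2 ⟨hG1sub hy.1, hcon⟩)
  · have : p * ∑ j ∈ range m, V j ≤ 2 * μ := by
      linarith [ha'.2]
    exact this

theorem nice_prob (p κ : ℝ) (hp : 0 < p) (hp1 : p ≤ 1 / 10) (hκ : 0 < κ)
    (hσ : ∀ k : ℕ,
      Ex p (K k) (fun E => (1 + p * ∑ j ∈ range k, ((Dn E j).card : ℝ) - (1 + p) ^ k) ^ 2) ≤
      (1 + p) ^ (2 * k) * (p ^ 2 * k + p * (1 + p) ^ k))
    (hS2 : ∀ m : ℕ,
      Pr p (K m) (fun E => 4 * (1 + p) ^ (2 * m) ≤ p * ∑ j ∈ range m, ((Dn E j).card : ℝ) ^ 2) ≤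
      2 * (p ^ 2 * m + p * (1 + p) ^ m) + 12 * p)
    (hUp : ∀ m z : ℕ, z < m → Ex p (K m) (fun E => ((Up E m z).card : ℝ) ^ 2) ≤
      2 * (1 + 2 * p) ^ (m - 1 - z))
    (hmarg : ∀ (m k : ℕ), k ≤ m → ∀ f : Finset (ℕ × ℕ) → ℝ,
      Ex p (K m) (fun E => f (E ∩ K k)) = Ex p (K k) f)
    (hDn : ∀ (m k : ℕ) (E : Finset (ℕ × ℕ)), E ⊆ K m → ∀ y < k, Dn (E ∩ K k) y = Dn E y)
    (m : ℕ) (hm : 4 / p ≤ m) :
    Pr p (K m) (fun E => ¬ Nice p ((1 + p) ^ m) κ m E) ≤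
      202 * (p ^ 2 * m + p * (1 + p) ^ m) + 12 * p + p * (1 + p) ^ (2 * m) / κ := by

  have hp1' : p ≤ 1 := by linarith
  -- the cut
  obtain ⟨c, hc⟩ : ∃ c : ℕ, c = ⌈1 / p⌉₊ := ⟨_, rfl⟩
  have hcge : 1 / p ≤ (c : ℝ) := by rw [hc]; exact Nat.le_ceil _
  have hclt : (c : ℝ) < 1 / p + 1 := by rw [hc]; exact Nat.ceil_lt_add_one (by positivity)
  clear hc
  have hpc : 1 ≤ p * c := by
    rw [div_le_iff₀ hp] at hcge
    linarith
  have hpc2 : p * c ≤ 1 + p := by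
    have h1 : p * (c : ℝ) ≤ p * (1 / p + 1) := mul_le_mul_of_nonneg_left hclt.le hp.le
    have h2 : p * (1 / p + 1) = 1 + p := by field_simp
    linarith
  obtain ⟨l0, hl0def⟩ : ∃ l0 : ℕ, l0 = 3 * c := ⟨_, rfl⟩
  have hl0cast : (l0 : ℝ) = 3 * c := by rw [hl0def]; push_cast; ring
  have hl1 : p * l0 ≤ 33 / 10 := by
    rw [hl0cast]; linarith
  have hl0 : l0 ≤ m := by
    have h1 : p * (l0 : ℝ) ≤ 4 := by linarith
    have h2 : (l0 : ℝ) ≤ 4 / p := by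
      rw [le_div_iff₀ hp]; linarith
    exact_mod_cast h2.trans hm
  have hx : 8 ≤ (1 + p) ^ l0 := by
    have h1 : 1 + (c : ℝ) * p ≤ (1 + p) ^ c :=
      one_add_mul_le_pow (by linarith) c
    have h2 : 2 ≤ (1 + p) ^ c := by linarith
    rw [hl0def, mul_comm 3 c, pow_mul]
    calc (8 : ℝ) = 2 ^ 3 := by norm_num
      _ ≤ ((1 + p) ^ c) ^ 3 := pow_le_pow_left₀ (by norm_num) h2 3
  obtain ⟨B, hB⟩ : ∃ B : ℝ, B = p ^ 2 * m + p * (1 + p) ^ m := ⟨_, rfl⟩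
  -- general Chebyshev estimate
  have cheb : ∀ k : ℕ, Pr p (K k) (fun E => (1 + p) ^ k / 10 ≤
      |1 + p * ∑ j ∈ range k, ((Dn E j).card : ℝ) - (1 + p) ^ k|) ≤
      100 * (p ^ 2 * k + p * (1 + p) ^ k) := by
    intro k
    have hpos : 0 < (1 + p) ^ k / 10 := by positivity
    refine le_trans (chebyshev hp.le hp1' (K k)
      (fun E => 1 + p * ∑ j ∈ range k, ((Dn E j).card : ℝ)) ((1 + p) ^ k) hpos) ?_
    rw [div_le_iff₀ (by positivity)]
    refine le_trans (hσ k) (le_of_eq ?_)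
    have : (1 + p) ^ (2 * k) = ((1 + p) ^ k) ^ 2 := by rw [← pow_mul]; congr 1; ring
    rw [this]
    ring
  have hPa := cheb m
  have hPb : Pr p (K m) (fun E => (1 + p) ^ (m - l0) / 10 ≤
      |1 + p * ∑ j ∈ range (m - l0), ((Dn E j).card : ℝ) - (1 + p) ^ (m - l0)|) ≤ 100 * B := by
    have h1 : Pr p (K m) (fun E => (1 + p) ^ (m - l0) / 10 ≤
      |1 + p * ∑ j ∈ range (m - l0), ((Dn E j).card : ℝ) - (1 + p) ^ (m - l0)|) =
      Pr p (K (m - l0)) (fun E => (1 + p) ^ (m - l0) / 10 ≤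
      |1 + p * ∑ j ∈ range (m - l0), ((Dn E j).card : ℝ) - (1 + p) ^ (m - l0)|) := by
      unfold Pr
      rw [← hmarg m (m - l0) (Nat.sub_le _ _)]
      apply Ex_congr
      intro E hE
      have : ∑ j ∈ range (m - l0), ((Dn (E ∩ K (m - l0)) j).card : ℝ) =
          ∑ j ∈ range (m - l0), ((Dn E j).card : ℝ) := by
        apply Finset.sum_congr rfl
        intro j hj
        rw [hDn m (m - l0) E hE j (Finset.mem_range.1 hj)]
      beta_reduce
      rw [this]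
    rw [h1]
    refine le_trans (cheb (m - l0)) ?_
    have h2 : ((m - l0 : ℕ) : ℝ) ≤ (m : ℝ) := by exact_mod_cast Nat.sub_le _ _
    have h3 : (1 + p) ^ (m - l0) ≤ (1 + p) ^ m :=
      pow_le_pow_right₀ (by linarith) (Nat.sub_le _ _)
    have h4 : p ^ 2 * ((m - l0 : ℕ) : ℝ) ≤ p ^ 2 * m := mul_le_mul_of_nonneg_left h2 (by positivity)
    have h5 : p * (1 + p) ^ (m - l0) ≤ p * (1 + p) ^ m := mul_le_mul_of_nonneg_left h3 hp.le
    rw [hB]
    linarith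
  have hPc := hS2 m
  have hPd : Pr p (K m) (fun E => κ ≤ p ^ 2 * ∑ z ∈ range m, ((Up E m z).card : ℝ) ^ 2) ≤
      p * (1 + p) ^ (2 * m) / κ := by
    have hmk := markov hp.le hp1' (K m)
      (fun E => p ^ 2 * ∑ z ∈ range m, ((Up E m z).card : ℝ) ^ 2)
      (fun E _ => mul_nonneg (sq_nonneg p) (Finset.sum_nonneg (fun z _ => sq_nonneg _))) hκ
    have hEx : Ex p (K m) (fun E => p ^ 2 * ∑ z ∈ range m, ((Up E m z).card : ℝ) ^ 2) ≤
        p * (1 + p) ^ (2 * m) := by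
      rw [Ex_mul_left, Ex_sum]
      have h1 : ∑ z ∈ range m, Ex p (K m) (fun E => ((Up E m z).card : ℝ) ^ 2) ≤
          ∑ z ∈ range m, 2 * (1 + 2 * p) ^ (m - 1 - z) := by
        apply Finset.sum_le_sum
        intro z hz
        exact hUp m z (Finset.mem_range.1 hz)
      have h2 : ∑ z ∈ range m, 2 * (1 + 2 * p) ^ (m - 1 - z) =
          ∑ z ∈ range m, 2 * (1 + 2 * p) ^ z :=
        Finset.sum_range_reflect (fun z => 2 * (1 + 2 * p) ^ z) m
      have h3 : p * ∑ z ∈ range m, 2 * (1 + 2 * p) ^ z = (1 + 2 * p) ^ m - 1 := by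
        have := geom_sum_mul (1 + 2 * p) m
        rw [← Finset.mul_sum]
        linarith
      have h4 : (1 + 2 * p) ^ m ≤ (1 + p) ^ (2 * m) := by
        rw [pow_mul]
        apply pow_le_pow_left₀ (by positivity)
        nlinarith
      calc p ^ 2 * ∑ z ∈ range m, Ex p (K m) (fun E => ((Up E m z).card : ℝ) ^ 2)
          ≤ p ^ 2 * ∑ z ∈ range m, 2 * (1 + 2 * p) ^ (m - 1 - z) :=
            mul_le_mul_of_nonneg_left h1 (by positivity)
        _ = p * (p * ∑ z ∈ range m, 2 * (1 + 2 * p) ^ z) := by rw [h2]; ring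
        _ = p * ((1 + 2 * p) ^ m - 1) := by rw [h3]
        _ ≤ p * (1 + p) ^ (2 * m) := by
            apply mul_le_mul_of_nonneg_left _ hp.le
            linarith
    exact le_trans hmk (div_le_div_of_nonneg_right hEx hκ.le)
  -- union bound
  have hunion : Pr p (K m) (fun E => ¬ Nice p ((1 + p) ^ m) κ m E) ≤
      Pr p (K m) (fun E => (((1 + p) ^ m / 10 ≤
        |1 + p * ∑ j ∈ range m, ((Dn E j).card : ℝ) - (1 + p) ^ m|) ∨
      ((1 + p) ^ (m - l0) / 10 ≤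
        |1 + p * ∑ j ∈ range (m - l0), ((Dn E j).card : ℝ) - (1 + p) ^ (m - l0)|)) ∨
      ((4 * (1 + p) ^ (2 * m) ≤ p * ∑ j ∈ range m, ((Dn E j).card : ℝ) ^ 2) ∨
      (κ ≤ p ^ 2 * ∑ z ∈ range m, ((Up E m z).card : ℝ) ^ 2))) := by
    apply Pr_mono hp.le hp1'
    intro E _ hN
    by_contra hcon
    push Not at hcon
    apply hN
    obtain ⟨⟨h1, h2⟩, h3, h4⟩ := hcon
    exact nice_det p κ hp hp1 m l0 hl0 hl1 hx E h1 h2 h3 h4.le
  refine le_trans hunion ?_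
  refine le_trans (Pr_or_le hp.le hp1' _ _ _) ?_
  refine le_trans (add_le_add (Pr_or_le hp.le hp1' _ _ _) (Pr_or_le hp.le hp1' _ _ _)) ?_
  linarith


end DW
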