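import Pool.Agent.Helper553.DimWidth.Graph

set_option autoImplicit false
set_option linter.unusedSectionVars false
open scoped Classical
open Finset

namespace DW


/-- the reversal map -/
def rev (k : ℕ) (e : ℕ × ℕ) : ℕ × ℕ := (k - e.2, k - e.1)

theorem rev_rev {k : ℕ} {e : ℕ × ℕ} (he : e ∈ K (k + 1)) : rev k (rev k e) = e := by
  rw [mem_K] at he
  unfold rev
  ext <;> simp only <;> omega

theorem rev_mem {k : ℕ} {e : ℕ × ℕ} (he : e ∈ K (k + 1)) : rev k e ∈ K (k + 1) := by
  rw [mem_K] at he ⊢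
  unfold rev
  simp only
  omega

theorem rev_injOn (k : ℕ) : Set.InjOn (rev k) (K (k + 1)) := by
  intro a ha b hb hab
  have h1 := rev_rev (k := k) (e := a) (by simpa using ha)
  have h2 := rev_rev (k := k) (e := b) (by simpa using hb)
  rw [← h1, ← h2, hab]

theorem image_rev_K (k : ℕ) : (K (k + 1)).image (rev k) = K (k + 1) := by
  ext e
  rw [Finset.mem_image]
  constructor
  · rintro ⟨a, ha, rfl⟩
    exact rev_mem ha
  · intro he
    exact ⟨rev k e, rev_mem he, rev_rev he⟩

theorem image_rev_subset {k : ℕ} {E : Finset (ℕ × ℕ)} (hE : E ⊆ K (k + 1)) :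
    E.image (rev k) ⊆ K (k + 1) := by
  intro e he
  rw [Finset.mem_image] at he
  obtain ⟨a, ha, rfl⟩ := he
  exact rev_mem (hE ha)

theorem image_rev_rev {k : ℕ} {E : Finset (ℕ × ℕ)} (hE : E ⊆ K (k + 1)) :
    (E.image (rev k)).image (rev k) = E := by
  ext e
  simp only [Finset.mem_image]
  constructor
  · rintro ⟨_, ⟨a, ha, rfl⟩, rfl⟩
    rwa [rev_rev (hE ha)]
  · intro he
    exact ⟨rev k e, ⟨e, he, rfl⟩, rev_rev (hE he)⟩

theorem TG_rev {k : ℕ} {E : Finset (ℕ × ℕ)} {x y : ℕ} (h : TG E x y) :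
    TG (E.image (rev k)) (k - y) (k - x) := by
  induction h with
  | single h =>
    exact Relation.TransGen.single (Finset.mem_image_of_mem (rev k) h)
  | tail h1 h2 ih =>
    exact Relation.TransGen.head (Finset.mem_image_of_mem (rev k) h2) ih

theorem Up_rev {k : ℕ} {E : Finset (ℕ × ℕ)} (hE : E ⊆ K (k + 1)) :
    Up (E.image (rev k)) (k + 1) 0 = (Dn E k).image (fun j => k - j) := by
  ext j
  unfold Up Dn
  simp only [Finset.mem_filter, Finset.mem_range, Finset.mem_image]
  constructor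
  · rintro ⟨hj, h | h⟩
    · exact ⟨k, ⟨by omega, Or.inl rfl⟩, by omega⟩
    · refine ⟨k - j, ⟨by omega, Or.inr ?_⟩, by omega⟩
      have h1 := TG_rev (k := k) h
      rw [image_rev_rev hE] at h1
      simpa using h1
  · rintro ⟨i, ⟨hi, h | h⟩, rfl⟩
    · exact ⟨by omega, Or.inl (by omega)⟩
    · refine ⟨by omega, Or.inr ?_⟩
      have h1 := TG_rev (k := k) h
      simpa using h1

/-- reversal: the down-set of the last point has the law of the up-set of the first point -/
theorem Dn_law (p : ℝ) (k : ℕ) (f : ℕ → ℝ) :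
    Ex p (K (k + 1)) (fun E => f (Dn E k).card) =
      Ex p (K (k + 1)) (fun E => f (Up E (k + 1) 0).card) := by
  conv_rhs => rw [← image_rev_K k]
  rw [Ex_image (rev_injOn k)]
  apply Ex_congr
  intro E hE
  rw [Up_rev hE, Finset.card_image_of_injOn]
  intro a ha b hb hab
  have ha' := Finset.mem_range.1 (Dn_subset (by simpa using ha))
  have hb' := Finset.mem_range.1 (Dn_subset (by simpa using hb))
  simp only at hab
  omega

/-- marginals: a function that only depends on `E ∩ X` -/
theorem Ex_marginal {ι : Type*} [DecidableEq ι] (p : ℝ) {X Y : Finset ι} (h : X ⊆ Y)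
    (f : Finset ι → ℝ) : Ex p Y (fun E => f (E ∩ X)) = Ex p X f := by
  have hY : Y = X ∪ (Y \ X) := (Finset.union_sdiff_of_subset h).symm
  conv_lhs => rw [hY]
  rw [Ex_union Finset.disjoint_sdiff]
  apply Ex_congr
  intro E hE
  rw [← Ex_const (p := p) (Y \ X) (f E)]
  apply Ex_congr
  intro F hF
  congr 1
  ext x
  simp only [Finset.mem_inter, Finset.mem_union]
  constructor
  · rintro ⟨h1 | h1, h2⟩
    · exact h1
    · exact absurd h2 (Finset.mem_sdiff.1 (hF h1)).2
  · intro h1
    exact ⟨Or.inl h1, hE h1⟩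

/-- down-sets of points below `n` only depend on the edges in `K n` -/
theorem Dn_inter_K {m n : ℕ} {E : Finset (ℕ × ℕ)} (hE : E ⊆ K m) {y : ℕ} (hy : y < n) :
    Dn (E ∩ K n) y = Dn E y := by
  unfold Dn
  apply Finset.filter_congr
  intro j _
  refine or_congr Iff.rfl ⟨TG_mono Finset.inter_subset_left, ?_⟩
  intro h
  refine TG_local (fun e he => (mem_K.1 (hE he)).1) ?_ h
  intro e he _ h2
  rw [Finset.mem_inter, mem_K]
  exact ⟨he, (mem_K.1 (hE he)).1, by omega⟩


end DW
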