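import Pool.Agent.Helper553.DimWidth.Graph

set_option autoImplicit false
set_option linter.unusedSectionVars false
open scoped Classical
open Finset

namespace DW

variable {ι κ : Type*} [DecidableEq ι] [DecidableEq κ] {p : ℝ}



/-! ## helper lemmas for the target -/

/-- the size of the down-set -/
noncomputable def VV (E : Finset (ℕ × ℕ)) (k : ℕ) : ℝ := ((Dn E k).card : ℝ)

noncomputable def sgm (p : ℝ) (E : Finset (ℕ × ℕ)) (k : ℕ) : ℝ := 1 + p * ∑ j ∈ range k, VV E j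

noncomputable def SS (p : ℝ) (E : Finset (ℕ × ℕ)) (k : ℕ) : ℝ := p * ∑ j ∈ range k, VV E j ^ 2

noncomputable def AA (p : ℝ) (E : Finset (ℕ × ℕ)) : ℕ → ℝ
  | 0 => 0
  | (k + 1) => (1 + p) * AA p E k + p * (sgm p E k) ^ 2

noncomputable def XX (p : ℝ) (E : Finset (ℕ × ℕ)) : ℕ → ℝ
  | 0 => 0
  | (k + 1) => (1 + p) * XX p E k + 2 * p * (sgm p E k - (1 + p) ^ k) ^ 2

theorem VV_union {n : ℕ} {E : Finset (ℕ × ℕ)} (hE : E ⊆ K n) {R : Finset ℕ}
    (hR : R ⊆ range n) {y : ℕ} (hy : y < n) : VV (E ∪ rowE n R) y = VV E y := by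
  unfold VV
  rw [Dn_union_row hE hR hy]

theorem sgm_union {n : ℕ} {E : Finset (ℕ × ℕ)} (hE : E ⊆ K n) {R : Finset ℕ}
    (hR : R ⊆ range n) {k : ℕ} (hk : k ≤ n) : sgm p (E ∪ rowE n R) k = sgm p E k := by
  unfold sgm
  congr 2
  apply Finset.sum_congr rfl
  intro j hj
  exact VV_union hE hR (lt_of_lt_of_le (Finset.mem_range.1 hj) hk)

theorem SS_union {n : ℕ} {E : Finset (ℕ × ℕ)} (hE : E ⊆ K n) {R : Finset ℕ}
    (hR : R ⊆ range n) {k : ℕ} (hk : k ≤ n) : SS p (E ∪ rowE n R) k = SS p E k := by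
  unfold SS
  congr 1
  apply Finset.sum_congr rfl
  intro j hj
  rw [VV_union hE hR (lt_of_lt_of_le (Finset.mem_range.1 hj) hk)]

theorem AA_union {n : ℕ} {E : Finset (ℕ × ℕ)} (hE : E ⊆ K n) {R : Finset ℕ}
    (hR : R ⊆ range n) {k : ℕ} (hk : k ≤ n) : AA p (E ∪ rowE n R) k = AA p E k := by
  induction k with
  | zero => rfl
  | succ k ih =>
    simp only [AA]
    rw [ih (by omega), sgm_union hE hR (by omega)]

theorem XX_union {n : ℕ} {E : Finset (ℕ × ℕ)} (hE : E ⊆ K n) {R : Finset ℕ}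
    (hR : R ⊆ range n) {k : ℕ} (hk : k ≤ n) : XX p (E ∪ rowE n R) k = XX p E k := by
  induction k with
  | zero => rfl
  | succ k ih =>
    simp only [XX]
    rw [ih (by omega), sgm_union hE hR (by omega)]

theorem XX_nonneg (hp : 0 ≤ p) (E : Finset (ℕ × ℕ)) (k : ℕ) : 0 ≤ XX p E k := by
  induction k with
  | zero => exact le_rfl
  | succ k ih =>
    simp only [XX]
    positivity

theorem AA_le (hp : 0 ≤ p) (E : Finset (ℕ × ℕ)) (k : ℕ) :
    AA p E k ≤ 2 * (1 + p) ^ (2 * k) + XX p E k := by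
  induction k with
  | zero => simp [AA, XX]
  | succ k ih =>
    simp only [AA, XX]
    have h1 : (sgm p E k) ^ 2 ≤ 2 * (sgm p E k - (1 + p) ^ k) ^ 2 + 2 * (1 + p) ^ (2 * k) := by
      have h : (1 + p) ^ (2 * k) = ((1 + p) ^ k) ^ 2 := by rw [← pow_mul, mul_comm]
      rw [h]
      nlinarith [sq_nonneg (sgm p E k - 2 * (1 + p) ^ k)]
    have h2 : (0 : ℝ) ≤ (1 + p) ^ (2 * k) := by positivity
    have h3 : (1 + p) ^ (2 * (k + 1)) = (1 + p) ^ (2 * k) * (1 + p) ^ 2 := by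
      rw [← pow_add]
      congr 1
    rw [h3]
    have h4 : (1 + p) * AA p E k ≤ (1 + p) * (2 * (1 + p) ^ (2 * k) + XX p E k) :=
      mul_le_mul_of_nonneg_left ih (by linarith)
    have h5 : p * (sgm p E k) ^ 2 ≤
        p * (2 * (sgm p E k - (1 + p) ^ k) ^ 2 + 2 * (1 + p) ^ (2 * k)) :=
      mul_le_mul_of_nonneg_left h1 hp
    have h6 : 0 ≤ (1 + p) ^ (2 * k) * p ^ 2 := by positivity
    nlinarith

theorem Ex_XX_le (hp : 0 ≤ p) (hp1 : p ≤ 1)
    (hσ : ∀ k : ℕ,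
      Ex p (K k) (fun E => (sgm p E k - (1 + p) ^ k) ^ 2) ≤
      (1 + p) ^ (2 * k) * (p ^ 2 * k + p * (1 + p) ^ k)) (k : ℕ) :
    Ex p (K k) (fun E => XX p E k) ≤
      2 * (1 + p) ^ (2 * k) * (p ^ 2 * k + p * (1 + p) ^ k) := by
  induction k with
  | zero =>
    have : Ex p (K 0) (fun E => XX p E 0) = 0 := by
      simp only [XX]
      exact Ex_const _ _
    rw [this]
    positivity
  | succ k ih =>
    rw [Ex_K_succ]
    have h1 : Ex p (K k) (fun E => Ex p (range k) (fun R => XX p (E ∪ rowE k R) (k + 1))) =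
        (1 + p) * Ex p (K k) (fun E => XX p E k) +
        2 * p * Ex p (K k) (fun E => (sgm p E k - (1 + p) ^ k) ^ 2) := by
      rw [← Ex_mul_left, ← Ex_mul_left, ← Ex_add]
      apply Ex_congr
      intro E hE
      rw [← Ex_const (p := p) (range k) ((1 + p) * XX p E k +
        2 * p * (sgm p E k - (1 + p) ^ k) ^ 2)]
      apply Ex_congr
      intro R hR
      simp only [XX]
      rw [XX_union hE hR le_rfl, sgm_union hE hR le_rfl]
    rw [h1]
    have h2 := hσ k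
    set Q : ℝ := (1 + p) ^ (2 * k) * (p ^ 2 * k + p * (1 + p) ^ k) with hQ
    have hQ0 : 0 ≤ Q := by positivity
    have h3 : (1 + p) * Ex p (K k) (fun E => XX p E k) ≤ (1 + p) * (2 * Q) := by
      apply mul_le_mul_of_nonneg_left _ (by linarith)
      calc _ ≤ _ := ih
        _ = 2 * Q := by rw [hQ]; ring
    have h4 : 2 * p * Ex p (K k) (fun E => (sgm p E k - (1 + p) ^ k) ^ 2) ≤ 2 * p * Q :=
      mul_le_mul_of_nonneg_left h2 (by linarith)
    have h5 : 2 * (1 + p) ^ 2 * Q ≤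
        2 * (1 + p) ^ (2 * (k + 1)) * (p ^ 2 * ((k + 1 : ℕ) : ℝ) + p * (1 + p) ^ (k + 1)) := by
      have h6 : 2 * (1 + p) ^ 2 * Q =
        2 * (1 + p) ^ (2 * (k + 1)) * (p ^ 2 * (k : ℝ) + p * (1 + p) ^ k) := by
        rw [hQ]
        ring
      rw [h6]
      apply mul_le_mul_of_nonneg_left _ (by positivity)
      apply add_le_add
      · apply mul_le_mul_of_nonneg_left _ (by positivity)
        push_cast
        linarith
      · apply mul_le_mul_of_nonneg_left _ hp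
        rw [pow_succ]
        have : (0 : ℝ) ≤ (1 + p) ^ k := by positivity
        nlinarith
    nlinarith [mul_nonneg (sq_nonneg p) hQ0]

/-- one row: the second moment -/
theorem row_second (hp : 0 ≤ p) (hp1 : p ≤ 1) {k : ℕ} {E : Finset (ℕ × ℕ)} (hE : E ⊆ K k) :
    Ex p (range k) (fun R => VV (E ∪ rowE k R) k ^ 2) ≤ sgm p E k ^ 2 + SS p E k := by
  have h1 : Ex p (range k) (fun R => VV (E ∪ rowE k R) k ^ 2) ≤
      Ex p (range k) (fun R => 1 + 2 * (∑ y ∈ R, VV E y) + (∑ y ∈ R, VV E y) ^ 2) := by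
    apply Ex_mono hp hp1
    intro R hR
    have h2 : VV (E ∪ rowE k R) k ≤ 1 + ∑ y ∈ R, VV E y := by
      unfold VV
      rw [Dn_union_row_top hE hR]
      have h3 : (insert k (R.biUnion (Dn E))).card ≤ 1 + ∑ y ∈ R, (Dn E y).card := by
        calc (insert k (R.biUnion (Dn E))).card ≤ (R.biUnion (Dn E)).card + 1 :=
              Finset.card_insert_le _ _
          _ ≤ (∑ y ∈ R, (Dn E y).card) + 1 := by
              apply Nat.add_le_add_right
              exact Finset.card_biUnion_le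
          _ = 1 + ∑ y ∈ R, (Dn E y).card := by ring
      calc ((insert k (R.biUnion (Dn E))).card : ℝ) ≤ ((1 + ∑ y ∈ R, (Dn E y).card : ℕ) : ℝ) := by
            exact_mod_cast h3
        _ = 1 + ∑ y ∈ R, ((Dn E y).card : ℝ) := by push_cast; ring
    have h4 : 0 ≤ VV (E ∪ rowE k R) k := by unfold VV; positivity
    calc VV (E ∪ rowE k R) k ^ 2 ≤ (1 + ∑ y ∈ R, VV E y) ^ 2 := by gcongr
      _ = 1 + 2 * (∑ y ∈ R, VV E y) + (∑ y ∈ R, VV E y) ^ 2 := by ring
  have h5 : Ex p (range k) (fun R => 1 + 2 * (∑ y ∈ R, VV E y) + (∑ y ∈ R, VV E y) ^ 2) =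
      1 + 2 * (p * ∑ y ∈ range k, VV E y) + ((p * ∑ y ∈ range k, VV E y) ^ 2 +
        p * (1 - p) * ∑ y ∈ range k, VV E y ^ 2) := by
    rw [Ex_add, Ex_add, Ex_const, Ex_mul_left, Ex_linear, Ex_sq]
  rw [h5] at h1
  have h6 : 0 ≤ ∑ y ∈ range k, VV E y ^ 2 := Finset.sum_nonneg (fun _ _ => sq_nonneg _)
  have h7 : 0 ≤ p ^ 2 * ∑ y ∈ range k, VV E y ^ 2 := by positivity
  unfold sgm SS
  nlinarith

noncomputable def BB (p : ℝ) (E : Finset (ℕ × ℕ)) (k : ℕ) : ℝ := SS p E k - AA p E k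

theorem BB_step (hp : 0 ≤ p) (hp1 : p ≤ 1) {k : ℕ} {E : Finset (ℕ × ℕ)} (hE : E ⊆ K k)
    {R : Finset ℕ} (hR : R ⊆ range k) :
    BB p (E ∪ rowE k R) (k + 1) ≤ (1 + p) * BB p E k + p * (VV (E ∪ rowE k R) k ^ 2 -
      Ex p (range k) (fun R => VV (E ∪ rowE k R) k ^ 2)) := by
  have h1 := row_second hp hp1 hE
  have h2 : SS p (E ∪ rowE k R) (k + 1) = SS p E k + p * VV (E ∪ rowE k R) k ^ 2 := by
    rw [← SS_union (p := p) hE hR le_rfl]
    unfold SS
    rw [Finset.sum_range_succ]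
    ring
  have h3 : AA p (E ∪ rowE k R) (k + 1) = (1 + p) * AA p E k + p * (sgm p E k) ^ 2 := by
    simp only [AA]
    rw [AA_union hE hR le_rfl, sgm_union hE hR le_rfl]
  unfold BB
  rw [h2, h3]
  have h4 := mul_le_mul_of_nonneg_left h1 hp
  nlinarith

theorem Ex_BB (hp : 0 ≤ p) (hp1 : p ≤ 1) (k : ℕ) :
    Ex p (K (k + 1)) (fun E => (max (BB p E (k + 1)) 0) ^ 2) ≤
      (1 + p) ^ 2 * Ex p (K k) (fun E => (max (BB p E k) 0) ^ 2) +
      p ^ 2 * Ex p (K (k + 1)) (fun E => VV E k ^ 4) := by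
  rw [Ex_K_succ, Ex_K_succ, ← Ex_mul_left, ← Ex_mul_left, ← Ex_add]
  apply Ex_mono hp hp1
  intro E hE
  set μ : ℝ := Ex p (range k) (fun R => VV (E ∪ rowE k R) k ^ 2) with hμ
  have h1 : Ex p (range k) (fun R => (max (BB p (E ∪ rowE k R) (k + 1)) 0) ^ 2) ≤
      Ex p (range k) (fun R => ((1 + p) ^ 2 * (max (BB p E k) 0) ^ 2 -
        2 * (1 + p) * (max (BB p E k) 0) * p * μ + p ^ 2 * μ ^ 2) +
        (2 * (1 + p) * (max (BB p E k) 0) * p - 2 * p ^ 2 * μ) * VV (E ∪ rowE k R) k ^ 2 +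
        p ^ 2 * VV (E ∪ rowE k R) k ^ 4) := by
    apply Ex_mono hp hp1
    intro R hR
    have h2 := BB_step hp hp1 hE hR
    rw [← hμ] at h2
    have h3 : (max (BB p (E ∪ rowE k R) (k + 1)) 0) ^ 2 ≤
        ((1 + p) * max (BB p E k) 0 + p * (VV (E ∪ rowE k R) k ^ 2 - μ)) ^ 2 := by
      have h5 : (1 + p) * BB p E k ≤ (1 + p) * max (BB p E k) 0 :=
        mul_le_mul_of_nonneg_left (le_max_left _ _) (by linarith)
      rcases le_total (BB p (E ∪ rowE k R) (k + 1)) 0 with h | h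
      · rw [max_eq_right h, zero_pow two_ne_zero]
        exact sq_nonneg _
      · rw [max_eq_left h]
        apply pow_le_pow_left₀ h
        linarith
    refine le_trans h3 (le_of_eq ?_)
    ring
  refine le_trans h1 ?_
  rw [Ex_add, Ex_add, Ex_const, Ex_mul_left, Ex_mul_left, ← hμ]
  have h6 : 0 ≤ p ^ 2 * μ ^ 2 := by positivity
  nlinarith

theorem Ex_BB_le (hp : 0 ≤ p) (hp1 : p ≤ 1)
    (hM4 : ∀ k : ℕ, Ex p (K (k + 1)) (fun E => VV E k ^ 4) ≤
      24 * (1 + 4 * p) ^ k) (k : ℕ) :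
    Ex p (K k) (fun E => (max (BB p E k) 0) ^ 2) ≤ 12 * p * (1 + p) ^ (4 * k) := by
  induction k with
  | zero =>
    have : Ex p (K 0) (fun E => (max (BB p E 0) 0) ^ 2) = 0 := by
      have h : ∀ E : Finset (ℕ × ℕ), (max (BB p E 0) 0) ^ 2 = 0 := by
        intro E
        simp [BB, SS, AA]
      simp only [h]
      exact Ex_const _ _
    rw [this]
    positivity
  | succ k ih =>
    have h1 := Ex_BB hp hp1 k
    have h2 : Ex p (K (k + 1)) (fun E => VV E k ^ 4) ≤ 24 * (1 + p) ^ (4 * k) := by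
      refine le_trans (hM4 k) ?_
      rw [pow_mul]
      apply mul_le_mul_of_nonneg_left _ (by norm_num)
      apply pow_le_pow_left₀ (by positivity)
      nlinarith [sq_nonneg p, pow_nonneg hp 3, pow_nonneg hp 4]
    set Q : ℝ := (1 + p) ^ (4 * k) with hQ
    have hQ0 : 0 ≤ Q := by positivity
    have h3 : (1 + p) ^ 2 * Ex p (K k) (fun E => (max (BB p E k) 0) ^ 2) ≤
        (1 + p) ^ 2 * (12 * p * Q) := mul_le_mul_of_nonneg_left ih (by positivity)
    have h4 : p ^ 2 * Ex p (K (k + 1)) (fun E => VV E k ^ 4) ≤ p ^ 2 * (24 * Q) :=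
      mul_le_mul_of_nonneg_left h2 (by positivity)
    have h5 : (1 + p) ^ (4 * (k + 1)) = Q * (1 + p) ^ 4 := by
      rw [hQ, ← pow_add]
      congr 1
    rw [h5]
    have h6 : (1 + p) ^ 2 * (12 * p * Q) + p ^ 2 * (24 * Q) ≤ 12 * p * (Q * (1 + p) ^ 4) := by
      have h7 : 12 * p * (Q * (1 + p) ^ 4) - ((1 + p) ^ 2 * (12 * p * Q) + p ^ 2 * (24 * Q)) =
          12 * Q * p * (5 * p ^ 2 + 4 * p ^ 3 + p ^ 4) := by ring
      have h8 : 0 ≤ 12 * Q * p * (5 * p ^ 2 + 4 * p ^ 3 + p ^ 4) := by positivity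
      linarith
    linarith



/-- upper tail of the second power sum of the down-set sizes -/
theorem S2_tail (p : ℝ) (hp : 0 < p) (hp1 : p ≤ 1)
    (hσ : ∀ k : ℕ,
      Ex p (K k) (fun E => (1 + p * ∑ j ∈ range k, ((Dn E j).card : ℝ) - (1 + p) ^ k) ^ 2) ≤
      (1 + p) ^ (2 * k) * (p ^ 2 * k + p * (1 + p) ^ k))
    (hM4 : ∀ k : ℕ, Ex p (K (k + 1)) (fun E => ((Dn E k).card : ℝ) ^ 4) ≤
      24 * (1 + 4 * p) ^ k)
    (m : ℕ) :
    Pr p (K m) (fun E => 4 * (1 + p) ^ (2 * m) ≤ p * ∑ j ∈ range m, ((Dn E j).card : ℝ) ^ 2) ≤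
      2 * (p ^ 2 * m + p * (1 + p) ^ m) + 12 * p := by
  have hX := Ex_XX_le hp.le hp1 hσ m
  have hB := Ex_BB_le hp.le hp1 hM4 m
  have hx : (0 : ℝ) < (1 + p) ^ (2 * m) := by positivity
  have hx4 : (0 : ℝ) < (1 + p) ^ (4 * m) := by positivity
  have h1 : Pr p (K m) (fun E => 4 * (1 + p) ^ (2 * m) ≤
      p * ∑ j ∈ range m, ((Dn E j).card : ℝ) ^ 2) ≤
      Pr p (K m) (fun E => (1 + p) ^ (2 * m) ≤ XX p E m ∨
        (1 + p) ^ (4 * m) ≤ (max (BB p E m) 0) ^ 2) := by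
    apply Pr_mono hp.le hp1
    intro E hE h
    have h2 : 4 * (1 + p) ^ (2 * m) ≤ SS p E m := h
    by_cases hc : (1 + p) ^ (2 * m) ≤ XX p E m
    · exact Or.inl hc
    · right
      push Not at hc
      have h3 := AA_le hp.le E m
      have h4 : (1 + p) ^ (2 * m) ≤ BB p E m := by
        unfold BB
        linarith
      have h5 : (1 + p) ^ (2 * m) ≤ max (BB p E m) 0 := le_trans h4 (le_max_left _ _)
      calc (1 + p) ^ (4 * m) = ((1 + p) ^ (2 * m)) ^ 2 := by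
            rw [← pow_mul]
            congr 1
            ring
        _ ≤ (max (BB p E m) 0) ^ 2 := pow_le_pow_left₀ hx.le h5 2
  refine le_trans h1 ?_
  refine le_trans (Pr_or_le hp.le hp1 _ _ _) ?_
  apply add_le_add
  · refine le_trans (markov hp.le hp1 (K m) (fun E => XX p E m)
      (fun E _ => XX_nonneg hp.le E m) hx) ?_
    rw [div_le_iff₀ hx]
    refine le_trans hX (le_of_eq ?_)
    ring
  · refine le_trans (markov hp.le hp1 (K m) (fun E => (max (BB p E m) 0) ^ 2)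
      (fun E _ => sq_nonneg _) hx4) ?_
    rw [div_le_iff₀ hx4]
    exact hB

end DW
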