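import Pool.Agent.Helper553.DimWidth.Graph

set_option autoImplicit false
set_option linter.unusedSectionVars false
open scoped Classical
open Finset

namespace DW



section conc

/-- down-set size -/
noncomputable def Vd (j : ℕ) (E : Finset (ℕ × ℕ)) : ℝ := ((Dn E j).card : ℝ)

noncomputable def sg (p : ℝ) (k : ℕ) (E : Finset (ℕ × ℕ)) : ℝ := 1 + p * ∑ j ∈ range k, Vd j E

noncomputable def Sg (p : ℝ) (k : ℕ) (E : Finset (ℕ × ℕ)) : ℝ := p * ∑ j ∈ range k, Vd j E ^ 2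

theorem Vd_nonneg (j : ℕ) (E : Finset (ℕ × ℕ)) : 0 ≤ Vd j E := Nat.cast_nonneg _

theorem Vd_row {k : ℕ} {E : Finset (ℕ × ℕ)} (hE : E ⊆ K k) {R : Finset ℕ} (hR : R ⊆ range k)
    {j : ℕ} (hj : j < k) : Vd j (E ∪ rowE k R) = Vd j E := by
  unfold Vd
  rw [Dn_union_row hE hR hj]

theorem Vd_top {k : ℕ} {E : Finset (ℕ × ℕ)} (hE : E ⊆ K k) {R : Finset ℕ} (hR : R ⊆ range k) :
    Vd k (E ∪ rowE k R) ≤ 1 + ∑ y ∈ R, Vd y E := by
  unfold Vd
  rw [Dn_union_row_top hE hR]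
  have h1 : (insert k (R.biUnion (Dn E))).card ≤ (∑ y ∈ R, (Dn E y).card) + 1 :=
    (Finset.card_insert_le _ _).trans (Nat.add_le_add_right Finset.card_biUnion_le 1)
  have h2 : ((insert k (R.biUnion (Dn E))).card : ℝ) ≤ (∑ y ∈ R, ((Dn E y).card : ℝ)) + 1 := by
    exact_mod_cast h1
  linarith

theorem sg_row {k : ℕ} {E : Finset (ℕ × ℕ)} (hE : E ⊆ K k) {R : Finset ℕ} (hR : R ⊆ range k)
    (p : ℝ) : sg p k (E ∪ rowE k R) = sg p k E := by
  unfold sg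
  rw [Finset.sum_congr rfl fun j hj => Vd_row hE hR (Finset.mem_range.1 hj)]

theorem Sg_row {k : ℕ} {E : Finset (ℕ × ℕ)} (hE : E ⊆ K k) {R : Finset ℕ} (hR : R ⊆ range k)
    (p : ℝ) : Sg p k (E ∪ rowE k R) = Sg p k E := by
  unfold Sg
  rw [Finset.sum_congr rfl fun j hj => by rw [Vd_row hE hR (Finset.mem_range.1 hj)]]

theorem sg_succ (p : ℝ) (k : ℕ) (E : Finset (ℕ × ℕ)) : sg p (k + 1) E = sg p k E + p * Vd k E := by
  unfold sg
  rw [Finset.sum_range_succ]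
  ring

theorem Sg_succ (p : ℝ) (k : ℕ) (E : Finset (ℕ × ℕ)) :
    Sg p (k + 1) E = Sg p k E + p * Vd k E ^ 2 := by
  unfold Sg
  rw [Finset.sum_range_succ]
  ring

theorem sg_nonneg {p : ℝ} (hp : 0 < p) (k : ℕ) (E : Finset (ℕ × ℕ)) : 0 ≤ sg p k E := by
  unfold sg
  have : 0 ≤ ∑ j ∈ range k, Vd j E := Finset.sum_nonneg fun j _ => Vd_nonneg j E
  positivity

theorem Ex_old (p : ℝ) (k : ℕ) (f g : Finset (ℕ × ℕ) → ℝ)
    (h : ∀ E ⊆ K k, ∀ R ⊆ range k, f (E ∪ rowE k R) = g E) :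
    Ex p (K (k + 1)) f = Ex p (K k) g := by
  rw [Ex_K_succ]
  apply Ex_congr
  intro E hE
  rw [← Ex_const (p := p) (range k) (g E)]
  apply Ex_congr
  intro R hR
  exact h E hE R hR

theorem row1 {p : ℝ} (hp : 0 < p) (hp1 : p ≤ 1) {k : ℕ} {E : Finset (ℕ × ℕ)} (hE : E ⊆ K k) :
    Ex p (range k) (fun R => Vd k (E ∪ rowE k R)) ≤ sg p k E := by
  refine (Ex_mono hp.le hp1 (g := fun R => 1 + ∑ y ∈ R, Vd y E) fun R hR => Vd_top hE hR).trans ?_
  rw [Ex_add, Ex_const, Ex_linear]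
  exact le_rfl

theorem row2 {p : ℝ} (hp : 0 < p) (hp1 : p ≤ 1) {k : ℕ} {E : Finset (ℕ × ℕ)} (hE : E ⊆ K k) :
    Ex p (range k) (fun R => Vd k (E ∪ rowE k R) ^ 2) ≤ sg p k E ^ 2 + Sg p k E := by
  refine (Ex_mono hp.le hp1 (g := fun R => 1 + 2 * ∑ y ∈ R, Vd y E + (∑ y ∈ R, Vd y E) ^ 2)
    fun R hR => ?_).trans ?_
  · have h1 := Vd_top hE hR
    have h2 := Vd_nonneg k (E ∪ rowE k R)
    calc Vd k (E ∪ rowE k R) ^ 2 ≤ (1 + ∑ y ∈ R, Vd y E) ^ 2 := pow_le_pow_left₀ h2 h1 2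
      _ = _ := by ring
  · rw [Ex_add, Ex_add, Ex_const, Ex_mul_left, Ex_linear, Ex_sq]
    unfold sg Sg
    have h3 : 0 ≤ ∑ y ∈ range k, Vd y E ^ 2 := Finset.sum_nonneg fun j _ => sq_nonneg _
    nlinarith [mul_nonneg (mul_nonneg hp.le hp.le) h3]

theorem bound_S {p : ℝ} (hp : 0 < p) (hp1 : p ≤ 1)
    (hM2 : ∀ k : ℕ, Ex p (K (k + 1)) (fun E => ((Dn E k).card : ℝ) ^ 2) ≤ 2 * (1 + 2 * p) ^ k)
    (k : ℕ) : Ex p (K k) (Sg p k) ≤ (1 + 2 * p) ^ k := by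
  induction k with
  | zero =>
    have : Ex p (K 0) (Sg p 0) = Ex p (K 0) (fun _ => 0) := Ex_congr fun E _ => by simp [Sg]
    rw [this, Ex_const]
    simp
  | succ k ih =>
    have h1 : Ex p (K (k + 1)) (Sg p (k + 1)) =
        Ex p (K (k + 1)) (Sg p k) + p * Ex p (K (k + 1)) (fun E => Vd k E ^ 2) := by
      rw [← Ex_mul_left, ← Ex_add]
      exact Ex_congr fun E _ => Sg_succ p k E
    rw [h1, Ex_old p k (Sg p k) (Sg p k) fun E hE R hR => Sg_row hE hR p]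
    have h2 := mul_le_mul_of_nonneg_left (hM2 k) hp.le
    have h3 : Ex p (K (k + 1)) (fun E => Vd k E ^ 2) =
        Ex p (K (k + 1)) (fun E => ((Dn E k).card : ℝ) ^ 2) := rfl
    rw [h3, pow_succ]
    linarith

theorem bound_sq {p : ℝ} (hp : 0 < p) (hp1 : p ≤ 1)
    (hM2 : ∀ k : ℕ, Ex p (K (k + 1)) (fun E => ((Dn E k).card : ℝ) ^ 2) ≤ 2 * (1 + 2 * p) ^ k)
    (k : ℕ) : Ex p (K k) (fun E => sg p k E ^ 2) ≤ (1 + p) ^ (2 * k) * (1 + p ^ 2 * k) := by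
  induction k with
  | zero =>
    have : Ex p (K 0) (fun E => sg p 0 E ^ 2) = Ex p (K 0) (fun _ => 1) :=
      Ex_congr fun E _ => by simp [sg]
    rw [this, Ex_const]
    simp
  | succ k ih =>
    have h1 : Ex p (K (k + 1)) (fun E => sg p (k + 1) E ^ 2) ≤
        Ex p (K k) (fun E => (1 + p) ^ 2 * sg p k E ^ 2 + p ^ 2 * Sg p k E) := by
      rw [Ex_K_succ]
      refine Ex_mono hp.le hp1 fun E hE => ?_
      have e1 : Ex p (range k) (fun R => sg p (k + 1) (E ∪ rowE k R) ^ 2) =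
          Ex p (range k) (fun R => sg p k E ^ 2 + (2 * p * sg p k E) * Vd k (E ∪ rowE k R) +
            p ^ 2 * Vd k (E ∪ rowE k R) ^ 2) := by
        refine Ex_congr fun R hR => ?_
        rw [sg_succ, sg_row hE hR]
        ring
      rw [e1, Ex_add, Ex_add, Ex_const, Ex_mul_left, Ex_mul_left]
      have h2 := row1 hp hp1 hE
      have h3 := row2 hp hp1 hE
      have h4 := sg_nonneg hp k E
      have h5 : 2 * p * sg p k E * Ex p (range k) (fun R => Vd k (E ∪ rowE k R)) ≤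
          2 * p * sg p k E * sg p k E := mul_le_mul_of_nonneg_left h2 (by positivity)
      have h6 := mul_le_mul_of_nonneg_left h3 (sq_nonneg p)
      nlinarith
    refine h1.trans ?_
    rw [Ex_add, Ex_mul_left, Ex_mul_left]
    have h2 := bound_S hp hp1 hM2 k
    have h3 := mul_le_mul_of_nonneg_left ih (sq_nonneg (1 + p))
    have h4 := mul_le_mul_of_nonneg_left h2 (sq_nonneg p)
    have h5 : (1 + 2 * p) ^ k ≤ (1 + p) ^ (2 * (k + 1)) := by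
      calc (1 + 2 * p) ^ k ≤ ((1 + p) ^ 2) ^ k :=
            pow_le_pow_left₀ (by linarith) (by nlinarith [sq_nonneg p]) k
        _ = (1 + p) ^ (2 * k) := by rw [← pow_mul]
        _ ≤ _ := pow_le_pow_right₀ (by linarith) (by omega)
    have h6 := mul_le_mul_of_nonneg_left h5 (sq_nonneg p)
    have h7 : (1 + p) ^ (2 * (k + 1)) = (1 + p) ^ 2 * (1 + p) ^ (2 * k) := by
      rw [← pow_add]
      congr 1
      ring
    push_cast
    rw [h7] at h6 ⊢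
    have h8 : (1 + p) ^ 2 * (1 + p) ^ (2 * k) * (1 + p ^ 2 * ((k : ℝ) + 1)) =
        (1 + p) ^ 2 * ((1 + p) ^ (2 * k) * (1 + p ^ 2 * k)) +
          p ^ 2 * ((1 + p) ^ 2 * (1 + p) ^ (2 * k)) := by ring
    rw [h8]
    linarith

theorem bound_lin {p : ℝ} (hp : 0 < p)
    (hM1l : ∀ k : ℕ, (1 + p) ^ k - p * (1 + p) ^ (2 * k) ≤
      Ex p (K (k + 1)) (fun E => ((Dn E k).card : ℝ)))
    (k : ℕ) : (1 + p) ^ k - p / 2 * (1 + p) ^ (2 * k) ≤ Ex p (K k) (sg p k) := by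
  induction k with
  | zero =>
    have : Ex p (K 0) (sg p 0) = Ex p (K 0) (fun _ => 1) :=
      Ex_congr fun E _ => by simp [sg]
    rw [this, Ex_const]
    simp
    linarith
  | succ k ih =>
    have h1 : Ex p (K (k + 1)) (sg p (k + 1)) =
        Ex p (K (k + 1)) (sg p k) + p * Ex p (K (k + 1)) (fun E => Vd k E) := by
      rw [← Ex_mul_left, ← Ex_add]
      exact Ex_congr fun E _ => sg_succ p k E
    rw [h1, Ex_old p k (sg p k) (sg p k) fun E hE R hR => sg_row hE hR p]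
    have h2 := mul_le_mul_of_nonneg_left (hM1l k) hp.le
    have h3 : Ex p (K (k + 1)) (fun E => Vd k E) =
        Ex p (K (k + 1)) (fun E => ((Dn E k).card : ℝ)) := rfl
    rw [h3]
    have h4 : 0 < (1 + p) ^ (2 * k) := by positivity
    have h5 : (1 + p) ^ (2 * (k + 1)) = (1 + p) ^ 2 * (1 + p) ^ (2 * k) := by
      rw [← pow_add]
      congr 1
      ring
    have h6 : (1 + p) ^ (k + 1) = (1 + p) ^ k + p * (1 + p) ^ k := by
      rw [pow_succ]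
      ring
    rw [h5, h6]
    nlinarith [mul_pos (mul_pos (mul_pos hp hp) hp) h4]

end conc



/-- concentration of `σ_k = 1 + p * ∑_{j<k} |Dn j|` around `(1+p)^k` -/
theorem sigma_conc (p : ℝ) (hp : 0 < p) (hp1 : p ≤ 1)
    (hM1l : ∀ k : ℕ, (1 + p) ^ k - p * (1 + p) ^ (2 * k) ≤
      Ex p (K (k + 1)) (fun E => ((Dn E k).card : ℝ)))
    (hM2 : ∀ k : ℕ, Ex p (K (k + 1)) (fun E => ((Dn E k).card : ℝ) ^ 2) ≤ 2 * (1 + 2 * p) ^ k)
    (k : ℕ) :
    Ex p (K k) (fun E => (1 + p * ∑ j ∈ range k, ((Dn E j).card : ℝ) - (1 + p) ^ k) ^ 2) ≤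
      (1 + p) ^ (2 * k) * (p ^ 2 * k + p * (1 + p) ^ k) := by
  have e1 : Ex p (K k)
      (fun E => (1 + p * ∑ j ∈ range k, ((Dn E j).card : ℝ) - (1 + p) ^ k) ^ 2) =
      Ex p (K k) (fun E => sg p k E ^ 2 - (2 * (1 + p) ^ k) * sg p k E + ((1 + p) ^ k) ^ 2) := by
    refine Ex_congr fun E _ => ?_
    show (sg p k E - (1 + p) ^ k) ^ 2 = _
    ring
  rw [e1, Ex_add, Ex_sub, Ex_mul_left, Ex_const]
  have h1 := bound_sq hp hp1 hM2 k
  have h2 := bound_lin hp hM1l k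
  have h3 : 0 < (1 + p) ^ k := by positivity
  have h4 := mul_le_mul_of_nonneg_left h2 (by positivity : 0 ≤ 2 * (1 + p) ^ k)
  have h5 : (1 + p) ^ (2 * k) = (1 + p) ^ k * (1 + p) ^ k := by
    rw [← pow_add]
    congr 1
    ring
  have h6 : Ex p (K k) (sg p k) = Ex p (K k) (fun E => sg p k E) := rfl
  rw [h6] at h4
  rw [h5] at h1 h4 ⊢
  nlinarith


end DW
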