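import Pool.Agent.Helper553.DimWidth.UpMoment
import Pool.Agent.Helper553.DimWidth.Reversal
import Pool.Agent.Helper553.DimWidth.Sigma
import Pool.Agent.Helper553.DimWidth.STwo
import Pool.Agent.Helper553.DimWidth.Nice
import Pool.Agent.Helper553.DimWidth.GoodRow

set_option autoImplicit false
set_option linter.unusedSectionVars false
open scoped Classical
open Finset

namespace DW

theorem nf_Up2 (p : ℝ) (hp : 0 ≤ p) (hp1 : p ≤ 1) (m z : ℕ) (hz : z < m) :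
    Ex p (K m) (fun E => ((Up E m z).card : ℝ) ^ 2) ≤ 2 * (1 + 2 * p) ^ (m - 1 - z) := by
  have h := Up_moment p hp hp1 2 m z hz
  have h2 : ((Nat.factorial 2 : ℕ) : ℝ) = 2 := by norm_num [Nat.factorial]
  rw [h2] at h
  refine le_trans (Ex_mono hp hp1 ?_) (le_trans h (le_of_eq (by norm_num)))
  intro E _
  rw [Finset.prod_range_succ, Finset.prod_range_succ, Finset.prod_range_zero]
  push_cast
  have : (0 : ℝ) ≤ ((Up E m z).card : ℝ) := by positivity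
  nlinarith

theorem nf_Up4 (p : ℝ) (hp : 0 ≤ p) (hp1 : p ≤ 1) (m z : ℕ) (hz : z < m) :
    Ex p (K m) (fun E => ((Up E m z).card : ℝ) ^ 4) ≤ 24 * (1 + 4 * p) ^ (m - 1 - z) := by
  have h := Up_moment p hp hp1 4 m z hz
  have h2 : ((Nat.factorial 4 : ℕ) : ℝ) = 24 := by norm_num [Nat.factorial]
  rw [h2] at h
  refine le_trans (Ex_mono hp hp1 ?_) (le_trans h (le_of_eq (by norm_num)))
  intro E _
  rw [Finset.prod_range_succ, Finset.prod_range_succ, Finset.prod_range_succ,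
    Finset.prod_range_succ, Finset.prod_range_zero]
  push_cast
  have h0 : (0 : ℝ) ≤ ((Up E m z).card : ℝ) := by positivity
  generalize ((Up E m z).card : ℝ) = u at h0
  have e : u ^ 4 ≤ 1 * (u + 0) * (u + 1) * (u + 2) * (u + 3) := by
    have : 1 * (u + 0) * (u + 1) * (u + 2) * (u + 3) - u ^ 4 = 6 * u ^ 3 + 11 * u ^ 2 + 6 * u := by
      ring
    have h3 : 0 ≤ 6 * u ^ 3 + 11 * u ^ 2 + 6 * u := by positivity
    linarith
  exact e

theorem nf_M1l (p : ℝ) (hp : 0 < p) (hp1 : p ≤ 1) (k : ℕ) :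
    (1 + p) ^ k - p * (1 + p) ^ (2 * k) ≤
      Ex p (K (k + 1)) (fun E => ((Dn E k).card : ℝ)) := by
  rw [Dn_law p k (fun t => (t : ℝ))]
  exact Up_mean_lower p hp hp1 k

theorem nf_M2 (p : ℝ) (hp : 0 ≤ p) (hp1 : p ≤ 1) (k : ℕ) :
    Ex p (K (k + 1)) (fun E => ((Dn E k).card : ℝ) ^ 2) ≤ 2 * (1 + 2 * p) ^ k := by
  rw [Dn_law p k (fun t => (t : ℝ) ^ 2)]
  have := nf_Up2 p hp hp1 (k + 1) 0 (Nat.succ_pos k)
  simpa using this

theorem nf_M4 (p : ℝ) (hp : 0 ≤ p) (hp1 : p ≤ 1) (k : ℕ) :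
    Ex p (K (k + 1)) (fun E => ((Dn E k).card : ℝ) ^ 4) ≤ 24 * (1 + 4 * p) ^ k := by
  rw [Dn_law p k (fun t => (t : ℝ) ^ 4)]
  have := nf_Up4 p hp hp1 (k + 1) 0 (Nat.succ_pos k)
  simpa using this

theorem nf_sigma (p : ℝ) (hp : 0 < p) (hp1 : p ≤ 1) (k : ℕ) :
    Ex p (K k) (fun E => (1 + p * ∑ j ∈ range k, ((Dn E j).card : ℝ) - (1 + p) ^ k) ^ 2) ≤
      (1 + p) ^ (2 * k) * (p ^ 2 * k + p * (1 + p) ^ k) :=
  sigma_conc p hp hp1 (nf_M1l p hp hp1) (nf_M2 p hp.le hp1) k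

theorem nice_prob' (p κ : ℝ) (hp : 0 < p) (hp1 : p ≤ 1 / 10) (hκ : 0 < κ)
    (m : ℕ) (hm : 4 / p ≤ m) :
    Pr p (K m) (fun E => ¬ Nice p ((1 + p) ^ m) κ m E) ≤
      202 * (p ^ 2 * m + p * (1 + p) ^ m) + 12 * p + p * (1 + p) ^ (2 * m) / κ := by
  have hp1' : p ≤ 1 := by linarith
  refine nice_prob p κ hp hp1 hκ (nf_sigma p hp hp1')
    (S2_tail p hp hp1' (nf_sigma p hp hp1') (nf_M4 p hp.le hp1')) (nf_Up2 p hp.le hp1')
    ?_ ?_ m hm
  · intro m k hk f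
    exact Ex_marginal p (K_mono hk) f
  · intro m k E hE y hy
    exact Dn_inter_K hE hy

theorem cov_eq_Up (E : Finset (ℕ × ℕ)) (m : ℕ) (hE : E ⊆ K m) (z : ℕ) :
    cov (Dn E) m z = (Up E m z).card := by
  unfold cov
  congr 1
  ext y
  rw [Finset.mem_filter, Finset.mem_range]
  constructor
  · rintro ⟨hy, h⟩
    exact (mem_Up_iff hE hy).2 h
  · intro h
    have hy : y < m := by
      unfold Up at h
      exact Finset.mem_range.1 (Finset.mem_filter.1 h).1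
    exact ⟨hy, (mem_Up_iff hE hy).1 h⟩

theorem good_of_nice (p μ κ κ2 : ℝ) (m K0 : ℕ) (hp : 0 < p) (hμ : 0 < μ) (hκ : 0 < κ)
    (hκ2 : 0 < κ2) (hK0 : 1 ≤ K0) (hpK : p * (40 * K0) ≤ 1)
    (E : Finset (ℕ × ℕ)) (hE : E ⊆ K m) (hN : Nice p μ κ m E) :
    (3 / 10) * ((1 / 40 : ℝ) ^ K0 / (Nat.factorial K0 : ℝ)) - 48 * κ / (K0 * μ) - κ / κ2 ≤
      Pr p (range m) (GoodRow (Dn E) m K0 p μ κ2) := by
  obtain ⟨⟨G, hG, hGc, hGG⟩, hS1, hcov⟩ := hN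
  refine good_row_prob (Dn E) m K0 p μ κ κ2 hp hμ hκ hκ2 hK0 hpK ?_ G hG hGc
    (fun y hy => (hGG y hy).1) (fun y hy => (hGG y hy).2) hS1 ?_
  · intro y hy
    refine (Dn_subset).trans ?_
    intro x hx
    rw [Finset.mem_range] at hx ⊢
    omega
  · simpa only [cov_eq_Up E m hE] using hcov

end DW
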