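import Pool.Agent.Helper553.DimWidth.Graph

set_option autoImplicit false
set_option linter.unusedSectionVars false
open scoped Classical
open Finset

namespace DW


/-- bit -/
def bt (k i : ℕ) : ℕ := (i / 2 ^ k) % 2

theorem bt_lt (k i : ℕ) : bt k i < 2 := Nat.mod_lt _ (by norm_num)

theorem exists_bt_ne {l i j : ℕ} (hi : i < 2 ^ l) (hj : j < 2 ^ l) (hij : i ≠ j) :
    ∃ k < l, bt k i ≠ bt k j := by
  by_contra! hcon
  apply hij
  apply Nat.eq_of_testBit_eq
  intro k
  by_cases hk : k < l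
  · have := hcon k hk
    unfold bt at this
    rw [Nat.testBit_eq_decide_div_mod_eq, Nat.testBit_eq_decide_div_mod_eq, this]
  · rw [not_lt] at hk
    have h2 : 2 ^ l ≤ 2 ^ k := Nat.pow_le_pow_right (by norm_num) hk
    rw [Nat.testBit_lt_two_pow (hi.trans_le h2), Nat.testBit_lt_two_pow (hj.trans_le h2)]

/-- the pattern -/
def pat (d l : ℕ) : Finset (ℕ × ℕ) :=
  ((range d ×ˢ range l).image (fun q => (q.1, d + 2 * q.2 + bt q.2 q.1))) ∪
    ((range d ×ˢ range l).image (fun q => (d + 2 * q.2 + (1 - bt q.2 q.1), d + 2 * l + q.1)))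

theorem mem_pat {d l : ℕ} {x y : ℕ} : (x, y) ∈ pat d l ↔
    (∃ k < l, x < d ∧ y = d + 2 * k + bt k x) ∨
    (∃ k < l, ∃ j < d, x = d + 2 * k + (1 - bt k j) ∧ y = d + 2 * l + j) := by
  unfold pat
  rw [Finset.mem_union, Finset.mem_image, Finset.mem_image]
  simp only [Finset.mem_product, Finset.mem_range, Prod.exists, Prod.mk.injEq]
  constructor
  · rintro (⟨i, k, ⟨hi, hk⟩, h1, h2⟩ | ⟨j, k, ⟨hj, hk⟩, h1, h2⟩)
    · left
      subst h1
      exact ⟨k, hk, hi, h2.symm⟩
    · right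
      exact ⟨k, hk, j, hj, h1.symm, h2.symm⟩
  · rintro (⟨k, hk, hx, hy⟩ | ⟨k, hk, j, hj, hx, hy⟩)
    · left
      exact ⟨x, k, ⟨hx, hk⟩, rfl, hy.symm⟩
    · right
      exact ⟨j, k, ⟨hj, hk⟩, hx.symm, hy.symm⟩

theorem pat_TG {d l : ℕ} {x y : ℕ} (h : TG (pat d l) x y) (hx : x < d) (hy : d + 2 * l ≤ y) :
    ∃ k < l, bt k x ≠ bt k (y - (d + 2 * l)) := by
  unfold TG at h
  rcases Relation.TransGen.head'_iff.1 h with ⟨z, hz, hzy⟩
  rcases mem_pat.1 hz with ⟨k, hk, _, hzk⟩ | ⟨k, hk, j, hj, hxk, _⟩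
  swap
  · omega
  have hbz := bt_lt k x
  rcases Relation.ReflTransGen.cases_head hzy with h0 | ⟨w, hw, hwy⟩
  · omega
  rcases mem_pat.1 hw with ⟨k', hk', hz', _⟩ | ⟨k', hk', j, hj, hz', hwj⟩
  · omega
  have hbj := bt_lt k' j
  rcases Relation.ReflTransGen.cases_head hwy with h0 | ⟨v, hv, _⟩
  · have hkk : k = k' := by omega
    subst hkk
    refine ⟨k, hk, ?_⟩
    have : y - (d + 2 * l) = j := by omega
    rw [this]
    omega
  · exfalso
    rcases mem_pat.1 hv with ⟨k'', hk'', hz'', _⟩ | ⟨k'', hk'', j'', hj'', hz'', _⟩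
    · omega
    · omega

theorem pat_TG' {d l : ℕ} {i j : ℕ} (hi : i < d) (hj : j < d)
    (h : ∃ k < l, bt k i ≠ bt k j) : TG (pat d l) i (d + 2 * l + j) := by
  obtain ⟨k, hk, hne⟩ := h
  have h1 := bt_lt k i
  have h2 := bt_lt k j
  unfold TG
  refine Relation.TransGen.tail (Relation.TransGen.single (b := d + 2 * k + bt k i) ?_) ?_
  · exact mem_pat.2 (Or.inl ⟨k, hk, hi, rfl⟩)
  · exact mem_pat.2 (Or.inr ⟨k, hk, j, hj, by omega, rfl⟩)

theorem pat_dim {d l : ℕ} (hd : d ≤ 2 ^ l) : DimGe (pat d l) (range (2 * d + 2 * l)) d := by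
  intro d' L _ hL
  have hL' : ∀ i j, i < d → j < d → (TG (pat d l) i (d + 2 * l + j) ↔
      ∀ k, L k i < L k (d + 2 * l + j)) := by
    intro i j hi hj
    exact hL i (by rw [Finset.mem_range]; omega) (d + 2 * l + j) (by rw [Finset.mem_range]; omega)
      (by omega)
  have hex : ∀ i : Fin d, ∃ k, L k (d + 2 * l + i) ≤ L k i := by
    intro i
    by_contra! hcon
    have h1 := (hL' i i i.2 i.2).2 hcon
    obtain ⟨k, hk, hne⟩ := pat_TG h1 i.2 (by omega)
    apply hne
    congr 1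
    omega
  choose κ hκ using hex
  have hinj : Function.Injective κ := by
    intro i j hij
    by_contra hne
    have hne' : (i : ℕ) ≠ j := fun h => hne (Fin.ext h)
    have h1 := (hL' i j i.2 j.2).1 (pat_TG' i.2 j.2
      (exists_bt_ne (i.2.trans_le hd) (j.2.trans_le hd) hne')) (κ i)
    have h2 := (hL' j i j.2 i.2).1 (pat_TG' j.2 i.2
      (exists_bt_ne (j.2.trans_le hd) (i.2.trans_le hd) hne'.symm)) (κ i)
    have h3 := hκ i
    have h4 := hκ j
    rw [← hij] at h4
    omega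
  have := Fintype.card_le_of_injective κ hinj
  simp only [Fintype.card_fin] at this
  exact_mod_cast this

theorem pat_sub (d l : ℕ) : pat d l ⊆ K (2 * d + 2 * l) := by
  rintro ⟨x, y⟩ h
  rw [mem_K]
  rcases mem_pat.1 h with ⟨k, hk, hx, hy⟩ | ⟨k, hk, j, hj, hx, hy⟩
  · have := bt_lt k x
    simp only []
    omega
  · have := bt_lt k j
    simp only []
    omega

theorem pat_card (d l : ℕ) : (pat d l).card ≤ 2 * d * l := by
  unfold pat
  refine (Finset.card_union_le _ _).trans ?_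
  have h1 := Finset.card_image_le (s := range d ×ˢ range l)
    (f := fun q : ℕ × ℕ => (q.1, d + 2 * q.2 + bt q.2 q.1))
  have h2 := Finset.card_image_le (s := range d ×ˢ range l)
    (f := fun q : ℕ × ℕ => (d + 2 * q.2 + (1 - bt q.2 q.1), d + 2 * l + q.1))
  rw [Finset.card_product, Finset.card_range, Finset.card_range] at h1 h2
  calc _ ≤ d * l + d * l := add_le_add h1 h2
    _ = 2 * d * l := by ring

/-- one explicit hub pattern on `2d+2l` points has dimension at least `d` -/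
theorem pattern_prob (p : ℝ) (hp : 0 < p) (hp1 : p < 1) (d l : ℕ) (hd : d ≤ 2 ^ l) :
    p ^ (2 * d * l) * (1 - p) ^ ((2 * d + 2 * l) ^ 2) ≤
      Pr p (K (2 * d + 2 * l)) (fun E => DimGe E (range (2 * d + 2 * l)) d) := by
  have h1 : Pr p (K (2 * d + 2 * l)) (fun E => E = pat d l) ≤
      Pr p (K (2 * d + 2 * l)) (fun E => DimGe E (range (2 * d + 2 * l)) d) := by
    apply Pr_mono hp.le hp1.le
    intro E _ hE
    rw [hE]
    exact pat_dim hd
  refine le_trans ?_ h1
  rw [Pr_eq_single (pat_sub d l)]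
  have h0 : 0 ≤ 1 - p := by linarith
  have hK : (K (2 * d + 2 * l)).card ≤ (2 * d + 2 * l) ^ 2 := by
    unfold K
    refine (Finset.card_filter_le _ _).trans ?_
    rw [Finset.card_product, Finset.card_range, sq]
  apply mul_le_mul
  · exact pow_le_pow_of_le_one hp.le hp1.le (pat_card d l)
  · apply pow_le_pow_of_le_one h0 (by linarith)
    exact (Nat.sub_le _ _).trans hK
  · positivity
  · positivity


end DW
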