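import Pool.Agent.Helper553.DimWidth.Pattern
import Pool.Agent.Helper553.DimWidth.Repeat
import Pool.Agent.Helper553.DimWidth.DimAnti

set_option autoImplicit false
set_option linter.unusedSectionVars false
open scoped Classical
open Finset

namespace DW

theorem DimGe_small {n : ℕ} (hn : 2 ≤ n) {E : Finset (ℕ × ℕ)} (hE : E ⊆ K n) {D : ℝ} (hD : D ≤ 1) :
    DimGe E (range n) D := by
  intro d L _ h2
  rcases Nat.eq_zero_or_pos d with h0 | h0
  · subst h0
    exfalso
    have a1 : TG E 0 1 := (h2 0 (Finset.mem_range.2 (by omega)) 1 (Finset.mem_range.2 (by omega))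
      (by norm_num)).2 (fun k => k.elim0)
    have a2 : TG E 1 0 := (h2 1 (Finset.mem_range.2 (by omega)) 0 (Finset.mem_range.2 (by omega))
      (by norm_num)).2 (fun k => k.elim0)
    have := TG_lt (fun e he => (mem_K.1 (hE he)).1) a2
    omega
  · have : (1 : ℝ) ≤ d := by exact_mod_cast h0
    linarith

set_option maxHeartbeats 1000000 in
theorem regime_core (x T p : ℝ) (n : ℕ) (hn2 : 2 ≤ n) (hxn : x = Real.log n) (hx1 : 1 ≤ x)
    (hF : (1 + 2 * Real.log x) * Real.log x ≤ x ^ ((1 : ℝ) / 102)) (hT : T ≤ 36 / 100 * x - 1)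
    (hp1 : p < 1) (hp : x ^ (-(50 / 51) : ℝ) ≤ p) :
    Pr p (K n) (fun E => ¬ DimGe E (range n)
      (1 / 100 * (1 + Real.sqrt (x / (-Real.log (1 - p)))))) ≤ max 0 (Real.exp (-T)) := by
  have hx0 : 0 < x := by linarith
  have hp0 : 0 < p := lt_of_lt_of_le (Real.rpow_pos_of_pos hx0 _) hp
  set lam := -Real.log (1 - p) with hlam
  have hlamp : p ≤ lam := by
    have := Real.log_le_sub_one_of_pos (show 0 < 1 - p by linarith)
    rw [hlam]; linarith
  have hlam0 : 0 < lam := by linarith
  set s := Real.sqrt (x / lam) with hs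
  have hs0 : 0 ≤ s := Real.sqrt_nonneg _
  rcases le_or_gt s 20 with hsc | hsc
  · -- small dimension
    refine le_trans (le_of_eq ?_) (le_max_left _ _)
    have h1 : Pr p (K n) (fun E => ¬ DimGe E (range n) (1 / 100 * (1 + s))) =
        Pr p (K n) (fun _ => False) := by
      apply Pr_congr
      intro E hE
      simp only [iff_false, not_not]
      exact DimGe_small hn2 hE (by linarith)
    rw [h1]
    unfold Pr
    simp only [if_false]
    exact Ex_const _ 0
  · refine le_trans ?_ (le_max_right _ _)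
    set d := ⌊s / 20⌋₊ with hd
    have hd1 : 1 ≤ d := Nat.le_floor (by push_cast; linarith)
    have hdle : (d : ℝ) ≤ s / 20 := Nat.floor_le (by positivity)
    have hdlt : s / 20 < d + 1 := Nat.lt_floor_add_one _
    have hd1r : (1 : ℝ) ≤ d := by exact_mod_cast hd1
    set l := Nat.clog 2 d with hl
    have hdl : d ≤ 2 ^ l := Nat.le_pow_clog (by norm_num) d
    have hld : l ≤ d := Nat.clog_le_of_le_pow (Nat.lt_two_pow_self).le
    have hldr : (l : ℝ) ≤ d := by exact_mod_cast hld
    have hl0 : (0 : ℝ) ≤ l := Nat.cast_nonneg l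
    set ell := 2 * d + 2 * l with hell
    set X := x ^ ((101 : ℝ) / 102) with hX
    have hX0 : 0 < X := Real.rpow_pos_of_pos hx0 _
    have hXx : X ≤ x := by
      calc X ≤ x ^ (1 : ℝ) := Real.rpow_le_rpow_of_exponent_le hx1 (by norm_num)
        _ = x := Real.rpow_one x
    have hpinv : 1 / p ≤ x ^ ((50 : ℝ) / 51) := by
      rw [div_le_iff₀ hp0]
      have h1 : x ^ ((50 : ℝ) / 51) * x ^ (-(50 / 51) : ℝ) = 1 := by
        rw [← Real.rpow_add hx0]; norm_num
      calc (1 : ℝ) = x ^ ((50 : ℝ) / 51) * x ^ (-(50 / 51) : ℝ) := h1.symm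
        _ ≤ x ^ ((50 : ℝ) / 51) * p :=
          mul_le_mul_of_nonneg_left hp (Real.rpow_nonneg hx0.le _)
    have hX2 : X ^ 2 = x * x ^ ((50 : ℝ) / 51) := by
      rw [hX, ← Real.rpow_natCast, ← Real.rpow_mul hx0.le]
      nth_rewrite 2 [← Real.rpow_one x]
      rw [← Real.rpow_add hx0]
      norm_num
    have hsX : s ≤ X := by
      rw [hs]
      apply Real.sqrt_le_iff.mpr
      refine ⟨hX0.le, ?_⟩
      rw [hX2]
      calc x / lam ≤ x / p := div_le_div_of_nonneg_left hx0.le hp0 hlamp
        _ = x * (1 / p) := by ring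
        _ ≤ x * x ^ ((50 : ℝ) / 51) := mul_le_mul_of_nonneg_left hpinv hx0.le
    have hdX : (d : ℝ) ≤ X / 20 := by linarith
    have hdx : (d : ℝ) ≤ x := by linarith
    have hlogx : 0 ≤ Real.log x := Real.log_nonneg hx1
    have hlb : (l : ℝ) ≤ 1 + 2 * Real.log x := by
      rcases Nat.lt_or_ge 1 d with h1 | h1
      · have h2 : 2 ^ (Nat.clog 2 d).pred < d := Nat.pow_pred_clog_lt_self (by norm_num) h1
        have h3 : ((2 : ℝ)) ^ (l - 1) < d := by
          have : ((2 ^ (l - 1) : ℕ) : ℝ) < d := by exact_mod_cast h2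
          push_cast at this
          exact this
        have h4 : ((l - 1 : ℕ) : ℝ) * Real.log 2 < Real.log d := by
          rw [← Real.log_pow]
          exact Real.log_lt_log (by positivity) h3
        have h5 : Real.log d ≤ Real.log x := Real.log_le_log (by linarith) hdx
        have h6 : (1 / 2 : ℝ) ≤ Real.log 2 := by
          have := Real.log_two_gt_d9; linarith
        have h7 : (0 : ℝ) ≤ ((l - 1 : ℕ) : ℝ) := Nat.cast_nonneg _
        have h8 : ((l - 1 : ℕ) : ℝ) * (1 / 2) ≤ ((l - 1 : ℕ) : ℝ) * Real.log 2 :=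
          mul_le_mul_of_nonneg_left h6 h7
        have h9 : (l : ℝ) ≤ ((l - 1 : ℕ) : ℝ) + 1 := by
          have : l ≤ (l - 1) + 1 := by omega
          exact_mod_cast this
        linarith
      · have h2 : d = 1 := le_antisymm h1 hd1
        have h3 : l = 0 := by rw [hl, h2]; simp
        rw [h3]
        push_cast
        linarith
    have hlogp0 : 0 ≤ -Real.log p := by
      have := Real.log_nonpos hp0.le hp1.le
      linarith
    have hlogp : -Real.log p ≤ Real.log x := by
      have h1 : Real.log (x ^ (-(50 / 51) : ℝ)) ≤ Real.log p :=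
        Real.log_le_log (Real.rpow_pos_of_pos hx0 _) hp
      rw [Real.log_rpow hx0] at h1
      linarith
    -- the first part of the exponent
    have hA : (2 * d * l : ℝ) * (-Real.log p) ≤ x / 10 := by
      have h1 : (d : ℝ) * l * (-Real.log p) ≤ (X / 20) * (1 + 2 * Real.log x) * Real.log x := by
        apply mul_le_mul _ hlogp hlogp0 (by positivity)
        exact mul_le_mul hdX hlb hl0 (by positivity)
      have h2 : (X / 20) * (1 + 2 * Real.log x) * Real.log x ≤ (X / 20) * x ^ ((1 : ℝ) / 102) := by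
        rw [mul_assoc]
        exact mul_le_mul_of_nonneg_left hF (by positivity)
      have h3 : X * x ^ ((1 : ℝ) / 102) = x := by
        rw [hX, ← Real.rpow_add hx0]
        norm_num
      have h4 : (X / 20) * x ^ ((1 : ℝ) / 102) = x / 20 := by
        rw [div_mul_eq_mul_div, h3]
      linarith
    have hs2 : s ^ 2 * lam = x := by
      rw [hs, Real.sq_sqrt (by positivity)]
      field_simp
    have hB : ((ell : ℝ) ^ 2) * lam ≤ 4 / 100 * x := by
      have h1 : (ell : ℝ) ≤ 4 * (s / 20) := by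
        rw [hell]; push_cast; linarith
      have h2 : (0 : ℝ) ≤ ell := Nat.cast_nonneg _
      have h3 : (ell : ℝ) ^ 2 ≤ (4 * (s / 20)) ^ 2 := pow_le_pow_left₀ h2 h1 2
      calc ((ell : ℝ) ^ 2) * lam ≤ (4 * (s / 20)) ^ 2 * lam :=
            mul_le_mul_of_nonneg_right h3 hlam0.le
        _ = 4 / 100 * (s ^ 2 * lam) := by ring
        _ = 4 / 100 * x := by rw [hs2]
    set pi0 := p ^ (2 * d * l) * (1 - p) ^ ((2 * d + 2 * l) ^ 2) with hpi0
    have hpi0e : Real.exp (-(14 / 100 * x)) ≤ pi0 := by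
      have e1 : p ^ (2 * d * l) = Real.exp (((2 * d * l : ℕ) : ℝ) * Real.log p) := by
        rw [Real.exp_nat_mul, Real.exp_log hp0]
      have e2 : (1 - p) ^ ((2 * d + 2 * l) ^ 2) =
          Real.exp ((((2 * d + 2 * l) ^ 2 : ℕ) : ℝ) * Real.log (1 - p)) := by
        rw [Real.exp_nat_mul, Real.exp_log (by linarith)]
      rw [hpi0, e1, e2, ← Real.exp_add]
      apply Real.exp_le_exp.mpr
      have h1 : (((2 * d + 2 * l) ^ 2 : ℕ) : ℝ) = (ell : ℝ) ^ 2 := by
        rw [hell]; push_cast; ring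
      rw [h1]
      push_cast
      have h2 : Real.log (1 - p) = -lam := by rw [hlam]; ring
      rw [h2]
      nlinarith
    set P := Pr p (K (2 * d + 2 * l)) (fun E => DimGe E (range (2 * d + 2 * l)) d) with hP
    have hPge : pi0 ≤ P := pattern_prob p hp0 hp1 d l hdl
    have hP1 : P ≤ 1 := Pr_le_one hp0.le hp1.le _ _
    set M := n / (2 * d + 2 * l) with hM
    have hMl : M * (2 * d + 2 * l) ≤ n := Nat.div_mul_le_self _ _
    have hrep := repeat_bound p hp0.le hp1.le (2 * d + 2 * l) M n hMl (d : ℝ)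
    have hmono : Pr p (K n) (fun E => ¬ DimGe E (range n) (1 / 100 * (1 + s))) ≤
        Pr p (K n) (fun E => ¬ DimGe E (range n) (d : ℝ)) := by
      apply Pr_mono hp0.le hp1.le
      intro E _ h1 h2
      exact h1 (DimGe_anti (by linarith) h2)
    have hnx : (n : ℝ) = Real.exp x := by
      rw [hxn, Real.exp_log]
      have : 0 < n := by omega
      exact_mod_cast this
    have hellpos : 0 < 2 * d + 2 * l := by omega
    have hMr : Real.exp x / x - 1 ≤ M := by
      have h1 : n < (2 * d + 2 * l) * (M + 1) := by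
        have h0 := Nat.div_add_mod n (2 * d + 2 * l)
        have h2 := Nat.mod_lt n hellpos
        rw [← hM] at h0
        rw [mul_add, mul_one]
        omega
      have h2 : (n : ℝ) < (ell : ℝ) * (M + 1) := by
        rw [hell]; exact_mod_cast h1
      have h3 : (ell : ℝ) ≤ x := by
        rw [hell]; push_cast; linarith
      have h4 : (0 : ℝ) ≤ M := Nat.cast_nonneg _
      have h5 : (ell : ℝ) * (M + 1) ≤ x * (M + 1) := mul_le_mul_of_nonneg_right h3 (by linarith)
      rw [hnx] at h2
      have h6 : Real.exp x / x ≤ M + 1 := by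
        rw [div_le_iff₀ hx0]
        linarith
      linarith
    have hTM : T ≤ pi0 * M := by
      have hM0 : (0 : ℝ) ≤ M := Nat.cast_nonneg _
      have h1 : Real.exp (-(14 / 100 * x)) * (Real.exp x / x - 1) ≤ pi0 * M := by
        calc Real.exp (-(14 / 100 * x)) * (Real.exp x / x - 1)
            ≤ Real.exp (-(14 / 100 * x)) * M :=
              mul_le_mul_of_nonneg_left hMr (Real.exp_pos _).le
          _ ≤ pi0 * M := mul_le_mul_of_nonneg_right hpi0e hM0
      have h2 : Real.exp (-(14 / 100 * x)) * (Real.exp x / x - 1) =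
          Real.exp (86 / 100 * x) / x - Real.exp (-(14 / 100 * x)) := by
        have : Real.exp (86 / 100 * x) = Real.exp (-(14 / 100 * x)) * Real.exp x := by
          rw [← Real.exp_add]; congr 1; ring
        rw [this]; ring
      have h3 : Real.exp (-(14 / 100 * x)) ≤ 1 := Real.exp_le_one_iff.mpr (by linarith)
      have h4 : 36 / 100 * x ≤ Real.exp (86 / 100 * x) / x := by
        rw [le_div_iff₀ hx0]
        have hq := Real.quadratic_le_exp_of_nonneg (show 0 ≤ 86 / 100 * x by positivity)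
        have hxx : 0 ≤ x * x := by positivity
        have e : (86 / 100 * x) ^ 2 / 2 = (3698 / 10000) * (x * x) := by ring
        rw [e] at hq
        linarith
      linarith
    calc Pr p (K n) (fun E => ¬ DimGe E (range n) (1 / 100 * (1 + s)))
        ≤ Pr p (K n) (fun E => ¬ DimGe E (range n) (d : ℝ)) := hmono
      _ ≤ (1 - P) ^ M := hrep
      _ ≤ (Real.exp (-pi0)) ^ M := by
          apply pow_le_pow_left₀ (by linarith)
          have := Real.add_one_le_exp (-pi0)
          linarith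
      _ = Real.exp (-(pi0 * M)) := by
          rw [← Real.exp_nat_mul]; congr 1; ring
      _ ≤ Real.exp (-T) := Real.exp_le_exp.mpr (by linarith)

theorem pattern_regime : ∃ ε : ℝ, 0 < ε ∧ ∀ δ : ℝ, 0 < δ → ∃ n0 : ℕ, ∀ n : ℕ, n0 ≤ n →
    ∀ p : ℝ, p < 1 → (Real.log n) ^ (-(50 / 51) : ℝ) ≤ p →
    Pr p (K n) (fun E => ¬ DimGe E (range n)
      (ε * (1 + Real.sqrt (Real.log n / (-Real.log (1 - p)))))) ≤ δ := by
  refine ⟨1 / 100, by norm_num, fun δ hδ => ?_⟩
  have hpow : Filter.Tendsto (fun x : ℝ => x ^ ((1 : ℝ) / 204)) Filter.atTop Filter.atTop :=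
    tendsto_rpow_atTop (by norm_num)
  have hlo : ∀ᶠ x : ℝ in Filter.atTop, Real.log x ≤ (1 / 4) * x ^ ((1 : ℝ) / 204) := by
    have h1 := (isLittleO_log_rpow_atTop (show (0 : ℝ) < 1 / 204 by norm_num)).bound
      (show (0 : ℝ) < 1 / 4 by norm_num)
    filter_upwards [h1, Filter.eventually_ge_atTop (1 : ℝ)] with x hx hx1
    have h2 : 0 ≤ Real.log x := Real.log_nonneg hx1
    have h3 : 0 ≤ x ^ ((1 : ℝ) / 204) := Real.rpow_nonneg (by linarith) _
    rwa [Real.norm_of_nonneg h2, Real.norm_of_nonneg h3] at hx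
  have hev : ∀ᶠ x : ℝ in Filter.atTop, 1 ≤ x ∧
      (1 + 2 * Real.log x) * Real.log x ≤ x ^ ((1 : ℝ) / 102) ∧
      -Real.log δ ≤ 36 / 100 * x - 1 := by
    filter_upwards [hlo, Filter.eventually_ge_atTop (1 : ℝ), hpow.eventually_ge_atTop 2,
      Filter.eventually_ge_atTop ((-Real.log δ + 1) * 100 / 36)] with x hx hx1 hx2 hx3
    refine ⟨hx1, ?_, by linarith⟩
    have h2 : 0 ≤ Real.log x := Real.log_nonneg hx1
    have h4 : x ^ ((1 : ℝ) / 102) = x ^ ((1 : ℝ) / 204) * x ^ ((1 : ℝ) / 204) := by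
      rw [← Real.rpow_add (by linarith)]; norm_num
    rw [h4]
    apply mul_le_mul (by linarith) (by linarith) h2 (by linarith)
  have hev2 := (Real.tendsto_log_atTop.comp tendsto_natCast_atTop_atTop).eventually hev
  obtain ⟨n0, hn0⟩ := Filter.eventually_atTop.mp hev2
  refine ⟨max n0 2, fun n hn p hp1 hp => ?_⟩
  obtain ⟨a1, a2, a3⟩ := hn0 n (le_trans (le_max_left _ _) hn)
  have h := regime_core (Real.log n) (-Real.log δ) p n (le_trans (le_max_right _ _) hn) rfl a1 a2 a3
    hp1 hp
  rw [neg_neg, Real.exp_log hδ, max_eq_right hδ.le] at h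
  exact h



end DW
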