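import Pool.Agent.Helper553.DimWidth.Graph

set_option autoImplicit false
set_option linter.unusedSectionVars false
open scoped Classical
open Finset

namespace DW


/-- reversal of labels on `[0,h)` -/
def revE (h : ℕ) (E : Finset (ℕ × ℕ)) : Finset (ℕ × ℕ) :=
  E.image (fun e => (h - 1 - e.2, h - 1 - e.1))

theorem mem_revE {h : ℕ} {E : Finset (ℕ × ℕ)} {e : ℕ × ℕ} :
    e ∈ revE h E ↔ ∃ x y, (x, y) ∈ E ∧ e.1 = h - 1 - y ∧ e.2 = h - 1 - x := by
  unfold revE
  rw [Finset.mem_image]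
  constructor
  · rintro ⟨⟨x, y⟩, hxy, rfl⟩
    exact ⟨x, y, hxy, rfl, rfl⟩
  · rintro ⟨x, y, hxy, e1, e2⟩
    exact ⟨(x, y), hxy, Prod.ext e1.symm e2.symm⟩

theorem revE_subset {h : ℕ} {E : Finset (ℕ × ℕ)} (hE : E ⊆ K h) : revE h E ⊆ K h := by
  intro e he
  obtain ⟨x, y, hxy, e1, e2⟩ := mem_revE.1 he
  have := mem_K.1 (hE hxy)
  rw [mem_K]
  simp only at this
  omega

theorem revE_revE {h : ℕ} {E : Finset (ℕ × ℕ)} (hE : E ⊆ K h) : revE h (revE h E) = E := by
  ext ⟨u, v⟩
  rw [mem_revE]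
  constructor
  · rintro ⟨x, y, hxy, e1, e2⟩
    obtain ⟨x', y', hxy', e1', e2'⟩ := mem_revE.1 hxy
    have := mem_K.1 (hE hxy')
    simp only at *
    have h1 : u = x' := by omega
    have h2 : v = y' := by omega
    rw [h1, h2]; exact hxy'
  · intro huv
    have := mem_K.1 (hE huv)
    simp only at this
    refine ⟨h - 1 - v, h - 1 - u, mem_revE.2 ⟨u, v, huv, rfl, rfl⟩, ?_, ?_⟩
    · simp only; omega
    · simp only; omega

theorem Ex_revE (p : ℝ) (h : ℕ) (f : Finset (ℕ × ℕ) → ℝ) :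
    Ex p (K h) (fun E => f (revE h E)) = Ex p (K h) f := by
  have himg : (K h).image (fun e => (h - 1 - e.2, h - 1 - e.1)) = K h := by
    apply Finset.Subset.antisymm
    · exact revE_subset (Finset.Subset.refl _)
    · intro e he
      have h1 := mem_K.1 he
      rw [Finset.mem_image]
      refine ⟨(h - 1 - e.2, h - 1 - e.1), ?_, ?_⟩
      · rw [mem_K]; simp only; omega
      · apply Prod.ext
        · simp only; omega
        · simp only; omega
  have hinj : Set.InjOn (fun e : ℕ × ℕ => (h - 1 - e.2, h - 1 - e.1)) (K h) := by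
    intro a ha b hb hab
    have h1 := mem_K.1 (Finset.mem_coe.1 ha)
    have h2 := mem_K.1 (Finset.mem_coe.1 hb)
    have h3 := Prod.mk.inj hab
    apply Prod.ext
    · omega
    · omega
  have h4 := Ex_image (p := p) hinj f
  rw [himg] at h4
  exact h4.symm

theorem TG_revE {h : ℕ} {E : Finset (ℕ × ℕ)} {x y : ℕ} (hxy : TG E x y) :
    TG (revE h E) (h - 1 - y) (h - 1 - x) := by
  induction hxy with
  | single h1 =>
    exact Relation.TransGen.single (mem_revE.2 ⟨_, _, h1, rfl, rfl⟩)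
  | tail _ h2 ih =>
    exact Relation.TransGen.head (mem_revE.2 ⟨_, _, h2, rfl, rfl⟩) ih

theorem Up_revE {h : ℕ} {E : Finset (ℕ × ℕ)} (hE : E ⊆ K h) {b : ℕ} (hb : b < h) :
    Up (revE h E) h (h - 1 - b) = (Dn E b).image (fun j => h - 1 - j) := by
  ext j
  unfold Up Dn
  simp only [Finset.mem_filter, Finset.mem_range, Finset.mem_image]
  constructor
  · rintro ⟨hj, h1 | h1⟩
    · exact ⟨b, ⟨by omega, Or.inl rfl⟩, h1.symm⟩
    · have h2 := TG_revE (h := h) h1
      rw [revE_revE hE, show h - 1 - (h - 1 - b) = b by omega] at h2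
      have h3 := (TG_lt_of_K hE h2).1
      exact ⟨h - 1 - j, ⟨by omega, Or.inr h2⟩, by omega⟩
  · rintro ⟨j', ⟨hj', h1 | h1⟩, rfl⟩
    · exact ⟨by omega, Or.inl (by rw [h1])⟩
    · have h3 := (TG_lt_of_K hE h1).1
      exact ⟨by omega, Or.inr (TG_revE h1)⟩

/-- translation of labels -/
def shE (t : ℕ) (E : Finset (ℕ × ℕ)) : Finset (ℕ × ℕ) := E.image (fun e => (e.1 + t, e.2 + t))

theorem mem_shE {t : ℕ} {E : Finset (ℕ × ℕ)} {e : ℕ × ℕ} :
    e ∈ shE t E ↔ ∃ x y, (x, y) ∈ E ∧ e.1 = x + t ∧ e.2 = y + t := by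
  unfold shE
  rw [Finset.mem_image]
  constructor
  · rintro ⟨⟨x, y⟩, hxy, rfl⟩
    exact ⟨x, y, hxy, rfl, rfl⟩
  · rintro ⟨x, y, hxy, e1, e2⟩
    exact ⟨(x, y), hxy, Prod.ext e1.symm e2.symm⟩

theorem shE_subset {h t : ℕ} {E : Finset (ℕ × ℕ)} (hE : E ⊆ K h) : shE t E ⊆ KI t (t + h) := by
  intro e he
  obtain ⟨x, y, hxy, e1, e2⟩ := mem_shE.1 he
  have := mem_K.1 (hE hxy)
  rw [mem_KI]
  simp only at this
  omega

theorem Ex_shE (p : ℝ) (h t : ℕ) (f : Finset (ℕ × ℕ) → ℝ) :
    Ex p (KI t (t + h)) f = Ex p (K h) (fun E => f (shE t E)) := by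
  have himg : (K h).image (fun e => (e.1 + t, e.2 + t)) = KI t (t + h) := by
    apply Finset.Subset.antisymm
    · exact shE_subset (Finset.Subset.refl _)
    · intro e he
      have h1 := mem_KI.1 he
      rw [Finset.mem_image]
      refine ⟨(e.1 - t, e.2 - t), ?_, ?_⟩
      · rw [mem_K]; simp only; omega
      · apply Prod.ext
        · simp only; omega
        · simp only; omega
  have hinj : Set.InjOn (fun e : ℕ × ℕ => (e.1 + t, e.2 + t)) (K h) := by
    intro a _ b _ hab
    have h3 := Prod.mk.inj hab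
    apply Prod.ext
    · omega
    · omega
  have h4 := Ex_image (p := p) hinj f
  rw [himg] at h4
  exact h4

theorem TG_shE {t : ℕ} {E : Finset (ℕ × ℕ)} {x y : ℕ} (hxy : TG E x y) :
    TG (shE t E) (x + t) (y + t) := by
  induction hxy with
  | single h1 =>
    exact Relation.TransGen.single (mem_shE.2 ⟨_, _, h1, rfl, rfl⟩)
  | tail _ h2 ih =>
    exact Relation.TransGen.tail ih (mem_shE.2 ⟨_, _, h2, rfl, rfl⟩)

theorem TG_of_shE {t : ℕ} {E : Finset (ℕ × ℕ)} {u v : ℕ} (huv : TG (shE t E) u v) :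
    ∃ x y, u = x + t ∧ v = y + t ∧ TG E x y := by
  induction huv with
  | single h1 =>
    obtain ⟨x, y, hxy, e1, e2⟩ := mem_shE.1 h1
    exact ⟨x, y, e1, e2, Relation.TransGen.single hxy⟩
  | tail _ h2 ih =>
    obtain ⟨x, y, e1, e2, hT⟩ := ih
    obtain ⟨x', y', hxy', e1', e2'⟩ := mem_shE.1 h2
    simp only at e1' e2'
    have : y = x' := by omega
    exact ⟨x, y', e1, e2', Relation.TransGen.tail hT (this ▸ hxy')⟩

theorem Dn_shE {h t : ℕ} {E : Finset (ℕ × ℕ)} (hE : E ⊆ K h) {b : ℕ} (hb : b < h) :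
    Dn (shE t E) (b + t) = (Dn E b).image (fun j => j + t) := by
  ext j
  unfold Dn
  simp only [Finset.mem_filter, Finset.mem_range, Finset.mem_image]
  constructor
  · rintro ⟨hj, h1 | h1⟩
    · exact ⟨b, ⟨by omega, Or.inl rfl⟩, h1.symm⟩
    · obtain ⟨x, y, e1, e2, hT⟩ := TG_of_shE h1
      have : y = b := by omega
      rw [this] at hT
      have h3 := (TG_lt_of_K hE hT).1
      exact ⟨x, ⟨by omega, Or.inr hT⟩, e1.symm⟩
  · rintro ⟨j', ⟨hj', h1 | h1⟩, rfl⟩
    · exact ⟨by omega, Or.inl (by rw [h1])⟩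
    · have h3 := (TG_lt_of_K hE h1).1
      exact ⟨by omega, Or.inr (TG_shE h1)⟩

theorem K_split (h : ℕ) : K (2 * h) = (K h ∪ KI h (h + h)) ∪ (range h ×ˢ Ico h (h + h)) ∧
    Disjoint (K h) (KI h (h + h)) ∧
    Disjoint (K h ∪ KI h (h + h)) (range h ×ˢ Ico h (h + h)) := by
  refine ⟨?_, ?_, ?_⟩
  · ext e
    rw [Finset.mem_union, Finset.mem_union, mem_K, mem_K, mem_KI, Finset.mem_product,
      Finset.mem_range, Finset.mem_Ico]
    omega
  · rw [Finset.disjoint_left]
    intro e he he'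
    rw [mem_K] at he
    rw [mem_KI] at he'
    omega
  · rw [Finset.disjoint_left]
    intro e he he'
    rw [Finset.mem_union, mem_K, mem_KI] at he
    rw [Finset.mem_product, Finset.mem_range, Finset.mem_Ico] at he'
    omega

/-- comparabilities across the middle of the window -/
theorem TG_cross {h : ℕ} {E1 E2 E3 : Finset (ℕ × ℕ)} (h1 : E1 ⊆ K h) (h2 : E2 ⊆ KI h (h + h))
    (h3 : E3 ⊆ range h ×ˢ Ico h (h + h)) {a b : ℕ} (ha : a < h) (hb : b ∈ Ico h (h + h)) :
    TG ((E1 ∪ E2) ∪ E3) a b ↔ ∃ x ∈ Up E1 h a, ∃ y ∈ Dn E2 b, (x, y) ∈ E3 := by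
  have hUp : ∀ x, x ∈ Up E1 h a ↔ x < h ∧ (x = a ∨ TG E1 a x) := by
    intro x; unfold Up; simp only [Finset.mem_filter, Finset.mem_range]
  have hDn : ∀ y c, y ∈ Dn E2 c ↔ (y = c ∨ TG E2 y c) := by
    intro y c; unfold Dn; simp only [Finset.mem_filter, Finset.mem_range]
    constructor
    · exact fun h => h.2
    · rintro (h4 | h4)
      · exact ⟨by omega, Or.inl h4⟩
      · have := TG_lt (fun e he => (mem_KI.1 (h2 he)).2.1) h4
        exact ⟨by omega, Or.inr h4⟩
  constructor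
  · intro hab
    have key : ∀ v, TG ((E1 ∪ E2) ∪ E3) a v → (v < h → TG E1 a v) ∧
        (h ≤ v → ∃ x ∈ Up E1 h a, ∃ y ∈ Dn E2 v, (x, y) ∈ E3) := by
      intro v hv
      induction hv with
      | single h4 =>
        rename_i c
        rw [Finset.mem_union, Finset.mem_union] at h4
        rcases h4 with (h4 | h4) | h4
        · have := mem_K.1 (h1 h4)
          simp only at this
          exact ⟨fun _ => Relation.TransGen.single h4, fun hc => by omega⟩
        · have := mem_KI.1 (h2 h4)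
          simp only at this
          omega
        · have := Finset.mem_product.1 (h3 h4)
          rw [Finset.mem_range, Finset.mem_Ico] at this
          simp only at this
          refine ⟨fun hc => by omega, fun _ => ⟨a, (hUp a).2 ⟨ha, Or.inl rfl⟩, c,
            (hDn c c).2 (Or.inl rfl), h4⟩⟩
      | tail _ h4 ih =>
        rename_i c d _
        rw [Finset.mem_union, Finset.mem_union] at h4
        rcases h4 with (h4 | h4) | h4
        · have := mem_K.1 (h1 h4)
          simp only at this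
          exact ⟨fun _ => Relation.TransGen.tail (ih.1 (by omega)) h4, fun hc => by omega⟩
        · have := mem_KI.1 (h2 h4)
          simp only at this
          refine ⟨fun hc => by omega, fun _ => ?_⟩
          obtain ⟨x, hx, y, hy, hxy⟩ := ih.2 (by omega)
          refine ⟨x, hx, y, (hDn y d).2 (Or.inr ?_), hxy⟩
          rcases (hDn y c).1 hy with h5 | h5
          · rw [h5]; exact Relation.TransGen.single h4
          · exact Relation.TransGen.tail h5 h4
        · have := Finset.mem_product.1 (h3 h4)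
          rw [Finset.mem_range, Finset.mem_Ico] at this
          simp only at this
          refine ⟨fun hc => by omega, fun _ => ⟨c, (hUp c).2 ⟨this.1, Or.inr (ih.1 this.1)⟩, d,
            (hDn d d).2 (Or.inl rfl), h4⟩⟩
    exact (key b hab).2 (Finset.mem_Ico.1 hb).1
  · rintro ⟨x, hx, y, hy, hxy⟩
    have m1 : E1 ⊆ (E1 ∪ E2) ∪ E3 := fun e he =>
      Finset.mem_union_left _ (Finset.mem_union_left _ he)
    have m2 : E2 ⊆ (E1 ∪ E2) ∪ E3 := fun e he =>
      Finset.mem_union_left _ (Finset.mem_union_right _ he)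
    have m3 : E3 ⊆ (E1 ∪ E2) ∪ E3 := fun e he => Finset.mem_union_right _ he
    have h4 : TG ((E1 ∪ E2) ∪ E3) a y := by
      rcases ((hUp x).1 hx).2 with h5 | h5
      · rw [← h5]; exact Relation.TransGen.single (m3 hxy)
      · exact Relation.TransGen.tail (TG_mono m1 h5) (m3 hxy)
    rcases (hDn y b).1 hy with h5 | h5
    · rw [← h5]; exact h4
    · exact Relation.TransGen.trans h4 (TG_mono m2 h5)

theorem Dn_subset_Ico {h t : ℕ} {E2 : Finset (ℕ × ℕ)} (h2 : E2 ⊆ KI h t) {b : ℕ}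
    (hb : b ∈ Ico h t) : Dn E2 b ⊆ Ico h t := by
  intro j hj
  unfold Dn at hj
  simp only [Finset.mem_filter, Finset.mem_range] at hj
  rcases hj.2 with h1 | h1
  · rw [h1]; exact hb
  · have key : h ≤ j := by
      have : ∀ v, TG E2 j v → h ≤ j := by
        intro v hv
        induction hv with
        | single h3 => exact (mem_KI.1 (h2 h3)).1
        | tail _ _ ih => exact ih
      exact this b h1
    have := Finset.mem_Ico.1 hb
    rw [Finset.mem_Ico]
    omega


end DW
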