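import Pool.Agent.Helper553.DimWidth.Graph

set_option autoImplicit false
set_option linter.unusedSectionVars false
open scoped Classical
open Finset

namespace DW


theorem Up_subset {E : Finset (ℕ × ℕ)} {m z : ℕ} : Up E m z ⊆ range m := by
  unfold Up; exact Finset.filter_subset _ _

theorem Ex_step (p : ℝ) (n z : ℕ) (hz : z < n) (F : ℕ → ℝ) :
    Ex p (K (n + 1)) (fun E => F (Up E (n + 1) z).card) =
      Ex p (K n) (fun E => (1 - p) ^ (Up E n z).card * F (Up E n z).card +
        (1 - (1 - p) ^ (Up E n z).card) * F ((Up E n z).card + 1)) := by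
  rw [Ex_K_succ]
  apply Ex_congr
  intro E hE
  have hn : n ∉ Up E n z := fun h => by
    have := Finset.mem_range.1 (Up_subset h)
    omega
  have h1 : Ex p (range n) (fun R => F (Up (E ∪ rowE n R) (n + 1) z).card) =
      Ex p (range n) (fun R => (if Disjoint R (Up E n z) then (1 : ℝ) else 0) *
          (F (Up E n z).card - F ((Up E n z).card + 1)) + F ((Up E n z).card + 1)) := by
    apply Ex_congr
    intro R hR
    rw [Up_union_row hE hR hz]
    by_cases hd : Disjoint R (Up E n z)
    · rw [if_pos hd, if_pos hd]; ring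
    · rw [if_neg hd, if_neg hd, Finset.card_insert_of_notMem hn]; ring
  rw [h1, Ex_add, Ex_mul_right, Ex_const]
  have h2 : Ex p (range n) (fun R => if Disjoint R (Up E n z) then (1 : ℝ) else 0) =
      (1 - p) ^ (Up E n z).card := by
    have h3 := Pr_disjoint (p := p) (Up_subset (E := E) (m := n) (z := z))
    unfold Pr at h3
    rw [← h3]
    apply Ex_congr
    intro R _
    by_cases hd : Disjoint R (Up E n z)
    · rw [if_pos hd, if_pos hd]
    · rw [if_neg hd, if_neg hd]
  rw [h2]
  ring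

theorem Ex_base (p : ℝ) (z : ℕ) (F : ℕ → ℝ) :
    Ex p (K (z + 1)) (fun E => F (Up E (z + 1) z).card) = F 1 := by
  have h : Ex p (K (z + 1)) (fun E => F (Up E (z + 1) z).card) =
      Ex p (K (z + 1)) (fun _ => F 1) := by
    apply Ex_congr
    intro E hE
    have : Up E (z + 1) z = {z} := by
      ext j
      unfold Up
      simp only [Finset.mem_filter, Finset.mem_range, Finset.mem_singleton]
      constructor
      · rintro ⟨hj, h | h⟩
        · exact h
        · have := (TG_lt_of_K hE h).1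
          omega
      · intro h
        subst h
        exact ⟨by omega, Or.inl rfl⟩
    rw [this, Finset.card_singleton]
  rw [h, Ex_const]

theorem rise_mul (j u : ℕ) :
    (∏ i ∈ range j, (((u + 1 : ℕ) : ℝ) + i)) * u = (∏ i ∈ range j, ((u : ℝ) + i)) * (u + j) := by
  induction j with
  | zero => simp
  | succ j ih =>
    rw [Finset.prod_range_succ, Finset.prod_range_succ]
    push_cast at ih ⊢
    calc _ = ((∏ i ∈ range j, ((u : ℝ) + 1 + i)) * u) * (u + 1 + j) := by ring
      _ = _ := by rw [ih]; ring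

theorem rise_mono (j u : ℕ) :
    (∏ i ∈ range j, ((u : ℝ) + i)) ≤ (∏ i ∈ range j, (((u + 1 : ℕ) : ℝ) + i)) := by
  apply Finset.prod_le_prod
  · intro i _; positivity
  · intro i _; push_cast; linarith

theorem fact_prod (j : ℕ) : (∏ i ∈ range j, (((1 : ℕ) : ℝ) + i)) = (Nat.factorial j : ℝ) := by
  induction j with
  | zero => simp
  | succ j ih =>
    rw [Finset.prod_range_succ, ih, Nat.factorial_succ]
    push_cast; ring

/-- rising factorial moments of the up-set size -/
theorem Up_moment (p : ℝ) (hp : 0 ≤ p) (hp1 : p ≤ 1) (j m z : ℕ) (hz : z < m) :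
    Ex p (K m) (fun E => ∏ i ∈ range j, (((Up E m z).card : ℝ) + i)) ≤
      (Nat.factorial j : ℝ) * (1 + j * p) ^ (m - 1 - z) := by
  obtain ⟨k, rfl⟩ : ∃ k, m = z + 1 + k := ⟨m - (z + 1), by omega⟩
  clear hz
  have hk : z + 1 + k - 1 - z = k := by omega
  rw [hk]
  clear hk
  induction k with
  | zero =>
    have := Ex_base p z (fun u => ∏ i ∈ range j, ((u : ℝ) + i))
    rw [show z + 1 + 0 = z + 1 from rfl, this, fact_prod]
    simp
  | succ k ih =>
    have hs := Ex_step p (z + 1 + k) z (by omega) (fun u => ∏ i ∈ range j, ((u : ℝ) + i))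
    rw [show z + 1 + (k + 1) = z + 1 + k + 1 from rfl, hs]
    have hle : Ex p (K (z + 1 + k)) (fun E => (1 - p) ^ (Up E (z + 1 + k) z).card *
        (∏ i ∈ range j, (((Up E (z + 1 + k) z).card : ℝ) + i)) +
        (1 - (1 - p) ^ (Up E (z + 1 + k) z).card) *
        (∏ i ∈ range j, ((((Up E (z + 1 + k) z).card + 1 : ℕ) : ℝ) + i))) ≤
        Ex p (K (z + 1 + k)) (fun E => (1 + j * p) *
          (∏ i ∈ range j, (((Up E (z + 1 + k) z).card : ℝ) + i))) := by
      apply Ex_mono hp hp1
      intro E _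
      generalize (Up E (z + 1 + k) z).card = u
      have h1 := rise_mul j u
      have h2 := rise_mono j u
      have h3 : 1 - (u : ℝ) * p ≤ (1 - p) ^ u := by
        have := one_add_mul_le_pow (a := -p) (by linarith) u
        have e : (1 : ℝ) + -p = 1 - p := by ring
        rw [e] at this
        linarith
      set A := ∏ i ∈ range j, ((u : ℝ) + i)
      set B := ∏ i ∈ range j, (((u + 1 : ℕ) : ℝ) + i)
      have h4 : (1 - (1 - p) ^ u) * (B - A) ≤ (u * p) * (B - A) := by
        apply mul_le_mul_of_nonneg_right _ (by linarith)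
        linarith
      nlinarith [h4, h1]
    refine le_trans hle ?_
    rw [Ex_mul_left]
    have h0 : (0 : ℝ) ≤ 1 + j * p := by positivity
    calc _ ≤ (1 + j * p) * ((Nat.factorial j : ℝ) * (1 + j * p) ^ k) :=
          mul_le_mul_of_nonneg_left ih h0
      _ = _ := by rw [pow_succ]; ring

theorem pow_le_quad (p : ℝ) (hp : 0 ≤ p) (hp1 : p ≤ 1) (u : ℕ) :
    (1 - p) ^ u ≤ 1 - p * u + p ^ 2 * (u * (u + 1)) / 2 := by
  have key : ∀ u : ℕ, (1 - p) ^ u ≤ 1 - p * u + p ^ 2 * (u * (u - 1)) / 2 := by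
    intro u
    induction u with
    | zero => simp
    | succ u ih =>
      rw [pow_succ]
      have h1 : (1 - p) ^ u * (1 - p) ≤ (1 - p * u + p ^ 2 * (u * (u - 1)) / 2) * (1 - p) :=
        mul_le_mul_of_nonneg_right ih (by linarith)
      refine le_trans h1 ?_
      push_cast
      have h2 : 0 ≤ p ^ 3 * ((u : ℝ) * (u - 1)) := by
        apply mul_nonneg (by positivity)
        rcases Nat.eq_zero_or_pos u with h | h
        · subst h; simp
        · have : (1 : ℝ) ≤ u := by exact_mod_cast h
          nlinarith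
      nlinarith
  refine le_trans (key u) ?_
  have : 0 ≤ p ^ 2 * (u : ℝ) := by positivity
  nlinarith

/-- lower bound for the mean of the up-set size -/
theorem Up_mean_lower (p : ℝ) (hp : 0 < p) (hp1 : p ≤ 1) (k : ℕ) :
    (1 + p) ^ k - p * (1 + p) ^ (2 * k) ≤
      Ex p (K (k + 1)) (fun E => ((Up E (k + 1) 0).card : ℝ)) := by
  induction k with
  | zero =>
    have := Ex_base p 0 (fun u => (u : ℝ))
    rw [this]
    simp
    linarith
  | succ k ih =>
    have hs := Ex_step p (k + 1) 0 (by omega) (fun u => (u : ℝ))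
    rw [hs]
    have h2 := Up_moment p hp.le hp1 2 (k + 1) 0 (by omega)
    have h2' : Ex p (K (k + 1)) (fun E => ((Up E (k + 1) 0).card : ℝ) *
        (((Up E (k + 1) 0).card : ℝ) + 1)) ≤ 2 * (1 + p) ^ (2 * k) := by
      have e : (fun E : Finset (ℕ × ℕ) => ((Up E (k + 1) 0).card : ℝ) *
        (((Up E (k + 1) 0).card : ℝ) + 1)) =
        (fun E => ∏ i ∈ range 2, (((Up E (k + 1) 0).card : ℝ) + i)) := by
        funext E
        simp [Finset.prod_range_succ]
      rw [e]
      refine le_trans h2 ?_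
      have h3 : (1 + (2 : ℕ) * p) ≤ (1 + p) ^ 2 := by push_cast; nlinarith
      rw [pow_mul]
      have h4 : (1 + (2 : ℕ) * p) ^ (k + 1 - 1 - 0) ≤ ((1 + p) ^ 2) ^ k := by
        have : k + 1 - 1 - 0 = k := by omega
        rw [this]
        exact pow_le_pow_left₀ (by positivity) h3 k
      simp only [Nat.factorial]
      push_cast at h4 ⊢
      linarith
    have hle : Ex p (K (k + 1)) (fun E => (1 + p) * ((Up E (k + 1) 0).card : ℝ) -
        p ^ 2 / 2 * (((Up E (k + 1) 0).card : ℝ) * (((Up E (k + 1) 0).card : ℝ) + 1))) ≤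
        Ex p (K (k + 1)) (fun E => (1 - p) ^ (Up E (k + 1) 0).card *
        ((Up E (k + 1) 0).card : ℝ) +
        (1 - (1 - p) ^ (Up E (k + 1) 0).card) *
        (((Up E (k + 1) 0).card + 1 : ℕ) : ℝ)) := by
      apply Ex_mono hp.le hp1
      intro E _
      generalize (Up E (k + 1) 0).card = u
      have h3 := pow_le_quad p hp.le hp1 u
      push_cast
      nlinarith
    refine le_trans ?_ hle
    rw [Ex_sub, Ex_mul_left, Ex_mul_left]
    have h5 : (1 + p) * ((1 + p) ^ k - p * (1 + p) ^ (2 * k)) ≤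
        (1 + p) * Ex p (K (k + 1)) (fun E => ((Up E (k + 1) 0).card : ℝ)) :=
      mul_le_mul_of_nonneg_left ih (by linarith)
    have h6 : p ^ 2 / 2 * Ex p (K (k + 1)) (fun E => ((Up E (k + 1) 0).card : ℝ) *
        (((Up E (k + 1) 0).card : ℝ) + 1)) ≤ p ^ 2 / 2 * (2 * (1 + p) ^ (2 * k)) :=
      mul_le_mul_of_nonneg_left h2' (by positivity)
    have h7 : (1 + p) ^ (k + 1) - p * (1 + p) ^ (2 * (k + 1)) ≤
        (1 + p) * ((1 + p) ^ k - p * (1 + p) ^ (2 * k)) - p ^ 2 * (1 + p) ^ (2 * k) := by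
      have e1 : (1 + p) ^ (2 * (k + 1)) = (1 + p) ^ (2 * k) * (1 + p) ^ 2 := by
        rw [← pow_add]; congr 1
      rw [e1, pow_succ]
      have h8 : 0 ≤ p ^ 3 * (1 + p) ^ (2 * k) := by positivity
      nlinarith
    linarith


end DW
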